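import Pool.Agent.H75.Mfd.OneStep

/-!
Module BF. Back and forth. L is a relation between embeddings in X and embeddings in Y which
induces natural bijections of the classes.
Half step: one_step in X gives j, k, f'. Choose g0 with R j f' g0 (tot1). By nat,
R i (f' u) (g0 u); f' u = f on K_i, so by compat and uni1 Eqv (g0 u) g; correct g0 by the
homeomorphism: g' = h o g0. Two half steps (the second one for the flipped relation) give a full
step. The homeomorphism: x = f_m z goes to g_m z.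
-/

set_option autoImplicit false

namespace Pool.Agent.H75.Mfd

open Set Topology Metric Filter

/-- A relation inducing natural bijections between the classes of embeddings. -/
structure NatRel {n : ℕ} {M : Type} [MetricSpace M] (S : Sys n M) (X Y : Type)
    [MetricSpace X] [MetricSpace Y] (R : ℕ → (M → X) → (M → Y) → Prop) : Prop where
  emb1 : ∀ i f g, R i f g → Emb S i f
  emb2 : ∀ i f g, R i f g → Emb S i g
  tot1 : ∀ i f, Emb S i f → ∃ g, R i f g
  tot2 : ∀ i g, Emb S i g → ∃ f, R i f g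
  compat : ∀ i f g f' g', R i f g → Emb S i f' → Emb S i g' → Eqv S i f f' → Eqv S i g g' →
    R i f' g'
  uni1 : ∀ i f g g', R i f g → R i f g' → Eqv S i g g'
  uni2 : ∀ i f f' g, R i f g → R i f' g → Eqv S i f f'
  nat : ∀ i j k f g, R j f g → S.good i j k → R i (f ∘ S.u i j k) (g ∘ S.u i j k)

namespace BF

theorem flip {n : ℕ} {M : Type} [MetricSpace M] {S : Sys n M} {X Y : Type}
    [MetricSpace X] [MetricSpace Y] {R : ℕ → (M → X) → (M → Y) → Prop} (hR : NatRel S X Y R) :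
    NatRel S Y X (fun i g f => R i f g) where
  emb1 i g f h := hR.emb2 i f g h
  emb2 i g f h := hR.emb1 i f g h
  tot1 i g h := hR.tot2 i g h
  tot2 i f h := hR.tot1 i f h
  compat i g f g' f' h hg hf hgg hff := hR.compat i f g f' g' h hf hg hff hgg
  uni1 i g f f' h h' := hR.uni2 i f f' g h h'
  uni2 i g g' f h h' := hR.uni1 i f g g' h h'
  nat i j k g f h hg := hR.nat i j k f g h hg

theorem eqv_of_eqOn {n : ℕ} {M : Type} [MetricSpace M] {S : Sys n M} {X : Type}
    [MetricSpace X] {i : ℕ} {f g : M → X} (h : ∀ x ∈ S.K i, f x = g x) : Eqv S i f g :=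
  ⟨Homeomorph.refl X, ⟨∅, ∅, isCompact_empty, isCompact_empty, by simp, fun _ _ => rfl⟩, h⟩

theorem half_step {n : ℕ} {M : Type} [MetricSpace M] {S : Sys n M} {X Y : Type}
    [MetricSpace X] [MetricSpace Y] [TopologicalSpace.SeparableSpace X] (hX : LocEuc n X)
    {R : ℕ → (M → X) → (M → Y) → Prop} (hR : NatRel S X Y R) {i : ℕ} {f : M → X} {g : M → Y}
    (h : R i f g) (C : Set X) (hC : IsCompact C) :
    ∃ (j k : ℕ) (f' : M → X) (g' : M → Y), R j f' g' ∧ S.good i j k ∧
      (∀ x ∈ S.K i, f' (S.u i j k x) = f x) ∧ (∀ x ∈ S.K i, g' (S.u i j k x) = g x) ∧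
      C ⊆ f' '' interior (S.K j) := by
  obtain ⟨j, k, f', hf', hgood, hff, hCf⟩ := one_step S hX (hR.emb1 i f g h) C hC
  obtain ⟨g0, hg0⟩ := hR.tot1 j f' hf'
  have h1 := hR.nat i j k f' g0 hg0 hgood
  have h2 : R i f (g0 ∘ S.u i j k) :=
    hR.compat i _ _ _ _ h1 (hR.emb1 i f g h) (hR.emb2 i _ _ h1) (eqv_of_eqOn hff) (Eqv.refl i _)
  obtain ⟨φ, hφ, hφe⟩ := hR.uni1 i f _ g h2 h
  have hemb : Emb S j g0 := hR.emb2 j _ _ hg0
  refine ⟨j, k, f', φ ∘ g0, ?_, hgood, hff, fun x hx => hφe x hx, hCf⟩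
  exact hR.compat j f' g0 f' (φ ∘ g0) hg0 hf' (hemb.homeo φ) (Eqv.refl j f') ⟨φ, hφ, fun _ _ => rfl⟩

theorem full_step {n : ℕ} {M : Type} [MetricSpace M] {S : Sys n M} {X Y : Type}
    [MetricSpace X] [MetricSpace Y] [TopologicalSpace.SeparableSpace X]
    [TopologicalSpace.SeparableSpace Y] (hX : LocEuc n X) (hY : LocEuc n Y)
    {R : ℕ → (M → X) → (M → Y) → Prop} (hR : NatRel S X Y R) {i : ℕ} {f : M → X} {g : M → Y}
    (h : R i f g) (C : Set X) (hC : IsCompact C) (C' : Set Y) (hC' : IsCompact C') :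
    ∃ (j : ℕ) (e : M → M) (f' : M → X) (g' : M → Y), R j f' g' ∧
      MapsTo e (S.K i) (interior (S.K j)) ∧
      (∀ x ∈ S.K i, f' (e x) = f x) ∧ (∀ x ∈ S.K i, g' (e x) = g x) ∧
      C ⊆ f' '' interior (S.K j) ∧ C' ⊆ g' '' interior (S.K j) := by
  obtain ⟨j, k, f1, g1, hR1, hgood, hf1, hg1, hC1⟩ := half_step hX hR h C hC
  obtain ⟨j', k', g2, f2, hR2, hgood', hg2, hf2, hC2⟩ := half_step hY (flip hR) hR1 C' hC'
  have hm : MapsTo (S.u i j k) (S.K i) (interior (S.K j)) := (mor_u hgood).mapsK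
  have hm' : MapsTo (S.u j j' k') (S.K j) (interior (S.K j')) := (mor_u hgood').mapsK
  refine ⟨j', S.u j j' k' ∘ S.u i j k, f2, g2, hR2, ?_, ?_, ?_, ?_, hC2⟩
  · intro x hx
    exact hm' (interior_subset (hm hx))
  · intro x hx
    simp only [Function.comp_apply]
    rw [hf2 _ (interior_subset (hm hx)), hf1 x hx]
  · intro x hx
    simp only [Function.comp_apply]
    rw [hg2 _ (interior_subset (hm hx)), hg1 x hx]
  · intro x hx
    obtain ⟨z, hz, rfl⟩ := hC1 hx
    exact ⟨S.u j j' k' z, hm' (interior_subset hz), hf2 z (interior_subset hz)⟩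

theorem exists_exhaustion {n : ℕ} {X : Type} [MetricSpace X]
    [TopologicalSpace.SeparableSpace X] (hX : LocEuc n X) :
    ∃ C : ℕ → Set X, (∀ m, IsCompact (C m)) ∧ (⋃ m, C m) = univ := by
  have : WeaklyLocallyCompactSpace X := by
    constructor
    intro x
    obtain ⟨φ, hφ, hx⟩ := hX x
    refine ⟨φ '' closedBall 0 1, (isCompact_closedBall 0 1).image hφ.continuous, ?_⟩
    rw [← hx]
    exact hφ.isOpenMap.image_mem_nhds (closedBall_mem_nhds 0 one_pos)
  have : SecondCountableTopology X := UniformSpace.secondCountable_of_separable X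
  exact ⟨fun m => CompactExhaustion.choice X m, fun m => (CompactExhaustion.choice X).isCompact m,
    (CompactExhaustion.choice X).iUnion_eq⟩

end BF

theorem back_forth {n : ℕ} {M : Type} [MetricSpace M] (S : Sys n M) (X Y : Type)
    [MetricSpace X] [MetricSpace Y] [TopologicalSpace.SeparableSpace X]
    [TopologicalSpace.SeparableSpace Y] [Nonempty X] [Nonempty Y] (hX : LocEuc n X)
    (hY : LocEuc n Y) (R : ℕ → (M → X) → (M → Y) → Prop) (hR : NatRel S X Y R) :
    Nonempty (X ≃ₜ Y) := by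
  classical
  obtain ⟨C, hC, hCu⟩ := BF.exists_exhaustion hX
  obtain ⟨C', hC', hCu'⟩ := BF.exists_exhaustion hY
  -- initial state
  obtain ⟨i0, f0, U0, hU0, hf0, -⟩ := S.cover X hX ∅ isCompact_empty
  obtain ⟨g0, hg0⟩ := hR.tot1 i0 f0 ⟨U0, hU0, hf0⟩
  let St := {p : ℕ × (M → X) × (M → Y) // R p.1 p.2.1 p.2.2}
  have step : ∀ (m : ℕ) (p : St), ∃ (q : St) (e : M → M),
      MapsTo e (S.K p.1.1) (interior (S.K q.1.1)) ∧
      (∀ x ∈ S.K p.1.1, q.1.2.1 (e x) = p.1.2.1 x) ∧
      (∀ x ∈ S.K p.1.1, q.1.2.2 (e x) = p.1.2.2 x) ∧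
      C m ⊆ q.1.2.1 '' interior (S.K q.1.1) ∧ C' m ⊆ q.1.2.2 '' interior (S.K q.1.1) := by
    rintro m ⟨⟨i, f, g⟩, hp⟩
    obtain ⟨j, e, f', g', hR', hm, hf, hg, h1, h2⟩ :=
      BF.full_step hX hY hR hp (C m) (hC m) (C' m) (hC' m)
    exact ⟨⟨⟨j, f', g'⟩, hR'⟩, e, hm, hf, hg, h1, h2⟩
  choose nxt e hm hf hg h1 h2 using step
  let st : ℕ → St := fun m => Nat.rec ⟨⟨i0, f0, g0⟩, hg0⟩ (fun m p => nxt m p) m
  have hst : ∀ m, st (m + 1) = nxt m (st m) := fun m => rfl
  let I : ℕ → Set M := fun m => interior (S.K (st m).1.1)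
  let f : ℕ → M → X := fun m => (st m).1.2.1
  let g : ℕ → M → Y := fun m => (st m).1.2.2
  have oeF : ∀ m, OE (f m) (I m) := by
    intro m
    obtain ⟨U, hU, h⟩ := hR.emb1 _ _ _ (st m).2
    exact h.mono isOpen_interior
      ((interior_subset.trans (S.KL _)).trans (interior_subset.trans hU))
  have oeG : ∀ m, OE (g m) (I m) := by
    intro m
    obtain ⟨U, hU, h⟩ := hR.emb2 _ _ _ (st m).2
    exact h.mono isOpen_interior
      ((interior_subset.trans (S.KL _)).trans (interior_subset.trans hU))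
  have tr : ∀ m d, ∃ t : M → M, MapsTo t (I m) (I (m + d)) ∧
      (∀ z ∈ I m, f (m + d) (t z) = f m z) ∧ (∀ z ∈ I m, g (m + d) (t z) = g m z) := by
    intro m d
    induction d with
    | zero => exact ⟨id, fun z hz => hz, fun _ _ => rfl, fun _ _ => rfl⟩
    | succ d ih =>
      obtain ⟨t, ht, htf, htg⟩ := ih
      refine ⟨e (m + d) (st (m + d)) ∘ t, ?_, ?_, ?_⟩
      · intro z hz
        exact hm (m + d) (st (m + d)) (interior_subset (ht hz))
      · intro z hz
        have := hf (m + d) (st (m + d)) (t z) (interior_subset (ht hz))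
        rw [← htf z hz]
        exact this
      · intro z hz
        have := hg (m + d) (st (m + d)) (t z) (interior_subset (ht hz))
        rw [← htg z hz]
        exact this
  have covX : ∀ x : X, ∃ m, ∃ z ∈ I m, f m z = x := by
    intro x
    have hx : x ∈ ⋃ m, C m := by rw [hCu]; exact mem_univ x
    obtain ⟨m, hm⟩ := mem_iUnion.1 hx
    obtain ⟨z, hz, hzx⟩ := h1 m (st m) hm
    exact ⟨m + 1, z, hz, hzx⟩
  have covY : ∀ y : Y, ∃ m, ∃ z ∈ I m, g m z = y := by
    intro y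
    have hy : y ∈ ⋃ m, C' m := by rw [hCu']; exact mem_univ y
    obtain ⟨m, hm⟩ := mem_iUnion.1 hy
    obtain ⟨z, hz, hzx⟩ := h2 m (st m) hm
    exact ⟨m + 1, z, hz, hzx⟩
  have wd : ∀ m m' z z', z ∈ I m → z' ∈ I m' → (f m z = f m' z' ↔ g m z = g m' z') := by
    intro m m' z z' hz hz'
    rcases le_total m m' with hmm | hmm
    · obtain ⟨d, rfl⟩ := Nat.exists_eq_add_of_le hmm
      obtain ⟨t, ht, htf, htg⟩ := tr m d
      rw [← htf z hz, ← htg z hz, (oeF (m + d)).inj.eq_iff (ht hz) hz',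
        (oeG (m + d)).inj.eq_iff (ht hz) hz']
    · obtain ⟨d, rfl⟩ := Nat.exists_eq_add_of_le hmm
      obtain ⟨t, ht, htf, htg⟩ := tr m' d
      rw [← htf z' hz', ← htg z' hz', (oeF (m' + d)).inj.eq_iff hz (ht hz'),
        (oeG (m' + d)).inj.eq_iff hz (ht hz')]
  choose mX zX hzX hfX using covX
  let Φ : X → Y := fun x => g (mX x) (zX x)
  have hΦ : ∀ m z, z ∈ I m → Φ (f m z) = g m z := by
    intro m z hz
    exact (wd _ _ _ _ (hzX (f m z)) hz).1 (hfX (f m z))
  have hinj : Function.Injective Φ := by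
    intro x x' hxx
    have := (wd _ _ _ _ (hzX x) (hzX x')).2 hxx
    rw [← hfX x, ← hfX x', this]
  have hsurj : Function.Surjective Φ := by
    intro y
    obtain ⟨m, z, hz, rfl⟩ := covY y
    exact ⟨f m z, hΦ m z hz⟩
  have hcont : Continuous Φ := by
    rw [continuous_def]
    intro V hV
    have : Φ ⁻¹' V = ⋃ m, f m '' (I m ∩ g m ⁻¹' V) := by
      ext x
      simp only [mem_preimage, mem_iUnion]
      constructor
      · intro hx
        exact ⟨mX x, zX x, ⟨hzX x, hx⟩, hfX x⟩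
      · rintro ⟨m, z, ⟨hz, hzV⟩, rfl⟩
        rw [hΦ m z hz]
        exact hzV
    rw [this]
    exact isOpen_iUnion fun m => (oeF m).opn _ inter_subset_left ((oeG m).isOpen_preimage hV)
  have hopen : IsOpenMap Φ := by
    intro V hV
    have : Φ '' V = ⋃ m, g m '' (I m ∩ f m ⁻¹' V) := by
      ext y
      simp only [mem_iUnion]
      constructor
      · rintro ⟨x, hx, rfl⟩
        exact ⟨mX x, zX x, ⟨hzX x, by simpa [hfX x] using hx⟩, rfl⟩
      · rintro ⟨m, z, ⟨hz, hzV⟩, rfl⟩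
        exact ⟨f m z, hzV, hΦ m z hz⟩
    rw [this]
    exact isOpen_iUnion fun m => (oeG m).opn _ inter_subset_left ((oeF m).isOpen_preimage hV)
  exact ⟨IsHomeomorph.homeomorph Φ ⟨hcont, hopen, hinj, hsurj⟩⟩

end Pool.Agent.H75.Mfd
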