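import Pool.Agent.H75.Mfd.Defs

/-!
Basic API of `OE` and the transport lemma.
-/

set_option autoImplicit false

namespace Pool.Agent.H75.Mfd

open Set Topology Metric Filter

section api

variable {X Y Z : Type*} [TopologicalSpace X] [TopologicalSpace Y] [TopologicalSpace Z]

theorem OE.mono {g : X → Y} {U V : Set X} (h : OE g U) (hV : IsOpen V) (hVU : V ⊆ U) : OE g V :=
  ⟨hV, h.cont.mono hVU, h.inj.mono hVU, fun W hW hWo => h.opn W (hW.trans hVU) hWo⟩

theorem OE.congr {g g' : X → Y} {U : Set X} (h : OE g U) (he : EqOn g' g U) : OE g' U := by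
  refine ⟨h.isOpen, h.cont.congr he, h.inj.congr he.symm, fun V hV hVo => ?_⟩
  rw [image_congr (fun x hx => he (hV hx))]
  exact h.opn V hV hVo

theorem OE.image_isOpen {g : X → Y} {U : Set X} (h : OE g U) : IsOpen (g '' U) :=
  h.opn U Subset.rfl h.isOpen

theorem OE.comp {f : Y → Z} {g : X → Y} {U : Set X} {V : Set Y} (hf : OE f V) (hg : OE g U)
    (hm : MapsTo g U V) : OE (f ∘ g) U := by
  refine ⟨hg.isOpen, hf.cont.comp hg.cont hm, ?_, fun W hW hWo => ?_⟩
  · intro x hx y hy hxy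
    exact hg.inj hx hy (hf.inj (hm hx) (hm hy) hxy)
  · rw [image_comp]
    refine hf.opn _ ?_ (hg.opn W hW hWo)
    rintro _ ⟨x, hx, rfl⟩
    exact hm (hW hx)

/-- preimages of open sets inside the domain are open -/
theorem OE.isOpen_preimage {g : X → Y} {U : Set X} (hg : OE g U) {V : Set Y} (hV : IsOpen V) :
    IsOpen (U ∩ g ⁻¹' V) :=
  hg.cont.isOpen_inter_preimage hg.isOpen hV

theorem OE.comp_inter {f : Y → Z} {g : X → Y} {U : Set X} {V : Set Y} (hf : OE f V) (hg : OE g U) :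
    OE (f ∘ g) (U ∩ g ⁻¹' V) :=
  OE.comp hf (hg.mono (hg.isOpen_preimage hf.isOpen) inter_subset_left) (fun _ hx => hx.2)

theorem OE.id {U : Set X} (hU : IsOpen U) : OE (fun x : X => x) U :=
  ⟨hU, continuousOn_id, injOn_id U, fun V _ hVo => by simpa using hVo⟩

theorem OE.of_homeo (h : X ≃ₜ Y) {U : Set X} (hU : IsOpen U) : OE h U :=
  ⟨hU, h.continuous.continuousOn, h.injective.injOn, fun V _ hVo => h.isOpenMap V hVo⟩

theorem OE.of_isOpenEmbedding {φ : X → Y} (h : IsOpenEmbedding φ) {U : Set X} (hU : IsOpen U) :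
    OE φ U :=
  ⟨hU, h.continuous.continuousOn, h.injective.injOn, fun V _ hVo => h.isOpenMap V hVo⟩

theorem OE.isOpenEmbedding {φ : X → Y} (h : OE φ univ) : IsOpenEmbedding φ :=
  .of_continuous_injective_isOpenMap (continuousOn_univ.1 h.cont) (injOn_univ.1 h.inj)
    (fun V hV => h.opn V (subset_univ V) hV)

/-- local criterion -/
theorem OE.of_local {g : X → Y} {U : Set X} (hinj : InjOn g U)
    (h : ∀ x ∈ U, ∃ V, x ∈ V ∧ V ⊆ U ∧ OE g V) : OE g U := by
  choose! V hxV hVU hV using h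
  have hU : IsOpen U := by
    have : U = ⋃ x ∈ U, V x := by
      ext y
      simp only [mem_iUnion, exists_prop]
      exact ⟨fun hy => ⟨y, hy, hxV y hy⟩, fun ⟨x, hx, hy⟩ => hVU x hx hy⟩
    rw [this]
    exact isOpen_biUnion fun x hx => (hV x hx).isOpen
  refine ⟨hU, ?_, hinj, fun W hW hWo => ?_⟩
  · intro x hx
    exact ((hV x hx).cont.continuousAt ((hV x hx).isOpen.mem_nhds (hxV x hx))).continuousWithinAt
  · have : g '' W = ⋃ x ∈ U, g '' (W ∩ V x) := by
      ext y
      simp only [mem_iUnion, exists_prop]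
      constructor
      · rintro ⟨x, hx, rfl⟩
        exact ⟨x, hW hx, x, ⟨hx, hxV x (hW hx)⟩, rfl⟩
      · rintro ⟨x, -, z, hz, rfl⟩
        exact ⟨z, hz.1, rfl⟩
    rw [this]
    exact isOpen_biUnion fun x hx =>
      (hV x hx).opn _ inter_subset_right (hWo.inter (hV x hx).isOpen)

/-- the inverse function on the image -/
theorem OE.exists_inv [Nonempty X] {g : X → Y} {U : Set X} (hg : OE g U) :
    ∃ k : Y → X, OE k (g '' U) ∧ (∀ x ∈ U, k (g x) = x) ∧ (∀ y ∈ g '' U, k y ∈ U ∧ g (k y) = y) ∧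
      k '' (g '' U) = U := by
  classical
  have hl : ∀ x ∈ U, Function.invFunOn g U (g x) = x := fun x hx =>
    hg.inj (Function.invFunOn_mem ⟨x, hx, rfl⟩) hx (Function.invFunOn_eq ⟨x, hx, rfl⟩)
  have hr : ∀ y ∈ g '' U, Function.invFunOn g U y ∈ U ∧ g (Function.invFunOn g U y) = y := by
    rintro _ ⟨x, hx, rfl⟩
    rw [hl x hx]
    exact ⟨hx, rfl⟩
  refine ⟨Function.invFunOn g U, ⟨hg.image_isOpen, ?_, ?_, ?_⟩, hl, hr, ?_⟩
  · intro y hy
    apply ContinuousAt.continuousWithinAt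
    obtain ⟨x, hx, rfl⟩ := hy
    rw [ContinuousAt, hl x hx]
    intro N hN
    obtain ⟨N', hN'N, hN'o, hxN'⟩ := mem_nhds_iff.1 hN
    have h1 : IsOpen (g '' (N' ∩ U)) := hg.opn _ inter_subset_right (hN'o.inter hg.isOpen)
    rw [mem_map]
    refine mem_of_superset (h1.mem_nhds ⟨x, ⟨hxN', hx⟩, rfl⟩) ?_
    rintro _ ⟨z, hz, rfl⟩
    simp only [mem_preimage]
    rw [hl z hz.2]
    exact hN'N hz.1
  · intro y hy y' hy' hyy
    rw [← (hr y hy).2, ← (hr y' hy').2, hyy]
  · intro V hV hVo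
    have : Function.invFunOn g U '' V = U ∩ g ⁻¹' V := by
      ext x
      constructor
      · rintro ⟨y, hy, rfl⟩
        exact ⟨(hr y (hV hy)).1, by simpa [(hr y (hV hy)).2] using hy⟩
      · rintro ⟨hx, hx'⟩
        exact ⟨g x, hx', hl x hx⟩
    rw [this]
    exact hg.isOpen_preimage hVo
  · ext x
    constructor
    · rintro ⟨y, hy, rfl⟩
      exact (hr y hy).1
    · intro hx
      exact ⟨g x, ⟨x, hx, rfl⟩, hl x hx⟩

/-- A homeomorphism moving only points of `S` maps any superset of `S` onto itself. -/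
theorem SuppIn.image_eq {h : X ≃ₜ X} {S T : Set X} (hS : SuppIn h S) (hST : S ⊆ T) :
    h '' T = T := by
  have key : ∀ x, x ∈ T → h x ∈ T := by
    intro x hx
    by_contra hcon
    have h1 : h (h x) = h x := hS _ (fun hh => hcon (hST hh))
    have h2 : h x = x := h.injective h1
    rw [h2] at hcon
    exact hcon hx
  ext y
  constructor
  · rintro ⟨x, hx, rfl⟩
    exact key x hx
  · intro hy
    refine ⟨h.symm y, ?_, by simp⟩
    by_contra hcon
    have h1 : h (h.symm y) = h.symm y := hS _ (fun hh => hcon (hST hh))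
    rw [h.apply_symm_apply] at h1
    rw [← h1] at hcon
    exact hcon hy

theorem SuppIn.mem_of_mem {h : X ≃ₜ X} {S T : Set X} (hS : SuppIn h S) (hST : S ⊆ T) {x : X}
    (hx : x ∈ T) : h x ∈ T := by
  have := SuppIn.image_eq hS hST
  rw [← this]
  exact ⟨x, hx, rfl⟩

theorem SuppIn.symm {h : X ≃ₜ X} {S : Set X} (hS : SuppIn h S) : SuppIn h.symm S := by
  intro x hx
  have := hS x hx
  rw [← this, h.symm_apply_apply, this]

theorem SuppIn.trans {h k : X ≃ₜ X} {S T : Set X} (hS : SuppIn h S) (hT : SuppIn k T) :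
    SuppIn (h.trans k) (S ∪ T) := by
  intro x hx
  simp only [mem_union, not_or] at hx
  rw [Homeomorph.trans_apply, hS x hx.1, hT x hx.2]

omit [TopologicalSpace X] in
theorem SuppIn.mono {h : X → X} {S T : Set X} (hS : SuppIn h S) (hST : S ⊆ T) : SuppIn h T :=
  fun x hx => hS x (fun hh => hx (hST hh))

/-- Transport of a compactly supported homeomorphism through an open embedding. -/
theorem transport [T2Space Y] {φ : X → Y} {U : Set X} (hφ : OE φ U) (h : X ≃ₜ X) {S : Set X}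
    (hS : IsCompact S) (hSU : S ⊆ U) (hh : SuppIn h S) :
    ∃ h' : Y ≃ₜ Y, SuppIn h' (φ '' S) ∧ ∀ z ∈ U, h' (φ z) = φ (h z) := by
  classical
  rcases isEmpty_or_nonempty X with hX | hX
  · exact ⟨Homeomorph.refl Y, fun _ _ => rfl, fun z => (IsEmpty.false z).elim⟩
  obtain ⟨k, hk, hl, hr, -⟩ := hφ.exists_inv
  have hcl : IsClosed (φ '' S) := (hS.image_of_continuousOn (hφ.cont.mono hSU)).isClosed
  -- general construction of the map
  have key : ∀ f : X ≃ₜ X, SuppIn f S →
      Continuous (fun w => if w ∈ φ '' U then φ (f (k w)) else w) ∧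
      (∀ z ∈ U, (if φ z ∈ φ '' U then φ (f (k (φ z))) else φ z) = φ (f z)) ∧
      (∀ w, w ∉ φ '' S → (if w ∈ φ '' U then φ (f (k w)) else w) = w) := by
    intro f hf
    have h2 : ∀ z ∈ U, (if φ z ∈ φ '' U then φ (f (k (φ z))) else φ z) = φ (f z) := by
      intro z hz
      rw [if_pos ⟨z, hz, rfl⟩, hl z hz]
    have h3 : ∀ w, w ∉ φ '' S → (if w ∈ φ '' U then φ (f (k w)) else w) = w := by
      intro w hw
      by_cases hwU : w ∈ φ '' U
      · obtain ⟨z, hz, rfl⟩ := hwU
        rw [h2 z hz, hf z (fun hzS => hw ⟨z, hzS, rfl⟩)]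
      · rw [if_neg hwU]
    refine ⟨?_, h2, h3⟩
    rw [continuous_iff_continuousAt]
    intro w
    by_cases hw : w ∈ φ '' U
    · have hc : ContinuousOn (fun w => φ (f (k w))) (φ '' U) := by
        refine hφ.cont.comp (f.continuous.comp_continuousOn hk.cont) ?_
        intro v hv
        exact hf.mem_of_mem hSU (hr v hv).1
      refine (hc.continuousAt (hφ.image_isOpen.mem_nhds hw)).congr ?_
      filter_upwards [hφ.image_isOpen.mem_nhds hw] with v hv
      rw [if_pos hv]
    · have hw' : w ∈ (φ '' S)ᶜ := fun hh => hw (image_mono hSU hh)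
      refine continuousAt_id.congr ?_
      filter_upwards [hcl.isOpen_compl.mem_nhds hw'] with v hv
      exact (h3 v hv).symm
  obtain ⟨c1, e1, s1⟩ := key h hh
  obtain ⟨c2, e2, s2⟩ := key h.symm hh.symm
  have inv : ∀ f g : X ≃ₜ X, SuppIn f S → SuppIn g S → (∀ z, g (f z) = z) → ∀ w,
      (fun w => if w ∈ φ '' U then φ (g (k w)) else w)
        ((fun w => if w ∈ φ '' U then φ (f (k w)) else w) w) = w := by
    intro f g hf hg hfg w
    by_cases hw : w ∈ φ '' U
    · obtain ⟨z, hz, rfl⟩ := hw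
      simp only
      rw [(key f hf).2.1 z hz, (key g hg).2.1 _ (hf.mem_of_mem hSU hz), hfg]
    · simp only [if_neg hw]
  refine ⟨⟨⟨fun w => if w ∈ φ '' U then φ (h (k w)) else w,
    fun w => if w ∈ φ '' U then φ (h.symm (k w)) else w,
    inv h h.symm hh hh.symm (by simp), inv h.symm h hh.symm hh (by simp)⟩, c1, c2⟩, s1, e1⟩

end api

end Pool.Agent.H75.Mfd
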