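import Pool.Agent.H75.Mfd.Sys

/-!
Module EXH. Existence of exhausting systems.
`IsSystem S X c f`: c m = (i_m, k_m), f m : K_{i_m} -> X embeddings with f (m+1) o u = f m on
K_{i_m}, exhausting X by compact sets having compact neighbourhoods.
one_step: given f in Emb i X and a compact C choose (cover) j and f1 in Emb j X with
C cup f(L_i) (plus a compact neighbourhood) inside f1 (interior K_j); e = f1^{-1} o f is in
Mor i j; u = u i j k close to e (u_dense), f1 o u close to f on L_i (uniform continuity of f1 on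
K_j), Emb.stable for f gives h, moving only points of f(L_i), h f = f1 u on K_i; put
f' = h^{-1} o f1. Then f' u = f on K_i and C inside f' (interior K_j), because h preserves
f1 (interior K_j).
-/

set_option autoImplicit false

namespace Pool.Agent.H75.Mfd

open Set Topology Metric Filter

variable {n : ℕ} {M : Type} [MetricSpace M]

/-- One extension step. -/
theorem one_step (S : Sys n M) {X : Type} [MetricSpace X] [TopologicalSpace.SeparableSpace X]
    (hX : LocEuc n X) {i : ℕ} {f : M → X} (hf : Emb S i f) (C : Set X) (hC : IsCompact C) :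
    ∃ (j k : ℕ) (f' : M → X), Emb S j f' ∧ S.good i j k ∧ (∀ x ∈ S.K i, f' (S.u i j k x) = f x) ∧
      C ⊆ f' '' interior (S.K j) := by
  obtain ⟨x0, -⟩ := S.neK i
  haveI : Nonempty M := ⟨x0⟩
  haveI : Nonempty X := ⟨f x0⟩
  obtain ⟨hcf, -⟩ := hf.image_compact
  obtain ⟨j, f1, U1, hU1, hf1, hcov⟩ := S.cover X hX (C ∪ f '' S.L i) (hC.union hcf)
  have hKU : S.K j ⊆ U1 := (S.KL j).trans (interior_subset.trans hU1)
  obtain ⟨k1, hk1, hl, hr, -⟩ := hf1.exists_inv
  obtain ⟨δ, hδ, hst⟩ := hf.stable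
  -- the morphism
  have hfL : ∀ x ∈ S.L i, ∃ z ∈ interior (S.K j), f1 z = f x := fun x hx =>
    hcov (Or.inr ⟨x, hx, rfl⟩)
  have hmaps : MapsTo (k1 ∘ f) (S.L i) (interior (S.K j)) := by
    intro x hx
    obtain ⟨z, hz, hzx⟩ := hfL x hx
    simp only [Function.comp]
    rw [← hzx, hl z (hKU (interior_subset hz))]
    exact hz
  have hf1e : ∀ x ∈ S.L i, f1 (k1 (f x)) = f x := by
    intro x hx
    obtain ⟨z, hz, hzx⟩ := hfL x hx
    exact (hr _ ⟨z, hKU (interior_subset hz), hzx⟩).2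
  have hemb : ∃ U, S.L i ⊆ U ∧ OE (k1 ∘ f) U := by
    obtain ⟨U, hU, hfU⟩ := hf
    refine ⟨U ∩ f ⁻¹' (f1 '' U1), fun x hx => ⟨hU hx, ?_⟩, hk1.comp_inter hfU⟩
    obtain ⟨z, hz, hzx⟩ := hfL x hx
    exact ⟨z, hKU (interior_subset hz), hzx⟩
  -- uniform continuity
  have huc : UniformContinuousOn f1 (S.K j) :=
    (S.cK j).uniformContinuousOn_of_continuous (hf1.cont.mono hKU)
  rw [Metric.uniformContinuousOn_iff] at huc
  obtain ⟨η, hη, huc⟩ := huc δ hδ
  obtain ⟨k, hk, hclose⟩ := S.u_dense i j (k1 ∘ f) hemb hmaps η hη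
  have hmu : Mor S i j (S.u i j k) := mor_u hk
  have hf1emb : Emb S j f1 := ⟨U1, hU1, hf1⟩
  obtain ⟨h, hs, he⟩ := hst (f1 ∘ S.u i j k) (hf1emb.comp hmu) (by
    intro x hx
    have h1 := huc _ (interior_subset (hmaps hx)) _ (interior_subset (hmu.2 hx)) (hclose x hx)
    simp only [Function.comp] at h1 ⊢
    rwa [hf1e x hx] at h1)
  refine ⟨j, k, h.symm ∘ f1, hf1emb.homeo h.symm, hk, fun x hx => ?_, fun c hc => ?_⟩
  · have := he x hx
    simp only [Function.comp] at this ⊢
    rw [← this, h.symm_apply_apply]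
  · have hT : f '' S.L i ⊆ f1 '' interior (S.K j) := fun y hy => hcov (Or.inr hy)
    have h2 : h c ∈ f1 '' interior (S.K j) := hs.mem_of_mem hT (hcov (Or.inl hc))
    obtain ⟨z, hz, hzc⟩ := h2
    refine ⟨z, hz, ?_⟩
    simp only [Function.comp]
    rw [hzc, h.symm_apply_apply]

end Pool.Agent.H75.Mfd
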