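import Pool.Agent.H75.Mfd.SystemDefs
import Pool.Agent.H75.Mfd.OneStep

/-!
Module EXH. Existence of exhausting systems.
`IsSystem S X c f`: c m = (i_m, k_m), f m : K_{i_m} -> X embeddings with f (m+1) o u = f m on
K_{i_m}, exhausting X by compact sets having compact neighbourhoods.
one_step: given f in Emb i X and a compact C choose (cover) j and f1 in Emb j X with
C cup f(L_i) (plus a compact neighbourhood) inside f1 (interior K_j); e = f1^{-1} o f is in
Mor i j; u = u i j k close to e (u_dense), f1 o u close to f on L_i (uniform continuity of f1 on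
K_j), Emb.stable for f gives h, moving only points of f(L_i), h f = f1 u on K_i; put
f' = h^{-1} o f1. Then f' u = f on K_i and C inside f' (interior K_j), because h preserves
f1 (interior K_j).
-/

set_option autoImplicit false

namespace Pool.Agent.H75.Mfd

open Set Topology Metric Filter

variable {n : ℕ} {M : Type} [MetricSpace M]

theorem exists_system (S : Sys n M) (X : Type) [MetricSpace X]
    [TopologicalSpace.SeparableSpace X] [Nonempty X] (hX : LocEuc n X) :
    ∃ (c : ℕ → ℕ × ℕ) (f : ℕ → M → X), IsSystem S X c f := by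
  classical
  have hlc : LocallyCompactSpace X := hX.locallyCompactSpace
  have hsc : SecondCountableTopology X := UniformSpace.secondCountable_of_separable X
  let E : CompactExhaustion X := CompactExhaustion.choice X
  -- one step on the set of states
  have hstep : ∀ (m : ℕ) (p : {p : ℕ × (M → X) // Emb S p.1 p.2}),
      ∃ q : {p : ℕ × (M → X) // Emb S p.1 p.2} × ℕ, S.good p.1.1 q.1.1.1 q.2 ∧
        (∀ x ∈ S.K p.1.1, q.1.1.2 (S.u p.1.1 q.1.1.1 q.2 x) = p.1.2 x) ∧
        E m ⊆ q.1.1.2 '' interior (S.K q.1.1.1) := by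
    rintro m ⟨⟨i, f⟩, hf⟩
    obtain ⟨j, k, f', hf', hg, hc, hC⟩ := one_step S hX hf (E m) (E.isCompact m)
    exact ⟨⟨⟨(j, f'), hf'⟩, k⟩, hg, hc, hC⟩
  choose nxt hgood hcomp hcov using hstep
  obtain ⟨i0, f0, U0, hU0, hf0, -⟩ := S.cover X hX ∅ isCompact_empty
  let st : ℕ → {p : ℕ × (M → X) // Emb S p.1 p.2} := fun m =>
    Nat.rec ⟨(i0, f0), U0, hU0, hf0⟩ (fun m p => (nxt m p).1) m
  have hst : ∀ m, st (m + 1) = (nxt m (st m)).1 := fun m => rfl
  have hKU : ∀ m, ∃ U, S.K (st m).1.1 ⊆ U ∧ OE (st m).1.2 U := by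
    intro m
    obtain ⟨U, hU, h⟩ := (st m).2
    exact ⟨U, ((S.KL _).trans interior_subset).trans hU, h⟩
  refine ⟨fun m => ((st m).1.1, (nxt m (st m)).2), fun m => (st m).1.2, ?_, ?_, ?_, ?_, ?_, ?_⟩
  · intro m
    exact hgood m (st m)
  · intro m
    obtain ⟨U, hU, h⟩ := hKU m
    exact h.cont.mono hU
  · intro m
    obtain ⟨U, hU, h⟩ := hKU m
    exact h.inj.mono hU
  · intro m
    obtain ⟨U, hU, h⟩ := hKU m
    exact h.mono isOpen_interior (interior_subset.trans hU)
  · intro m x hx
    exact hcomp m (st m) x hx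
  · intro Q Q' hQ _ _
    obtain ⟨m, hm⟩ := E.exists_superset_of_isCompact hQ
    exact ⟨m + 1, hm.trans (hcov m (st m))⟩

end Pool.Agent.H75.Mfd
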