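import Pool.Agent.H75.Mfd.NamesDefs

set_option autoImplicit false

namespace Pool.Agent.H75.Mfd

open Set Topology Metric Filter

variable {n : ℕ} {M : Type} [MetricSpace M]

theorem tr_congr (S : Sys n M) {c c' : ℕ → ℕ × ℕ} {N : ℕ} (h : ∀ j < N, c j = c' j)
    (m d : ℕ) (hN : m + d < N) : tr S c m d = tr S c' m d := by
  induction d with
  | zero => rfl
  | succ d ih =>
    simp only [tr]
    rw [ih (by omega), h (m + d) (by omega), h (m + d + 1) (by omega)]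

theorem measurableSet_finDep (N : ℕ) (P : (ℕ → ℕ × ℕ) → Prop)
    (h : ∀ c c' : ℕ → ℕ × ℕ, (∀ m < N, c m = c' m) → P c → P c') : MeasurableSet {c | P c} := by
  have hr : Measurable (fun (c : ℕ → ℕ × ℕ) (i : Fin N) => c i) :=
    measurable_pi_lambda _ fun i => measurable_pi_apply _
  have he : {c | P c} = (fun (c : ℕ → ℕ × ℕ) (i : Fin N) => c i) ⁻¹'
      {s | P (fun m => if h : m < N then s ⟨m, h⟩ else (0, 0))} := by
    ext c
    simp only [mem_ofPred_eq, mem_preimage]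
    constructor
    · exact h _ _ fun m hm => by simp [hm]
    · exact h _ _ fun m hm => by simp [hm]
  rw [he]
  exact hr (Set.to_countable _).measurableSet

theorem measurableSet_rr (S : Sys n M) (i m m' : ℕ) (A B : ℕ × ℕ → M → M) :
    MeasurableSet {p : (ℕ → ℕ × ℕ) × (ℕ → S.D → ℕ → ℝ) |
      RR S p.1 i m (A (p.1 m)) m' (B (p.1 m'))} := by
  have h1 : MeasurableSet {c : ℕ → ℕ × ℕ | RR S c i m (A (c m)) m' (B (c m'))} := by
    have he : {c : ℕ → ℕ × ℕ | RR S c i m (A (c m)) m' (B (c m'))} = ⋃ d : ℕ, ⋃ d' : ℕ,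
        {c : ℕ → ℕ × ℕ | m + d = m' + d' ∧
          TT S i (c (m + d)).1 (tr S c m d ∘ A (c m)) (tr S c m' d' ∘ B (c m'))} := by
      ext c
      simp only [RR, mem_ofPred_eq, mem_iUnion]
    rw [he]
    refine MeasurableSet.iUnion fun d => MeasurableSet.iUnion fun d' => ?_
    refine measurableSet_finDep (m + d + 1) _ ?_
    rintro c c' hc ⟨hd, ht⟩
    refine ⟨hd, ?_⟩
    rw [← tr_congr S hc m d (by omega), ← tr_congr S hc m' d' (by omega), ← hc m (by omega),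
      ← hc m' (by omega), ← hc (m + d) (by omega)]
    exact ht
  exact measurable_fst h1

theorem measurableSet_apx (S : Sys n M) (ν : Nm) (m : ℕ) (F : S.D → S.D) :
    MeasurableSet {p : (ℕ → ℕ × ℕ) × (ℕ → S.D → ℕ → ℝ) |
      Apx S ν (fun z b => p.2 m (F z) b)} := by
  have : Countable S.D := S.cD.to_subtype
  have he : {p : (ℕ → ℕ × ℕ) × (ℕ → S.D → ℕ → ℝ) | Apx S ν (fun z b => p.2 m (F z) b)} =
      ⋃ k : ℕ, ⋂ j : ℕ, ⋂ (_ : j < ν.be.length), ⋂ z : S.D, ⋂ (_ : (z : M) ∈ S.L ν.i),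
      ⋂ (_ : dist (z : M) (S.x ν.i j) < 1 / ((ν.p : ℝ) + 1)),
      {p : (ℕ → ℕ × ℕ) × (ℕ → S.D → ℕ → ℝ) |
        p.2 m (F z) (ν.be.getD j 0) ≤ 1 / ((ν.q : ℝ) + 1) - 1 / ((k : ℝ) + 1)} := by
    ext p
    simp only [Apx, mem_ofPred_eq, mem_iUnion, mem_iInter]
  rw [he]
  refine MeasurableSet.iUnion fun k => MeasurableSet.iInter fun j => MeasurableSet.iInter fun _ =>
    MeasurableSet.iInter fun z => MeasurableSet.iInter fun _ => MeasurableSet.iInter fun _ => ?_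
  refine measurableSet_le ?_ measurable_const
  exact (measurable_pi_apply _).comp ((measurable_pi_apply _).comp
    ((measurable_pi_apply _).comp measurable_snd))

theorem measurableSet_hit (S : Sys n M) (ν : Nm) (m k : ℕ) :
    MeasurableSet {p : (ℕ → ℕ × ℕ) × (ℕ → S.D → ℕ → ℝ) | Hit S p.1 p.2 ν m k} := by
  have he : {p : (ℕ → ℕ × ℕ) × (ℕ → S.D → ℕ → ℝ) | Hit S p.1 p.2 ν m k} =
      ⋃ v : ℕ × ℕ, (fun p : (ℕ → ℕ × ℕ) × (ℕ → S.D → ℕ → ℝ) => p.1 m) ⁻¹' {v} ∩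
      ({p : (ℕ → ℕ × ℕ) × (ℕ → S.D → ℕ → ℝ) | S.good ν.i v.1 k ∧ Cov S ν} ∩
      {p : (ℕ → ℕ × ℕ) × (ℕ → S.D → ℕ → ℝ) |
        Apx S ν (fun z b => p.2 m (S.uD ν.i v.1 k z) b)}) := by
    ext p
    simp only [Hit, mem_ofPred_eq, mem_iUnion, mem_inter_iff, mem_preimage, mem_singleton_iff]
    constructor
    · rintro ⟨h1, h2, h3⟩
      exact ⟨p.1 m, rfl, ⟨h1, h2⟩, h3⟩
    · rintro ⟨v, rfl, ⟨h1, h2⟩, h3⟩
      exact ⟨h1, h2, h3⟩
  rw [he]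
  refine MeasurableSet.iUnion fun v => MeasurableSet.inter ?_ (MeasurableSet.inter
    (MeasurableSet.const _) (measurableSet_apx S ν m _))
  exact ((measurable_pi_apply m).comp measurable_fst) (measurableSet_singleton v)

theorem measurableSet_psiW (S : Sys n M) (a : Pr) :
    MeasurableSet {p : (ℕ → ℕ × ℕ) × (ℕ → S.D → ℕ → ℝ) | PsiW S p.1 p.2 a} := by
  cases a with
  | sort ν =>
    have he : {p : (ℕ → ℕ × ℕ) × (ℕ → S.D → ℕ → ℝ) | PsiW S p.1 p.2 (.sort ν)} =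
        (⋃ m : ℕ, ⋃ k : ℕ, {p : (ℕ → ℕ × ℕ) × (ℕ → S.D → ℕ → ℝ) | Hit S p.1 p.2 ν m k}) ∩
        (⋂ m : ℕ, ⋂ k : ℕ, ⋂ m' : ℕ, ⋂ k' : ℕ,
          ({p : (ℕ → ℕ × ℕ) × (ℕ → S.D → ℕ → ℝ) | Hit S p.1 p.2 ν m k}ᶜ ∪
          ({p : (ℕ → ℕ × ℕ) × (ℕ → S.D → ℕ → ℝ) | Hit S p.1 p.2 ν m' k'}ᶜ ∪
          {p : (ℕ → ℕ × ℕ) × (ℕ → S.D → ℕ → ℝ) |
            RR S p.1 ν.i m ((fun v : ℕ × ℕ => S.u ν.i v.1 k) (p.1 m)) m'
              ((fun v : ℕ × ℕ => S.u ν.i v.1 k') (p.1 m'))}))) := by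
      ext p
      simp only [PsiW, mem_ofPred_eq, mem_iUnion, mem_iInter, mem_inter_iff, mem_union,
        mem_compl_iff]
      refine and_congr_right fun _ => ?_
      refine forall_congr' fun m => forall_congr' fun k => forall_congr' fun m' =>
        forall_congr' fun k' => ?_
      tauto
    rw [he]
    refine MeasurableSet.inter (MeasurableSet.iUnion fun m => MeasurableSet.iUnion fun k =>
      measurableSet_hit S ν m k) (MeasurableSet.iInter fun m => MeasurableSet.iInter fun k =>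
      MeasurableSet.iInter fun m' => MeasurableSet.iInter fun k' => ?_)
    exact ((measurableSet_hit S ν m k).compl).union (((measurableSet_hit S ν m' k').compl).union
      (measurableSet_rr S ν.i m m' (fun v : ℕ × ℕ => S.u ν.i v.1 k)
        (fun v : ℕ × ℕ => S.u ν.i v.1 k')))
  | eq ν ν' =>
    have he : {p : (ℕ → ℕ × ℕ) × (ℕ → S.D → ℕ → ℝ) | PsiW S p.1 p.2 (.eq ν ν')} =
        {p : (ℕ → ℕ × ℕ) × (ℕ → S.D → ℕ → ℝ) | ν.i = ν'.i} ∩
        (⋃ m : ℕ, ⋃ k : ℕ, ⋃ m' : ℕ, ⋃ k' : ℕ,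
          ({p : (ℕ → ℕ × ℕ) × (ℕ → S.D → ℕ → ℝ) | Hit S p.1 p.2 ν m k} ∩
          ({p : (ℕ → ℕ × ℕ) × (ℕ → S.D → ℕ → ℝ) | Hit S p.1 p.2 ν' m' k'} ∩
          {p : (ℕ → ℕ × ℕ) × (ℕ → S.D → ℕ → ℝ) |
            RR S p.1 ν.i m ((fun v : ℕ × ℕ => S.u ν.i v.1 k) (p.1 m)) m'
              ((fun v : ℕ × ℕ => S.u ν'.i v.1 k') (p.1 m'))}))) := by
      ext p
      simp only [PsiW, mem_ofPred_eq, mem_iUnion, mem_inter_iff]
    rw [he]
    refine MeasurableSet.inter (MeasurableSet.const _) (MeasurableSet.iUnion fun m =>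
      MeasurableSet.iUnion fun k => MeasurableSet.iUnion fun m' =>
      MeasurableSet.iUnion fun k' => ?_)
    exact (measurableSet_hit S ν m k).inter ((measurableSet_hit S ν' m' k').inter
      (measurableSet_rr S ν.i m m' (fun v : ℕ × ℕ => S.u ν.i v.1 k)
        (fun v : ℕ × ℕ => S.u ν'.i v.1 k')))
  | act k ν ν' =>
    have he : {p : (ℕ → ℕ × ℕ) × (ℕ → S.D → ℕ → ℝ) | PsiW S p.1 p.2 (.act k ν ν')} =
        {p : (ℕ → ℕ × ℕ) × (ℕ → S.D → ℕ → ℝ) | S.good ν'.i ν.i k} ∩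
        (⋃ m : ℕ, ⋃ k₁ : ℕ, ⋃ m' : ℕ, ⋃ k₂ : ℕ,
          ({p : (ℕ → ℕ × ℕ) × (ℕ → S.D → ℕ → ℝ) | Hit S p.1 p.2 ν m k₁} ∩
          ({p : (ℕ → ℕ × ℕ) × (ℕ → S.D → ℕ → ℝ) | Hit S p.1 p.2 ν' m' k₂} ∩
          {p : (ℕ → ℕ × ℕ) × (ℕ → S.D → ℕ → ℝ) |
            RR S p.1 ν'.i m ((fun v : ℕ × ℕ => S.u ν.i v.1 k₁ ∘ S.u ν'.i ν.i k) (p.1 m)) m'
              ((fun v : ℕ × ℕ => S.u ν'.i v.1 k₂) (p.1 m'))}))) := by
      ext p
      simp only [PsiW, mem_ofPred_eq, mem_iUnion, mem_inter_iff]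
    rw [he]
    refine MeasurableSet.inter (MeasurableSet.const _) (MeasurableSet.iUnion fun m =>
      MeasurableSet.iUnion fun k₁ => MeasurableSet.iUnion fun m' =>
      MeasurableSet.iUnion fun k₂ => ?_)
    exact (measurableSet_hit S ν m _).inter ((measurableSet_hit S ν' m' _).inter
      (measurableSet_rr S ν'.i m m' (fun v : ℕ × ℕ => S.u ν.i v.1 k₁ ∘ S.u ν'.i ν.i k)
        (fun v : ℕ × ℕ => S.u ν'.i v.1 k₂)))

end Pool.Agent.H75.Mfd
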