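import Pool.Agent.H75.Mfd.ValidDefs

/-!
Module VAL. Borel condition on (c, w, eta) saying that w codes an exhausting system of the space
coded by eta.
valid_of_system: w m z b = dist (f m z) (e b).
system_of_valid: for z in D cap K_{i_m} the function w m z is the distance function of a unique
point f m z of the complete space X (pt1, pt2, pt3: choose b_k with w m z b_k < 1/(k+1); the points
e b_k form a Cauchy sequence). uc extends f m continuously to K_{i_m} (D_K), inj gives injectivity,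
comp the compatibility, opn the openness on the interior (see proofs row), exh the exhaustion.
-/

set_option autoImplicit false

namespace Pool.Agent.H75.Mfd

open Set Topology Metric Filter

variable {n : ℕ} {M : Type} [MetricSpace M]

private theorem meas_lt {α : Type*} [MeasurableSpace α] {f g : α → ℝ} (hf : Measurable f)
    (hg : Measurable g) : Measurable fun a => f a < g a :=
  measurableSet_setOfPred.1 (measurableSet_lt hf hg)

private theorem meas_le {α : Type*} [MeasurableSpace α] {f g : α → ℝ} (hf : Measurable f)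
    (hg : Measurable g) : Measurable fun a => f a ≤ g a :=
  measurableSet_setOfPred.1 (measurableSet_le hf hg)

private theorem meas_eq {α : Type*} [MeasurableSpace α] {f g : α → ℝ} (hf : Measurable f)
    (hg : Measurable g) : Measurable fun a => f a = g a :=
  measurableSet_setOfPred.1 (measurableSet_eq_fun hf hg)

private abbrev PP (S : Sys n M) : Type :=
  ((ℕ → ℕ × ℕ) × (ℕ → S.D → ℕ → ℝ)) × (ℕ → ℕ → ℝ)

theorem measurableSet_valid (S : Sys n M) :
    MeasurableSet {p : ((ℕ → ℕ × ℕ) × (ℕ → S.D → ℕ → ℝ)) × (ℕ → ℕ → ℝ) |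
      Valid S p.1.1 p.1.2 p.2} := by
  have : Countable S.D := S.cD.to_subtype
  let _ : MeasurableSpace S.D := ⊤
  have hη : ∀ a b, Measurable (fun p : PP S => p.2 a b) := fun a b => by fun_prop
  have hw : ∀ m z b, Measurable (fun p : PP S => p.1.2 m z b) := fun m z b => by fun_prop
  have hc : ∀ m, Measurable (fun p : PP S => p.1.1 m) := fun m => by fun_prop
  have hK : ∀ m (z : S.D), Measurable (fun p : PP S => (z : M) ∈ S.K (p.1.1 m).1) := fun m z =>
    (Measurable.of_discrete (f := fun q : ℕ × ℕ => (z : M) ∈ S.K q.1)).comp (hc m)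
  have hgood : ∀ m, Measurable (fun p : PP S => S.good (p.1.1 m).1 (p.1.1 (m + 1)).1 (p.1.1 m).2) :=
    fun m => (Measurable.of_discrete
      (f := fun q : (ℕ × ℕ) × (ℕ × ℕ) => S.good q.1.1 q.2.1 q.1.2)).comp
        ((hc m).prodMk (hc (m + 1)))
  have hlt : ∀ m z b (r : ℝ), Measurable (fun p : PP S => p.1.2 m z b < r) := fun m z b r =>
    meas_lt (hw m z b) measurable_const
  have hηlt : ∀ a b (r : ℝ), Measurable (fun p : PP S => p.2 a b < r) := fun a b r =>
    meas_lt (hη a b) measurable_const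
  have e : {p : PP S | Valid S p.1.1 p.1.2 p.2} = {p : PP S |
      (∀ a, p.2 a a = 0) ∧ (∀ a b, a ≠ b → 0 < p.2 a b) ∧ (∀ a b, p.2 a b = p.2 b a) ∧
      (∀ a b d, p.2 a d ≤ p.2 a b + p.2 b d) ∧
      (∀ m, S.good (p.1.1 m).1 (p.1.1 (m + 1)).1 (p.1.1 m).2) ∧
      (∀ m (z : S.D), (z : M) ∈ S.K (p.1.1 m).1 → ∀ a b, p.1.2 m z a ≤ p.2 a b + p.1.2 m z b) ∧
      (∀ m (z : S.D), (z : M) ∈ S.K (p.1.1 m).1 → ∀ a b, p.2 a b ≤ p.1.2 m z a + p.1.2 m z b) ∧
      (∀ m (z : S.D), (z : M) ∈ S.K (p.1.1 m).1 → ∀ k : ℕ, ∃ b,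
        p.1.2 m z b < 1 / ((k : ℝ) + 1)) ∧
      (∀ m (k : ℕ), ∃ l : ℕ, ∀ z z' : S.D, (z : M) ∈ S.K (p.1.1 m).1 →
        (z' : M) ∈ S.K (p.1.1 m).1 → dist (z : M) z' < 1 / ((l : ℝ) + 1) →
        ∃ b, p.1.2 m z b < 1 / ((k : ℝ) + 1) ∧ p.1.2 m z' b < 1 / ((k : ℝ) + 1)) ∧
      (∀ m (k : ℕ), ∃ l : ℕ, ∀ z z' : S.D, (z : M) ∈ S.K (p.1.1 m).1 →
        (z' : M) ∈ S.K (p.1.1 m).1 → 1 / ((k : ℝ) + 1) ≤ dist (z : M) z' →
        ∀ b, 1 / ((l : ℝ) + 1) ≤ p.1.2 m z b + p.1.2 m z' b) ∧
      (∀ m (z : S.D), (z : M) ∈ S.K (p.1.1 m).1 → ∀ b,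
        p.1.2 (m + 1) (S.uD (p.1.1 m).1 (p.1.1 (m + 1)).1 (p.1.1 m).2 z) b = p.1.2 m z b) ∧
      (∀ m, ∃ l : ℕ, ∀ b, (∃ z : S.D, (z : M) ∈ S.K (p.1.1 m).1 ∧
          p.1.2 m z b < 1 / ((l : ℝ) + 1)) →
        ∀ k : ℕ, ∃ z : S.D, (z : M) ∈ S.K (p.1.1 (m + 1)).1 ∧
          p.1.2 (m + 1) z b < 1 / ((k : ℝ) + 1)) ∧
      (∀ b q : ℕ, (∀ k : ℕ, ∃ F : Finset ℕ, ∀ b', p.2 b b' < 1 / ((q : ℝ) + 1) →
          ∃ a, a ∈ F ∧ p.2 a b' < 1 / ((k : ℝ) + 1)) →
        ∃ m, ∀ b', p.2 b b' < 1 / ((q : ℝ) + 1) →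
          ∀ k : ℕ, ∃ z : S.D, (z : M) ∈ S.K (p.1.1 m).1 ∧
            p.1.2 m z b' < 1 / ((k : ℝ) + 1))} := by
    ext p
    simp only [mem_ofPred_eq]
    constructor
    · rintro ⟨h1, h2, h3, h4, h5, h6, h7, h8, h9, h10, h11, h12, h13⟩
      exact ⟨h1, h2, h3, h4, h5, h6, h7, h8, h9, h10, h11, h12, h13⟩
    · rintro ⟨h1, h2, h3, h4, h5, h6, h7, h8, h9, h10, h11, h12, h13⟩
      exact ⟨h1, h2, h3, h4, h5, h6, h7, h8, h9, h10, h11, h12, h13⟩
  rw [e]
  refine measurableSet_setOfPred.2 ?_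
  refine .and (.forall fun a => meas_eq (hη _ _) measurable_const) ?_
  refine .and (.forall fun a => .forall fun b => .imp measurable_const
    (meas_lt measurable_const (hη _ _))) ?_
  refine .and (.forall fun a => .forall fun b => meas_eq (hη _ _) (hη _ _)) ?_
  refine .and (.forall fun a => .forall fun b => .forall fun d =>
    meas_le (hη _ _) ((hη _ _).add (hη _ _))) ?_
  refine .and (.forall fun m => hgood m) ?_
  refine .and (.forall fun m => .forall fun z => .imp (hK m z) (.forall fun a => .forall fun b =>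
    meas_le (hw _ _ _) ((hη _ _).add (hw _ _ _)))) ?_
  refine .and (.forall fun m => .forall fun z => .imp (hK m z) (.forall fun a => .forall fun b =>
    meas_le (hη _ _) ((hw _ _ _).add (hw _ _ _)))) ?_
  refine .and (.forall fun m => .forall fun z => .imp (hK m z) (.forall fun k => .exists fun b =>
    hlt _ _ _ _)) ?_
  refine .and (.forall fun m => .forall fun k => .exists fun l => .forall fun z => .forall fun z' =>
    .imp (hK m z) (.imp (hK m z') (.imp measurable_const (.exists fun b =>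
      .and (hlt _ _ _ _) (hlt _ _ _ _))))) ?_
  refine .and (.forall fun m => .forall fun k => .exists fun l => .forall fun z => .forall fun z' =>
    .imp (hK m z) (.imp (hK m z') (.imp measurable_const (.forall fun b =>
      meas_le measurable_const ((hw _ _ _).add (hw _ _ _)))))) ?_
  refine .and (.forall fun m => .forall fun z => .imp (hK m z) (.forall fun b => ?_)) ?_
  · have h1 : Measurable fun p : PP S =>
        (fun y : S.D => p.1.2 (m + 1) y b, S.uD (p.1.1 m).1 (p.1.1 (m + 1)).1 (p.1.1 m).2 z) := by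
      refine Measurable.prodMk (by fun_prop) ?_
      exact (Measurable.of_discrete
        (f := fun q : (ℕ × ℕ) × (ℕ × ℕ) => S.uD q.1.1 q.2.1 q.1.2 z)).comp
        ((hc m).prodMk (hc (m + 1)))
    have h2 : Measurable fun q : (S.D → ℝ) × S.D => q.1 q.2 :=
      measurable_from_prod_countable_left (fun y => by fun_prop)
    exact meas_eq (h2.comp h1) (hw _ _ _)
  refine .and (.forall fun m => .exists fun l => .forall fun b => .imp
    (.exists fun z => .and (hK m z) (hlt _ _ _ _)) (.forall fun k => .exists fun z =>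
      .and (hK (m + 1) z) (hlt _ _ _ _))) ?_
  refine .forall fun b => .forall fun q => .imp (.forall fun k => .exists fun F =>
    .forall fun b' => .imp (hηlt _ _ _) (.exists fun a => .and measurable_const (hηlt _ _ _)))
    (.exists fun m => .forall fun b' => .imp (hηlt _ _ _) (.forall fun k => .exists fun z =>
      .and (hK m z) (hlt _ _ _ _)))

end Pool.Agent.H75.Mfd
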