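import Pool.Agent.H75.Mfd.SystemApprox

/-!
Module EXH. Existence of exhausting systems.
`IsSystem S X c f`: c m = (i_m, k_m), f m : K_{i_m} -> X embeddings with f (m+1) o u = f m on
K_{i_m}, exhausting X by compact sets having compact neighbourhoods.
one_step: given f in Emb i X and a compact C choose (cover) j and f1 in Emb j X with
C cup f(L_i) (plus a compact neighbourhood) inside f1 (interior K_j); e = f1^{-1} o f is in
Mor i j; u = u i j k close to e (u_dense), f1 o u close to f on L_i (uniform continuity of f1 on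
K_j), Emb.stable for f gives h, moving only points of f(L_i), h f = f1 u on K_i; put
f' = h^{-1} o f1. Then f' u = f on K_i and C inside f' (interior K_j), because h preserves
f1 (interior K_j).
-/

set_option autoImplicit false

namespace Pool.Agent.H75.Mfd

open Set Topology Metric Filter

variable {n : ℕ} {M : Type} [MetricSpace M]

/-- `transport` through `f M` and through its inverse -/
theorem IsSystem.eqv_iff {S : Sys n M} {X : Type*} [MetricSpace X] {c : ℕ → ℕ × ℕ}
    {f : ℕ → M → X} (hs : IsSystem S X c f) {i m m' : ℕ} {a b : M → M}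
    (ha : Mor S i (c m).1 a) (hb : Mor S i (c m').1 b) :
    Eqv S i (f m ∘ a) (f m' ∘ b) ↔ RR S c i m a m' b := by
  constructor
  · rintro ⟨h, ⟨Q, Q', hQ, hQ', hQQ, hsupp⟩, hab⟩
    obtain ⟨M0, hM0⟩ := hs.exh Q Q' hQ hQ' hQQ
    obtain ⟨N, hN0, hNm, hNm'⟩ : ∃ N, M0 ≤ N ∧ m ≤ N ∧ m' ≤ N :=
      ⟨max M0 (max m m'), le_max_left _ _, (le_max_left _ _).trans (le_max_right _ _),
        (le_max_right _ _).trans (le_max_right _ _)⟩
    have hQN : Q ⊆ f N '' interior (S.K (c N).1) := hM0.trans (hs.mono hN0)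
    obtain ⟨d, rfl⟩ := Nat.exists_eq_add_of_le hNm
    obtain ⟨d', hd'⟩ := Nat.exists_eq_add_of_le hNm'
    haveI : Nonempty M := ⟨(S.neK 0).some⟩
    obtain ⟨q, hq, hq1, hq2, -⟩ := (hs.oe (m + d)).exists_inv
    obtain ⟨h', hsupp', hh'⟩ := transport hq h hQ hQN hsupp
    refine ⟨d, d', hd', h', ⟨q '' Q, hQ.image_of_continuousOn (hq.cont.mono hQN), ?_, hsupp'⟩, ?_⟩
    · rintro _ ⟨y, hy, rfl⟩
      exact (hq2 y (hQN hy)).1
    · intro x hx
      have hax : a x ∈ interior (S.K (c m).1) := ha.mapsK hx
      have hbx : b x ∈ interior (S.K (c m').1) := hb.mapsK hx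
      have h1 := hs.tr_interior m d _ hax
      have h2 := (hs.comp_tr m d _ (interior_subset hax)).2
      have h3 := hs.tr_interior m' d' _ hbx
      have h4 := (hs.comp_tr m' d' _ (interior_subset hbx)).2
      rw [← hd'] at h3 h4
      have h5 := hh' (f (m + d) (tr S c m d (a x))) ⟨_, h1, rfl⟩
      rw [hq1 _ h1, h2] at h5
      have h6 : h (f m (a x)) = f m' (b x) := hab x hx
      rw [h6, ← h4, hq1 _ h3] at h5
      exact h5
  · rintro ⟨d, d', hd, h, ⟨Q, hQ, hQK, hsupp⟩, hab⟩
    obtain ⟨h', hsupp', hh'⟩ := transport (hs.oe (m + d)) h hQ hQK hsupp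
    have hcont : ContinuousOn (f (m + d)) Q :=
      (hs.cont (m + d)).mono (hQK.trans interior_subset)
    refine ⟨h', ⟨f (m + d) '' Q, f (m + d) '' S.K (c (m + d)).1,
      hQ.image_of_continuousOn hcont,
      (S.cK _).image_of_continuousOn (hs.cont (m + d)), ?_, hsupp'⟩, ?_⟩
    · exact (image_mono hQK).trans
        (interior_maximal (image_mono interior_subset) (hs.oe (m + d)).image_isOpen)
    · intro x hx
      have hax : a x ∈ interior (S.K (c m).1) := ha.mapsK hx
      have hbx : b x ∈ interior (S.K (c m').1) := hb.mapsK hx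
      have h1 := hs.tr_interior m d _ hax
      have h2 := (hs.comp_tr m d _ (interior_subset hax)).2
      have h4 := (hs.comp_tr m' d' _ (interior_subset hbx)).2
      rw [← hd] at h4
      have h5 := hh' _ h1
      have h6 : h (tr S c m d (a x)) = tr S c m' d' (b x) := hab x hx
      rw [h2, h6, h4] at h5
      exact h5

end Pool.Agent.H75.Mfd
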