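import Pool.Agent.H75.Mfd.NamesLemmas
import Pool.Agent.H75.Mfd.EqvIff

set_option autoImplicit false

namespace Pool.Agent.H75.Mfd

open Set Topology Metric Filter

variable {n : ℕ} {M : Type} [MetricSpace M]

/-- a hit is a member of the named set -/
theorem hit_iff (S : Sys n M) {X : Type*} [MetricSpace X] {e : ℕ → X} {c : ℕ → ℕ × ℕ}
    {w : ℕ → S.D → ℕ → ℝ} {f : ℕ → M → X} (hs : IsSystem S X c f)
    (hw : ∀ m (z : S.D), (z : M) ∈ S.K (c m).1 → ∀ b, w m z b = dist (f m z) (e b)) (ν : Nm)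
    (m k : ℕ) : Hit S c w ν m k ↔
      S.good ν.i (c m).1 k ∧ InN S e ν (f m ∘ S.u ν.i (c m).1 k) := by
  unfold Hit InN
  refine and_congr_right fun hg => ?_
  have hapx : Apx S ν (fun z b => w m (S.uD ν.i (c m).1 k z) b) ↔
      Apx S ν (fun z b => dist ((f m ∘ S.u ν.i (c m).1 k) z) (e b)) := by
    unfold Apx
    refine exists_congr fun l => forall_congr' fun j => forall_congr' fun _ =>
      forall_congr' fun z => forall_congr' fun hz => forall_congr' fun _ => ?_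
    have h1 : ((S.uD ν.i (c m).1 k z : S.D) : M) ∈ S.K (c m).1 :=
      interior_subset (S.u_maps _ _ _ hg hz)
    have h2 := hw m _ h1 (ν.be.getD j 0)
    show w m (S.uD ν.i (c m).1 k z) (ν.be.getD j 0) ≤ _ ↔ _
    rw [h2]
    rfl
  rw [hapx]
  exact ⟨fun h => ⟨hs.emb (mor_u hg), h⟩, fun h => h.2⟩

/-- every member of a named set is equivalent to a hit -/
theorem exists_hit (S : Sys n M) {X : Type*} [MetricSpace X] {e : ℕ → X} {c : ℕ → ℕ × ℕ}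
    {w : ℕ → S.D → ℕ → ℝ} {f : ℕ → M → X} (hs : IsSystem S X c f)
    (hw : ∀ m (z : S.D), (z : M) ∈ S.K (c m).1 → ∀ b, w m z b = dist (f m z) (e b)) (ν : Nm)
    {g : M → X} (hg : InN S e ν g) : ∃ m k, Hit S c w ν m k ∧
      Eqv S ν.i g (f m ∘ S.u ν.i (c m).1 k) := by
  obtain ⟨δ, hδ, H⟩ := inN_open S hg
  obtain ⟨m, k, hgood, hd, he⟩ := hs.approx hg.1 hδ
  refine ⟨m, k, (hit_iff S hs hw ν m k).2 ⟨hgood, H _ (hs.emb (mor_u hgood)) ?_⟩, he⟩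
  exact fun x hx => hd x hx

theorem psi_iff (S : Sys n M) {X : Type*} [MetricSpace X] {e : ℕ → X} {c : ℕ → ℕ × ℕ}
    {w : ℕ → S.D → ℕ → ℝ} {f : ℕ → M → X} (hs : IsSystem S X c f)
    (hw : ∀ m (z : S.D), (z : M) ∈ S.K (c m).1 → ∀ b, w m z b = dist (f m z) (e b)) (a : Pr) :
    PsiX S e a ↔ PsiW S c w a := by
  have hhit := hit_iff S hs hw
  have hex := fun ν (g : M → X) (hg : InN S e ν g) => exists_hit S hs hw ν hg
  cases a with
  | sort ν =>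
    simp only [PsiX, PsiW]
    constructor
    · rintro ⟨⟨g, hg⟩, hall⟩
      refine ⟨?_, ?_⟩
      · obtain ⟨m, k, h, -⟩ := hex ν g hg
        exact ⟨m, k, h⟩
      · intro m k m' k' h h'
        have h1 := (hhit ν m k).1 h
        have h2 := (hhit ν m' k').1 h'
        exact (hs.eqv_iff (mor_u h1.1) (mor_u h2.1)).1 (hall _ _ h1.2 h2.2)
    · rintro ⟨⟨m, k, h⟩, hall⟩
      refine ⟨⟨_, ((hhit ν m k).1 h).2⟩, ?_⟩
      intro g g' hg hg'
      obtain ⟨m₁, k₁, h₁, e₁⟩ := hex ν g hg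
      obtain ⟨m₂, k₂, h₂, e₂⟩ := hex ν g' hg'
      have h1 := (hhit ν m₁ k₁).1 h₁
      have h2 := (hhit ν m₂ k₂).1 h₂
      have h3 := (hs.eqv_iff (mor_u h1.1) (mor_u h2.1)).2 (hall m₁ k₁ m₂ k₂ h₁ h₂)
      exact (e₁.trans h3).trans e₂.symm
  | eq ν ν' =>
    simp only [PsiX, PsiW]
    obtain ⟨i, p, be, q⟩ := ν
    obtain ⟨i', p', be', q'⟩ := ν'
    constructor
    · rintro ⟨hi, g, g', hg, hg', he⟩
      simp only at hi
      subst hi
      refine ⟨rfl, ?_⟩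
      obtain ⟨m₁, k₁, h₁, e₁⟩ := hex _ g hg
      obtain ⟨m₂, k₂, h₂, e₂⟩ := hex _ g' hg'
      refine ⟨m₁, k₁, m₂, k₂, h₁, h₂, ?_⟩
      have h1 := (hhit _ m₁ k₁).1 h₁
      have h2 := (hhit _ m₂ k₂).1 h₂
      exact (hs.eqv_iff (mor_u h1.1) (mor_u h2.1)).1 ((e₁.symm.trans he).trans e₂)
    · rintro ⟨hi, m₁, k₁, m₂, k₂, h₁, h₂, hr⟩
      simp only at hi
      subst hi
      have h1 := (hhit _ m₁ k₁).1 h₁
      have h2 := (hhit _ m₂ k₂).1 h₂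
      exact ⟨rfl, _, _, h1.2, h2.2, (hs.eqv_iff (mor_u h1.1) (mor_u h2.1)).2 hr⟩
  | act k ν ν' =>
    simp only [PsiX, PsiW]
    refine and_congr_right fun hgood => ?_
    constructor
    · rintro ⟨g, g', hg, hg', he⟩
      obtain ⟨m₁, k₁, h₁, e₁⟩ := hex _ g hg
      obtain ⟨m₂, k₂, h₂, e₂⟩ := hex _ g' hg'
      refine ⟨m₁, k₁, m₂, k₂, h₁, h₂, ?_⟩
      have h1 := (hhit _ m₁ k₁).1 h₁
      have h2 := (hhit _ m₂ k₂).1 h₂
      have e₃ := Eqv.comp e₁ (mor_u hgood)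
      exact (hs.eqv_iff ((mor_u h1.1).comp (mor_u hgood)) (mor_u h2.1)).1
        ((e₃.symm.trans he).trans e₂)
    · rintro ⟨m₁, k₁, m₂, k₂, h₁, h₂, hr⟩
      have h1 := (hhit _ m₁ k₁).1 h₁
      have h2 := (hhit _ m₂ k₂).1 h₂
      exact ⟨_, _, h1.2, h2.2,
        (hs.eqv_iff ((mor_u h1.1).comp (mor_u hgood)) (mor_u h2.1)).2 hr⟩

end Pool.Agent.H75.Mfd
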