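import Pool.Agent.H75.Mfd.ValidDefs

/-!
Module VAL. Borel condition on (c, w, eta) saying that w codes an exhausting system of the space
coded by eta.
valid_of_system: w m z b = dist (f m z) (e b).
system_of_valid: for z in D cap K_{i_m} the function w m z is the distance function of a unique
point f m z of the complete space X (pt1, pt2, pt3: choose b_k with w m z b_k < 1/(k+1); the points
e b_k form a Cauchy sequence). uc extends f m continuously to K_{i_m} (D_K), inj gives injectivity,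
comp the compatibility, opn the openness on the interior (see proofs row), exh the exhaustion.
-/

set_option autoImplicit false

namespace Pool.Agent.H75.Mfd

open Set Topology Metric Filter

variable {n : ℕ} {M : Type} [MetricSpace M]

namespace SystemOf

/-- two points with the same distances to a dense set are equal -/
theorem eq_of_dist {X : Type*} [MetricSpace X] {e : ℕ → X} (hd : DenseRange e) {p q : X}
    (h : ∀ b, dist p (e b) = dist q (e b)) : p = q := by
  rw [← dist_le_zero]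
  refine le_of_forall_pos_le_add fun ε hε => ?_
  obtain ⟨b, hb⟩ := Metric.denseRange_iff.1 hd p (ε / 2) (by positivity)
  have h1 := dist_triangle_right p q (e b)
  rw [← h b] at h1
  linarith

theorem exists_near {X : Type*} [MetricSpace X] {e : ℕ → X} (hd : DenseRange e) (p : X) {ε : ℝ}
    (hε : 0 < ε) : ∃ b, dist p (e b) < ε :=
  Metric.denseRange_iff.1 hd p ε hε

theorem exists_inv {ε : ℝ} (hε : 0 < ε) : ∃ k : ℕ, 1 / ((k : ℝ) + 1) < ε :=
  exists_nat_one_div_lt hε

theorem inv_pos' (k : ℕ) : (0 : ℝ) < 1 / ((k : ℝ) + 1) := Nat.one_div_pos_of_nat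

/-- a distance function is realized by a point of the complete space -/
theorem exists_point {X : Type*} [MetricSpace X] [CompleteSpace X] {e : ℕ → X}
    {η : ℕ → ℕ → ℝ} (hη : ∀ i j, dist (e i) (e j) = η i j) {v : ℕ → ℝ}
    (h1 : ∀ a b, v a ≤ η a b + v b) (h2 : ∀ a b, η a b ≤ v a + v b)
    (h3 : ∀ k : ℕ, ∃ b, v b < 1 / ((k : ℝ) + 1)) : ∃ p : X, ∀ b, dist p (e b) = v b := by
  choose β hβ using h3
  have hcau : CauchySeq (fun k => e (β k)) := by
    rw [Metric.cauchySeq_iff]
    intro ε hε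
    obtain ⟨N, hN⟩ := exists_inv (half_pos hε)
    have hmono : ∀ k, N ≤ k → v (β k) < ε / 2 := by
      intro k hk
      refine (hβ k).trans_le (le_trans ?_ hN.le)
      exact Nat.one_div_le_one_div hk
    refine ⟨N, fun k hk l hl => ?_⟩
    rw [hη]
    have := h2 (β k) (β l)
    have := hmono k hk
    have := hmono l hl
    linarith
  obtain ⟨p, hp⟩ := cauchySeq_tendsto_of_complete hcau
  refine ⟨p, fun b => ?_⟩
  have hv : Tendsto (fun k => v (β k)) atTop (𝓝 0) := by
    refine tendsto_of_tendsto_of_tendsto_of_le_of_le tendsto_const_nhds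
      tendsto_one_div_add_atTop_nhds_zero_nat (fun k => ?_) (fun k => (hβ k).le)
    have := h2 (β k) (β k)
    rw [← hη, dist_self] at this
    show 0 ≤ v (β k)
    linarith
  have hA : Tendsto (fun k => dist (e (β k)) (e b)) atTop (𝓝 (dist p (e b))) :=
    hp.dist tendsto_const_nhds
  have hB : Tendsto (fun k => dist (e (β k)) (e b)) atTop (𝓝 (v b)) := by
    have hlow : Tendsto (fun k => v b - v (β k)) atTop (𝓝 (v b)) := by
      simpa using tendsto_const_nhds.sub hv
    have hup : Tendsto (fun k => v b + v (β k)) atTop (𝓝 (v b)) := by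
      simpa using tendsto_const_nhds.add hv
    refine tendsto_of_tendsto_of_tendsto_of_le_of_le hlow hup (fun k => ?_) (fun k => ?_)
    · show v b - v (β k) ≤ dist (e (β k)) (e b)
      have := h1 b (β k)
      rw [← hη, dist_comm] at this
      linarith
    · show dist (e (β k)) (e b) ≤ v b + v (β k)
      have := h2 (β k) b
      rw [hη]
      linarith
  exact tendsto_nhds_unique hA hB

/-- continuous extension of a uniformly continuous map on a dense part of a set -/
theorem exists_ext {X : Type*} [MetricSpace X] [CompleteSpace X] {A K : Set M}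
    (hK : K ⊆ closure A) {g : M → X}
    (hg : ∀ ε > 0, ∃ δ > 0, ∀ z ∈ A, ∀ z' ∈ A, dist z z' < δ → dist (g z) (g z') < ε) :
    ∃ f : M → X, ContinuousOn f K ∧ ∀ z ∈ A, f z = g z := by
  have hlim : ∀ x ∈ K, ∃ y, Tendsto g (𝓝[A] x) (𝓝 y) := by
    intro x hx
    have : NeBot (𝓝[A] x) := mem_closure_iff_nhdsWithin_neBot.1 (hK hx)
    refine cauchy_map_iff_exists_tendsto.1 (Metric.cauchy_iff.2 ⟨inferInstance, ?_⟩)
    intro ε hε
    obtain ⟨δ, hδ, h⟩ := hg ε hε
    refine ⟨g '' (A ∩ ball x (δ / 2)), image_mem_map ?_, ?_⟩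
    · exact inter_mem self_mem_nhdsWithin
        (mem_nhdsWithin_of_mem_nhds (ball_mem_nhds x (half_pos hδ)))
    · rintro _ ⟨z, hz, rfl⟩ _ ⟨z', hz', rfl⟩
      refine h z hz.1 z' hz'.1 ?_
      have h1 := dist_triangle_right z z' x
      have h2 := mem_ball.1 hz.2
      have h3 := mem_ball.1 hz'.2
      linarith
  have hc : ContinuousOn g A := by
    intro x hx
    rw [ContinuousWithinAt, Metric.tendsto_nhdsWithin_nhds]
    intro ε hε
    obtain ⟨δ, hδ, h⟩ := hg ε hε
    exact ⟨δ, hδ, fun {z} hz hzx => h z hz x hx hzx⟩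
  exact ⟨extendFrom A g, continuousOn_extendFrom hK hlim, extendFrom_extends hc⟩

end SystemOf

open SystemOf

theorem system_of_valid (S : Sys n M) {X : Type*} [MetricSpace X] [CompleteSpace X]
    {η : ℕ → ℕ → ℝ} {e : ℕ → X} (hd : DenseRange e) (hη : ∀ i j, dist (e i) (e j) = η i j)
    {c : ℕ → ℕ × ℕ} {w : ℕ → S.D → ℕ → ℝ} (hv : Valid S c w η) :
    ∃ f : ℕ → M → X, IsSystem S X c f ∧
      ∀ m (z : S.D), (z : M) ∈ S.K (c m).1 → ∀ b, w m z b = dist (f m z) (e b) := by
  classical
  -- Step 1 : the points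
  have h1 : ∀ m, ∃ g : M → X, ∀ z : S.D, (z : M) ∈ S.K (c m).1 →
      ∀ b, dist (g z) (e b) = w m z b := by
    intro m
    have : ∀ x : M, ∃ p : X, ∀ hx : x ∈ S.D, x ∈ S.K (c m).1 → ∀ b, dist p (e b) = w m ⟨x, hx⟩ b := by
      intro x
      by_cases hx : x ∈ S.D ∧ x ∈ S.K (c m).1
      · obtain ⟨p, hp⟩ := exists_point hη (v := w m ⟨x, hx.1⟩) (hv.pt1 m ⟨x, hx.1⟩ hx.2)
          (hv.pt2 m ⟨x, hx.1⟩ hx.2) (hv.pt3 m ⟨x, hx.1⟩ hx.2)
        exact ⟨p, fun _ _ => hp⟩
      · exact ⟨e 0, fun h h' => (hx ⟨h, h'⟩).elim⟩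
    choose g hg using this
    exact ⟨g, fun z hz b => hg z z.2 hz b⟩
  choose g hg using h1
  -- Step 2 : the extensions
  have h2 : ∀ m, ∃ f : M → X, ContinuousOn f (S.K (c m).1) ∧
      ∀ z ∈ S.D ∩ S.K (c m).1, f z = g m z := by
    intro m
    refine exists_ext (S.D_K _) ?_
    intro ε hε
    obtain ⟨k, hk⟩ := exists_inv (half_pos hε)
    obtain ⟨l, hl⟩ := hv.uc m k
    refine ⟨1 / ((l : ℝ) + 1), inv_pos' l, fun z hz z' hz' hzz => ?_⟩
    obtain ⟨b, hb, hb'⟩ := hl ⟨z, hz.1⟩ ⟨z', hz'.1⟩ hz.2 hz'.2 hzz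
    rw [← hg m ⟨z, hz.1⟩ hz.2] at hb
    rw [← hg m ⟨z', hz'.1⟩ hz'.2] at hb'
    have h1 := dist_triangle_right (g m z) (g m z') (e b)
    simp only at hb hb'
    linarith
  choose f hfc hfg using h2
  have hw : ∀ m (z : S.D), (z : M) ∈ S.K (c m).1 → ∀ b, w m z b = dist (f m z) (e b) := by
    intro m z hz b
    rw [hfg m z ⟨z.2, hz⟩, hg m z hz b]
  -- approximation by points of D
  have happ : ∀ m, ∀ x ∈ S.K (c m).1, ∀ ε > 0, ∃ z : S.D, (z : M) ∈ S.K (c m).1 ∧
      dist x (z : M) < ε ∧ dist (f m x) (f m z) < ε := by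
    intro m x hx ε hε
    obtain ⟨δ, hδ, h⟩ := Metric.continuousWithinAt_iff.1 (hfc m x hx) ε hε
    obtain ⟨z, hz, hxz⟩ := Metric.mem_closure_iff.1 (S.D_K _ hx) (min δ ε) (lt_min hδ hε)
    refine ⟨⟨z, hz.1⟩, hz.2, hxz.trans_le (min_le_right _ _), ?_⟩
    rw [dist_comm]
    exact h hz.2 (by rw [dist_comm]; exact hxz.trans_le (min_le_left _ _))
  -- Step 3 : injectivity
  have hinj : ∀ m, InjOn (f m) (S.K (c m).1) := by
    intro m x hx y hy hxy
    by_contra hne
    have hpos : 0 < dist x y := dist_pos.2 hne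
    obtain ⟨k, hk⟩ := exists_inv (half_pos hpos)
    obtain ⟨l, hl⟩ := hv.inj m k
    have hlp := inv_pos' l
    set r : ℝ := min (dist x y / 4) (1 / ((l : ℝ) + 1) / 4) with hr
    have hrp : 0 < r := lt_min (by positivity) (by positivity)
    obtain ⟨z, hz, hxz, hfz⟩ := happ m x hx r hrp
    obtain ⟨z', hz', hyz', hfz'⟩ := happ m y hy r hrp
    have hr1 : r ≤ dist x y / 4 := min_le_left _ _
    have hr2 : r ≤ 1 / ((l : ℝ) + 1) / 4 := min_le_right _ _
    have hzz : 1 / ((k : ℝ) + 1) ≤ dist (z : M) z' := by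
      have t1 := dist_triangle4 x z z' y
      rw [dist_comm (z' : M) y] at t1
      linarith
    obtain ⟨b, hb⟩ := exists_near hd (f m x) (ε := 1 / ((l : ℝ) + 1) / 4) (by positivity)
    have h3 := hl z z' hz hz' hzz b
    rw [hw m z hz b, hw m z' hz' b] at h3
    have t1 := dist_triangle_left (f m z) (e b) (f m x)
    have t2 := dist_triangle_left (f m z') (e b) (f m y)
    rw [← hxy] at t2 hfz'
    linarith
  -- Step 4 : compatibility
  have hmap : ∀ m, MapsTo (S.u (c m).1 (c (m + 1)).1 (c m).2) (S.K (c m).1)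
      (interior (S.K (c (m + 1)).1)) := fun m => (mor_u (hv.good m)).mapsK
  have hcomp : ∀ m, ∀ x ∈ S.K (c m).1,
      f (m + 1) (S.u (c m).1 (c (m + 1)).1 (c m).2 x) = f m x := by
    intro m
    have hD : ∀ x ∈ S.D ∩ S.K (c m).1,
        f (m + 1) (S.u (c m).1 (c (m + 1)).1 (c m).2 x) = f m x := by
      intro x hx
      refine eq_of_dist hd fun b => ?_
      have h3 := hv.comp m ⟨x, hx.1⟩ hx.2 b
      rw [hw m ⟨x, hx.1⟩ hx.2 b, hw (m + 1) _ (interior_subset (hmap m hx.2)) b] at h3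
      exact h3
    obtain ⟨⟨U, hU, hoe⟩, -⟩ := mor_u (hv.good m)
    have hKU : S.K (c m).1 ⊆ U := fun x hx => hU (interior_subset (S.KL _ hx))
    have hc1 : ContinuousOn (fun x => f (m + 1) (S.u (c m).1 (c (m + 1)).1 (c m).2 x))
        (S.K (c m).1) :=
      (hfc (m + 1)).comp (hoe.cont.mono hKU) fun x hx => interior_subset (hmap m hx)
    intro x hx
    have : NeBot (𝓝[S.D ∩ S.K (c m).1] x) := mem_closure_iff_nhdsWithin_neBot.1 (S.D_K _ hx)
    have t1 := (hc1 x hx).mono_left (nhdsWithin_mono x (inter_subset_right (s := S.D)))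
    have t2 := (hfc m x hx).mono_left (nhdsWithin_mono x (inter_subset_right (s := S.D)))
    refine tendsto_nhds_unique t1 (t2.congr' ?_)
    filter_upwards [self_mem_nhdsWithin] with y hy
    exact (hD y hy).symm
  -- images
  have hcpt : ∀ m, IsCompact (f m '' S.K (c m).1) := fun m =>
    (S.cK _).image_of_continuousOn (hfc m)
  have hclos : ∀ m (y : X), (∀ ε > 0, ∃ z ∈ S.K (c m).1, dist (f m z) y < ε) →
      y ∈ f m '' S.K (c m).1 := by
    intro m y hy
    rw [← (hcpt m).isClosed.closure_eq, Metric.mem_closure_iff]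
    intro ε hε
    obtain ⟨z, hz, hzy⟩ := hy ε hε
    exact ⟨_, ⟨z, hz, rfl⟩, by rwa [dist_comm]⟩
  -- Step 5 : openness
  have hball : ∀ m, ∃ r > 0, ∀ x ∈ S.K (c m).1, ball (f m x) r ⊆ f (m + 1) '' S.K (c (m + 1)).1 := by
    intro m
    obtain ⟨l, hl⟩ := hv.opn m
    refine ⟨1 / ((l : ℝ) + 1), inv_pos' l, fun x hx y hy => hclos _ _ fun ε hε => ?_⟩
    rw [mem_ball] at hy
    set s : ℝ := (1 / ((l : ℝ) + 1) - dist y (f m x)) / 2 with hs
    have hsp : 0 < s := by rw [hs]; linarith
    obtain ⟨b, hb⟩ := exists_near hd y (lt_min hsp (half_pos hε))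
    have hb1 : dist y (e b) < s := hb.trans_le (min_le_left _ _)
    have hb2 : dist y (e b) < ε / 2 := hb.trans_le (min_le_right _ _)
    obtain ⟨z, hz, -, hfz⟩ := happ m x hx s hsp
    have hz2 : w m z b < 1 / ((l : ℝ) + 1) := by
      rw [hw m z hz b]
      have t1 := dist_triangle4 (f m z) (f m x) y (e b)
      rw [dist_comm (f m x) y] at t1
      rw [dist_comm (f m x)] at hfz
      linarith
    obtain ⟨k, hk⟩ := exists_inv (half_pos hε)
    obtain ⟨z', hz', hwz'⟩ := hl b ⟨z, hz, hz2⟩ k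
    refine ⟨z', hz', ?_⟩
    rw [hw (m + 1) z' hz' b] at hwz'
    have t1 := dist_triangle_right (f (m + 1) z') y (e b)
    linarith
  have hoe : ∀ m, OE (f m) (interior (S.K (c m).1)) := by
    intro m
    refine ⟨isOpen_interior, (hfc m).mono interior_subset, (hinj m).mono interior_subset,
      fun V hV hVo => ?_⟩
    obtain ⟨⟨U, hU, hou⟩, -⟩ := mor_u (hv.good m)
    have hVK : V ⊆ S.K (c m).1 := hV.trans interior_subset
    have hVU : V ⊆ U := fun x hx => hU (interior_subset (S.KL _ (hVK hx)))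
    set u := S.u (c m).1 (c (m + 1)).1 (c m).2 with hu
    have hopen : IsOpen (u '' V) := hou.opn V hVU hVo
    have hT : IsClosed (f (m + 1) '' (S.K (c (m + 1)).1 \ u '' V)) :=
      (((S.cK _).diff hopen).image_of_continuousOn ((hfc (m + 1)).mono sdiff_subset)).isClosed
    obtain ⟨r, hr, hb⟩ := hball m
    rw [Metric.isOpen_iff]
    rintro _ ⟨x, hx, rfl⟩
    have hxT : f m x ∈ (f (m + 1) '' (S.K (c (m + 1)).1 \ u '' V))ᶜ := by
      rintro ⟨t, ⟨ht, htV⟩, hte⟩
      rw [← hcomp m x (hVK hx)] at hte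
      have := hinj (m + 1) ht (interior_subset (hmap m (hVK hx))) hte
      exact htV ⟨x, hx, this.symm⟩
    obtain ⟨r', hr', hb'⟩ := Metric.isOpen_iff.1 hT.isOpen_compl _ hxT
    refine ⟨min r r', lt_min hr hr', fun y hy => ?_⟩
    rw [mem_ball] at hy
    obtain ⟨t, ht, rfl⟩ := hb x (hVK hx) (mem_ball.2 (hy.trans_le (min_le_left _ _)))
    have hyT := hb' (mem_ball.2 (hy.trans_le (min_le_right _ _)))
    have htV : t ∈ u '' V := by
      by_contra hcon
      exact hyT ⟨t, ⟨ht, hcon⟩, rfl⟩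
    obtain ⟨x', hx', rfl⟩ := htV
    exact ⟨x', hx', (hcomp m x' (hVK hx')).symm⟩
  -- Step 6 : exhaustion
  have hmono1 : ∀ m, f m '' S.K (c m).1 ⊆ f (m + 1) '' interior (S.K (c (m + 1)).1) := by
    rintro m _ ⟨x, hx, rfl⟩
    exact ⟨_, hmap m hx, hcomp m x hx⟩
  have hmono : ∀ m m', m ≤ m' →
      f m '' interior (S.K (c m).1) ⊆ f m' '' interior (S.K (c m').1) := by
    intro m m' h
    induction m', h using Nat.le_induction with
    | base => exact Subset.rfl
    | succ k _ ih => exact (ih.trans (image_mono interior_subset)).trans (hmono1 k)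
  have hexh : ∀ Q Q' : Set X, IsCompact Q → IsCompact Q' → Q ⊆ interior Q' →
      ∃ m, Q ⊆ f m '' interior (S.K (c m).1) := by
    intro Q Q' hQ hQ' hQQ
    refine hQ.induction_on (p := fun s => ∃ m, s ⊆ f m '' interior (S.K (c m).1))
      ⟨0, empty_subset _⟩ ?_ ?_ ?_
    · rintro s t hst ⟨m, hm⟩
      exact ⟨m, hst.trans hm⟩
    · rintro s t ⟨m, hm⟩ ⟨m', hm'⟩
      exact ⟨max m m', union_subset (hm.trans (hmono _ _ (le_max_left _ _)))
        (hm'.trans (hmono _ _ (le_max_right _ _)))⟩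
    · intro y hy
      obtain ⟨r, hr, hrQ⟩ := Metric.isOpen_iff.1 isOpen_interior y (hQQ hy)
      obtain ⟨q, hq⟩ := exists_inv (half_pos hr)
      have hqp := inv_pos' q
      obtain ⟨b, hb⟩ := exists_near hd y hqp
      have hbQ : ball (e b) (1 / ((q : ℝ) + 1)) ⊆ Q' := by
        intro x hx
        refine interior_subset (hrQ ?_)
        rw [mem_ball] at hx ⊢
        have t1 := dist_triangle_right x y (e b)
        linarith
      obtain ⟨m, hm⟩ := hv.exh b q (by
        intro k
        have hkp := inv_pos' k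
        obtain ⟨t, htf, ht⟩ := Metric.totallyBounded_iff.1 hQ'.totallyBounded
          (1 / ((k : ℝ) + 1) / 2) (by positivity)
        have : ∀ x : X, ∃ a, dist x (e a) < 1 / ((k : ℝ) + 1) / 2 := fun x =>
          exists_near hd x (by positivity)
        choose α hα using this
        refine ⟨htf.toFinset.image α, fun b' hb' => ?_⟩
        rw [← hη, dist_comm] at hb'
        obtain ⟨x, hxt, hx⟩ := mem_iUnion₂.1 (ht (hbQ (mem_ball.2 hb')))
        refine ⟨α x, Finset.mem_image.2 ⟨x, htf.mem_toFinset.2 hxt, rfl⟩, ?_⟩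
        rw [← hη]
        rw [mem_ball] at hx
        have t1 := dist_triangle_left (e (α x)) (e b') x
        have t2 := hα x
        rw [dist_comm (e b') x] at hx
        linarith)
      refine ⟨ball (e b) (1 / ((q : ℝ) + 1)), mem_nhdsWithin_of_mem_nhds ?_, m + 1, ?_⟩
      · exact isOpen_ball.mem_nhds (mem_ball.2 hb)
      · refine Subset.trans ?_ (hmono1 m)
        intro x hx
        rw [mem_ball] at hx
        refine hclos _ _ fun ε hε => ?_
        obtain ⟨b', hb'⟩ := exists_near hd x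
          (lt_min (half_pos hε) (sub_pos.2 hx))
        have hb1 : dist x (e b') < ε / 2 := hb'.trans_le (min_le_left _ _)
        have hb2 : dist x (e b') < 1 / ((q : ℝ) + 1) - dist x (e b) :=
          hb'.trans_le (min_le_right _ _)
        obtain ⟨k, hk⟩ := exists_inv (half_pos hε)
        obtain ⟨z, hz, hzw⟩ := hm b' (by
          rw [← hη]
          have t1 := dist_triangle_left (e b) (e b') x
          linarith) k
        refine ⟨z, hz, ?_⟩
        rw [hw m z hz b'] at hzw
        have t1 := dist_triangle_right (f m z) x (e b')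
        linarith
  exact ⟨f, ⟨hv.good, hfc, hinj, hoe, hcomp, hexh⟩, hw⟩

end Pool.Agent.H75.Mfd
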