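import Pool.Agent.H75.Mfd.SystemDefs

/-!
Module EXH. Existence of exhausting systems.
`IsSystem S X c f`: c m = (i_m, k_m), f m : K_{i_m} -> X embeddings with f (m+1) o u = f m on
K_{i_m}, exhausting X by compact sets having compact neighbourhoods.
one_step: given f in Emb i X and a compact C choose (cover) j and f1 in Emb j X with
C cup f(L_i) (plus a compact neighbourhood) inside f1 (interior K_j); e = f1^{-1} o f is in
Mor i j; u = u i j k close to e (u_dense), f1 o u close to f on L_i (uniform continuity of f1 on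
K_j), Emb.stable for f gives h, moving only points of f(L_i), h f = f1 u on K_i; put
f' = h^{-1} o f1. Then f' u = f on K_i and C inside f' (interior K_j), because h preserves
f1 (interior K_j).
-/

set_option autoImplicit false

namespace Pool.Agent.H75.Mfd

open Set Topology Metric Filter

variable {n : ℕ} {M : Type} [MetricSpace M]

theorem IsSystem.comp_tr {S : Sys n M} {X : Type*} [TopologicalSpace X] {c : ℕ → ℕ × ℕ}
    {f : ℕ → M → X} (hs : IsSystem S X c f) (m d : ℕ) :
    ∀ x ∈ S.K (c m).1, tr S c m d x ∈ S.K (c (m + d)).1 ∧ f (m + d) (tr S c m d x) = f m x := by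
  induction d with
  | zero => exact fun x hx => ⟨hx, rfl⟩
  | succ d ih =>
    intro x hx
    obtain ⟨h1, h2⟩ := ih x hx
    refine ⟨interior_subset ((mor_u (hs.good (m + d))).mapsK h1), ?_⟩
    rw [← h2]
    exact hs.comp (m + d) _ h1

theorem IsSystem.tr_interior {S : Sys n M} {X : Type*} [TopologicalSpace X] {c : ℕ → ℕ × ℕ}
    {f : ℕ → M → X} (hs : IsSystem S X c f) (m d : ℕ) :
    ∀ x ∈ interior (S.K (c m).1), tr S c m d x ∈ interior (S.K (c (m + d)).1) := by
  cases d with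
  | zero => exact fun x hx => hx
  | succ d =>
    intro x hx
    exact (mor_u (hs.good (m + d))).mapsK (hs.comp_tr m d x (interior_subset hx)).1

theorem IsSystem.mono {S : Sys n M} {X : Type*} [TopologicalSpace X] {c : ℕ → ℕ × ℕ}
    {f : ℕ → M → X} (hs : IsSystem S X c f) {m m' : ℕ} (h : m ≤ m') :
    f m '' interior (S.K (c m).1) ⊆ f m' '' interior (S.K (c m').1) := by
  obtain ⟨d, rfl⟩ := Nat.exists_eq_add_of_le h
  rintro _ ⟨x, hx, rfl⟩
  exact ⟨tr S c m d x, hs.tr_interior m d x hx, (hs.comp_tr m d x (interior_subset hx)).2⟩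

/-- the maps `f m ∘ u` are dense in the embeddings of the piece `i` -/
theorem IsSystem.approx {S : Sys n M} {X : Type*} [MetricSpace X] {c : ℕ → ℕ × ℕ}
    {f : ℕ → M → X} (hs : IsSystem S X c f) {i : ℕ} {g : M → X} (hg : Emb S i g) {ε : ℝ}
    (hε : 0 < ε) :
    ∃ m k, S.good i (c m).1 k ∧ (∀ x ∈ S.L i, dist (g x) (f m (S.u i (c m).1 k x)) < ε) ∧
      Eqv S i g (f m ∘ S.u i (c m).1 k) := by
  obtain ⟨δ, hδ, H⟩ := hg.stable_eqv
  obtain ⟨hc, Q', hQ', hsub⟩ := hg.image_compact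
  obtain ⟨m, hm⟩ := hs.exh _ _ hc hQ' hsub
  obtain ⟨U, hU, hgU⟩ := hg
  haveI : Nonempty M := ⟨(S.neK 0).some⟩
  obtain ⟨q, hq, hq1, hq2, -⟩ := (hs.oe m).exists_inv
  -- the embedding into the piece
  have he : OE (q ∘ g) (U ∩ g ⁻¹' (f m '' interior (S.K (c m).1))) := hq.comp_inter hgU
  have hLs : S.L i ⊆ U ∩ g ⁻¹' (f m '' interior (S.K (c m).1)) :=
    fun x hx => ⟨hU hx, hm ⟨x, hx, rfl⟩⟩
  have hmaps : MapsTo (q ∘ g) (S.L i) (interior (S.K (c m).1)) :=
    fun x hx => (hq2 _ (hLs hx).2).1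
  have huc := (S.cK (c m).1).uniformContinuousOn_of_continuous (hs.cont m)
  rw [Metric.uniformContinuousOn_iff] at huc
  obtain ⟨δ', hδ', huc⟩ := huc (min ε δ) (lt_min hε hδ)
  obtain ⟨k, hk, hku⟩ := S.u_dense i (c m).1 (q ∘ g) ⟨_, hLs, he⟩ hmaps δ' hδ'
  have key : ∀ x ∈ S.L i, dist (g x) (f m (S.u i (c m).1 k x)) < min ε δ := by
    intro x hx
    have h1 := huc ((q ∘ g) x) (interior_subset (hmaps hx)) (S.u i (c m).1 k x)
      (interior_subset (S.u_maps i _ k hk hx)) (hku x hx)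
    rwa [Function.comp_apply, (hq2 _ (hLs hx).2).2] at h1
  exact ⟨m, k, hk, fun x hx => (key x hx).trans_le (min_le_left _ _),
    H _ (hs.emb (mor_u hk)) fun x hx => (key x hx).trans_le (min_le_right _ _)⟩

end Pool.Agent.H75.Mfd
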