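import Pool.Agent.H75.Mfd.ValidDefs
import Pool.Agent.H75.Mfd.SystemApprox

/-!
Module VAL. Borel condition on (c, w, eta) saying that w codes an exhausting system of the space
coded by eta.
valid_of_system: w m z b = dist (f m z) (e b).
system_of_valid: for z in D cap K_{i_m} the function w m z is the distance function of a unique
point f m z of the complete space X (pt1, pt2, pt3: choose b_k with w m z b_k < 1/(k+1); the points
e b_k form a Cauchy sequence). uc extends f m continuously to K_{i_m} (D_K), inj gives injectivity,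
comp the compatibility, opn the openness on the interior (see proofs row), exh the exhaustion.
-/

set_option autoImplicit false

namespace Pool.Agent.H75.Mfd

open Set Topology Metric Filter

variable {n : ℕ} {M : Type} [MetricSpace M]

/-- images of points of `D` are dense in the image of a piece -/
theorem vo_dense (S : Sys n M) {X : Type} [MetricSpace X] {c : ℕ → ℕ × ℕ} {f : ℕ → M → X}
    (hs : IsSystem S X c f) (m : ℕ) (x : M) (hx : x ∈ S.K (c m).1) (ε : ℝ) (hε : 0 < ε) :
    ∃ z : S.D, (z : M) ∈ S.K (c m).1 ∧ dist (f m z) (f m x) < ε := by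
  obtain ⟨δ, hδ, H⟩ := Metric.continuousWithinAt_iff.1 (hs.cont m x hx) ε hε
  obtain ⟨y, hy, hxy⟩ := Metric.mem_closure_iff.1 (S.D_K _ hx) δ hδ
  refine ⟨⟨y, hy.1⟩, hy.2, H hy.2 ?_⟩
  rw [dist_comm]
  exact hxy

theorem vo_inv_lt {δ : ℝ} (hδ : 0 < δ) : ∃ l : ℕ, 1 / ((l : ℝ) + 1) < δ :=
  exists_nat_one_div_lt hδ

theorem vo_pos (k : ℕ) : (0 : ℝ) < 1 / ((k : ℝ) + 1) := Nat.one_div_pos_of_nat

/-- the image of a piece lies in the open image of the next one -/
theorem vo_next (S : Sys n M) {X : Type} [MetricSpace X] {c : ℕ → ℕ × ℕ} {f : ℕ → M → X}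
    (hs : IsSystem S X c f) (m : ℕ) :
    f m '' S.K (c m).1 ⊆ f (m + 1) '' interior (S.K (c (m + 1)).1) := by
  rintro _ ⟨x, hx, rfl⟩
  exact ⟨S.u (c m).1 (c (m + 1)).1 (c m).2 x, (mor_u (hs.good m)).mapsK hx, hs.comp m x hx⟩

theorem valid_of_system (S : Sys n M) {X : Type} [MetricSpace X] [CompleteSpace X]
    {η : ℕ → ℕ → ℝ} {e : ℕ → X} (he : Function.Injective e) (hd : DenseRange e)
    (hη : ∀ i j, dist (e i) (e j) = η i j) (hX : LocEuc n X) {c : ℕ → ℕ × ℕ} {f : ℕ → M → X}
    (hs : IsSystem S X c f) :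
    Valid S c (fun m z b => dist (f m z) (e b)) η := by
  have hden : ∀ (x : X) (ε : ℝ), 0 < ε → ∃ b, dist x (e b) < ε := fun x ε hε =>
    hd.exists_dist_lt x hε
  constructor
  · intro a
    rw [← hη, dist_self]
  · intro a b hab
    rw [← hη]
    exact dist_pos.2 (he.ne hab)
  · intro a b
    rw [← hη, ← hη, dist_comm]
  · intro a b d
    rw [← hη, ← hη, ← hη]
    exact dist_triangle _ _ _
  · exact hs.good
  · intro m z _ a b
    rw [← hη]
    show dist (f m z) (e a) ≤ dist (e a) (e b) + dist (f m z) (e b)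
    have := dist_triangle (f m z) (e b) (e a)
    rw [dist_comm (e b) (e a)] at this
    linarith
  · intro m z _ a b
    rw [← hη]
    show dist (e a) (e b) ≤ dist (f m z) (e a) + dist (f m z) (e b)
    have := dist_triangle (e a) (f m z) (e b)
    rw [dist_comm (e a) (f m z)] at this
    linarith
  · intro m z _ k
    exact hden _ _ (vo_pos k)
  · intro m k
    have huc : UniformContinuousOn (f m) (S.K (c m).1) :=
      (S.cK _).uniformContinuousOn_of_continuous (hs.cont m)
    obtain ⟨δ, hδ, H⟩ := Metric.uniformContinuousOn_iff.1 huc (1 / ((k : ℝ) + 1) / 2)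
      (half_pos (vo_pos k))
    obtain ⟨l, hl⟩ := vo_inv_lt hδ
    refine ⟨l, ?_⟩
    intro z z' hz hz' hzz
    obtain ⟨b, hb⟩ := hden (f m z) (1 / ((k : ℝ) + 1) / 2) (half_pos (vo_pos k))
    have h1 := H z hz z' hz' (hzz.trans hl)
    have h2 := vo_pos k
    refine ⟨b, ?_, ?_⟩
    · show dist (f m z) (e b) < _
      linarith
    · show dist (f m z') (e b) < _
      have := dist_triangle (f m z') (f m z) (e b)
      rw [dist_comm (f m z') (f m z)] at this
      linarith
  · intro m k
    -- compactness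
    let P : Set (M × M) := (S.K (c m).1 ×ˢ S.K (c m).1) ∩
      {p | 1 / ((k : ℝ) + 1) ≤ dist p.1 p.2}
    have hPc : IsCompact P :=
      ((S.cK _).prod (S.cK _)).inter_right
        (isClosed_le continuous_const (continuous_fst.dist continuous_snd))
    have hcont : ContinuousOn (fun p : M × M => dist (f m p.1) (f m p.2)) P := by
      have c1 : ContinuousOn (fun p : M × M => f m p.1) P :=
        (hs.cont m).comp continuousOn_fst (fun p hp => hp.1.1)
      have c2 : ContinuousOn (fun p : M × M => f m p.2) P :=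
        (hs.cont m).comp continuousOn_snd (fun p hp => hp.1.2)
      exact continuous_dist.comp_continuousOn (c1.prodMk c2)
    have hex : ∃ δ : ℝ, 0 < δ ∧ ∀ p ∈ P, δ ≤ dist (f m p.1) (f m p.2) := by
      rcases P.eq_empty_or_nonempty with hP | hP
      · exact ⟨1, one_pos, fun p hp => by rw [hP] at hp; exact absurd hp (notMem_empty p)⟩
      · obtain ⟨p₀, hp₀, hmin⟩ := hPc.exists_isMinOn hP hcont
        refine ⟨dist (f m p₀.1) (f m p₀.2), ?_, fun p hp => hmin hp⟩
        apply dist_pos.2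
        intro heq
        have h1 : p₀.1 = p₀.2 := hs.inj m hp₀.1.1 hp₀.1.2 heq
        have h2 : 1 / ((k : ℝ) + 1) ≤ dist p₀.1 p₀.2 := hp₀.2
        rw [h1, dist_self] at h2
        exact absurd h2 (not_le.2 (vo_pos k))
    obtain ⟨δ, hδ, H⟩ := hex
    obtain ⟨l, hl⟩ := vo_inv_lt hδ
    refine ⟨l, ?_⟩
    intro z z' hz hz' hzz b
    have h1 := H (z, z') ⟨⟨hz, hz'⟩, hzz⟩
    have h2 := dist_triangle (f m z) (e b) (f m z')
    rw [dist_comm (e b) (f m z')] at h2
    show _ ≤ dist (f m z) (e b) + dist (f m z') (e b)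
    have h3 : δ ≤ dist (f m z) (f m z') := h1
    linarith
  · intro m z hz b
    show dist (f (m + 1) (S.u (c m).1 (c (m + 1)).1 (c m).2 z)) (e b) = dist (f m z) (e b)
    rw [hs.comp m z hz]
  · intro m
    have hO : IsOpen (f (m + 1) '' interior (S.K (c (m + 1)).1)) := (hs.oe (m + 1)).image_isOpen
    have hC : IsCompact (f m '' S.K (c m).1) := (S.cK _).image_of_continuousOn (hs.cont m)
    obtain ⟨δ, hδ, H⟩ := hC.exists_thickening_subset_open hO (vo_next S hs m)
    obtain ⟨l, hl⟩ := vo_inv_lt hδ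
    refine ⟨l, ?_⟩
    rintro b ⟨z, hz, hzb⟩ k
    have h1 : e b ∈ thickening δ (f m '' S.K (c m).1) := by
      rw [mem_thickening_iff]
      refine ⟨f m z, ⟨z, hz, rfl⟩, ?_⟩
      rw [dist_comm]
      exact hzb.trans hl
    obtain ⟨x, hx, hxb⟩ := H h1
    obtain ⟨z', hz', hd'⟩ := vo_dense S hs (m + 1) x (interior_subset hx) _ (vo_pos k)
    refine ⟨z', hz', ?_⟩
    rw [hxb] at hd'
    exact hd'
  · intro b q hF
    have htb : TotallyBounded (e '' {b' | η b b' < 1 / ((q : ℝ) + 1)}) := by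
      rw [Metric.totallyBounded_iff]
      intro ε hε
      obtain ⟨k, hk⟩ := vo_inv_lt hε
      obtain ⟨F, hF'⟩ := hF k
      refine ⟨e '' (F : Set ℕ), F.finite_toSet.image e, ?_⟩
      rintro _ ⟨b', hb', rfl⟩
      obtain ⟨a, ha, hab⟩ := hF' b' hb'
      refine mem_biUnion (mem_image_of_mem e (Finset.mem_coe.2 ha)) ?_
      rw [mem_ball, dist_comm, hη]
      exact hab.trans hk
    have hcomp : IsCompact (closure (e '' {b' | η b b' < 1 / ((q : ℝ) + 1)})) :=
      isCompact_iff_totallyBounded_isComplete.2 ⟨htb.closure, isClosed_closure.isComplete⟩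
    obtain ⟨Q', hQ', hQQ, -⟩ := exists_compact_nhd n hX _ univ hcomp isOpen_univ (subset_univ _)
    obtain ⟨m, hm⟩ := hs.exh _ Q' hcomp hQ' hQQ
    refine ⟨m, ?_⟩
    intro b' hb' k
    obtain ⟨x, hx, hxb⟩ := hm (subset_closure (mem_image_of_mem e hb'))
    obtain ⟨z, hz, hzx⟩ := vo_dense S hs m x (interior_subset hx) _ (vo_pos k)
    refine ⟨z, hz, ?_⟩
    rw [hxb] at hzx
    exact hzx

end Pool.Agent.H75.Mfd
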