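import Pool.Agent.H75.Mfd.Realize
import Pool.Agent.H75.Mfd.PsiIff
import Pool.Agent.H75.Mfd.MeasPsi
import Pool.Agent.H75.Mfd.MeasValid
import Pool.Agent.H75.Mfd.SystemOf
import Pool.Agent.H75.Mfd.ValidOf
import Pool.Agent.H75.Mfd.ExSystem

/-!
Module BE. Borel evaluation by Lusin separation.
P = {eta : exists (c,w), Valid and PsiW}, Q = {eta : exists (c,w), Valid and not PsiW}: analytic
(MeasurableSet.analyticSet_image of measurable sets of a standard Borel space under a projection).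
Disjoint: eta in both is a metric; take X = completion of (N, eta) and e the canonical map;
system_of_valid twice and psi_iff give PsiX and not PsiX. Separate by a Borel set B a
(AnalyticSet.measurablySeparable). For X as in the theorem there is a valid (c,w)
(exists_system, valid_of_system), and PsiX iff PsiW, so eta is in P or in Q accordingly.
-/

set_option autoImplicit false

namespace Pool.Agent.H75.Mfd

open Set Topology Metric Filter

theorem borel_eval {n : ℕ} {M : Type} [MetricSpace M] (S : Sys n M) :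
    ∃ B : Pr → Set (ℕ → ℕ → ℝ), (∀ a, MeasurableSet (B a)) ∧
      ∀ (X : Type) [MetricSpace X] [CompleteSpace X] (e : ℕ → X) (η : ℕ → ℕ → ℝ),
        LocEuc n X → Function.Injective e → DenseRange e → (∀ i j, dist (e i) (e j) = η i j) →
        ∀ a, (η ∈ B a ↔ PsiX S e a) := by
  classical
  have : Countable S.D := S.cD.to_subtype
  have i1 : StandardBorelSpace (S.D → ℕ → ℝ) := inferInstance
  have i2 : StandardBorelSpace (ℕ → S.D → ℕ → ℝ) := StandardBorelSpace.pi_countable
  have i3 : StandardBorelSpace (((ℕ → ℕ × ℕ) × (ℕ → S.D → ℕ → ℝ)) × (ℕ → ℕ → ℝ)) := inferInstance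
  let P : Pr → Set (((ℕ → ℕ × ℕ) × (ℕ → S.D → ℕ → ℝ)) × (ℕ → ℕ → ℝ)) := fun a =>
    {p | Valid S p.1.1 p.1.2 p.2} ∩ Prod.fst ⁻¹' {p | PsiW S p.1 p.2 a}
  let Q : Pr → Set (((ℕ → ℕ × ℕ) × (ℕ → S.D → ℕ → ℝ)) × (ℕ → ℕ → ℝ)) := fun a =>
    {p | Valid S p.1.1 p.1.2 p.2} ∩ Prod.fst ⁻¹' {p | PsiW S p.1 p.2 a}ᶜ
  have hPm : ∀ a, MeasurableSet (P a) := fun a =>
    (measurableSet_valid S).inter (measurable_fst (measurableSet_psiW S a))
  have hQm : ∀ a, MeasurableSet (Q a) := fun a =>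
    (measurableSet_valid S).inter (measurable_fst (measurableSet_psiW S a).compl)
  have hPa : ∀ a, MeasureTheory.AnalyticSet (Prod.snd '' P a) := fun a =>
    (hPm a).analyticSet_image measurable_snd
  have hQa : ∀ a, MeasureTheory.AnalyticSet (Prod.snd '' Q a) := fun a =>
    (hQm a).analyticSet_image measurable_snd
  have hdisj : ∀ a, Disjoint (Prod.snd '' P a) (Prod.snd '' Q a) := by
    intro a
    rw [Set.disjoint_left]
    rintro η ⟨⟨⟨c, w⟩, η₁⟩, ⟨hv, hp⟩, rfl⟩ ⟨⟨⟨c', w'⟩, η₂⟩, ⟨hv', hp'⟩, h2⟩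
    have hv1 : Valid S c w η₁ := hv
    have h2' : η₂ = η₁ := h2
    subst h2'
    have hv2 : Valid S c' w' η₂ := hv'
    obtain ⟨X, mX, cX, e, hd, he⟩ := exists_realization η₂ hv1.m0 hv1.m1 hv1.m2 hv1.m3
    obtain ⟨f, hf, hw⟩ := system_of_valid S hd he hv1
    obtain ⟨f', hf', hw'⟩ := system_of_valid S hd he hv2
    have e1 := psi_iff S hf hw a
    have e2 := psi_iff S hf' hw' a
    have hp1 : PsiW S c w a := hp
    have hp2 : ¬ PsiW S c' w' a := hp'
    exact hp2 (e2.1 (e1.2 hp1))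
  have hsep := fun a => (hPa a).measurablySeparable (hQa a) (hdisj a)
  choose B hB1 hB2 hB3 using hsep
  refine ⟨B, hB3, ?_⟩
  intro X _ _ e η hX he hd hη a
  have sX : TopologicalSpace.SeparableSpace X := ⟨⟨range e, countable_range e, hd⟩⟩
  have nX : Nonempty X := ⟨e 0⟩
  obtain ⟨c, f, hf⟩ := exists_system S X hX
  have hv := valid_of_system S he hd hη hX hf
  have hpsi := psi_iff S (e := e) (w := fun m z b => dist (f m z) (e b)) hf
    (fun _ _ _ _ => rfl) a
  constructor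
  · intro hη'
    by_contra hcon
    have h1 : η ∈ Prod.snd '' Q a :=
      ⟨((c, fun m z b => dist (f m z) (e b)), η), ⟨hv, fun hh => hcon (hpsi.2 hh)⟩, rfl⟩
    exact Set.disjoint_left.1 (hB2 a) h1 hη'
  · intro hψ
    exact hB1 a ⟨((c, fun m z b => dist (f m z) (e b)), η), ⟨hv, hpsi.1 hψ⟩, rfl⟩

end Pool.Agent.H75.Mfd
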