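import Pool.Agent.H75.Mfd.Defs

set_option autoImplicit false

namespace Pool.Agent.H75.Mfd

open Set Topology Metric Filter

/-- charted spaces are locally Euclidean -/
theorem locEuc_of_charted (n : ℕ) (X : Type*) [MetricSpace X]
    [ChartedSpace (EuclideanSpace ℝ (Fin n)) X] : LocEuc n X := by
  intro x
  set e := chartAt (EuclideanSpace ℝ (Fin n)) x with he
  have hx : x ∈ e.source := mem_chart_source _ x
  obtain ⟨r, hr, hball⟩ := Metric.isOpen_iff.1 e.open_target (e x) (e.map_source hx)
  let b : OpenPartialHomeomorph (EuclideanSpace ℝ (Fin n)) (EuclideanSpace ℝ (Fin n)) :=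
    OpenPartialHomeomorph.univBall (e x) r
  have hbs : b.source = univ := OpenPartialHomeomorph.univBall_source _ _
  have hbt : b.target = ball (e x) r := OpenPartialHomeomorph.univBall_target _ hr
  have hts : (b.trans e.symm).source = univ := by
    rw [OpenPartialHomeomorph.trans_source, hbs, univ_inter, OpenPartialHomeomorph.symm_source]
    refine eq_univ_of_forall fun y => ?_
    have : b y ∈ b.target := b.map_source (by rw [hbs]; trivial)
    rw [hbt] at this
    exact hball this
  have h1 := (b.trans e.symm).isOpenEmbedding hts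
  let g : (Fin n → ℝ) ≃ₜ EuclideanSpace ℝ (Fin n) :=
    (EuclideanSpace.equiv (Fin n) ℝ).symm.toHomeomorph
  refine ⟨(b.trans e.symm) ∘ g, h1.comp g.isOpenEmbedding, ?_⟩
  have hg : g 0 = 0 := (EuclideanSpace.equiv (Fin n) ℝ).symm.map_zero
  have hb0 : b 0 = e x := OpenPartialHomeomorph.univBall_apply_zero _ _
  simp only [Function.comp_apply, OpenPartialHomeomorph.coe_trans, hg, hb0]
  exact e.left_inv hx

end Pool.Agent.H75.Mfd
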