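import Pool.Agent.H75.Mfd.Basic

set_option autoImplicit false

namespace Pool.Agent.H75.Mfd

open Set Topology Metric Filter

theorem LocEuc.locallyCompactSpace {M : Type*} [MetricSpace M] {n : ℕ} (hM : LocEuc n M) :
    LocallyCompactSpace M := by
  have : WeaklyLocallyCompactSpace M := by
    refine ⟨fun x => ?_⟩
    obtain ⟨φ, hφ, rfl⟩ := hM x
    refine ⟨φ '' closedBall 0 1, (isCompact_closedBall 0 1).image hφ.continuous, ?_⟩
    exact mem_of_superset ((hφ.isOpenMap _ isOpen_ball).mem_nhds
      ⟨0, mem_ball_self one_pos, rfl⟩) (image_mono ball_subset_closedBall)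
  infer_instance

/-- a compact set inside an open set of a locally Euclidean space has a compact neighbourhood
inside this open set -/
theorem exists_compact_nhd {M : Type*} [MetricSpace M] (n : ℕ) (hM : LocEuc n M) (L U : Set M)
    (hL : IsCompact L) (hU : IsOpen U) (hLU : L ⊆ U) :
    ∃ L' : Set M, IsCompact L' ∧ L ⊆ interior L' ∧ L' ⊆ U := by
  have := hM.locallyCompactSpace
  exact exists_compact_between hL hU hLU

end Pool.Agent.H75.Mfd
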