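import Pool.Agent.H75.Mfd.Basic

/-!
Module COMPRESS. Radial compression of a homeomorphism at bounded distance from the identity.
Choose r0 < r1 < R with R < 2 r1, `κ = (R - r1) r1`. With `S w = max (N w) r1` put
`γ w = (R / S - κ / S^2) w`: it is a homeomorphism of Z onto {N < R}, with inverse
`γ' z = κ / ((R - T) T) z`, `T = max (N z) r1`; γ w = w if N w ≤ r1, and
`‖γ w - γ w'‖ ≤ B ‖w - w'‖ / S w`, and `S (γ' z) = κ / (R - T)`.
h = γ H γ' on {N < R}, identity elsewhere.
-/

set_option autoImplicit false

namespace Pool.Agent.H75.Mfd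

open Set Topology Metric Filter

theorem compress {Z : Type*} [NormedAddCommGroup Z] [NormedSpace ℝ Z] [FiniteDimensional ℝ Z]
    (N : Z → ℝ) (hN : ∀ (t : ℝ) (z : Z), 0 ≤ t → N (t • z) = t * N z)
    (hlip : ∃ L : ℝ, ∀ z w, |N z - N w| ≤ L * dist z w)
    (hpos : ∃ a > 0, ∀ z, a * ‖z‖ ≤ N z) (r0 R : ℝ) (hr0 : 0 < r0) (hR : r0 < R) :
    ∃ K > 0, ∃ η > 0, ∀ (H : Z ≃ₜ Z) (d : ℝ), d ≤ η → (∀ z, dist (H z) z ≤ d) →
      ∃ h : Z ≃ₜ Z, (∀ z, N z < r0 → h z = H z) ∧ (∀ z, R ≤ N z → h z = z) ∧
        (∀ z, dist (h z) z ≤ K * d) ∧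
        (∀ z, (∀ s : ℝ, 1 ≤ s → H (s • z) = s • z) → h z = z) := by
  classical
  obtain ⟨L', hL'⟩ := hlip
  obtain ⟨a, ha, haN⟩ := hpos
  obtain ⟨L, hL0, hL⟩ : ∃ L : ℝ, 0 ≤ L ∧ ∀ z w, |N z - N w| ≤ L * dist z w := by
    refine ⟨max L' 0, le_max_right _ _, fun z w => le_trans (hL' z w) ?_⟩
    exact mul_le_mul_of_nonneg_right (le_max_left _ _) dist_nonneg
  have hNnn : ∀ z, 0 ≤ N z := fun z => le_trans (by positivity) (haN z)
  have hNcont : Continuous N := by
    have : LipschitzWith ⟨L, hL0⟩ N := by
      refine LipschitzWith.of_dist_le_mul fun x y => ?_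
      rw [Real.dist_eq]
      exact hL x y
    exact this.continuous
  obtain ⟨r1, h01, h1R, hR2⟩ : ∃ r1 : ℝ, r0 < r1 ∧ r1 < R ∧ R < 2 * r1 :=
    ⟨(r0 + R) / 2, by linarith, by linarith, by linarith⟩
  have hr1 : 0 < r1 := by linarith
  have hR0 : 0 < R := by linarith
  set κ : ℝ := (R - r1) * r1 with hκdef
  have hκ : 0 < κ := by
    apply mul_pos <;> linarith
  set S : Z → ℝ := fun w => max (N w) r1 with hS
  have hSr : ∀ w, r1 ≤ S w := fun w => le_max_right _ _
  have hSN : ∀ w, N w ≤ S w := fun w => le_max_left _ _
  have hS0 : ∀ w, 0 < S w := fun w => lt_of_lt_of_le hr1 (hSr w)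
  have hScont : Continuous S := hNcont.max continuous_const
  have hSlip : ∀ z w, |S z - S w| ≤ L * dist z w := fun z w =>
    le_trans (abs_max_sub_max_le_abs _ _ _) (hL z w)
  set m : ℝ → ℝ := fun s => (R * s - κ) / s ^ 2 with hm
  set m' : ℝ → ℝ := fun t => κ / ((R - t) * t) with hm'
  set γ : Z → Z := fun w => m (S w) • w with hγ
  set γ' : Z → Z := fun z => m' (S z) • z with hγ'
  -- the numerator is positive
  have hnum : ∀ w, 0 < R * S w - κ := by
    intro w
    have := hSr w
    have h1 : r1 * r1 ≤ R * S w - κ := by
      rw [hκdef]; nlinarith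
    exact lt_of_lt_of_le (by positivity) h1
  have hmpos : ∀ w, 0 < m (S w) := fun w => div_pos (hnum w) (by have := hS0 w; positivity)
  have hNγ : ∀ w, N (γ w) = m (S w) * N w := fun w => hN _ _ (hmpos w).le
  -- S (γ w)
  have hSγ : ∀ w, S (γ w) = R - κ / S w := by
    intro w
    have hs := hS0 w
    rcases le_total (N w) r1 with h | h
    · have hSw : S w = r1 := max_eq_right h
      have hm1 : m (S w) = 1 := by
        rw [hSw]; simp only [hm, hκdef]; field_simp; ring
      have h1 : S (γ w) = S w := by
        simp only [hS]; rw [hNγ, hm1, one_mul]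
      rw [h1, hSw, hκdef]; field_simp; ring
    · have hSw : S w = N w := max_eq_left h
      have h1 : N (γ w) = R - κ / S w := by
        rw [hNγ, ← hSw]; simp only [hm]; field_simp
      have h2 : r1 ≤ R - κ / S w := by
        rw [le_sub_iff_add_le, ← le_sub_iff_add_le', div_le_iff₀ hs, hκdef]
        exact mul_le_mul_of_nonneg_left (hSr w) (by linarith)
      simp only [hS] at h1 h2 ⊢
      rw [h1]
      exact max_eq_left h2
  have hNγR : ∀ w, N (γ w) < R := by
    intro w
    refine lt_of_le_of_lt (hSN _) ?_
    rw [hSγ]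
    have : 0 < κ / S w := div_pos hκ (hS0 w)
    linarith
  have hSR : ∀ z, N z < R → S z < R := fun z hz => max_lt hz h1R
  have hm'pos : ∀ z, N z < R → 0 < m' (S z) := by
    intro z hz
    have h1 := hSR z hz
    have h2 := hS0 z
    exact div_pos hκ (mul_pos (by linarith) h2)
  have hm'ge : ∀ z, N z < R → 1 ≤ m' (S z) := by
    intro z hz
    have h1 := hSR z hz
    have h2 := hS0 z
    have h3 := hSr z
    simp only [hm']
    rw [le_div_iff₀ (mul_pos (by linarith) h2), one_mul, hκdef]
    nlinarith
  have hSγ' : ∀ z, N z < R → S (γ' z) = κ / (R - S z) := by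
    intro z hz
    have h1 := hSR z hz
    have h1' : 0 < R - S z := by linarith
    have h2 := hS0 z
    have hNg : N (γ' z) = m' (S z) * N z := hN _ _ (hm'pos z hz).le
    rcases le_total (N z) r1 with h | h
    · have hSw : S z = r1 := max_eq_right h
      have hRr : R - r1 ≠ 0 := by linarith
      have hm1 : m' (S z) = 1 := by
        rw [hSw]; simp only [hm', hκdef]; field_simp
      have h3 : S (γ' z) = S z := by
        simp only [hS]; rw [hNg, hm1, one_mul]
      rw [h3, hSw, hκdef]; field_simp
    · have hSw : S z = N z := max_eq_left h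
      have h3 : N (γ' z) = κ / (R - S z) := by
        rw [hNg, ← hSw]; simp only [hm']; field_simp
      have h4 : r1 ≤ κ / (R - S z) := by
        rw [le_div_iff₀ h1', hκdef]
        nlinarith [hSr z]
      simp only [hS] at h3 h4 ⊢
      rw [h3]
      exact max_eq_left h4
  have hleft : ∀ w, γ' (γ w) = w := by
    intro w
    have h1 : γ' (γ w) = (m' (S (γ w)) * m (S w)) • w := by
      simp only [hγ']
      rw [show γ w = m (S w) • w from rfl, smul_smul]
    rw [h1, hSγ]
    have hs := hS0 w
    have hn := hnum w
    have h2 : m' (R - κ / S w) * m (S w) = 1 := by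
      simp only [hm, hm']
      have h3 : R - κ / S w = (R * S w - κ) / S w := by field_simp
      have h4 : R - (R - κ / S w) = κ / S w := by ring
      rw [h4, h3]
      have hn' := hn.ne'
      field_simp
      rw [mul_comm (S w) R]
      exact div_self hn'
    rw [h2, one_smul]
  have hright : ∀ z, N z < R → γ (γ' z) = z := by
    intro z hz
    have h1 : γ (γ' z) = (m (S (γ' z)) * m' (S z)) • z := by
      simp only [hγ]
      rw [show γ' z = m' (S z) • z from rfl, smul_smul]
    rw [h1, hSγ' z hz]
    have h1' : 0 < R - S z := by linarith [hSR z hz]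
    have hs := hS0 z
    have h2 : m (κ / (R - S z)) * m' (S z) = 1 := by
      simp only [hm, hm']
      have h1'' := h1'.ne'
      field_simp
      ring
    rw [h2, one_smul]
  -- the Lipschitz estimate
  set B : ℝ := R + 3 * R * L / a with hB
  have hB0 : 0 < B := by positivity
  have hγlip : ∀ w w', dist (γ w) (γ w') ≤ B * dist w w' / S w := by
    intro w w'
    have hs := hS0 w
    have hs' := hS0 w'
    have e1 : γ w - γ w' = m (S w) • (w - w') + (m (S w) - m (S w')) • w' := by
      simp only [hγ, smul_sub, sub_smul]; abel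
    have b1 : m (S w) ≤ R / S w := by
      simp only [hm]
      rw [div_le_div_iff₀ (by positivity) hs]
      nlinarith [mul_pos hκ hs]
    have b2 : |m (S w) - m (S w')| ≤ 3 * R * |S w - S w'| / (S w * S w') := by
      have e2 : m (S w) - m (S w') =
          (S w - S w') / (S w * S w') * (κ / S w + κ / S w' - R) := by
        simp only [hm]; field_simp; ring
      rw [e2, abs_mul, abs_div, abs_of_pos (mul_pos hs hs')]
      have k1 : κ / S w ≤ R := by
        rw [div_le_iff₀ hs, hκdef]
        nlinarith [hSr w]
      have k2 : κ / S w' ≤ R := by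
        rw [div_le_iff₀ hs', hκdef]
        nlinarith [hSr w']
      have k3 : 0 < κ / S w := div_pos hκ hs
      have k4 : 0 < κ / S w' := div_pos hκ hs'
      have k5 : |κ / S w + κ / S w' - R| ≤ 3 * R := by
        rw [abs_le]; constructor <;> linarith
      calc |S w - S w'| / (S w * S w') * |κ / S w + κ / S w' - R|
          ≤ |S w - S w'| / (S w * S w') * (3 * R) :=
            mul_le_mul_of_nonneg_left k5 (by positivity)
        _ = 3 * R * |S w - S w'| / (S w * S w') := by ring
    have b3 : ‖w'‖ ≤ S w' / a := by
      rw [le_div_iff₀ ha, mul_comm]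
      exact le_trans (haN w') (hSN w')
    rw [dist_eq_norm, e1]
    refine le_trans (norm_add_le _ _) ?_
    rw [norm_smul, norm_smul, Real.norm_eq_abs, Real.norm_eq_abs, abs_of_pos (hmpos w),
      ← dist_eq_norm]
    calc m (S w) * dist w w' + |m (S w) - m (S w')| * ‖w'‖
        ≤ R / S w * dist w w' + 3 * R * (L * dist w w') / (S w * S w') * (S w' / a) := by
          refine add_le_add (mul_le_mul_of_nonneg_right b1 dist_nonneg) ?_
          refine mul_le_mul ?_ b3 (norm_nonneg _) ?_
          · refine le_trans b2 ?_
            gcongr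
            exact hSlip w w'
          · have : 0 ≤ L * dist w w' := mul_nonneg hL0 dist_nonneg
            positivity
      _ = B * dist w w' / S w := by
          rw [hB]; field_simp
  have hγcont : Continuous γ := by
    have h1 : Continuous fun w => m (S w) := by
      simp only [hm]
      refine Continuous.div (by fun_prop) (by fun_prop) fun w => ?_
      have := hS0 w
      positivity
    exact h1.smul continuous_id
  have hγ'cont : ContinuousOn γ' {z | N z < R} := by
    have h1 : ContinuousOn (fun w => m' (S w)) {z | N z < R} := by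
      simp only [hm']
      refine ContinuousOn.div continuousOn_const (by fun_prop) fun w hw => ?_
      have h1 := hS0 w
      have h2 := hSR w hw
      have : 0 < (R - S w) * S w := mul_pos (by linarith) h1
      exact this.ne'
    exact h1.smul continuousOn_id
  -- the extension operator
  set ext : (Z → Z) → Z → Z := fun f z => if N z < R then γ (f (γ' z)) else z with hext
  have hextd : ∀ (f : Z → Z) (d : ℝ), (∀ z, dist (f z) z ≤ d) → ∀ z,
      dist (ext f z) z ≤ B * d / κ * max (R - S z) 0 := by
    intro f d hf z
    have hd : 0 ≤ d := le_trans dist_nonneg (hf z)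
    by_cases hz : N z < R
    · have h1 : 0 < R - S z := by linarith [hSR z hz]
      have h2 : dist (γ (γ' z)) (γ (f (γ' z))) ≤ B * dist (γ' z) (f (γ' z)) / S (γ' z) :=
        hγlip _ _
      rw [hright z hz, hSγ' z hz] at h2
      have h3 : ext f z = γ (f (γ' z)) := by simp only [hext]; rw [if_pos hz]
      rw [h3, dist_comm]
      refine le_trans h2 ?_
      have h4 : B * dist (γ' z) (f (γ' z)) / (κ / (R - S z)) ≤ B * d / (κ / (R - S z)) := by
        gcongr
        rw [dist_comm]; exact hf _
      refine le_trans h4 ?_
      rw [max_eq_left h1.le]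
      apply le_of_eq
      field_simp
    · have h3 : ext f z = z := by simp only [hext]; rw [if_neg hz]
      rw [h3, dist_self]
      have : 0 ≤ max (R - S z) 0 := le_max_right _ _
      positivity
  have hextc : ∀ (f : Z → Z) (d : ℝ), Continuous f → (∀ z, dist (f z) z ≤ d) →
      Continuous (ext f) := by
    intro f d hfc hf
    rw [continuous_iff_continuousAt]
    intro z
    by_cases hz : N z < R
    · have hopen : IsOpen {z | N z < R} := isOpen_lt hNcont continuous_const
      have h1 : ContinuousOn (fun z => γ (f (γ' z))) {z | N z < R} :=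
        hγcont.comp_continuousOn (hfc.comp_continuousOn hγ'cont)
      refine (h1.continuousAt (hopen.mem_nhds hz)).congr ?_
      filter_upwards [hopen.mem_nhds hz] with v hv
      have hv' : N v < R := hv
      simp only [hext]; rw [if_pos hv']
    · have hd : 0 ≤ d := le_trans dist_nonneg (hf z)
      have h3 : ext f z = z := by simp only [hext]; rw [if_neg hz]
      rw [ContinuousAt, h3, tendsto_iff_dist_tendsto_zero]
      have hg : Continuous fun v => B * d / κ * max (R - S v) 0 + dist v z := by fun_prop
      have hg0 : B * d / κ * max (R - S z) 0 + dist z z = 0 := by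
        have : R - S z ≤ 0 := by
          have := hSN z
          push Not at hz
          linarith
        rw [max_eq_right this, dist_self]; simp
      have hg1 := hg.tendsto z
      rw [hg0] at hg1
      refine squeeze_zero (fun _ => dist_nonneg) (fun v => ?_) hg1
      exact le_trans (dist_triangle _ v _) (add_le_add (hextd f d hf v) le_rfl)
  have hexti : ∀ (f g : Z → Z), (∀ z, g (f z) = z) → ∀ z, ext g (ext f z) = z := by
    intro f g hfg z
    by_cases hz : N z < R
    · have h3 : ext f z = γ (f (γ' z)) := by simp only [hext]; rw [if_pos hz]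
      rw [h3]
      have h4 : ext g (γ (f (γ' z))) = γ (g (γ' (γ (f (γ' z))))) := by
        simp only [hext]; rw [if_pos (hNγR _)]
      rw [h4, hleft, hfg, hright z hz]
    · have h3 : ext f z = z := by simp only [hext]; rw [if_neg hz]
      rw [h3]
      simp only [hext]; rw [if_neg hz]
  refine ⟨B / κ * R, by positivity, (r1 - r0) / (L + 1), div_pos (by linarith) (by linarith), ?_⟩
  intro H d hdη hH
  have hHs : ∀ z, dist (H.symm z) z ≤ d := by
    intro z
    have := hH (H.symm z)
    rw [H.apply_symm_apply, dist_comm] at this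
    exact this
  have hd0 : 0 ≤ d := le_trans dist_nonneg (hH 0)
  refine ⟨⟨⟨ext H, ext H.symm, hexti H H.symm (by simp), hexti H.symm H (by simp)⟩,
    hextc H d H.continuous hH, hextc H.symm d H.symm.continuous hHs⟩, ?_, ?_, ?_, ?_⟩
  · intro z hz
    show ext H z = H z
    have hzR : N z < R := by linarith
    have hSz : S z = r1 := max_eq_right (by linarith)
    have hRr : R - r1 ≠ 0 := by linarith
    have h1 : γ' z = z := by
      simp only [hγ']
      rw [hSz]
      have : m' r1 = 1 := by
        simp only [hm', hκdef]; field_simp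
      rw [this, one_smul]
    have h2 : N (H z) ≤ r1 := by
      have h3 := hL (H z) z
      have h4 := le_trans (le_abs_self _) h3
      have h5 : L * dist (H z) z ≤ (L + 1) * d := by
        nlinarith [hH z, dist_nonneg (x := H z) (y := z)]
      have h6 : (L + 1) * d ≤ r1 - r0 := by
        rw [mul_comm]
        exact (le_div_iff₀ (by linarith)).1 hdη
      linarith
    have h3 : γ (H z) = H z := by
      simp only [hγ]
      have hSz : S (H z) = r1 := max_eq_right h2
      rw [hSz]
      have : m r1 = 1 := by
        simp only [hm, hκdef]; field_simp; ring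
      rw [this, one_smul]
    simp only [hext]
    rw [if_pos hzR, h1, h3]
  · intro z hz
    show ext H z = z
    simp only [hext]
    rw [if_neg (not_lt.mpr hz)]
  · intro z
    show dist (ext H z) z ≤ B / κ * R * d
    refine le_trans (hextd H d hH z) ?_
    have h1 : max (R - S z) 0 ≤ R := max_le (by linarith [hS0 z]) hR0.le
    calc B * d / κ * max (R - S z) 0 ≤ B * d / κ * R :=
          mul_le_mul_of_nonneg_left h1 (by positivity)
      _ = B / κ * R * d := by ring
  · intro z hz
    show ext H z = z
    by_cases hzR : N z < R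
    · simp only [hext]
      rw [if_pos hzR]
      have h1 : H (γ' z) = γ' z := hz _ (hm'ge z hzR)
      rw [h1, hright z hzR]
    · simp only [hext]
      rw [if_neg hzR]

end Pool.Agent.H75.Mfd
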