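import Mathlib

/-!
Project MP_996a67_lc (helper75): basic definitions.
`OE g U`: `U` is open and `g` restricted to `U` is an open embedding.
-/

set_option autoImplicit false

namespace Pool.Agent.H75.Mfd

open Set Topology Metric Filter

/-- `U` is open and `g` restricted to `U` is continuous, injective and open. -/
structure OE {X Y : Type*} [TopologicalSpace X] [TopologicalSpace Y]
    (g : X → Y) (U : Set X) : Prop where
  isOpen : IsOpen U
  cont : ContinuousOn g U
  inj : InjOn g U
  opn : ∀ V : Set X, V ⊆ U → IsOpen V → IsOpen (g '' V)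

/-- Every point is the centre of an open embedding of Euclidean space. -/
def LocEuc (n : ℕ) (X : Type*) [TopologicalSpace X] : Prop :=
  ∀ x : X, ∃ φ : (Fin n → ℝ) → X, IsOpenEmbedding φ ∧ φ 0 = x

/-- `h` moves only points of `Q`. -/
def SuppIn {X : Type*} (h : X → X) (Q : Set X) : Prop := ∀ x, x ∉ Q → h x = x

end Pool.Agent.H75.Mfd
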