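import Pool.Agent.H75.Mfd.PresDefs

/-!
Module EMBGL: the map f (pi_l z) = pi'_l (h_l z) is an open embedding.
-/

set_option autoImplicit false

namespace Pool.Agent.H75.Mfd

open Set Topology Metric Filter

/-- the embedding given by the gluing lemma -/
theorem embed_of_gluing (n k : ℕ) (lam : ℝ) {X X' : Type*} [MetricSpace X] [MetricSpace X']
    [Nonempty X'] (π : Fin k → (Fin n → ℝ) → X) (hπ : Pres n k lam X π)
    (π' : Fin k → (Fin n → ℝ) → X') (hπ' : Pres n k lam X' π')
    (h : Fin k → ((Fin n → ℝ) ≃ₜ (Fin n → ℝ)))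
    (hs : ∀ l, SuppIn (h l) (closedBall 0 (3 / 2))) (hd : ∀ l z, dist (h l z) z < 1 / 8)
    (he : ∀ (l l' : Fin k) (z z' : Fin n → ℝ), z ∈ closedBall (0 : Fin n → ℝ) (5 / 4) →
      z' ∈ closedBall (0 : Fin n → ℝ) (5 / 4) →
      (π l z = π l' z' ↔ π' l (h l z) = π' l' (h l' z'))) :
    ∃ f : X → X', OE f (⋃ l, π l '' ball 0 (5 / 4)) ∧
      (⋃ l, π' l '' ball 0 (1 / 2)) ⊆ f '' (⋃ l, π l '' ball 0 1) := by
  classical
  have key : ∀ x : X, ∃ y : X', ∀ (l : Fin k) (z : Fin n → ℝ), z ∈ ball (0 : Fin n → ℝ) (5 / 4) →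
      π l z = x → π' l (h l z) = y := by
    intro x
    by_cases hx : ∃ (l : Fin k) (z : Fin n → ℝ), z ∈ ball (0 : Fin n → ℝ) (5 / 4) ∧ π l z = x
    · obtain ⟨l, z, hz, hzx⟩ := hx
      refine ⟨π' l (h l z), fun l' z' hz' hz'x => ?_⟩
      exact (he l' l z' z (ball_subset_closedBall hz') (ball_subset_closedBall hz)).1
        (hz'x.trans hzx.symm)
    · push Not at hx
      exact ⟨Classical.arbitrary X', fun l z hz hzx => absurd hzx (hx l z hz)⟩
  choose f hf using key
  have hf' : ∀ (l : Fin k) (z : Fin n → ℝ), z ∈ ball (0 : Fin n → ℝ) (5 / 4) →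
      f (π l z) = π' l (h l z) := fun l z hz => (hf _ l z hz rfl).symm
  refine ⟨f, ?_, ?_⟩
  · apply OE.of_local
    · intro x hx x' hx' hxx
      simp only [mem_iUnion] at hx hx'
      obtain ⟨l, z, hz, rfl⟩ := hx
      obtain ⟨l', z', hz', rfl⟩ := hx'
      rw [hf' l z hz, hf' l' z' hz'] at hxx
      exact (he l l' z z' (ball_subset_closedBall hz) (ball_subset_closedBall hz')).2 hxx
    · intro x hx
      simp only [mem_iUnion] at hx
      obtain ⟨l, hx⟩ := hx
      have o1 : OE (π l) (ball 0 (5 / 4)) :=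
        (hπ.opn l).mono isOpen_ball (ball_subset_ball (by norm_num))
      obtain ⟨k₁, hk₁, -, hkr, -⟩ := o1.exists_inv
      refine ⟨π l '' ball 0 (5 / 4), hx, subset_iUnion (fun l => π l '' ball 0 (5 / 4)) l, ?_⟩
      have o2 : OE (π' l ∘ h l) (ball 0 (5 / 4)) := by
        refine (hπ'.opn l).comp (OE.of_homeo (h l) isOpen_ball) ?_
        intro z hz
        have h1 : h l z ∈ closedBall (0 : Fin n → ℝ) (3 / 2) :=
          SuppIn.mem_of_mem (hs l) Subset.rfl
            (ball_subset_closedBall (ball_subset_ball (by norm_num) hz))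
        exact closedBall_subset_ball (by norm_num) h1
      refine (o2.comp hk₁ (fun y hy => (hkr y hy).1)).congr ?_
      intro y hy
      simp only [Function.comp_apply]
      rw [← hf' l (k₁ y) (hkr y hy).1, (hkr y hy).2]
  · intro y hy
    simp only [mem_iUnion] at hy
    obtain ⟨l, z, hz, rfl⟩ := hy
    have h1 : dist ((h l).symm z) z < 1 / 8 := by
      have := hd l ((h l).symm z)
      rw [(h l).apply_symm_apply, dist_comm] at this
      exact this
    have h2 : (h l).symm z ∈ ball (0 : Fin n → ℝ) 1 := by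
      rw [mem_ball] at hz ⊢
      have := dist_triangle ((h l).symm z) z 0
      linarith
    refine ⟨π l ((h l).symm z), ?_, ?_⟩
    · simp only [mem_iUnion]
      exact ⟨l, _, h2, rfl⟩
    · rw [hf' l _ (ball_subset_ball (by norm_num) h2), (h l).apply_symm_apply]

end Pool.Agent.H75.Mfd
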