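import Pool.Agent.H75.Mfd.GlueAux

/-!
Module EXPRES: finite atlas around a compact set, with a Lebesgue number.
-/

set_option autoImplicit false

namespace Pool.Agent.H75.Mfd

open Set Topology Metric Filter

theorem exists_pres (n : ℕ) {X : Type*} [MetricSpace X] [Nonempty X] (hX : LocEuc n X)
    (C : Set X) (hC : IsCompact C) :
    ∃ (k N : ℕ) (π : Fin (k + 1) → (Fin n → ℝ) → X), Pres n (k + 1) (1 / ((N : ℝ) + 1)) X π ∧
      C ⊆ ⋃ l, π l '' ball 0 (1 / 2) := by
  classical
  choose φ hφ hφ0 using hX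
  -- finite subcover
  obtain ⟨t, ht⟩ := hC.elim_finite_subcover (fun x : X => φ x '' ball 0 (1 / 2))
    (fun x => (hφ x).isOpenMap _ isOpen_ball)
    (fun x _ => mem_iUnion.2 ⟨x, 0, by simp, hφ0 x⟩)
  -- a list of points
  let x0 : X := Classical.arbitrary X
  let L : List X := x0 :: t.toList
  have hL : L.length = t.toList.length + 1 := rfl
  let pt : Fin (t.toList.length + 1) → X := fun i => L[i.1]'(by rw [hL]; exact i.2)
  have hLeb : ∀ i, ∃ η > 0, ∀ y ∈ φ (pt i) '' closedBall 0 (3 / 2), ∀ x, dist x y < η →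
      x ∈ φ (pt i) '' ball 0 2 := fun i =>
    exists_nhd_radius ((isCompact_closedBall _ _).image (hφ _).continuous)
      ((hφ _).isOpenMap _ isOpen_ball) (image_mono (closedBall_subset_ball (by norm_num)))
  choose η hη hLeb using hLeb
  obtain ⟨c, hc, hcle⟩ := exists_pos_le_all η hη
  obtain ⟨N, hN⟩ := exists_nat_one_div_lt hc
  refine ⟨t.toList.length, N, fun i => φ (pt i), ⟨fun l => (hφ _).continuous.continuousOn,
    fun l => (hφ _).injective.injOn, fun l => OE.of_isOpenEmbedding (hφ _) isOpen_ball, ?_⟩, ?_⟩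
  · intro l z hz x hx
    rw [mem_ball] at hx
    exact hLeb l _ ⟨z, hz, rfl⟩ x (hx.trans (hN.trans_le (hcle l)))
  · intro x hx
    have := ht hx
    simp only [mem_iUnion, exists_prop] at this
    obtain ⟨y, hy, hxy⟩ := this
    have hyL : y ∈ L := List.mem_cons_of_mem _ (Finset.mem_toList.2 hy)
    obtain ⟨i, hi, rfl⟩ := List.mem_iff_getElem.1 hyL
    rw [mem_iUnion]
    exact ⟨⟨i, by rw [← hL]; exact hi⟩, hxy⟩

end Pool.Agent.H75.Mfd
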