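import Pool.Agent.H75.Mfd.Lindelof
import Pool.Agent.H75.Mfd.ExistsPres

/-!
Module FAM. The countable family of pieces.
(1) exists_pres: every compact C in a nonempty LocEuc space X is inside the union of
pi_l (ball 0 (1/2)), for some Pres n k (1/(N+1)) X pi with 1 <= k.
(2) for fixed (k,N) the pulled back metrics of all presentations of type (k,N) form a subset of the
separable metric space C(Z x Z, R), Z = Fin k x closedBall 0 2; by Lindelof countably many
presentations (X_i, pi_i) suffice so that every presentation (X', pi') is delta_i-close to one of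
them, delta_i from `gluing` with eps = 1/8.
(3) K_i = union of pi_l (closedBall 0 1), L_i = union of pi_l (closedBall 0 (9/8)),
f (pi_l z) = pi'_l (h_l z) on the union of pi_l (ball 0 (5/4)): OE (gluing), and
C inside union of pi'_l (ball 0 (1/2)), inside f (union of pi_l (ball 0 1)).
(4) M = disjoint union of the countably many X_i (metric: Metric.Sigma or any metric inducing the
sum topology), separable, LocEuc.
-/

set_option autoImplicit false

namespace Pool.Agent.H75.Mfd

open Set Topology Metric Filter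

/-- an open embedding defined on a summand of a disjoint union -/
theorem OE.sigma {ι : Type} {Xi : ι → Type} [∀ i, TopologicalSpace (Xi i)] {Y : Type}
    [TopologicalSpace Y] [Nonempty Y] (i : ι) (f : Xi i → Y) (V : Set (Xi i)) (hf : OE f V) :
    ∃ F : (Σ i, Xi i) → Y, OE F (Sigma.mk i '' V) ∧ ∀ x, F ⟨i, x⟩ = f x := by
  classical
  let F : (Σ i, Xi i) → Y := fun p =>
    if h : p.1 = i then f (h ▸ p.2) else Classical.arbitrary Y
  have hF : ∀ x, F ⟨i, x⟩ = f x := fun x => by simp [F]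
  refine ⟨F, ?_, hF⟩
  have hemb : IsOpenEmbedding (Sigma.mk i : Xi i → Σ i, Xi i) := IsOpenEmbedding.sigmaMk
  refine ⟨hemb.isOpenMap V hf.isOpen, ?_, ?_, ?_⟩
  · rintro _ ⟨x, hx, rfl⟩
    refine ContinuousAt.continuousWithinAt ?_
    rw [← hemb.continuousAt_iff]
    exact (hf.cont.continuousAt (hf.isOpen.mem_nhds hx)).congr
      (Eventually.of_forall fun y => (hF y).symm)
  · rintro _ ⟨x, hx, rfl⟩ _ ⟨y, hy, rfl⟩ hxy
    rw [hF, hF] at hxy
    rw [hf.inj hx hy hxy]
  · intro W hW hWo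
    have h1 : F '' W = f '' (Sigma.mk i ⁻¹' W) := by
      ext y
      constructor
      · rintro ⟨p, hp, rfl⟩
        obtain ⟨x, hx, rfl⟩ := hW hp
        exact ⟨x, hp, (hF x).symm⟩
      · rintro ⟨x, hx, rfl⟩
        exact ⟨_, hx, hF x⟩
    rw [h1]
    refine hf.opn _ ?_ (hWo.preimage hemb.continuous)
    intro x hx
    obtain ⟨x', hx', he⟩ := hW hx
    rwa [← hemb.injective he]

theorem locEuc_sigma {n : ℕ} {ι : Type} {Xi : ι → Type} [∀ i, TopologicalSpace (Xi i)]
    (h : ∀ i, LocEuc n (Xi i)) : LocEuc n (Σ i, Xi i) := by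
  rintro ⟨i, x⟩
  obtain ⟨φ, hφ, h0⟩ := h i x
  exact ⟨fun y => ⟨i, φ y⟩, IsOpenEmbedding.sigmaMk.comp hφ, by simp [h0]⟩

/-- the Euclidean space itself is locally Euclidean -/
theorem locEuc_self (n : ℕ) : LocEuc n (Fin n → ℝ) := fun x =>
  ⟨fun y => y + x, (Homeomorph.addRight x).isOpenEmbedding, by simp⟩

/-- the pieces of a presentation -/
theorem pres_pieces {n k : ℕ} {lam : ℝ} {X : Type} [MetricSpace X]
    {π : Fin (k + 1) → (Fin n → ℝ) → X} (h : Pres n (k + 1) lam X π) :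
    (⋃ l, π l '' closedBall 0 1).Nonempty ∧ IsCompact (⋃ l, π l '' closedBall 0 1) ∧
      IsCompact (⋃ l, π l '' closedBall 0 (9 / 8)) ∧
      (⋃ l, π l '' closedBall 0 1) ⊆ ⋃ l, π l '' ball 0 (9 / 8) ∧
      IsOpen (⋃ l, π l '' ball 0 (9 / 8)) ∧
      (⋃ l, π l '' ball 0 (9 / 8)) ⊆ ⋃ l, π l '' closedBall 0 (9 / 8) ∧
      IsOpen (⋃ l, π l '' ball 0 1) ∧
      (⋃ l, π l '' ball 0 1) ⊆ ⋃ l, π l '' closedBall 0 1 ∧
      (⋃ l, π l '' closedBall 0 (9 / 8)) ⊆ ⋃ l, π l '' ball 0 (5 / 4) := by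
  refine ⟨⟨π 0 0, mem_iUnion.2 ⟨0, 0, by simp, rfl⟩⟩, ?_, ?_, ?_, ?_, ?_, ?_, ?_, ?_⟩
  · exact isCompact_iUnion fun l => (isCompact_closedBall 0 1).image_of_continuousOn
      ((h.cont l).mono (closedBall_subset_closedBall (by norm_num)))
  · exact isCompact_iUnion fun l => (isCompact_closedBall 0 (9 / 8)).image_of_continuousOn
      ((h.cont l).mono (closedBall_subset_closedBall (by norm_num)))
  · exact iUnion_mono fun l => image_mono (closedBall_subset_ball (by norm_num))
  · exact isOpen_iUnion fun l => (h.opn l).opn _ (ball_subset_ball (by norm_num)) isOpen_ball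
  · exact iUnion_mono fun l => image_mono ball_subset_closedBall
  · exact isOpen_iUnion fun l => (h.opn l).opn _ (ball_subset_ball (by norm_num)) isOpen_ball
  · exact iUnion_mono fun l => image_mono ball_subset_closedBall
  · exact iUnion_mono fun l => image_mono (closedBall_subset_ball (by norm_num))

theorem separable_sigma {ι : Type} [Countable ι] {Xi : ι → Type} [∀ i, TopologicalSpace (Xi i)]
    (h : ∀ i, TopologicalSpace.SeparableSpace (Xi i)) :
    TopologicalSpace.SeparableSpace (Σ i, Xi i) := by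
  choose c hc hd using fun i => TopologicalSpace.exists_countable_dense (Xi i)
  refine ⟨⟨⋃ i, Sigma.mk i '' c i, countable_iUnion fun i => (hc i).image _, ?_⟩⟩
  rintro ⟨i, x⟩
  refine closure_mono (subset_iUnion (fun i => Sigma.mk i '' c i) i) ?_
  exact image_closure_subset_closure_image continuous_sigmaMk ⟨x, hd i x, rfl⟩

theorem family (n : ℕ) :
    ∃ (M : Type) (_ : MetricSpace M) (_ : TopologicalSpace.SeparableSpace M), LocEuc n M ∧
      ∃ K L : ℕ → Set M,
        (∀ i, (K i).Nonempty ∧ IsCompact (K i) ∧ IsCompact (L i) ∧ K i ⊆ interior (L i)) ∧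
        ∀ (X : Type) [MetricSpace X] [TopologicalSpace.SeparableSpace X] [Nonempty X],
          LocEuc n X → ∀ C : Set X, IsCompact C →
          ∃ (i : ℕ) (f : M → X) (U : Set M), L i ⊆ U ∧ OE f U ∧ C ⊆ f '' interior (K i) := by
  classical
  have hpos : ∀ N : ℕ, (0 : ℝ) < 1 / ((N : ℝ) + 1) := fun N => Nat.one_div_pos_of_nat
  choose ι hι Xi mi π hπ hcov using fun k N : ℕ =>
    lindelof_pres n (k + 1) (1 / ((N : ℝ) + 1)) (hpos N)
  -- one index type
  let I : Type := Σ (k : ℕ) (N : ℕ), ι k N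
  have : Countable I := by
    have : ∀ k, Countable (Σ (N : ℕ), ι k N) := fun k => by
      have : ∀ N, Countable (ι k N) := hι k
      infer_instance
    infer_instance
  let E : I → Type := fun i => Xi i.1 i.2.1 i.2.2
  let mE : ∀ i, MetricSpace (E i) := fun i => mi i.1 i.2.1 i.2.2
  let p : ∀ i : I, Fin (i.1 + 1) → (Fin n → ℝ) → E i := fun i => π i.1 i.2.1 i.2.2
  have hp : ∀ i : I, Pres n (i.1 + 1) (1 / ((i.2.1 : ℝ) + 1)) (E i) (p i) := fun i =>
    (hπ i.1 i.2.1 i.2.2).1
  have hloc : ∀ i : I, LocEuc n (E i) := fun i => (hπ i.1 i.2.1 i.2.2).2.1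
  have hsep : ∀ i : I, TopologicalSpace.SeparableSpace (E i) := fun i =>
    (hπ i.1 i.2.1 i.2.2).2.2
  -- the covering property in terms of `I`
  have hcovI : ∀ (X : Type) [MetricSpace X] [TopologicalSpace.SeparableSpace X] [Nonempty X],
      LocEuc n X → ∀ C : Set X, IsCompact C → ∃ (i : I) (f : E i → X),
        OE f (⋃ l, p i l '' ball 0 (5 / 4)) ∧ C ⊆ f '' (⋃ l, p i l '' ball 0 1) := by
    intro X _ _ _ hX C hC
    obtain ⟨k, N, π', hπ', hCπ⟩ := exists_pres n hX C hC
    obtain ⟨i, f, hf, hsub⟩ := hcov k N X hX π' hπ'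
    exact ⟨⟨k, N, i⟩, f, hf, hCπ.trans hsub⟩
  have : Nonempty I := by
    obtain ⟨i, -⟩ := hcovI (Fin n → ℝ) (locEuc_self n) ∅ isCompact_empty
    exact ⟨i⟩
  obtain ⟨e, he⟩ := exists_surjective_nat I
  let mM : MetricSpace (Σ i, E i) := Metric.Sigma.metricSpace
  have hemb : ∀ i, IsOpenEmbedding (Sigma.mk i : E i → Σ i, E i) := fun i =>
    IsOpenEmbedding.sigmaMk
  refine ⟨Σ i, E i, mM, separable_sigma hsep, locEuc_sigma hloc,
    fun m => Sigma.mk (e m) '' (⋃ l, p (e m) l '' closedBall 0 1),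
    fun m => Sigma.mk (e m) '' (⋃ l, p (e m) l '' closedBall 0 (9 / 8)), ?_, ?_⟩
  · intro m
    obtain ⟨h1, h2, h3, h4, h5, h6, -⟩ := pres_pieces (hp (e m))
    refine ⟨h1.image _, h2.image (hemb _).continuous, h3.image (hemb _).continuous, ?_⟩
    exact (image_mono h4).trans (interior_maximal (image_mono h6) ((hemb _).isOpenMap _ h5))
  · intro X _ _ _ hX C hC
    obtain ⟨i, f, hf, hsub⟩ := hcovI X hX C hC
    obtain ⟨m, rfl⟩ := he i
    obtain ⟨-, -, -, -, -, -, h7, h8, h9⟩ := pres_pieces (hp (e m))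
    obtain ⟨F, hF, hFf⟩ := OE.sigma (e m) f _ hf
    refine ⟨m, F, _, image_mono h9, hF, fun x hx => ?_⟩
    obtain ⟨y, hy, rfl⟩ := hsub hx
    refine ⟨⟨e m, y⟩, ?_, hFf y⟩
    exact interior_maximal (image_mono h8) ((hemb _).isOpenMap _ h7) ⟨y, hy, rfl⟩

end Pool.Agent.H75.Mfd
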