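import Pool.Agent.H75.Mfd.Sys
import Pool.Agent.H75.Mfd.Family

/-!
Module SYS. The system of pieces and countably many dense morphisms.
exists_sys: from `family`; for (i,j) the set of restrictions to L_i of the maps e : M -> M with
Emb and e(L_i) inside interior (K_j) is a subset of the separable metrizable space C(L_i, M)
(M second countable), so it has a countable dense subset: u i j k. good i j k says that the k-th
member is a genuine one (the set may be empty). D: start with a countable set dense in every K_i and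
L_i and close it under all maps u i j k.
-/

set_option autoImplicit false

namespace Pool.Agent.H75.Mfd

open Set Topology Metric Filter

/-- a countable dense family of a set of maps which are continuous on a compact set -/
theorem exists_dense_maps {M : Type} [MetricSpace M] [TopologicalSpace.SeparableSpace M]
    (L : Set M) (hL : IsCompact L) (E : Set (M → M)) (hE : ∀ e ∈ E, ContinuousOn e L) :
    ∃ (u : ℕ → M → M) (good : ℕ → Prop), (∀ k, good k → u k ∈ E) ∧
      ∀ e ∈ E, ∀ ε > 0, ∃ k, good k ∧ ∀ x ∈ L, dist (e x) (u k x) < ε := by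
  classical
  have : SecondCountableTopology M := UniformSpace.secondCountable_of_separable M
  have : CompactSpace L := isCompact_iff_compactSpace.1 hL
  by_cases hne : E.Nonempty
  · let r : E → C(L, M) := fun e => ⟨fun x => e.1 x.1, (hE e.1 e.2).domRestrict⟩
    let s : Set C(L, M) := range r
    have : Nonempty s := by
      obtain ⟨e, he⟩ := hne
      exact ⟨⟨r ⟨e, he⟩, ⟨_, rfl⟩⟩⟩
    let d : ℕ → s := TopologicalSpace.denseSeq s
    have hd : DenseRange d := TopologicalSpace.denseRange_denseSeq s
    choose g hg using fun k => (d k).2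
    refine ⟨fun k => (g k).1, fun _ => True, fun k _ => (g k).2, fun e he ε hε => ?_⟩
    obtain ⟨k, hk⟩ := hd.exists_dist_lt (⟨r ⟨e, he⟩, ⟨_, rfl⟩⟩ : s) hε
    refine ⟨k, trivial, fun x hx => ?_⟩
    have h1 : dist (r ⟨e, he⟩) (d k : C(L, M)) < ε := hk
    rw [← hg k] at h1
    have h2 : dist (r ⟨e, he⟩ ⟨x, hx⟩) (r (g k) ⟨x, hx⟩) ≤ dist (r ⟨e, he⟩) (r (g k)) :=
      ContinuousMap.dist_apply_le_dist _
    exact lt_of_le_of_lt h2 h1
  · refine ⟨fun _ => id, fun _ => False, fun _ h => h.elim, fun e he => ?_⟩
    exact (hne ⟨e, he⟩).elim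

/-- every set in a separable metric space is the closure of a countable subset -/
theorem exists_countable_dense_in {M : Type} [MetricSpace M] [TopologicalSpace.SeparableSpace M]
    (K : Set M) : ∃ c : Set M, c.Countable ∧ c ⊆ K ∧ K ⊆ closure c := by
  have : SecondCountableTopology M := UniformSpace.secondCountable_of_separable M
  obtain ⟨t, ht, htd⟩ := TopologicalSpace.exists_countable_dense K
  refine ⟨Subtype.val '' t, ht.image _, fun x ⟨y, _, hy⟩ => hy ▸ y.2, fun x hx => ?_⟩
  have := htd ⟨x, hx⟩
  rw [closure_subtype] at this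
  exact this

/-- closing a countable set under countably many maps -/
theorem exists_countable_closed {M ι : Type} [Countable ι] (u : ι → M → M) (D0 : Set M)
    (hD0 : D0.Countable) : ∃ D : Set M, D.Countable ∧ D0 ⊆ D ∧ ∀ i, ∀ x ∈ D, u i x ∈ D := by
  refine ⟨⋃ l : List ι, (fun y => l.foldr (fun t z => u t z) y) '' D0,
    countable_iUnion fun l => hD0.image _, fun x hx => mem_iUnion.2 ⟨[], x, hx, rfl⟩, ?_⟩
  intro i x hx
  obtain ⟨l, y, hy, rfl⟩ := mem_iUnion.1 hx
  exact mem_iUnion.2 ⟨i :: l, y, hy, rfl⟩

theorem exists_sys (n : ℕ) :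
    ∃ (M : Type) (_ : MetricSpace M) (_ : TopologicalSpace.SeparableSpace M),
      Nonempty (Sys n M) := by
  classical
  obtain ⟨M, mM, sM, hloc, K, L, hKL, hcov⟩ := family n
  refine ⟨M, mM, sM, ?_⟩
  have h1 : ∀ i j, ∃ (u : ℕ → M → M) (good : ℕ → Prop),
      (∀ k, good k → u k ∈ {e : M → M | (∃ U, L i ⊆ U ∧ OE e U) ∧
        MapsTo e (L i) (interior (K j))}) ∧
      ∀ e ∈ {e : M → M | (∃ U, L i ⊆ U ∧ OE e U) ∧ MapsTo e (L i) (interior (K j))},
        ∀ ε > 0, ∃ k, good k ∧ ∀ x ∈ L i, dist (e x) (u k x) < ε := fun i j =>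
    exists_dense_maps (L i) (hKL i).2.2.1 _ (fun e he => by
      obtain ⟨⟨U, hU, hoe⟩, -⟩ := he
      exact hoe.cont.mono hU)
  choose u good hu hdense using h1
  choose cK hcK hcKK hcKd using fun i => exists_countable_dense_in (K i)
  choose cL hcL hcLL hcLd using fun i => exists_countable_dense_in (L i)
  obtain ⟨D, hD, hD0, hDu⟩ := exists_countable_closed
    (fun t : ℕ × ℕ × ℕ => u t.1 t.2.1 t.2.2) (⋃ i, (cK i ∪ cL i))
    (countable_iUnion fun i => (hcK i).union (hcL i))
  have hneL : ∀ i, (L i).Nonempty := fun i => by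
    obtain ⟨x, hx⟩ := (hKL i).1
    exact ⟨x, interior_subset ((hKL i).2.2.2 hx)⟩
  have : SecondCountableTopology M := UniformSpace.secondCountable_of_separable M
  have : ∀ i, Nonempty (L i) := fun i => (hneL i).to_subtype
  exact ⟨{
    K := K
    L := L
    u := u
    good := good
    D := D
    x := fun i j => (TopologicalSpace.denseSeq (L i) j : M)
    locEuc := hloc
    neK := fun i => (hKL i).1
    cK := fun i => (hKL i).2.1
    cL := fun i => (hKL i).2.2.1
    KL := fun i => (hKL i).2.2.2
    u_emb := fun i j k hk => (hu i j k hk).1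
    u_maps := fun i j k hk => (hu i j k hk).2
    u_dense := fun i j e he hm ε hε => hdense i j e ⟨he, hm⟩ ε hε
    cD := hD
    D_K := fun i => (hcKd i).trans (closure_mono (subset_inter
      ((subset_union_left.trans (subset_iUnion (fun i => cK i ∪ cL i) i)).trans hD0) (hcKK i)))
    D_L := fun i => (hcLd i).trans (closure_mono (subset_inter
      ((subset_union_right.trans (subset_iUnion (fun i => cK i ∪ cL i) i)).trans hD0) (hcLL i)))
    D_u := fun i j k x hx => hDu (i, j, k) x hx
    x_L := fun i j => Subtype.property _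
    x_dense := fun i => by
      intro x hx
      have h := TopologicalSpace.denseRange_denseSeq (L i) ⟨x, hx⟩
      rw [closure_subtype] at h
      convert h using 2
      ext y
      simp
    cover := hcov }⟩

end Pool.Agent.H75.Mfd
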