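import Pool.Agent.H75.Mfd.Unwrap

/-!
Module LIFT. Lifting an open embedding close to the identity through an unwrapping map.
For p = ((x,q),t), |t| < 5: g (x, P (q,t)) = (x',y') and G p = ((x',q'),t') where (q',t') is the
unique point near (q,t) with P (q',t') = y' (existence by `opn`, uniqueness by `exp`).
G is locally (local inverse of Phat) o g o Phat, hence OE; injectivity: G p = G p' implies
g Phat p = g Phat p', Phat p = Phat p' and dist p p' is small, so p = p'.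
-/

set_option autoImplicit false

namespace Pool.Agent.H75.Mfd

open Set Topology Metric Filter

/-- the unwrapping map on the fibre coordinate, identity on the core coordinate -/
def Phat {C Q F : Type*} (P : Q × ℝ → F) (p : (C × Q) × ℝ) : C × F := (p.1.1, P (p.1.2, p.2))

theorem Phat_cont {C Q F : Type*} [MetricSpace C] [MetricSpace Q] [MetricSpace F]
    {P : Q × ℝ → F} (hP : Continuous P) : Continuous (Phat (C := C) P) := by
  unfold Phat
  exact (continuous_fst.comp continuous_fst).prodMk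
    (hP.comp ((continuous_snd.comp continuous_fst).prodMk continuous_snd))

/-- the fibre distance -/
theorem dist_fib_lt {Q : Type*} [MetricSpace Q] {q q' : Q} {t t' s : ℝ} :
    dist (q', t') (q, t) < s ↔ dist q' q < s ∧ |t' - t| < s := by
  rw [Prod.dist_eq, max_lt_iff, Real.dist_eq]

theorem slab_isOpen {C Q : Type*} [MetricSpace C] [MetricSpace Q] (q : Q) (t r s : ℝ) :
    IsOpen {p : (C × Q) × ℝ | dist p.1.2 q < r ∧ |p.2 - t| < r ∧ |p.2| < s} := by
  have h1 : Continuous fun p : (C × Q) × ℝ => dist p.1.2 q :=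
    (continuous_snd.comp continuous_fst).dist continuous_const
  have h2 : Continuous fun p : (C × Q) × ℝ => |p.2 - t| :=
    (continuous_snd.sub continuous_const).abs
  have h3 : Continuous fun p : (C × Q) × ℝ => |p.2| := continuous_snd.abs
  exact (isOpen_lt h1 continuous_const).inter
    ((isOpen_lt h2 continuous_const).inter (isOpen_lt h3 continuous_const))

/-- `Phat` is an open embedding on small balls around points of the slab. -/
theorem phat_oe {C Q F : Type*} [MetricSpace C] [MetricSpace Q] [MetricSpace F]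
    {P : Q × ℝ → F} (hP : Unw P) : ∃ r > 0, ∀ a : (C × Q) × ℝ, |a.2| ≤ 6 →
      OE (Phat P) {p : (C × Q) × ℝ | dist p.1.2 a.1.2 < r ∧ |p.2 - a.2| < r ∧ |p.2| < 6} := by
  obtain ⟨r1, hr1, c1, hc1, hexp⟩ := hP.exp
  obtain ⟨r2, hr2, c2, hc2, hopn⟩ := hP.opn
  refine ⟨r1, hr1, fun a ha => ⟨slab_isOpen _ _ _ _, (Phat_cont hP.cont).continuousOn, ?_, ?_⟩⟩
  · rintro ⟨⟨x, q⟩, t⟩ ⟨h1, h2, h3⟩ ⟨⟨x', q'⟩, t'⟩ ⟨h1', h2', h3'⟩ he
    simp only [Phat, Prod.mk.injEq] at he h1 h2 h3 h1' h2' h3'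
    have := hexp (a.1.2, a.2) (q, t) (q', t') ha (dist_fib_lt.2 ⟨h1, h2⟩) (dist_fib_lt.2 ⟨h1', h2'⟩)
    rw [he.2, dist_self] at this
    have h0 : dist (q, t) (q', t') = 0 := by
      have h5 := dist_nonneg (x := (q, t)) (y := (q', t'))
      nlinarith
    have h6 := eq_of_dist_eq_zero h0
    rw [Prod.mk.injEq] at h6
    rw [he.1, h6.1, h6.2]
  · intro V hV hVo
    rw [Metric.isOpen_iff]
    rintro _ ⟨⟨⟨x, q⟩, t⟩, hp, rfl⟩
    obtain ⟨s, hs, hsV⟩ := Metric.isOpen_iff.1 hVo _ hp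
    have ht : |t| ≤ 6 := (hV hp).2.2.le
    set s' := min s r2 with hs'
    have hs'0 : 0 < s' := lt_min hs hr2
    have hsub := hopn (q, t) ht s' hs'0 (min_le_right _ _)
    refine ⟨min s (c2 * s'), lt_min hs (mul_pos hc2 hs'0), ?_⟩
    rintro ⟨x', y'⟩ hxy
    rw [mem_ball, Prod.dist_eq, max_lt_iff] at hxy
    simp only [Phat] at hxy
    have hy' : y' ∈ ball (P (q, t)) (c2 * s') := mem_ball.2 (lt_of_lt_of_le hxy.2 (min_le_right _ _))
    obtain ⟨⟨q'', t''⟩, hb, hPb⟩ := hsub hy'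
    rw [mem_ball, dist_fib_lt] at hb
    refine ⟨((x', q''), t''), hsV ?_, ?_⟩
    · rw [mem_ball, Prod.dist_eq, max_lt_iff, Prod.dist_eq, max_lt_iff]
      exact ⟨⟨lt_of_lt_of_le hxy.1 (min_le_left _ _), lt_of_lt_of_le hb.1 (min_le_left _ _)⟩,
        lt_of_lt_of_le hb.2 (min_le_left _ _)⟩
    · simp only [Phat, hPb]

theorem lift {C Q F : Type*} [MetricSpace C] [MetricSpace Q] [MetricSpace F]
    {P : Q × ℝ → F} (hP : Unw P) (y0 : F) (r0 : ℝ) (hr0 : P '' {a | |a.2| ≤ 6} ⊆ ball y0 r0)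
    (ε : ℝ) (hε : 0 < ε) :
    ∃ δ > 0, ∀ g : C × F → C × F, OE g {p | dist p.2 y0 < r0} →
      (∀ p : C × F, dist p.2 y0 < r0 → dist (g p) p < δ) →
      ∃ G : (C × Q) × ℝ → (C × Q) × ℝ, OE G {p | |p.2| < 5} ∧
        (∀ p : (C × Q) × ℝ, |p.2| < 5 → dist (G p) p < ε) ∧
        (∀ p : (C × Q) × ℝ, |p.2| < 5 → Phat P (G p) = g (Phat P p)) ∧
        (∀ x : C, (∀ y, dist y y0 < r0 → g (x, y) = (x, y)) →
          ∀ (q : Q) (t : ℝ), |t| < 5 → G ((x, q), t) = ((x, q), t)) := by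
  classical
  obtain ⟨ρ, hρ, hoe⟩ := phat_oe (C := C) hP
  obtain ⟨r1, hr1, c1, hc1, hexp⟩ := hP.exp
  obtain ⟨r2, hr2, c2, hc2, hopn⟩ := hP.opn
  -- the size of the displacement in the fibre
  obtain ⟨s, hs, hsρ, hsr1, hsr2, hsε, hs1⟩ : ∃ s > 0, s ≤ ρ / 2 ∧ s ≤ r1 / 2 ∧ s ≤ r2 ∧ s ≤ ε ∧
      s ≤ 1 := by
    refine ⟨min (min (ρ / 2) (r1 / 2)) (min r2 (min ε 1)), ?_, ?_, ?_, ?_, ?_, ?_⟩
    · exact lt_min (lt_min (by positivity) (by positivity)) (lt_min hr2 (lt_min hε one_pos))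
    · exact (min_le_left _ _).trans (min_le_left _ _)
    · exact (min_le_left _ _).trans (min_le_right _ _)
    · exact (min_le_right _ _).trans (min_le_left _ _)
    · exact (min_le_right _ _).trans ((min_le_right _ _).trans (min_le_left _ _))
    · exact (min_le_right _ _).trans ((min_le_right _ _).trans (min_le_right _ _))
  refine ⟨min ε (c2 * s), lt_min hε (mul_pos hc2 hs), fun g hg hgd => ?_⟩
  have hPhat : ∀ p : (C × Q) × ℝ, |p.2| < 5 → dist (Phat P p).2 y0 < r0 := by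
    intro p hp
    exact hr0 ⟨(p.1.2, p.2), by show |p.2| ≤ 6; linarith, rfl⟩
  -- choice of the fibre point
  have hex : ∀ p : (C × Q) × ℝ, |p.2| < 5 → ∃ b : Q × ℝ, dist b (p.1.2, p.2) < s ∧
      P b = (g (Phat P p)).2 := by
    intro p hp
    have h1 := hgd (Phat P p) (hPhat p hp)
    rw [Prod.dist_eq, max_lt_iff] at h1
    have h2 : (g (Phat P p)).2 ∈ ball (P (p.1.2, p.2)) (c2 * s) :=
      mem_ball.2 (lt_of_lt_of_le h1.2 (min_le_right _ _))
    obtain ⟨b, hb, hb'⟩ := hopn (p.1.2, p.2) (by simp only; linarith) s hs hsr2 h2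
    exact ⟨b, hb, hb'⟩
  let G : (C × Q) × ℝ → (C × Q) × ℝ := fun p =>
    if hp : |p.2| < 5 then
      (((g (Phat P p)).1, (Classical.choose (hex p hp)).1), (Classical.choose (hex p hp)).2)
    else p
  have hG1 : ∀ p : (C × Q) × ℝ, |p.2| < 5 → (G p).1.1 = (g (Phat P p)).1 := by
    intro p hp
    simp only [G, dif_pos hp]
  have hG2 : ∀ p : (C × Q) × ℝ, |p.2| < 5 → dist ((G p).1.2, (G p).2) (p.1.2, p.2) < s := by
    intro p hp
    have := (Classical.choose_spec (hex p hp)).1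
    simp only [G, dif_pos hp]
    exact this
  have hG3 : ∀ p : (C × Q) × ℝ, |p.2| < 5 → P ((G p).1.2, (G p).2) = (g (Phat P p)).2 := by
    intro p hp
    have := (Classical.choose_spec (hex p hp)).2
    simp only [G, dif_pos hp]
    exact this
  have hGeq : ∀ p : (C × Q) × ℝ, |p.2| < 5 → Phat P (G p) = g (Phat P p) := by
    intro p hp
    have h1 : Phat P (G p) = ((G p).1.1, P ((G p).1.2, (G p).2)) := rfl
    rw [h1, hG1 p hp, hG3 p hp]
  have hGd : ∀ p : (C × Q) × ℝ, |p.2| < 5 → dist (G p) p < ε := by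
    intro p hp
    have h1 := hgd (Phat P p) (hPhat p hp)
    rw [Prod.dist_eq, max_lt_iff] at h1
    have h2 := hG2 p hp
    rw [dist_fib_lt] at h2
    rw [Prod.dist_eq, max_lt_iff, Prod.dist_eq, max_lt_iff, hG1 p hp]
    refine ⟨⟨lt_of_lt_of_le h1.1 (min_le_left _ _), h2.1.trans_le hsε⟩, h2.2.trans_le hsε⟩
  have hinj : InjOn G {p : (C × Q) × ℝ | |p.2| < 5} := by
    intro p hp p' hp' he
    have hgg : g (Phat P p) = g (Phat P p') := by
      rw [← hGeq p hp, ← hGeq p' hp', he]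
    have hPP : Phat P p = Phat P p' := hg.inj (hPhat p hp) (hPhat p' hp') hgg
    have h2 := hG2 p hp
    have h2' := hG2 p' hp'
    rw [← he] at h2'
    have h3 : dist (p'.1.2, p'.2) (p.1.2, p.2) < r1 := by
      calc dist (p'.1.2, p'.2) (p.1.2, p.2)
          ≤ dist (p'.1.2, p'.2) ((G p).1.2, (G p).2) + dist ((G p).1.2, (G p).2) (p.1.2, p.2) :=
            dist_triangle _ _ _
        _ < s + s := by rw [dist_comm (p'.1.2, p'.2)]; exact add_lt_add h2' h2
        _ ≤ r1 := by linarith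
    have h4 := hexp (p.1.2, p.2) (p.1.2, p.2) (p'.1.2, p'.2)
      (by simp only; linarith [show |p.2| < 5 from hp])
      (by rw [dist_self]; exact hr1) h3
    have h5 : P (p.1.2, p.2) = P (p'.1.2, p'.2) := congrArg (fun z : C × F => z.2) hPP
    have h5' : p.1.1 = p'.1.1 := congrArg (fun z : C × F => z.1) hPP
    rw [h5, dist_self] at h4
    have h6 : dist (p.1.2, p.2) (p'.1.2, p'.2) = 0 := by
      have h7 := dist_nonneg (x := (p.1.2, p.2)) (y := (p'.1.2, p'.2))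
      nlinarith
    have h7 := eq_of_dist_eq_zero h6
    rw [Prod.mk.injEq] at h7
    exact Prod.ext (Prod.ext h5' h7.1) h7.2
  refine ⟨G, OE.of_local hinj ?_, hGd, hGeq, ?_⟩
  · intro p0 hp0
    have : Nonempty ((C × Q) × ℝ) := ⟨p0⟩
    have hp0' : |p0.2| ≤ 6 := by linarith [show |p0.2| < 5 from hp0]
    have hV0 := hoe p0 hp0'
    obtain ⟨k, hk, hkl, hkr, -⟩ := hV0.exists_inv
    have hUo := slab_isOpen (C := C) p0.1.2 p0.2 (ρ / 2) 5
    refine ⟨{p | dist p.1.2 p0.1.2 < ρ / 2 ∧ |p.2 - p0.2| < ρ / 2 ∧ |p.2| < 5}, ?_, ?_, ?_⟩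
    · refine ⟨?_, ?_, hp0⟩
      · rw [dist_self]; positivity
      · rw [sub_self, abs_zero]; positivity
    · exact fun p hp => hp.2.2
    · have hsub : {p : (C × Q) × ℝ | dist p.1.2 p0.1.2 < ρ / 2 ∧ |p.2 - p0.2| < ρ / 2 ∧ |p.2| < 5} ⊆
          {p : (C × Q) × ℝ | dist p.1.2 p0.1.2 < ρ ∧ |p.2 - p0.2| < ρ ∧ |p.2| < 6} := by
        rintro p ⟨h1, h2, h3⟩
        exact ⟨by linarith, by linarith, by linarith⟩
      have hPU := hV0.mono hUo hsub
      have hgP : OE (g ∘ Phat P)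
          {p : (C × Q) × ℝ | dist p.1.2 p0.1.2 < ρ / 2 ∧ |p.2 - p0.2| < ρ / 2 ∧ |p.2| < 5} :=
        hg.comp hPU (fun p hp => hPhat p hp.2.2)
      have hmem : ∀ p ∈ {p : (C × Q) × ℝ | dist p.1.2 p0.1.2 < ρ / 2 ∧ |p.2 - p0.2| < ρ / 2 ∧
          |p.2| < 5}, G p ∈ {p : (C × Q) × ℝ | dist p.1.2 p0.1.2 < ρ ∧ |p.2 - p0.2| < ρ ∧
          |p.2| < 6} := by
        rintro p ⟨h1, h2, h3⟩
        have h4 := hG2 p h3
        rw [dist_fib_lt] at h4
        refine ⟨?_, ?_, ?_⟩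
        · calc dist (G p).1.2 p0.1.2 ≤ dist (G p).1.2 p.1.2 + dist p.1.2 p0.1.2 :=
                dist_triangle _ _ _
            _ < ρ := by linarith [h4.1]
        · calc |(G p).2 - p0.2| = |((G p).2 - p.2) + (p.2 - p0.2)| := by ring_nf
            _ ≤ |(G p).2 - p.2| + |p.2 - p0.2| := abs_add_le _ _
            _ < ρ := by linarith [h4.2]
        · calc |(G p).2| = |((G p).2 - p.2) + p.2| := by ring_nf
            _ ≤ |(G p).2 - p.2| + |p.2| := abs_add_le _ _
            _ < 6 := by linarith [h4.2]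
      have hcomp : OE (k ∘ (g ∘ Phat P))
          {p : (C × Q) × ℝ | dist p.1.2 p0.1.2 < ρ / 2 ∧ |p.2 - p0.2| < ρ / 2 ∧ |p.2| < 5} := by
        refine hk.comp hgP ?_
        intro p hp
        exact ⟨G p, hmem p hp, hGeq p hp.2.2⟩
      refine hcomp.congr ?_
      intro p hp
      have h5 := hkl (G p) (hmem p hp)
      rw [hGeq p hp.2.2] at h5
      exact h5.symm
  · intro x hx q t ht
    have hp : |(((x, q), t) : (C × Q) × ℝ).2| < 5 := ht
    have h0 : g (Phat P ((x, q), t)) = Phat P ((x, q), t) := hx _ (hPhat ((x, q), t) ht)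
    have h1 := hG1 _ hp
    have h2 := hG2 _ hp
    have h3 := hG3 _ hp
    rw [h0] at h1 h3
    have h4 := hexp (q, t) ((G ((x, q), t)).1.2, (G ((x, q), t)).2) (q, t)
      (by simp only; linarith) (lt_of_lt_of_le h2 (by linarith)) (by rw [dist_self]; exact hr1)
    have h5 : P ((G ((x, q), t)).1.2, (G ((x, q), t)).2) = P (q, t) := h3
    rw [h5, dist_self] at h4
    have h6 : dist ((G ((x, q), t)).1.2, (G ((x, q), t)).2) (q, t) = 0 := by
      have h7 := dist_nonneg (x := ((G ((x, q), t)).1.2, (G ((x, q), t)).2)) (y := (q, t))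
      nlinarith
    have h7 := eq_of_dist_eq_zero h6
    rw [Prod.mk.injEq] at h7
    exact Prod.ext (Prod.ext h1 h7.1) h7.2

end Pool.Agent.H75.Mfd
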