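import Pool.Agent.H75.Mfd.Swindle
import Pool.Agent.H75.Mfd.Lift
import Pool.Agent.H75.Mfd.Compress

/-!
Module HS (handle straightening).
m = 0: g is a homeomorphism (at bounded distance from id, open, proper, connected target), h = g.
m + 1: take P from exists_unw, y0 = P 0, r0 with P(slab) in ball y0 r0. After the similarity
(x,y) -> (s x, s y + y0), s = r0 / R, lift g to G (lift), apply `swindle` with E = C x (Fin m -> R)
to get H, apply `compress` on Z = (C x (Fin m -> R)) x R with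
N ((x,q),t) = max (c |x|) (max |q| |t|), c = r1/(2 a s) small, radii small enough for phat_oe
(R1 < min r 1), to get h1, and `transport` h1 with phi = Phat P (injective on {N < R1'}).
h = g on the image of {N < r1} which contains C' x ball y0 (c' r1) (`opn`), C' = {|x| <= a s}.
For |x| >= a s: G = id and H = id over x, so h1 = id there by the last clause of compress.
lam does not depend on a, R, eps: it is c' r1 / r0.
-/

set_option autoImplicit false

namespace Pool.Agent.H75.Mfd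

open Set Topology Metric Filter

/-- Handle straightening in the coordinates of the unwrapping map. -/
theorem hs_core (C : Type*) [NormedAddCommGroup C] [NormedSpace ℝ C] [FiniteDimensional ℝ C]
    (m : ℕ) (P : (Fin m → ℝ) × ℝ → (Fin (m + 1) → ℝ)) (hP : Unw P) (r0 : ℝ)
    (hr0 : P '' {a | |a.2| ≤ 6} ⊆ ball (P 0) r0) :
    ∃ μ > 0, ∀ a ε : ℝ, 0 < a → 0 < ε → ∃ δ > 0,
      ∀ g : C × (Fin (m + 1) → ℝ) → C × (Fin (m + 1) → ℝ),
        OE g {p | dist p.2 (P 0) < r0} →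
        (∀ p : C × (Fin (m + 1) → ℝ), dist p.2 (P 0) < r0 → dist (g p) p < δ) →
        (∀ p : C × (Fin (m + 1) → ℝ), a ≤ ‖p.1‖ → dist p.2 (P 0) < r0 → g p = p) →
        ∃ h : (C × (Fin (m + 1) → ℝ)) ≃ₜ (C × (Fin (m + 1) → ℝ)),
          (∀ p, a ≤ ‖p.1‖ → h p = p) ∧ (∀ p, r0 ≤ dist p.2 (P 0) → h p = p) ∧
          (∀ p, dist p.2 (P 0) < μ → h p = g p) ∧ ∀ p, dist (h p) p < ε := by
  classical
  obtain ⟨ro, hro, co, hco, hopn⟩ := hP.opn
  obtain ⟨re, hre, hoe⟩ := phat_oe (C := C) hP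
  obtain ⟨ρ0, ρ1, hρ0, hρ01, hρo, hρe, hρ1⟩ :
      ∃ ρ0 ρ1 : ℝ, 0 < ρ0 ∧ ρ0 < ρ1 ∧ ρ1 < ro ∧ ρ1 < re ∧ ρ1 < 1 := by
    have h1 : 0 < min (min ro re) 1 := lt_min (lt_min hro hre) one_pos
    refine ⟨min (min ro re) 1 / 4, min (min ro re) 1 / 2, by positivity, by linarith, ?_, ?_, ?_⟩
    · have : min (min ro re) 1 ≤ ro := le_trans (min_le_left _ _) (min_le_left _ _)
      linarith
    · have : min (min ro re) 1 ≤ re := le_trans (min_le_left _ _) (min_le_right _ _)
      linarith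
    · have : min (min ro re) 1 ≤ 1 := min_le_right _ _
      linarith
  refine ⟨co * ρ0, by positivity, fun a ε ha hε => ?_⟩
  obtain ⟨c, hc, hca⟩ : ∃ c : ℝ, 0 < c ∧ c * a = ρ0 :=
    ⟨ρ0 / a, by positivity, by field_simp⟩
  set N : (C × (Fin m → ℝ)) × ℝ → ℝ := fun z => max (c * ‖z.1.1‖) (max ‖z.1.2‖ |z.2|) with hN
  have hN1 : ∀ z, c * ‖z.1.1‖ ≤ N z := fun z => le_max_left _ _
  have hN2 : ∀ z, ‖z.1.2‖ ≤ N z := fun z => le_trans (le_max_left _ _) (le_max_right _ _)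
  have hN3 : ∀ z, |z.2| ≤ N z := fun z => le_trans (le_max_right _ _) (le_max_right _ _)
  have hNcont : Continuous N := by
    simp only [hN]; fun_prop
  have hNlip : ∃ L : ℝ, ∀ z w, |N z - N w| ≤ L * dist z w := by
    refine ⟨max c 1, fun z w => ?_⟩
    have hd1 : dist z.1.1 w.1.1 ≤ dist z w :=
      le_trans (le_max_left _ _) (le_max_left (dist z.1 w.1) (dist z.2 w.2))
    have hd2 : dist z.1.2 w.1.2 ≤ dist z w :=
      le_trans (le_max_right _ _) (le_max_left (dist z.1 w.1) (dist z.2 w.2))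
    have hd3 : dist z.2 w.2 ≤ dist z w := le_max_right (dist z.1 w.1) (dist z.2 w.2)
    have hm0 : 0 ≤ dist z w := dist_nonneg
    have hone : dist z w ≤ max c 1 * dist z w := le_mul_of_one_le_left hm0 (le_max_right _ _)
    refine le_trans (abs_max_sub_max_le_max _ _ _ _) (max_le ?_ ?_)
    · rw [← mul_sub, abs_mul, abs_of_pos hc]
      have h1 : |‖z.1.1‖ - ‖w.1.1‖| ≤ dist z.1.1 w.1.1 := by
        rw [dist_eq_norm]; exact abs_norm_sub_norm_le _ _
      exact mul_le_mul (le_max_left _ _) (h1.trans hd1) (abs_nonneg _) (by positivity)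
    · refine le_trans (abs_max_sub_max_le_max _ _ _ _) (max_le ?_ ?_)
      · have h1 : |‖z.1.2‖ - ‖w.1.2‖| ≤ dist z.1.2 w.1.2 := by
          rw [dist_eq_norm]; exact abs_norm_sub_norm_le _ _
        exact le_trans (h1.trans hd2) hone
      · have h1 : |(|z.2| - |w.2|)| ≤ dist z.2 w.2 := by
          rw [Real.dist_eq]; exact abs_abs_sub_abs_le_abs_sub _ _
        exact le_trans (h1.trans hd3) hone
  have hNpos : ∃ a > 0, ∀ z, a * ‖z‖ ≤ N z := by
    refine ⟨min c 1, lt_min hc one_pos, fun z => ?_⟩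
    have h1 : ∀ r : ℝ, 0 ≤ r → min c 1 * r ≤ c * r := fun r hr =>
      mul_le_mul_of_nonneg_right (min_le_left _ _) hr
    have h2 : ∀ r : ℝ, 0 ≤ r → min c 1 * r ≤ r := fun r hr => by
      have := mul_le_mul_of_nonneg_right (min_le_right c 1) hr
      rwa [one_mul] at this
    have hmin : 0 < min c 1 := lt_min hc one_pos
    have e1 : ‖z‖ = max (max ‖z.1.1‖ ‖z.1.2‖) ‖z.2‖ := rfl
    rw [e1]
    rw [mul_max_of_nonneg _ _ hmin.le, mul_max_of_nonneg _ _ hmin.le]
    refine max_le (max_le ?_ ?_) ?_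
    · exact (h1 _ (norm_nonneg _)).trans (hN1 z)
    · exact (h2 _ (norm_nonneg _)).trans (hN2 z)
    · exact (h2 _ (norm_nonneg _)).trans (hN3 z)
  have hNhom : ∀ (t : ℝ) (z : (C × (Fin m → ℝ)) × ℝ), 0 ≤ t → N (t • z) = t * N z := by
    intro t z ht
    simp only [hN, Prod.smul_fst, Prod.smul_snd, norm_smul, Real.norm_eq_abs, abs_of_nonneg ht,
      smul_eq_mul, abs_mul]
    rw [mul_max_of_nonneg _ _ ht, mul_max_of_nonneg _ _ ht]
    congr 1
    ring
  obtain ⟨K, hK, η, hη, hcomp⟩ := compress N hNhom hNlip hNpos ρ0 ρ1 hρ0 hρ01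
  obtain ⟨δu, hδu, huc⟩ := hP.uc ε hε
  obtain ⟨d, hd0, hd1, hd2, hd3, hd4⟩ : ∃ d : ℝ, 0 < d ∧ d ≤ 1 / 20 ∧ 20 * d ≤ η ∧
      K * (20 * d) < δu ∧ K * (20 * d) < ε := by
    have hmin : 0 < min δu ε := lt_min hδu hε
    have hq : 0 < min δu ε / (40 * K) := by positivity
    refine ⟨min (1 / 20) (min (η / 20) (min δu ε / (40 * K))), ?_, min_le_left _ _, ?_, ?_, ?_⟩
    · exact lt_min (by norm_num) (lt_min (by positivity) hq)
    · have : min (1 / 20) (min (η / 20) (min δu ε / (40 * K))) ≤ η / 20 :=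
        le_trans (min_le_right _ _) (min_le_left _ _)
      linarith
    · have : min (1 / 20) (min (η / 20) (min δu ε / (40 * K))) ≤ min δu ε / (40 * K) :=
        le_trans (min_le_right _ _) (min_le_right _ _)
      rw [le_div_iff₀ (by positivity)] at this
      have h2 : min δu ε ≤ δu := min_le_left _ _
      nlinarith
    · have : min (1 / 20) (min (η / 20) (min δu ε / (40 * K))) ≤ min δu ε / (40 * K) :=
        le_trans (min_le_right _ _) (min_le_right _ _)
      rw [le_div_iff₀ (by positivity)] at this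
      have h2 : min δu ε ≤ ε := min_le_right _ _
      nlinarith
  obtain ⟨δ, hδ, hlift⟩ := lift (C := C) hP (P 0) r0 hr0 d hd0
  refine ⟨δ, hδ, fun g hg hgd hgid => ?_⟩
  obtain ⟨G, hG, hGd, hGP, hGid⟩ := hlift g hg hgd
  obtain ⟨H, hHG, hHd, hHid⟩ := swindle G d hd1 hG (fun p hp => (hGd p hp).le)
  obtain ⟨h1, h1H, h1id, h1d, h1s⟩ := hcomp H (20 * d) hd2 hHd
  -- the compact set
  set S : Set ((C × (Fin m → ℝ)) × ℝ) := {z | N z ≤ ρ1} with hS
  have hScomp : IsCompact S := by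
    refine Metric.isCompact_of_isClosed_isBounded (isClosed_le hNcont continuous_const) ?_
    obtain ⟨b, hb, hbN⟩ := hNpos
    rw [Metric.isBounded_iff_subset_closedBall 0]
    refine ⟨ρ1 / b, fun z hz => ?_⟩
    rw [mem_closedBall_zero_iff, le_div_iff₀ hb, mul_comm]
    exact (hbN z).trans hz
  have hU := hoe 0 (by simp)
  have hSU : S ⊆ {p : (C × (Fin m → ℝ)) × ℝ | dist p.1.2 (0 : (C × (Fin m → ℝ)) × ℝ).1.2 < re ∧
      |p.2 - (0 : (C × (Fin m → ℝ)) × ℝ).2| < re ∧ |p.2| < 6} := by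
    intro z hz
    have hz' : N z ≤ ρ1 := hz
    have k2 := hN2 z
    have k3 := hN3 z
    refine ⟨?_, ?_, ?_⟩
    · show dist z.1.2 0 < re
      rw [dist_zero_right]; linarith
    · show |z.2 - 0| < re
      rw [sub_zero]; linarith
    · linarith
  have hsupp : SuppIn h1 S := by
    intro z hz
    have hz' : ¬ N z ≤ ρ1 := hz
    exact h1id z (by linarith)
  obtain ⟨h', h'S, h'eq⟩ := transport hU h1 hScomp hSU hsupp
  have hslab : ∀ z ∈ S, dist (Phat P z).2 (P 0) < r0 := by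
    intro z hz
    have hz' : N z ≤ ρ1 := hz
    have k3 := hN3 z
    apply hr0
    exact ⟨(z.1.2, z.2), by show |z.2| ≤ 6; linarith, rfl⟩
  have hfar : ∀ p : C × (Fin (m + 1) → ℝ), a ≤ ‖p.1‖ → h' p = p := by
    intro p hp
    by_cases hpS : p ∈ Phat P '' S
    · obtain ⟨z, hz, rfl⟩ := hpS
      rw [h'eq z (hSU hz)]
      congr 1
      refine h1s z fun s hs => ?_
      have hx : a ≤ ‖s • z.1.1‖ := by
        have hp' : a ≤ ‖z.1.1‖ := hp
        rw [norm_smul, Real.norm_eq_abs, abs_of_nonneg (by linarith)]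
        nlinarith [norm_nonneg z.1.1]
      have h3 : ∀ (q : Fin m → ℝ) (t : ℝ), |t| < 5 →
          G ((s • z.1.1, q), t) = ((s • z.1.1, q), t) :=
        hGid (s • z.1.1) fun y hy => hgid (s • z.1.1, y) hx hy
      exact hHid (s • z.1.1, s • z.1.2) (fun t ht => h3 _ t ht) (s • z.2)
    · exact h'S p hpS
  refine ⟨h', hfar, ?_, ?_, ?_⟩
  · intro p hp
    refine h'S p ?_
    rintro ⟨z, hz, rfl⟩
    exact absurd (hslab z hz) (not_lt.mpr hp)
  · intro p hp
    by_cases hpa : a ≤ ‖p.1‖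
    · rw [hfar p hpa]
      refine (hgid p hpa ?_).symm
      -- the ball of radius `co * ρ0` is inside
      have hmem : p.2 ∈ P '' ball 0 ρ0 := hopn 0 (by simp) ρ0 hρ0 (by linarith) hp
      obtain ⟨w, hw, hwp⟩ := hmem
      have hw' : |w.2| < ρ0 := by
        have h5 : dist w 0 < ρ0 := hw
        rw [dist_zero_right] at h5
        exact lt_of_le_of_lt (le_max_right ‖w.1‖ ‖w.2‖) h5
      have h6 : P w ∈ ball (P 0) r0 := hr0 ⟨w, by show |w.2| ≤ 6; linarith, rfl⟩
      rw [hwp] at h6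
      exact h6
    · push Not at hpa
      have hmem : p.2 ∈ P '' ball 0 ρ0 := hopn 0 (by simp) ρ0 hρ0 (by linarith) hp
      obtain ⟨w, hw, hwp⟩ := hmem
      have h5 : ‖w‖ < ρ0 := by
        have : dist w 0 < ρ0 := hw
        rwa [dist_zero_right] at this
      have hw1 : ‖w.1‖ < ρ0 := lt_of_le_of_lt (le_max_left ‖w.1‖ ‖w.2‖) h5
      have hw2 : |w.2| < ρ0 := lt_of_le_of_lt (le_max_right ‖w.1‖ ‖w.2‖) h5
      set z : (C × (Fin m → ℝ)) × ℝ := ((p.1, w.1), w.2) with hz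
      have hNz : N z < ρ0 := by
        simp only [hN, hz]
        refine max_lt ?_ (max_lt hw1 hw2)
        rw [← hca]
        exact mul_lt_mul_of_pos_left hpa hc
      have hzS : z ∈ S := by
        show N z ≤ ρ1
        linarith
      have hpz : Phat P z = p := by
        show (p.1, P (w.1, w.2)) = p
        rw [show ((w.1, w.2) : (Fin m → ℝ) × ℝ) = w from rfl, hwp]
      have hz1 : |z.2| ≤ 1 := by
        show |w.2| ≤ 1
        linarith
      rw [← hpz, h'eq z (hSU hzS), h1H z hNz, hHG z hz1, hGP z (by linarith)]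
  · intro p
    by_cases hpS : p ∈ Phat P '' S
    · obtain ⟨z, hz, rfl⟩ := hpS
      rw [h'eq z (hSU hz)]
      have hz' : N z ≤ ρ1 := hz
      have k3 := hN3 z
      have hd := h1d z
      have hdx : dist (h1 z).1.1 z.1.1 ≤ K * (20 * d) :=
        le_trans (le_trans (le_max_left _ _) (le_max_left (dist (h1 z).1 z.1)
          (dist (h1 z).2 z.2))) hd
      have hdq : dist (h1 z).1.2 z.1.2 ≤ K * (20 * d) :=
        le_trans (le_trans (le_max_right _ _) (le_max_left (dist (h1 z).1 z.1)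
          (dist (h1 z).2 z.2))) hd
      have hdt : dist (h1 z).2 z.2 ≤ K * (20 * d) :=
        le_trans (le_max_right (dist (h1 z).1 z.1) (dist (h1 z).2 z.2)) hd
      have h7 : dist (P ((h1 z).1.2, (h1 z).2)) (P (z.1.2, z.2)) < ε := by
        refine huc (z.1.2, z.2) ((h1 z).1.2, (h1 z).2) ?_ ?_
        · show |z.2| ≤ 6
          linarith
        · show max (dist (h1 z).1.2 z.1.2) (dist (h1 z).2 z.2) < δu
          exact max_lt (lt_of_le_of_lt hdq hd3) (lt_of_le_of_lt hdt hd3)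
      show max (dist (h1 z).1.1 z.1.1) (dist (P ((h1 z).1.2, (h1 z).2)) (P (z.1.2, z.2))) < ε
      exact max_lt (lt_of_le_of_lt hdx hd4) h7
    · rw [h'S p hpS, dist_self]
      exact hε

theorem hs_succ (C : Type*) [NormedAddCommGroup C] [NormedSpace ℝ C] [FiniteDimensional ℝ C]
    (m : ℕ) :
    ∃ lam : ℝ, 0 < lam ∧ lam < 1 ∧ ∀ a R ε : ℝ, 0 < a → 0 < R → 0 < ε →
      ∃ δ > 0, ∀ g : C × (Fin (m + 1) → ℝ) → C × (Fin (m + 1) → ℝ),
        OE g {p | ‖p.2‖ < R} → (∀ p : C × (Fin (m + 1) → ℝ), ‖p.2‖ < R → dist (g p) p < δ) →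
        (∀ p : C × (Fin (m + 1) → ℝ), a ≤ ‖p.1‖ → ‖p.2‖ < R → g p = p) →
        ∃ h : (C × (Fin (m + 1) → ℝ)) ≃ₜ (C × (Fin (m + 1) → ℝ)), (∀ p, a ≤ ‖p.1‖ → h p = p) ∧
          (∀ p, R ≤ ‖p.2‖ → h p = p) ∧ (∀ p, ‖p.2‖ < lam * R → h p = g p) ∧
          (∀ p, dist (h p) p < ε) := by
  classical
  obtain ⟨P, hP⟩ := exists_unw m
  obtain ⟨r0, hr0pos, hr0⟩ : ∃ r0 : ℝ, 0 < r0 ∧ P '' {a | |a.2| ≤ 6} ⊆ ball (P 0) r0 := by
    obtain ⟨r, hr⟩ := (Metric.isBounded_iff_subset_ball (P 0)).1 hP.bdd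
    refine ⟨max r 1, lt_of_lt_of_le one_pos (le_max_right _ _), hr.trans ?_⟩
    exact ball_subset_ball (le_max_left _ _)
  obtain ⟨μ, hμ, hcore⟩ := hs_core C m P hP r0 hr0
  refine ⟨min (μ / r0) (1 / 2), lt_min (by positivity) (by norm_num),
    lt_of_le_of_lt (min_le_right _ _) (by norm_num), ?_⟩
  intro a R ε ha hR hε
  set s : ℝ := r0 / R with hs
  have hs0 : 0 < s := by positivity
  have hsR : s * R = r0 := by rw [hs]; field_simp
  obtain ⟨δ, hδ, hcore'⟩ := hcore (s * a) (s * ε) (by positivity) (by positivity)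
  refine ⟨δ / s, by positivity, fun g hg hgd hgid => ?_⟩
  -- the similarity
  set σ : (C × (Fin (m + 1) → ℝ)) ≃ₜ (C × (Fin (m + 1) → ℝ)) :=
    { toFun := fun p => (s • p.1, s • p.2 + P 0)
      invFun := fun p => (s⁻¹ • p.1, s⁻¹ • (p.2 - P 0))
      left_inv := by
        intro p
        simp only [add_sub_cancel_right]
        rw [smul_smul, smul_smul, inv_mul_cancel₀ hs0.ne', one_smul, one_smul]
      right_inv := by
        intro p
        simp only
        rw [smul_smul, smul_smul, mul_inv_cancel₀ hs0.ne', one_smul, one_smul, sub_add_cancel]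
      continuous_toFun := by fun_prop
      continuous_invFun := by fun_prop } with hσ
  have hσ1 : ∀ p, (σ p).1 = s • p.1 := fun p => rfl
  have hσ2 : ∀ p, (σ p).2 = s • p.2 + P 0 := fun p => rfl
  have hσi1 : ∀ p, (σ.symm p).1 = s⁻¹ • p.1 := fun p => rfl
  have hσi2 : ∀ p, (σ.symm p).2 = s⁻¹ • (p.2 - P 0) := fun p => rfl
  have hσd2 : ∀ p, dist (σ p).2 (P 0) = s * ‖p.2‖ := by
    intro p
    rw [hσ2, dist_eq_norm, add_sub_cancel_right, norm_smul, Real.norm_eq_abs, abs_of_pos hs0]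
  have hσn1 : ∀ p, ‖(σ p).1‖ = s * ‖p.1‖ := by
    intro p
    rw [hσ1, norm_smul, Real.norm_eq_abs, abs_of_pos hs0]
  have hσd : ∀ p p', dist (σ p) (σ p') = s * dist p p' := by
    intro p p'
    rw [Prod.dist_eq, Prod.dist_eq, hσ1, hσ1, hσ2, hσ2, dist_add_right, dist_smul₀, dist_smul₀,
      Real.norm_eq_abs, abs_of_pos hs0, mul_max_of_nonneg _ _ hs0.le]
  have hlt : ∀ p : C × (Fin (m + 1) → ℝ), dist p.2 (P 0) < r0 ↔ ‖(σ.symm p).2‖ < R := by
    intro p
    have h1 := hσd2 (σ.symm p)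
    rw [σ.apply_symm_apply] at h1
    rw [h1, ← hsR]
    exact mul_lt_mul_iff_right₀ hs0
  have hna : ∀ p : C × (Fin (m + 1) → ℝ), s * a ≤ ‖p.1‖ ↔ a ≤ ‖(σ.symm p).1‖ := by
    intro p
    have h1 := hσn1 (σ.symm p)
    rw [σ.apply_symm_apply] at h1
    rw [h1]
    exact mul_le_mul_iff_right₀ hs0
  set g' : C × (Fin (m + 1) → ℝ) → C × (Fin (m + 1) → ℝ) := σ ∘ g ∘ σ.symm with hg'
  have hopen : IsOpen {p : C × (Fin (m + 1) → ℝ) | dist p.2 (P 0) < r0} :=
    isOpen_lt (by fun_prop) continuous_const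
  have hg'OE : OE g' {p | dist p.2 (P 0) < r0} := by
    refine OE.comp (OE.of_homeo σ isOpen_univ) ?_ (mapsTo_univ _ _)
    exact OE.comp hg (OE.of_homeo σ.symm hopen) (fun p hp => (hlt p).1 hp)
  obtain ⟨h', hh1, hh2, hh3, hh4⟩ := hcore' g' hg'OE
    (by
      intro p hp
      have h1 := hgd (σ.symm p) ((hlt p).1 hp)
      have h2 : dist (g' p) p = s * dist (g (σ.symm p)) (σ.symm p) := by
        rw [← hσd, σ.apply_symm_apply]; rfl
      rw [h2]
      rw [lt_div_iff₀ hs0] at h1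
      linarith)
    (by
      intro p hpa hp
      have h1 := hgid (σ.symm p) ((hna p).1 hpa) ((hlt p).1 hp)
      show σ (g (σ.symm p)) = p
      rw [h1, σ.apply_symm_apply])
  refine ⟨(σ.trans h').trans σ.symm, ?_, ?_, ?_, ?_⟩
  · intro p hp
    show σ.symm (h' (σ p)) = p
    rw [hh1 (σ p) ((hna _).2 (by rwa [σ.symm_apply_apply])), σ.symm_apply_apply]
  · intro p hp
    show σ.symm (h' (σ p)) = p
    rw [hh2 (σ p) (by rw [hσd2, ← hsR]; exact mul_le_mul_of_nonneg_left hp hs0.le),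
      σ.symm_apply_apply]
  · intro p hp
    show σ.symm (h' (σ p)) = g p
    have h1 : dist (σ p).2 (P 0) < μ := by
      rw [hσd2]
      have h2 : ‖p.2‖ < μ / r0 * R :=
        lt_of_lt_of_le hp (mul_le_mul_of_nonneg_right (min_le_left _ _) hR.le)
      have h3 : s * ‖p.2‖ < s * (μ / r0 * R) := mul_lt_mul_of_pos_left h2 hs0
      have h4 : s * (μ / r0 * R) = μ := by
        rw [hs]; field_simp
      rwa [h4] at h3
    rw [hh3 (σ p) h1]
    show σ.symm (σ (g (σ.symm (σ p)))) = g p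
    rw [σ.symm_apply_apply, σ.symm_apply_apply]
  · intro p
    show dist (σ.symm (h' (σ p))) p < ε
    have h1 := hh4 (σ p)
    have h2 : dist (h' (σ p)) (σ p) = s * dist (σ.symm (h' (σ p))) p := by
      rw [← hσd, σ.apply_symm_apply]
    rw [h2] at h1
    exact lt_of_mul_lt_mul_left h1 hs0.le

end Pool.Agent.H75.Mfd
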