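import Pool.Agent.H75.Mfd.HSZero
import Pool.Agent.H75.Mfd.HSSucc

set_option autoImplicit false

namespace Pool.Agent.H75.Mfd

open Set Topology Metric Filter

theorem hs (C : Type*) [NormedAddCommGroup C] [NormedSpace ℝ C] [FiniteDimensional ℝ C]
    (m : ℕ) :
    ∃ lam : ℝ, 0 < lam ∧ lam < 1 ∧ ∀ a R ε : ℝ, 0 < a → 0 < R → 0 < ε →
      ∃ δ > 0, ∀ g : C × (Fin m → ℝ) → C × (Fin m → ℝ),
        OE g {p | ‖p.2‖ < R} → (∀ p : C × (Fin m → ℝ), ‖p.2‖ < R → dist (g p) p < δ) →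
        (∀ p : C × (Fin m → ℝ), a ≤ ‖p.1‖ → ‖p.2‖ < R → g p = p) →
        ∃ h : (C × (Fin m → ℝ)) ≃ₜ (C × (Fin m → ℝ)), (∀ p, a ≤ ‖p.1‖ → h p = p) ∧
          (∀ p, R ≤ ‖p.2‖ → h p = p) ∧ (∀ p, ‖p.2‖ < lam * R → h p = g p) ∧
          (∀ p, dist (h p) p < ε) := by
  cases m with
  | zero => exact hs_zero C
  | succ m => exact hs_succ C m

end Pool.Agent.H75.Mfd
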