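import Pool.Agent.H75.Mfd.GridDefs
import Pool.Agent.H75.Mfd.HS

/-!
Module GRID (faces of the cubical grid) and one handle step.
face_step: lam = (minimum over m <= n of the lam of `hs` for C = (S -> R), |S^c| = m) / 2.
Coordinates x = (x_S, y), y = x_{S^c} - base, centre c of the face; a = l/2 - rho/2, R = rho/2.
g' = g on {|x_S - c| < l/2, |y| < R}, g' = id on {|x_S - c| >= a, |y| < R}: on the overlap
g = id because such a point is within rho of gbdry. g' is an open embedding of {|y| < R} when g is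
close enough to id (delta <= rho/4). Apply `hs`. A point at distance < lam rho of the face with
x_S outside the box is within lam rho of gbdry, so g = id = h there.
-/

set_option autoImplicit false

namespace Pool.Agent.H75.Mfd

open Set Topology Metric Filter

/-- the step in product coordinates -/
theorem fs_prod (C : Type) [NormedAddCommGroup C] [NormedSpace ℝ C] [FiniteDimensional ℝ C]
    (m : ℕ) : ∃ lam : ℝ, 0 < lam ∧ lam < 1 ∧
    ∀ l ρ : ℝ, 0 < ρ → ρ ≤ l / 4 → ∀ ε > 0, ∃ δ > 0,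
      ∀ (g : C × (Fin m → ℝ) → C × (Fin m → ℝ)) (U : Set (C × (Fin m → ℝ))), OE g U →
        (∀ p : C × (Fin m → ℝ), ‖p.1‖ ≤ l / 2 → ‖p.2‖ < ρ → p ∈ U) →
        (∀ x ∈ U, dist (g x) x < δ) →
        (∀ p : C × (Fin m → ℝ), l / 2 - ρ < ‖p.1‖ → ‖p.1‖ < l / 2 + ρ → ‖p.2‖ < ρ → g p = p) →
        ∃ h : (C × (Fin m → ℝ)) ≃ₜ (C × (Fin m → ℝ)),
          (∀ p, l / 2 - ρ / 2 < ‖p.1‖ → h p = p) ∧ (∀ p, ρ / 2 < ‖p.2‖ → h p = p) ∧
          (∀ p, ‖p.1‖ < l / 2 + lam * ρ → ‖p.2‖ < lam * ρ → h p = g p) ∧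
          ∀ p, dist (h p) p < ε := by
  classical
  obtain ⟨lam₀, hlam0, hlam1, H⟩ := hs C m
  refine ⟨lam₀ / 2, by linarith, by linarith, ?_⟩
  intro l ρ hρ hl ε hε
  obtain ⟨δ₀, hδ₀, H1⟩ := H (l / 2 - ρ / 2) (ρ / 2) ε (by linarith) (by linarith) hε
  refine ⟨min δ₀ (ρ / 2), lt_min hδ₀ (by linarith), ?_⟩
  intro g U hg hU hδ hid
  let g' : C × (Fin m → ℝ) → C × (Fin m → ℝ) := fun p => if ‖p.1‖ < l / 2 then g p else p
  have hg'1 : ∀ p, ‖p.1‖ < l / 2 → g' p = g p := fun p hp => if_pos hp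
  have hg'2 : ∀ p : C × (Fin m → ℝ), l / 2 - ρ / 2 ≤ ‖p.1‖ → ‖p.2‖ < ρ / 2 → g' p = p := by
    intro p hp1 hp2
    by_cases hp : ‖p.1‖ < l / 2
    · rw [hg'1 p hp]
      exact hid p (by linarith) (by linarith) (by linarith)
    · exact if_neg hp
  have hclose : ∀ p : C × (Fin m → ℝ), ‖p.2‖ < ρ / 2 → dist (g' p) p < min δ₀ (ρ / 2) := by
    intro p hp2
    by_cases hp : ‖p.1‖ < l / 2
    · rw [hg'1 p hp]
      exact hδ p (hU p hp.le (by linarith))
    · have : g' p = p := if_neg hp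
      rw [this, dist_self]
      exact lt_min hδ₀ (by linarith)
  have hinj : InjOn g' {p | ‖p.2‖ < ρ / 2} := by
    have key : ∀ p q : C × (Fin m → ℝ), ‖p.2‖ < ρ / 2 → ‖q.2‖ < ρ / 2 →
        ‖p.1‖ < l / 2 - ρ / 2 → l / 2 ≤ ‖q.1‖ → g' p ≠ g' q := by
      intro p q hp hq hp1 hq1 heq
      have h1 : g' q = q := hg'2 q (by linarith) hq
      rw [h1] at heq
      have h2 := (hclose p hp).trans_le (min_le_right _ _)
      rw [heq, Prod.dist_eq] at h2
      have h3 : dist q.1 p.1 < ρ / 2 := lt_of_le_of_lt (le_max_left _ _) h2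
      rw [dist_eq_norm] at h3
      have h4 : ‖q.1‖ ≤ ‖q.1 - p.1‖ + ‖p.1‖ := by
        have := norm_add_le (q.1 - p.1) p.1
        simpa using this
      linarith
    intro p hp q hq heq
    have hp' : ‖p.2‖ < ρ / 2 := hp
    have hq' : ‖q.2‖ < ρ / 2 := hq
    by_cases h1 : ‖p.1‖ < l / 2
    · by_cases h2 : ‖q.1‖ < l / 2
      · rw [hg'1 p h1, hg'1 q h2] at heq
        exact hg.inj (hU p h1.le (by linarith)) (hU q h2.le (by linarith)) heq
      · by_cases h3 : ‖p.1‖ < l / 2 - ρ / 2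
        · exact absurd heq (key p q hp' hq' h3 (not_lt.1 h2))
        · rw [hg'2 p (not_lt.1 h3) hp', hg'2 q (by linarith [not_lt.1 h2]) hq'] at heq
          exact heq
    · by_cases h2 : ‖q.1‖ < l / 2
      · by_cases h3 : ‖q.1‖ < l / 2 - ρ / 2
        · exact absurd heq.symm (key q p hq' hp' h3 (not_lt.1 h1))
        · rw [hg'2 q (not_lt.1 h3) hq', hg'2 p (by linarith [not_lt.1 h1]) hp'] at heq
          exact heq
      · rw [hg'2 p (by linarith [not_lt.1 h1]) hp', hg'2 q (by linarith [not_lt.1 h2]) hq'] at heq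
        exact heq
  have hc1 : Continuous (fun p : C × (Fin m → ℝ) => ‖p.1‖) := continuous_fst.norm
  have hc2 : Continuous (fun p : C × (Fin m → ℝ) => ‖p.2‖) := continuous_snd.norm
  have ho2 : IsOpen {p : C × (Fin m → ℝ) | ‖p.2‖ < ρ / 2} := isOpen_lt hc2 continuous_const
  have hOE : OE g' {p | ‖p.2‖ < ρ / 2} := by
    apply OE.of_local hinj
    intro p hp
    by_cases h1 : ‖p.1‖ < l / 2
    · refine ⟨{q | ‖q.1‖ < l / 2} ∩ {q | ‖q.2‖ < ρ / 2}, ⟨h1, hp⟩, inter_subset_right, ?_⟩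
      have hV : IsOpen ({q : C × (Fin m → ℝ) | ‖q.1‖ < l / 2} ∩ {q | ‖q.2‖ < ρ / 2}) :=
        (isOpen_lt hc1 continuous_const).inter ho2
      refine (hg.mono hV ?_).congr ?_
      · rintro q ⟨hq1, hq2⟩
        have hq1' : ‖q.1‖ < l / 2 := hq1
        have hq2' : ‖q.2‖ < ρ / 2 := hq2
        exact hU q hq1'.le (by linarith)
      · rintro q ⟨hq1, hq2⟩
        exact hg'1 q hq1
    · refine ⟨{q | l / 2 - ρ / 2 < ‖q.1‖} ∩ {q | ‖q.2‖ < ρ / 2}, ⟨?_, hp⟩, inter_subset_right, ?_⟩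
      · show l / 2 - ρ / 2 < ‖p.1‖
        linarith [not_lt.1 h1]
      · have hV : IsOpen ({q : C × (Fin m → ℝ) | l / 2 - ρ / 2 < ‖q.1‖} ∩
            {q | ‖q.2‖ < ρ / 2}) := (isOpen_lt continuous_const hc1).inter ho2
        refine (OE.id hV).congr ?_
        rintro q ⟨hq1, hq2⟩
        exact hg'2 q (le_of_lt hq1) hq2
  obtain ⟨h, hh1, hh2, hh3, hh4⟩ := H1 g' hOE
    (fun p hp => (hclose p hp).trans_le (min_le_left _ _)) (fun p hp1 hp2 => hg'2 p hp1 hp2)
  refine ⟨h, fun p hp => hh1 p hp.le, fun p hp => hh2 p hp.le, ?_, hh4⟩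
  intro p hp1 hp2
  have h5 : lam₀ / 2 * ρ = lam₀ * (ρ / 2) := by ring
  have h6 : lam₀ * (ρ / 2) < ρ / 2 := by nlinarith
  rw [h5] at hp1 hp2
  rw [hh3 p hp2]
  by_cases h1 : ‖p.1‖ < l / 2
  · exact hg'1 p h1
  · have h2 : g' p = p := if_neg h1
    rw [h2]
    exact (hid p (by linarith [not_lt.1 h1]) (by linarith) (by linarith)).symm

/-- the coordinates adapted to a face -/
theorem fs_coord (n : ℕ) (l : ℝ) (a : Fin n → ℤ) (S : Finset (Fin n)) :
    ∃ Φ : (Fin n → ℝ) ≃ₜ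
      (({i // i ∈ S} → ℝ) × (Fin (Fintype.card {i // i ∉ S}) → ℝ)),
      (∀ x y, dist (Φ x) (Φ y) = dist x y) ∧
      (∀ x r, 0 ≤ r → (‖(Φ x).1‖ ≤ r ↔ ∀ i ∈ S, |x i - l * (a i + 1 / 2)| ≤ r)) ∧
      (∀ x r, 0 ≤ r → (‖(Φ x).2‖ ≤ r ↔ ∀ i, i ∉ S → |x i - l * a i| ≤ r)) ∧
      (∀ x r, 0 < r → (∀ i ∈ S, |x i - l * (a i + 1 / 2)| < r) → ‖(Φ x).1‖ < r) := by
  classical
  let e : {i // i ∉ S} ≃ Fin (Fintype.card {i // i ∉ S}) := Fintype.equivFin _
  let F : (Fin n → ℝ) → (({i // i ∈ S} → ℝ) × (Fin (Fintype.card {i // i ∉ S}) → ℝ)) :=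
    fun x => (fun i => x i.1 - l * (a i.1 + 1 / 2), fun j => x (e.symm j).1 - l * a (e.symm j).1)
  let G : (({i // i ∈ S} → ℝ) × (Fin (Fintype.card {i // i ∉ S}) → ℝ)) → (Fin n → ℝ) :=
    fun p i => if h : i ∈ S then p.1 ⟨i, h⟩ + l * (a i + 1 / 2) else p.2 (e ⟨i, h⟩) + l * a i
  have hGF : ∀ x, G (F x) = x := by
    intro x
    funext i
    by_cases h : i ∈ S
    · simp only [G, F, dif_pos h]
      ring
    · simp only [G, F, dif_neg h, Equiv.symm_apply_apply]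
      ring
  have hFG : ∀ p, F (G p) = p := by
    intro p
    refine Prod.ext ?_ ?_
    · funext i
      simp only [G, F, dif_pos i.2]
      ring
    · funext j
      have h : (e.symm j).1 ∉ S := (e.symm j).2
      simp only [G, F, dif_neg h]
      have : (⟨(e.symm j).1, h⟩ : {i // i ∉ S}) = e.symm j := rfl
      rw [this, Equiv.apply_symm_apply]
      ring
  have hdist : ∀ x y, dist (F x) (F y) = dist x y := by
    intro x y
    rw [Prod.dist_eq]
    apply le_antisymm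
    · refine max_le ?_ ?_
      · rw [dist_pi_le_iff dist_nonneg]
        intro i
        have : dist ((F x).1 i) ((F y).1 i) = dist (x i.1) (y i.1) := by
          simp only [F, Real.dist_eq]
          congr 1
          ring
        rw [this]
        exact dist_le_pi_dist x y i.1
      · rw [dist_pi_le_iff dist_nonneg]
        intro j
        have : dist ((F x).2 j) ((F y).2 j) = dist (x (e.symm j).1) (y (e.symm j).1) := by
          simp only [F, Real.dist_eq]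
          congr 1
          ring
        rw [this]
        exact dist_le_pi_dist x y _
    · rw [dist_pi_le_iff (le_max_of_le_left dist_nonneg)]
      intro i
      by_cases h : i ∈ S
      · have : dist (x i) (y i) = dist ((F x).1 ⟨i, h⟩) ((F y).1 ⟨i, h⟩) := by
          simp only [F, Real.dist_eq]
          congr 1
          ring
        rw [this]
        exact (dist_le_pi_dist (F x).1 (F y).1 ⟨i, h⟩).trans (le_max_left _ _)
      · have : dist (x i) (y i) = dist ((F x).2 (e ⟨i, h⟩)) ((F y).2 (e ⟨i, h⟩)) := by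
          simp only [F, Real.dist_eq, Equiv.symm_apply_apply]
          congr 1
          ring
        rw [this]
        exact (dist_le_pi_dist (F x).2 (F y).2 (e ⟨i, h⟩)).trans (le_max_right _ _)
  let Φ : (Fin n → ℝ) ≃ᵢ (({i // i ∈ S} → ℝ) × (Fin (Fintype.card {i // i ∉ S}) → ℝ)) :=
    IsometryEquiv.mk' F G hFG (Isometry.of_dist_eq hdist)
  refine ⟨Φ.toHomeomorph, hdist, ?_, ?_, ?_⟩
  · intro x r hr
    show ‖(F x).1‖ ≤ r ↔ _
    rw [pi_norm_le_iff_of_nonneg hr]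
    constructor
    · intro h i hi
      have := h ⟨i, hi⟩
      rwa [Real.norm_eq_abs] at this
    · intro h i
      rw [Real.norm_eq_abs]
      exact h i.1 i.2
  · intro x r hr
    show ‖(F x).2‖ ≤ r ↔ _
    rw [pi_norm_le_iff_of_nonneg hr]
    constructor
    · intro h i hi
      have := h (e ⟨i, hi⟩)
      simp only [F, Equiv.symm_apply_apply, Real.norm_eq_abs] at this
      exact this
    · intro h j
      rw [Real.norm_eq_abs]
      exact h (e.symm j).1 (e.symm j).2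
  · intro x r hr h
    show ‖(F x).1‖ < r
    rw [pi_norm_lt_iff hr]
    intro i
    rw [Real.norm_eq_abs]
    exact h i.1 i.2

theorem face_step_one (n : ℕ) (S : Finset (Fin n)) : ∃ lam : ℝ, 0 < lam ∧ lam < 1 ∧
    ∀ l ρ : ℝ, 0 < ρ → ρ ≤ l / 4 → ∀ (a : Fin n → ℤ), ∀ ε > 0, ∃ δ > 0,
      ∀ (g : (Fin n → ℝ) → (Fin n → ℝ)) (U : Set (Fin n → ℝ)), OE g U →
        thickening ρ (gface n l a S) ⊆ U → (∀ x ∈ U, dist (g x) x < δ) →
        (∀ x ∈ thickening ρ (gbdry n l a S), g x = x) →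
        ∃ h : (Fin n → ℝ) ≃ₜ (Fin n → ℝ), SuppIn h (gsupp n l a S ρ) ∧
          (∀ x ∈ thickening (lam * ρ) (gface n l a S), h x = g x) ∧ ∀ x, dist (h x) x < ε := by
  classical
  obtain ⟨lam, hlam0, hlam1, H⟩ := fs_prod ({i // i ∈ S} → ℝ) (Fintype.card {i // i ∉ S})
  refine ⟨lam, hlam0, hlam1, ?_⟩
  intro l ρ hρ hl a ε hε
  obtain ⟨δ, hδ, H1⟩ := H l ρ hρ hl ε hε
  refine ⟨δ, hδ, ?_⟩
  intro g U hg hU hgδ hid
  obtain ⟨Φ, hΦd, hΦ1, hΦ2, hΦ3⟩ := fs_coord n l a S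
  have hl0 : 0 < l := by linarith
  -- the face in the coordinates
  have hface : ∀ x, x ∈ gface n l a S ↔ ‖(Φ x).1‖ ≤ l / 2 ∧ (Φ x).2 = 0 := by
    intro x
    rw [hΦ1 x (l / 2) (by linarith), ← norm_le_zero_iff, hΦ2 x 0 le_rfl]
    unfold gface
    constructor
    · intro hx
      refine ⟨fun i hi => ?_, fun i hi => ?_⟩
      · obtain ⟨h1, h2⟩ := (hx i).1 hi
        rw [abs_le]
        constructor <;> nlinarith
      · rw [(hx i).2 hi]
        simp
    · rintro ⟨h1, h2⟩ i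
      refine ⟨fun hi => ?_, fun hi => ?_⟩
      · have := abs_le.1 (h1 i hi)
        constructor <;> nlinarith
      · have := h2 i hi
        have h3 : |x i - l * a i| = 0 := le_antisymm this (abs_nonneg _)
        linarith [abs_eq_zero.1 h3]
  have hbdry : ∀ x, ‖(Φ x).1‖ = l / 2 → (Φ x).2 = 0 → x ∈ gbdry n l a S := by
    intro x h1 h2
    refine ⟨(hface x).2 ⟨h1.le, h2⟩, ?_⟩
    by_contra hcon
    push Not at hcon
    have h3 := (hΦ1 x (l / 2) (by linarith)).1 h1.le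
    have h4 : ‖(Φ x).1‖ < l / 2 := by
      apply hΦ3 x (l / 2) (by linarith)
      intro i hi
      refine lt_of_le_of_ne (h3 i hi) ?_
      intro habs
      obtain ⟨h5, h6⟩ := hcon i hi
      rcases (abs_eq (by linarith : (0 : ℝ) ≤ l / 2)).1 habs with h7 | h7
      · apply h6
        linarith
      · apply h5
        linarith
    linarith
  have hnear : ∀ p : ({i // i ∈ S} → ℝ) × (Fin (Fintype.card {i // i ∉ S}) → ℝ),
      ∀ c : ({i // i ∈ S} → ℝ), dist (Φ.symm p) (Φ.symm (c, 0)) = max ‖p.1 - c‖ ‖p.2‖ := by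
    intro p c
    rw [← hΦd, Φ.apply_symm_apply, Φ.apply_symm_apply, Prod.dist_eq, dist_eq_norm, dist_eq_norm,
      sub_zero]
  have hOE : OE (fun p => Φ (g (Φ.symm p))) (Φ.symm ⁻¹' U) := by
    have h1 : OE (fun p => g (Φ.symm p)) (Φ.symm ⁻¹' U) :=
      OE.comp hg (OE.of_homeo Φ.symm (hg.isOpen.preimage Φ.symm.continuous)) (fun _ hx => hx)
    exact OE.comp (OE.of_homeo Φ isOpen_univ) h1 (fun _ _ => mem_univ _)
  obtain ⟨h, hh1, hh2, hh3, hh4⟩ := H1 (fun p => Φ (g (Φ.symm p))) (Φ.symm ⁻¹' U) hOE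
    (by
      intro p hp1 hp2
      apply hU
      rw [mem_thickening_iff]
      refine ⟨Φ.symm (p.1, 0), ?_, ?_⟩
      · rw [hface, Φ.apply_symm_apply]
        exact ⟨hp1, rfl⟩
      · rw [hnear, sub_self, norm_zero]
        exact max_lt hρ hp2)
    (by
      intro p hp
      have : dist (Φ (g (Φ.symm p))) p = dist (g (Φ.symm p)) (Φ.symm p) := by
        rw [← hΦd (g (Φ.symm p)) (Φ.symm p), Φ.apply_symm_apply]
      rw [this]
      exact hgδ _ hp)
    (by
      intro p hp1 hp2 hp3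
      have hp0 : 0 < ‖p.1‖ := by linarith
      have h5 : g (Φ.symm p) = Φ.symm p := by
        apply hid
        rw [mem_thickening_iff]
        refine ⟨Φ.symm ((l / 2 / ‖p.1‖) • p.1, 0), ?_, ?_⟩
        · apply hbdry
          · rw [Φ.apply_symm_apply]
            show ‖(l / 2 / ‖p.1‖) • p.1‖ = l / 2
            rw [norm_smul, Real.norm_eq_abs, abs_of_pos (by positivity)]
            field_simp
          · rw [Φ.apply_symm_apply]
        · rw [hnear]
          refine max_lt ?_ hp3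
          have h6 : p.1 - (l / 2 / ‖p.1‖) • p.1 = (1 - l / 2 / ‖p.1‖) • p.1 := by
            rw [sub_smul, one_smul]
          rw [h6, norm_smul, Real.norm_eq_abs]
          have h7 : |1 - l / 2 / ‖p.1‖| * ‖p.1‖ = |‖p.1‖ - l / 2| := by
            rw [← abs_of_pos hp0, ← abs_mul]
            rw [abs_of_pos hp0]
            congr 1
            field_simp
          rw [h7, abs_lt]
          constructor <;> linarith
      show Φ (g (Φ.symm p)) = p
      rw [h5, Φ.apply_symm_apply])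
  refine ⟨(Φ.trans h).trans Φ.symm, ?_, ?_, ?_⟩
  · intro x hx
    show Φ.symm (h (Φ x)) = x
    have h5 : l / 2 - ρ / 2 < ‖(Φ x).1‖ ∨ ρ / 2 < ‖(Φ x).2‖ := by
      by_contra hcon
      push Not at hcon
      apply hx
      obtain ⟨h1, h2⟩ := hcon
      rw [hΦ1 x _ (by linarith)] at h1
      rw [hΦ2 x _ (by linarith)] at h2
      refine ⟨fun i hi => ?_, h2⟩
      have := abs_le.1 (h1 i hi)
      constructor <;> nlinarith
    rcases h5 with h5 | h5
    · rw [hh1 _ h5, Φ.symm_apply_apply]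
    · rw [hh2 _ h5, Φ.symm_apply_apply]
  · intro x hx
    show Φ.symm (h (Φ x)) = g x
    obtain ⟨z, hz, hxz⟩ := mem_thickening_iff.1 hx
    rw [← hΦd, Prod.dist_eq, max_lt_iff, dist_eq_norm, dist_eq_norm] at hxz
    obtain ⟨hz1, hz2⟩ := (hface z).1 hz
    rw [hz2, sub_zero] at hxz
    have h5 : ‖(Φ x).1‖ < l / 2 + lam * ρ := by
      have := norm_add_le ((Φ x).1 - (Φ z).1) (Φ z).1
      rw [sub_add_cancel] at this
      linarith [hxz.1]
    rw [hh3 (Φ x) h5 hxz.2]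
    simp
  · intro x
    show dist (Φ.symm (h (Φ x))) x < ε
    rw [← hΦd, Φ.apply_symm_apply]
    exact hh4 _

theorem face_step (n : ℕ) : ∃ lam : ℝ, 0 < lam ∧ lam < 1 ∧
    ∀ l ρ : ℝ, 0 < ρ → ρ ≤ l / 4 → ∀ (a : Fin n → ℤ) (S : Finset (Fin n)), ∀ ε > 0, ∃ δ > 0,
      ∀ (g : (Fin n → ℝ) → (Fin n → ℝ)) (U : Set (Fin n → ℝ)), OE g U →
        thickening ρ (gface n l a S) ⊆ U → (∀ x ∈ U, dist (g x) x < δ) →
        (∀ x ∈ thickening ρ (gbdry n l a S), g x = x) →
        ∃ h : (Fin n → ℝ) ≃ₜ (Fin n → ℝ), SuppIn h (gsupp n l a S ρ) ∧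
          (∀ x ∈ thickening (lam * ρ) (gface n l a S), h x = g x) ∧ ∀ x, dist (h x) x < ε := by
  choose lam h0 h1 H using fun S => face_step_one n S
  obtain ⟨S₀, hS₀⟩ := Finite.exists_min lam
  refine ⟨lam S₀, h0 S₀, h1 S₀, ?_⟩
  intro l ρ hρ hl a S ε hε
  obtain ⟨δ, hδ, H1⟩ := H S l ρ hρ hl a ε hε
  refine ⟨δ, hδ, ?_⟩
  intro g U hg hU hgδ hid
  obtain ⟨h, hh1, hh2, hh3⟩ := H1 g U hg hU hgδ hid
  refine ⟨h, hh1, ?_, hh3⟩
  intro x hx
  exact hh2 x (thickening_mono (mul_le_mul_of_nonneg_right (hS₀ S) hρ.le) _ hx)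

end Pool.Agent.H75.Mfd
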