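import Pool.Agent.H75.Mfd.PresDefs

/-!
Elementary compactness lemmas used in the gluing lemma.
-/

set_option autoImplicit false

namespace Pool.Agent.H75.Mfd

open Set Topology Metric Filter

theorem exists_pos_le_all {ι : Type*} [Finite ι] (f : ι → ℝ) (hf : ∀ i, 0 < f i) :
    ∃ c > 0, ∀ i, c ≤ f i := by
  rcases isEmpty_or_nonempty ι with h | h
  · exact ⟨1, one_pos, fun i => (h.false i).elim⟩
  · obtain ⟨i, hi⟩ := Finite.exists_min f
    exact ⟨f i, hf i, hi⟩

/-- An injective continuous map on a compact set has a modulus of injectivity. -/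
theorem exists_modulus_inj {A B : Type*} [MetricSpace A] [MetricSpace B] {f : A → B} {K : Set A}
    (hK : IsCompact K) (hc : ContinuousOn f K) (hi : InjOn f K) {δ : ℝ} (hδ : 0 < δ) :
    ∃ η > 0, ∀ z ∈ K, ∀ z' ∈ K, dist (f z) (f z') < η → dist z z' < δ := by
  let T : Set (A × A) := (K ×ˢ K) ∩ {p | δ ≤ dist p.1 p.2}
  have hT : IsCompact T := (hK.prod hK).inter_right
    (isClosed_le continuous_const (continuous_fst.dist continuous_snd))
  have hcT : ContinuousOn (fun p : A × A => dist (f p.1) (f p.2)) T := by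
    have h1 : ContinuousOn (fun p : A × A => f p.1) T :=
      hc.comp continuous_fst.continuousOn fun p hp => hp.1.1
    have h2 : ContinuousOn (fun p : A × A => f p.2) T :=
      hc.comp continuous_snd.continuousOn fun p hp => hp.1.2
    exact continuous_dist.comp_continuousOn (h1.prodMk h2)
  rcases T.eq_empty_or_nonempty with h | h
  · refine ⟨1, one_pos, fun z hz z' hz' _ => ?_⟩
    by_contra hcon
    have : (z, z') ∈ T := ⟨⟨hz, hz'⟩, not_lt.1 hcon⟩
    rw [h] at this
    exact this
  · obtain ⟨p, hp, hmin⟩ := hT.exists_isMinOn h hcT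
    have hpos : 0 < dist (f p.1) (f p.2) := by
      rw [dist_pos]
      intro he
      have h1 := hi hp.1.1 hp.1.2 he
      have h2 : δ ≤ dist p.1 p.2 := hp.2
      rw [h1, dist_self] at h2
      linarith
    refine ⟨_, hpos, fun z hz z' hz' hd => ?_⟩
    by_contra hcon
    have : (z, z') ∈ T := ⟨⟨hz, hz'⟩, not_lt.1 hcon⟩
    have h3 := hmin this
    simp only [mem_ofPred_eq] at h3
    linarith

/-- uniform continuity on a compact set -/
theorem exists_modulus_cont {A B : Type*} [MetricSpace A] [MetricSpace B] {f : A → B} {K : Set A}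
    (hK : IsCompact K) (hc : ContinuousOn f K) {η : ℝ} (hη : 0 < η) :
    ∃ ζ > 0, ∀ z ∈ K, ∀ z' ∈ K, dist z z' < ζ → dist (f z) (f z') < η := by
  obtain ⟨ζ, hζ, h⟩ := Metric.uniformContinuousOn_iff.1
    (hK.uniformContinuousOn_of_continuous hc) η hη
  exact ⟨ζ, hζ, fun z hz z' hz' hd => h z hz z' hz' hd⟩

/-- a compact set inside an open set has a uniform neighbourhood inside it -/
theorem exists_nhd_radius {B : Type*} [MetricSpace B] {K U : Set B} (hK : IsCompact K)
    (hU : IsOpen U) (hKU : K ⊆ U) : ∃ η > 0, ∀ y ∈ K, ∀ x, dist x y < η → x ∈ U := by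
  obtain ⟨η, hη, h⟩ := hK.exists_thickening_subset_open hU hKU
  exact ⟨η, hη, fun y hy x hx => h (mem_thickening_iff.2 ⟨y, hy, hx⟩)⟩

end Pool.Agent.H75.Mfd
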