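import Pool.Agent.H75.Mfd.GridDefs

/-!
Module GRIDFAR. Elementary facts on faces, sup metric.
-/

set_option autoImplicit false

namespace Pool.Agent.H75.Mfd

open Set Topology Metric Filter

/-- two integers whose cells of side `l` share an interior point are equal -/
theorem int_cell_unique {l x : ℝ} (hl : 0 < l) {a b : ℤ} (h1 : l * a < x) (h2 : x < l * (a + 1))
    (h3 : l * b ≤ x) (h4 : x ≤ l * (b + 1)) : b = a := by
  have e1 : (a : ℝ) < b + 1 := by
    have : l * a < l * (b + 1) := by linarith
    exact lt_of_mul_lt_mul_left this hl.le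
  have e2 : (b : ℝ) < a + 1 := by
    have : l * b < l * (a + 1) := by linarith
    exact lt_of_mul_lt_mul_left this hl.le
  have e1' : a < b + 1 := by exact_mod_cast e1
  have e2' : b < a + 1 := by exact_mod_cast e2
  omega

/-- a grid value in the interior of a cell is impossible -/
theorem int_cell_no {l x : ℝ} (hl : 0 < l) {a b : ℤ} (h1 : l * a < x) (h2 : x < l * (a + 1))
    (h3 : x = l * b) : False := by
  rw [h3] at h1 h2
  have e1 : (a : ℝ) < b := lt_of_mul_lt_mul_left h1 hl.le
  have e2 : (b : ℝ) < a + 1 := lt_of_mul_lt_mul_left h2 hl.le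
  have e1' : a < b := by exact_mod_cast e1
  have e2' : b < a + 1 := by exact_mod_cast e2
  omega

/-- the support of a step stays away from every face not containing the current one -/
theorem gsupp_far (n : ℕ) (l ρ : ℝ) (hρ : 0 < ρ) (hl : ρ ≤ l / 4) (a a' : Fin n → ℤ)
    (S S' : Finset (Fin n)) (h : ¬ gface n l a S ⊆ gface n l a' S') :
    Disjoint (gsupp n l a S ρ) (thickening (ρ / 2) (gface n l a' S')) := by
  rw [Set.disjoint_left]
  intro p hp hpt
  apply h
  have hl0 : 0 < l := by linarith
  obtain ⟨q, hq, hd⟩ := mem_thickening_iff.1 hpt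
  have hcoord : ∀ i, |p i - q i| < ρ / 2 := fun i =>
    lt_of_le_of_lt (by rw [← Real.dist_eq]; exact dist_le_pi_dist p q i) hd
  intro x hx i
  by_cases hi : i ∈ S
  · have h1 := hp.1 i hi
    have h2 := abs_lt.1 (hcoord i)
    have q1 : l * a i < q i := by linarith [h1.1, h2.2]
    have q2 : q i < l * (a i + 1) := by linarith [h1.2, h2.1]
    have hx1 := (hx i).1 hi
    by_cases hi' : i ∈ S'
    · have h3 := (hq i).1 hi'
      have heq := int_cell_unique hl0 q1 q2 h3.1 h3.2
      refine ⟨fun _ => ?_, fun hn => absurd hi' hn⟩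
      rw [heq]
      exact hx1
    · exact (int_cell_no hl0 q1 q2 ((hq i).2 hi')).elim
  · have h1 := abs_le.1 (hp.2 i hi)
    have h2 := abs_lt.1 (hcoord i)
    have hxi := (hx i).2 hi
    by_cases hi' : i ∈ S'
    · have h3 := (hq i).1 hi'
      refine ⟨fun _ => ?_, fun hn => absurd hi' hn⟩
      rw [hxi]
      constructor
      · -- l a' <= l a
        have e1 : l * a' i < l * (a i + 1) := by linarith [h3.1, h1.2, h2.1]
        have e2 : (a' i : ℝ) < a i + 1 := lt_of_mul_lt_mul_left e1 hl0.le
        have e3 : a' i < a i + 1 := by exact_mod_cast e2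
        have e4 : (a' i : ℝ) ≤ a i := by exact_mod_cast (Int.lt_add_one_iff.1 e3)
        exact mul_le_mul_of_nonneg_left e4 hl0.le
      · have e1 : l * a i < l * ((a' i + 1) + 1) := by linarith [h3.2, h1.1, h2.2]
        have e2 : (a i : ℝ) < (a' i + 1) + 1 := lt_of_mul_lt_mul_left e1 hl0.le
        have e3 : a i < (a' i + 1) + 1 := by exact_mod_cast e2
        have e4 : (a i : ℝ) ≤ a' i + 1 := by exact_mod_cast (Int.lt_add_one_iff.1 e3)
        exact mul_le_mul_of_nonneg_left e4 hl0.le
    · have h3 := (hq i).2 hi'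
      refine ⟨fun hn => absurd hn hi', fun _ => ?_⟩
      rw [hxi]
      have e1 : l * a' i < l * (a i + 1) := by linarith [h1.2, h2.1]
      have e2 : l * a i < l * (a' i + 1) := by linarith [h1.1, h2.2]
      have e3 : (a' i : ℝ) < a i + 1 := lt_of_mul_lt_mul_left e1 hl0.le
      have e4 : (a i : ℝ) < a' i + 1 := lt_of_mul_lt_mul_left e2 hl0.le
      have e5 : a' i < a i + 1 := by exact_mod_cast e3
      have e6 : a i < a' i + 1 := by exact_mod_cast e4
      have : a i = a' i := by omega
      rw [this]

/-- the boundary is covered by proper faces -/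
theorem gbdry_subset (n : ℕ) (l : ℝ) (hl : 0 < l) (a : Fin n → ℤ) (S : Finset (Fin n)) :
    gbdry n l a S ⊆ ⋃ i ∈ S, (gface n l a (S.erase i) ∪
      gface n l (Function.update a i (a i + 1)) (S.erase i)) := by
  rintro x ⟨hx, i, hi, hxi⟩
  simp only [mem_iUnion, exists_prop]
  refine ⟨i, hi, ?_⟩
  rcases hxi with hxi | hxi
  · left
    intro j
    refine ⟨fun hj => (hx j).1 (Finset.mem_of_mem_erase hj), fun hj => ?_⟩
    by_cases hji : j = i
    · rw [hji]; exact hxi
    · exact (hx j).2 (fun hjS => hj (Finset.mem_erase.2 ⟨hji, hjS⟩))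
  · right
    intro j
    by_cases hji : j = i
    · subst hji
      refine ⟨fun hj => absurd hj (Finset.notMem_erase _ _), fun _ => ?_⟩
      rw [Function.update_self, hxi]
      push_cast
      ring
    · rw [Function.update_of_ne hji]
      exact ⟨fun hj => (hx j).1 (Finset.mem_of_mem_erase hj),
        fun hj => (hx j).2 (fun hjS => hj (Finset.mem_erase.2 ⟨hji, hjS⟩))⟩

/-- points moved lie within `ρ` of the face -/
theorem gsupp_subset (n : ℕ) (l ρ : ℝ) (hρ : 0 < ρ) (hl : ρ ≤ l / 4) (a : Fin n → ℤ)
    (S : Finset (Fin n)) : gsupp n l a S ρ ⊆ thickening ρ (gface n l a S) := by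
  classical
  intro x hx
  rw [mem_thickening_iff]
  refine ⟨fun i => if i ∈ S then x i else l * a i, ?_, ?_⟩
  · intro i
    by_cases hi : i ∈ S
    · simp only [if_pos hi]
      have := hx.1 i hi
      exact ⟨fun _ => ⟨by linarith [this.1], by linarith [this.2]⟩, fun hn => absurd hi hn⟩
    · refine ⟨fun hn => absurd hn hi, fun _ => ?_⟩
      simp only [if_neg hi]
  · rw [dist_pi_lt_iff hρ]
    intro i
    by_cases hi : i ∈ S
    · simp only [if_pos hi, dist_self]
      exact hρ
    · simp only [if_neg hi]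
      rw [Real.dist_eq]
      have := hx.2 i hi
      linarith

end Pool.Agent.H75.Mfd
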