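import Pool.Agent.H75.Mfd.FaceStep
import Pool.Agent.H75.Mfd.GridFar

/-!
Module TREL. Relative extension theorem in R^n, by induction over the faces of a fine grid
(mesh l = r/16). Faces contained in thickening (r/2) A are skipped (near them g = id); the other
faces of cubes meeting K are processed in the order of the dimension with `face_step`.
-/

set_option autoImplicit false

namespace Pool.Agent.H75.Mfd

open Set Topology Metric Filter

namespace Trel

theorem dist_le_of_face {n : ℕ} {l : ℝ} (hl : 0 < l) {a : Fin n → ℤ} {S : Finset (Fin n)}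
    {x y : Fin n → ℝ} (hx : x ∈ gface n l a S) (hy : y ∈ gface n l a S) : dist x y ≤ l := by
  rw [dist_pi_le_iff hl.le]
  intro i
  rw [Real.dist_eq, abs_le]
  by_cases hi : i ∈ S
  · have h1 := (hx i).1 hi
    have h2 := (hy i).1 hi
    constructor <;> nlinarith
  · have h1 := (hx i).2 hi
    have h2 := (hy i).2 hi
    rw [h1, h2]
    constructor <;> linarith

theorem corner_mem {n : ℕ} {l : ℝ} (hl : 0 < l) (a : Fin n → ℤ) (S : Finset (Fin n)) :
    (fun i => l * a i) ∈ gface n l a S := by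
  intro i
  refine ⟨fun _ => ⟨le_rfl, ?_⟩, fun _ => rfl⟩
  nlinarith

theorem subset_of_face {n : ℕ} {l : ℝ} (hl : 0 < l) {a b : Fin n → ℤ} {S T : Finset (Fin n)}
    (h : gface n l a S ⊆ gface n l b T) : S ⊆ T := by
  intro i hi
  by_contra hT
  have h1 := h (corner_mem hl a S)
  have h2 : (Function.update (fun i => l * (a i : ℝ)) i (l * (a i + 1))) ∈ gface n l a S := by
    intro j
    by_cases hj : j = i
    · subst hj
      refine ⟨fun _ => ?_, fun hh => (hh hi).elim⟩
      rw [Function.update_self]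
      constructor
      · nlinarith
      · exact le_rfl
    · rw [Function.update_of_ne hj]
      exact corner_mem hl a S j
  have h3 := (h1 i).2 hT
  have h4 := ((h h2) i).2 hT
  rw [Function.update_self] at h4
  simp only at h3
  nlinarith

theorem eq_of_face {n : ℕ} {l : ℝ} (hl : 0 < l) {a b : Fin n → ℤ} {S : Finset (Fin n)}
    (h : gface n l a S ⊆ gface n l b S) : a = b := by
  funext i
  have h1 := h (corner_mem hl a S)
  by_cases hi : i ∈ S
  · have h2 : (Function.update (fun i => l * (a i : ℝ)) i (l * (a i + 1))) ∈ gface n l a S := by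
      intro j
      by_cases hj : j = i
      · subst hj
        refine ⟨fun _ => ?_, fun hh => (hh hi).elim⟩
        rw [Function.update_self]
        constructor
        · nlinarith
        · exact le_rfl
      · rw [Function.update_of_ne hj]
        exact corner_mem hl a S j
    have h3 := (h1 i).1 hi
    have h4 := ((h h2) i).1 hi
    rw [Function.update_self] at h4
    simp only at h3
    have h5 : (b i : ℝ) ≤ a i := by nlinarith [h3.1]
    have h6 : (a i : ℝ) ≤ b i := by nlinarith [h4.2]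
    exact_mod_cast le_antisymm h6 h5
  · have h3 := (h1 i).2 hi
    simp only at h3
    have h5 : (a i : ℝ) = b i := by
      have := mul_left_cancel₀ hl.ne' h3
      exact this
    exact_mod_cast h5

theorem erase_subset {n : ℕ} {l : ℝ} (hl : 0 < l) (a : Fin n → ℤ) {S : Finset (Fin n)}
    {i : Fin n} (hi : i ∈ S) : gface n l a (S.erase i) ⊆ gface n l a S := by
  intro x hx j
  by_cases hj : j = i
  · subst hj
    have := (hx j).2 (by simp)
    refine ⟨fun _ => ?_, fun hh => (hh hi).elim⟩
    rw [this]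
    constructor <;> nlinarith
  · refine ⟨fun hS => (hx j).1 (by simp [hj, hS]), fun hS => (hx j).2 (by simp [hS])⟩

theorem update_subset {n : ℕ} {l : ℝ} (hl : 0 < l) (a : Fin n → ℤ) {S : Finset (Fin n)}
    {i : Fin n} (hi : i ∈ S) :
    gface n l (Function.update a i (a i + 1)) (S.erase i) ⊆ gface n l a S := by
  intro x hx j
  by_cases hj : j = i
  · subst hj
    have := (hx j).2 (by simp)
    rw [Function.update_self] at this
    refine ⟨fun _ => ?_, fun hh => (hh hi).elim⟩
    rw [this]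
    push_cast
    constructor <;> nlinarith
  · have h1 := hx j
    rw [Function.update_of_ne hj] at h1
    refine ⟨fun hS => h1.1 (by simp [hj, hS]), fun hS => h1.2 (by simp [hS])⟩

/-- the faces of cubes meeting `K` -/
def Phi (n : ℕ) (l : ℝ) (K : Set (Fin n → ℝ)) : Set ((Fin n → ℤ) × Finset (Fin n)) :=
  {σ | ∃ a, (gface n l a Finset.univ ∩ K).Nonempty ∧ gface n l σ.1 σ.2 ⊆ gface n l a Finset.univ}

theorem phi_finite {n : ℕ} {l : ℝ} (hl : 0 < l) {K : Set (Fin n → ℝ)} (hK : IsCompact K) :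
    (Phi n l K).Finite := by
  obtain ⟨R, hR⟩ := hK.isBounded.subset_closedBall 0
  set N : ℤ := ⌈(R + l) / l⌉ with hN
  have hfin : ((Set.Icc (fun _ : Fin n => -N) (fun _ => N)) ×ˢ
      (Set.univ : Set (Finset (Fin n)))).Finite :=
    (Set.finite_Icc _ _).prod Set.finite_univ
  refine hfin.subset ?_
  rintro ⟨b, S⟩ ⟨a, ⟨k, hka, hk⟩, hsub⟩
  refine ⟨?_, mem_univ _⟩
  have hc := hsub (corner_mem hl b S)
  have hd := dist_le_of_face hl hc hka
  have hk0 : dist k 0 ≤ R := hR hk
  have hb : ∀ i, |(b i : ℝ)| ≤ (R + l) / l := by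
    intro i
    have h1 : |l * (b i : ℝ)| ≤ R + l := by
      have h2 : dist (fun i => l * (b i : ℝ)) 0 ≤ l + R :=
        (dist_triangle _ k _).trans (add_le_add hd hk0)
      have h3 := (dist_le_pi_dist (fun i => l * (b i : ℝ)) 0 i).trans h2
      rw [Real.dist_eq] at h3
      simpa [add_comm] using h3
    rw [abs_mul, abs_of_pos hl] at h1
    rw [le_div_iff₀ hl]
    linarith
  have hb' : ∀ i, |(b i : ℝ)| ≤ N := fun i => (hb i).trans (Int.le_ceil _)
  constructor
  · intro i
    have := (abs_le.1 (hb' i)).1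
    simp only
    exact_mod_cast this
  · intro i
    have := (abs_le.1 (hb' i)).2
    simp only
    exact_mod_cast this

theorem phi_down {n : ℕ} {l : ℝ} {K : Set (Fin n → ℝ)} {σ τ : (Fin n → ℤ) × Finset (Fin n)}
    (h : σ ∈ Phi n l K) (hs : gface n l τ.1 τ.2 ⊆ gface n l σ.1 σ.2) : τ ∈ Phi n l K := by
  obtain ⟨a, ha, hsub⟩ := h
  exact ⟨a, ha, hs.trans hsub⟩

theorem phi_near {n : ℕ} {l : ℝ} (hl : 0 < l) {K : Set (Fin n → ℝ)}
    {σ : (Fin n → ℤ) × Finset (Fin n)} (h : σ ∈ Phi n l K) {x : Fin n → ℝ}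
    (hx : x ∈ gface n l σ.1 σ.2) : ∃ k ∈ K, dist x k ≤ l := by
  obtain ⟨a, ⟨k, hka, hk⟩, hsub⟩ := h
  exact ⟨k, hk, dist_le_of_face hl (hsub hx) hka⟩

theorem exists_cube {n : ℕ} {l : ℝ} (hl : 0 < l) {K : Set (Fin n → ℝ)} {k : Fin n → ℝ}
    (hk : k ∈ K) : ∃ a, k ∈ gface n l a Finset.univ ∧ (a, Finset.univ) ∈ Phi n l K := by
  refine ⟨fun i => ⌊k i / l⌋, ?_, ?_⟩
  · intro i
    refine ⟨fun _ => ⟨?_, ?_⟩, fun hh => (hh (Finset.mem_univ _)).elim⟩
    · have := Int.floor_le (k i / l)
      rw [le_div_iff₀ hl] at this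
      linarith
    · have := Int.lt_floor_add_one (k i / l)
      rw [div_lt_iff₀ hl] at this
      linarith
  · refine ⟨fun i => ⌊k i / l⌋, ⟨k, ?_, hk⟩, Subset.rfl⟩
    intro i
    refine ⟨fun _ => ⟨?_, ?_⟩, fun hh => (hh (Finset.mem_univ _)).elim⟩
    · have := Int.floor_le (k i / l)
      rw [le_div_iff₀ hl] at this
      linarith
    · have := Int.lt_floor_add_one (k i / l)
      rw [div_lt_iff₀ hl] at this
      linarith

end Trel

theorem trel_rn (n : ℕ) (K : Set (Fin n → ℝ)) (hK : IsCompact K) (A : Set (Fin n → ℝ))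
    (r : ℝ) (hr : 0 < r) :
    ∃ r' > 0, ∀ ε > 0, ∃ δ > 0, ∀ g : (Fin n → ℝ) → (Fin n → ℝ),
      OE g (thickening r K) → (∀ x ∈ thickening r K, dist (g x) x < δ) →
      (∀ x ∈ thickening r K ∩ thickening r A, g x = x) →
      ∃ h : (Fin n → ℝ) ≃ₜ (Fin n → ℝ), SuppIn h (thickening (r / 2) K) ∧
        (∀ x ∈ thickening r' A, h x = x) ∧ (∀ x ∈ thickening r' K, h x = g x) ∧
        (∀ x, dist (h x) x < ε) := by
  classical
  obtain ⟨lam, hlam0, hlam1, hstep⟩ := face_step n
  set l : ℝ := r / 16 with hldef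
  have hl : 0 < l := by positivity
  have hfin := Trel.phi_finite hl hK
  -- skipped faces
  set Sk : Set ((Fin n → ℤ) × Finset (Fin n)) :=
    {σ | σ ∈ Trel.Phi n l K ∧ gface n l σ.1 σ.2 ⊆ thickening (r / 2) A} with hSk
  set F : Finset ((Fin n → ℤ) × Finset (Fin n)) :=
    hfin.toFinset.filter (fun σ => σ ∉ Sk) with hF
  have hFmem : ∀ σ, σ ∈ F ↔ σ ∈ Trel.Phi n l K ∧ σ ∉ Sk := by
    intro σ
    rw [hF, Finset.mem_filter, Set.Finite.mem_toFinset]
  -- the inductive statement
  have main : ∀ s : Finset ((Fin n → ℤ) × Finset (Fin n)), s ⊆ F →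
      (∀ σ ∈ s, ∀ τ ∈ F, gface n l τ.1 τ.2 ⊆ gface n l σ.1 σ.2 → τ.2.card < σ.2.card → τ ∈ s) →
      ∃ ρ : ℝ, 0 < ρ ∧ ρ ≤ l / 4 ∧ ∀ ε > 0, ∃ δ > 0, ∀ g : (Fin n → ℝ) → (Fin n → ℝ),
        OE g (thickening r K) → (∀ x ∈ thickening r K, dist (g x) x < δ) →
        (∀ x ∈ thickening r K ∩ thickening r A, g x = x) →
        ∃ h : (Fin n → ℝ) ≃ₜ (Fin n → ℝ),
          SuppIn h (⋃ σ ∈ s, thickening (l / 4) (gface n l σ.1 σ.2)) ∧
          (∀ τ, (τ ∈ Sk ∨ τ ∈ s) → ∀ x ∈ thickening ρ (gface n l τ.1 τ.2), h x = g x) ∧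
          (∀ x, dist (h x) x < ε) := by
    intro s
    refine Finset.induction_on_max_value (fun σ : (Fin n → ℤ) × Finset (Fin n) => σ.2.card) s
      ?_ ?_
    · -- empty set
      intro _ _
      refine ⟨l / 4, by positivity, le_rfl, fun ε hε => ⟨1, one_pos, fun g hg hd hid => ?_⟩⟩
      refine ⟨Homeomorph.refl _, fun _ _ => rfl, ?_, fun x => by simpa using hε⟩
      rintro τ (hτ | hτ) x hx
      · obtain ⟨hτP, hτA⟩ := hτ
        rw [mem_thickening_iff] at hx
        obtain ⟨z, hz, hxz⟩ := hx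
        symm
        apply hid
        constructor
        · obtain ⟨k, hk, hzk⟩ := Trel.phi_near hl hτP hz
          rw [mem_thickening_iff]
          refine ⟨k, hk, ?_⟩
          have := dist_triangle x z k
          linarith
        · have hz2 := hτA hz
          rw [mem_thickening_iff] at hz2 ⊢
          obtain ⟨a, ha, hza⟩ := hz2
          refine ⟨a, ha, ?_⟩
          have := dist_triangle x z a
          linarith
      · simp at hτ
    · -- induction step
      intro σ s hσs hmax IH hsF hdown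
      have hσF : σ ∈ F := hsF (Finset.mem_insert_self _ _)
      have hsF' : s ⊆ F := fun τ hτ => hsF (Finset.mem_insert_of_mem hτ)
      have hdown' : ∀ σ' ∈ s, ∀ τ ∈ F, gface n l τ.1 τ.2 ⊆ gface n l σ'.1 σ'.2 →
          τ.2.card < σ'.2.card → τ ∈ s := by
        intro σ' hσ' τ hτ hsub hcard
        have h1 := hdown σ' (Finset.mem_insert_of_mem hσ') τ hτ hsub hcard
        rcases Finset.mem_insert.1 h1 with h2 | h2
        · exfalso
          rw [h2] at hcard
          have := hmax σ' hσ'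
          omega
        · exact h2
      obtain ⟨ρ, hρ0, hρl, IH⟩ := IH hsF' hdown'
      -- boundary faces are done
      have hbd : ∀ τ : (Fin n → ℤ) × Finset (Fin n), gface n l τ.1 τ.2 ⊆ gface n l σ.1 σ.2 →
          τ.2.card < σ.2.card → τ ∈ Sk ∨ τ ∈ s := by
        intro τ hsub hcard
        have hτP : τ ∈ Trel.Phi n l K := Trel.phi_down ((hFmem σ).1 hσF).1 hsub
        by_cases hτS : τ ∈ Sk
        · exact Or.inl hτS
        · right
          have h1 := hdown σ (Finset.mem_insert_self _ _) τ ((hFmem τ).2 ⟨hτP, hτS⟩) hsub hcard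
          rcases Finset.mem_insert.1 h1 with h2 | h2
          · rw [h2] at hcard
            omega
          · exact h2
      -- old faces do not contain the new one
      have hfar : ∀ τ : (Fin n → ℤ) × Finset (Fin n), (τ ∈ Sk ∨ τ ∈ s) →
          ¬ gface n l σ.1 σ.2 ⊆ gface n l τ.1 τ.2 := by
        rintro τ (hτ | hτ) hsub
        · exact ((hFmem σ).1 hσF).2 ⟨((hFmem σ).1 hσF).1, hsub.trans hτ.2⟩
        · have h1 := Trel.subset_of_face hl hsub
          have h2 : σ.2 = τ.2 := Finset.eq_of_subset_of_card_le h1 (hmax τ hτ)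
          have h3 : σ.1 = τ.1 := by
            rw [h2] at hsub
            exact Trel.eq_of_face hl hsub
          have h4 : σ = τ := Prod.ext h3 h2
          rw [h4] at hσs
          exact hσs hτ
      refine ⟨lam * ρ / 2, by positivity, ?_, ?_⟩
      · have : lam * ρ ≤ 1 * ρ := mul_le_mul_of_nonneg_right hlam1.le hρ0.le
        linarith
      intro ε hε
      obtain ⟨δ₁, hδ₁, hst⟩ := hstep l ρ hρ0 hρl σ.1 σ.2 (ε / 2) (half_pos hε)
      obtain ⟨δ₂, hδ₂, IH⟩ := IH (min (ε / 2) (δ₁ / 2)) (lt_min (half_pos hε) (half_pos hδ₁))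
      refine ⟨min δ₂ (δ₁ / 2), lt_min hδ₂ (half_pos hδ₁), fun g hg hd hid => ?_⟩
      obtain ⟨h, hsupp, heq, hdist⟩ := IH g hg
        (fun x hx => (hd x hx).trans_le (min_le_left _ _)) hid
      have hUsub : thickening ρ (gface n l σ.1 σ.2) ⊆ thickening r K := by
        intro x hx
        rw [mem_thickening_iff] at hx
        obtain ⟨z, hz, hxz⟩ := hx
        obtain ⟨k, hk, hzk⟩ := Trel.phi_near hl ((hFmem σ).1 hσF).1 hz
        rw [mem_thickening_iff]
        refine ⟨k, hk, ?_⟩
        have := dist_triangle x z k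
        linarith
      have hgj : OE (fun x => h.symm (g x)) (thickening r K) :=
        (OE.of_homeo h.symm isOpen_univ).comp hg (mapsTo_univ _ _)
      have hgjd : ∀ x ∈ thickening r K, dist (h.symm (g x)) x < δ₁ := by
        intro x hx
        have h1 : dist (h.symm (g x)) (g x) < δ₁ / 2 := by
          have := hdist (h.symm (g x))
          rw [h.apply_symm_apply, dist_comm] at this
          exact this.trans_le (min_le_right _ _)
        have h2 : dist (g x) x < δ₁ / 2 := (hd x hx).trans_le (min_le_right _ _)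
        have := dist_triangle (h.symm (g x)) (g x) x
        linarith
      have hgjb : ∀ x ∈ thickening ρ (gbdry n l σ.1 σ.2), h.symm (g x) = x := by
        intro x hx
        rw [mem_thickening_iff] at hx
        obtain ⟨z, hz, hxz⟩ := hx
        have hz' := gbdry_subset n l hl σ.1 σ.2 hz
        simp only [mem_iUnion, mem_union, exists_prop] at hz'
        obtain ⟨i, hi, hz' | hz'⟩ := hz'
        · have h1 := hbd (σ.1, σ.2.erase i) (Trel.erase_subset hl σ.1 hi)
            (Finset.card_erase_lt_of_mem hi)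
          have h2 := heq _ h1 x (mem_thickening_iff.2 ⟨z, hz', hxz⟩)
          rw [← h2, h.symm_apply_apply]
        · have h1 := hbd (Function.update σ.1 i (σ.1 i + 1), σ.2.erase i)
            (Trel.update_subset hl σ.1 hi) (Finset.card_erase_lt_of_mem hi)
          have h2 := heq _ h1 x (mem_thickening_iff.2 ⟨z, hz', hxz⟩)
          rw [← h2, h.symm_apply_apply]
      obtain ⟨h', hsupp', heq', hdist'⟩ := hst _ _ hgj hUsub hgjd hgjb
      refine ⟨h'.trans h, ?_, ?_, ?_⟩
      · have h1 : SuppIn h' (thickening (l / 4) (gface n l σ.1 σ.2)) :=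
          hsupp'.mono ((gsupp_subset n l ρ hρ0 hρl σ.1 σ.2).trans (thickening_mono hρl _))
        refine (SuppIn.trans h1 hsupp).mono ?_
        rw [Finset.set_biUnion_insert]
      · intro τ hτ x hx
        rw [Homeomorph.trans_apply]
        by_cases hτσ : τ = σ
        · rw [hτσ] at hx
          have hx' : x ∈ thickening (lam * ρ) (gface n l σ.1 σ.2) :=
            thickening_mono (by have := mul_pos hlam0 hρ0; linarith) _ hx
          rw [heq' x hx', h.apply_symm_apply]
        · have hτ' : τ ∈ Sk ∨ τ ∈ s := by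
            rcases hτ with hτ | hτ
            · exact Or.inl hτ
            · exact Or.inr (Finset.mem_of_mem_insert_of_ne hτ hτσ)
          have hle : lam * ρ / 2 ≤ ρ / 2 := by
            have : lam * ρ ≤ 1 * ρ := mul_le_mul_of_nonneg_right hlam1.le hρ0.le
            linarith
          have hx2 : x ∈ thickening (ρ / 2) (gface n l τ.1 τ.2) := thickening_mono hle _ hx
          have hdisj := gsupp_far n l ρ hρ0 hρl σ.1 τ.1 σ.2 τ.2 (hfar τ hτ')
          have hx3 : x ∉ gsupp n l σ.1 σ.2 ρ := fun hh => disjoint_left.1 hdisj hh hx2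
          rw [hsupp' x hx3]
          exact heq τ hτ' x (thickening_mono (by linarith) _ hx2)
      · intro x
        rw [Homeomorph.trans_apply]
        have h1 := (hdist (h' x)).trans_le (min_le_left _ _)
        have h2 := hdist' x
        have := dist_triangle (h (h' x)) (h' x) x
        linarith
  obtain ⟨ρ, hρ0, hρl, hmain⟩ := main F Subset.rfl (fun _ _ τ hτ _ _ => hτ)
  refine ⟨min ρ (r / 4), lt_min hρ0 (by positivity), fun ε hε => ?_⟩
  obtain ⟨δ, hδ, hmain⟩ := hmain ε hε
  refine ⟨δ, hδ, fun g hg hd hid => ?_⟩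
  obtain ⟨h, hsupp, heq, hdist⟩ := hmain g hg hd hid
  refine ⟨h, ?_, ?_, ?_, hdist⟩
  · refine hsupp.mono ?_
    intro x hx
    simp only [mem_iUnion, exists_prop] at hx
    obtain ⟨σ, hσ, hx⟩ := hx
    rw [mem_thickening_iff] at hx
    obtain ⟨z, hz, hxz⟩ := hx
    obtain ⟨k, hk, hzk⟩ := Trel.phi_near hl ((hFmem σ).1 hσ).1 hz
    rw [mem_thickening_iff]
    refine ⟨k, hk, ?_⟩
    have := dist_triangle x z k
    linarith
  · intro x hx
    apply hsupp
    intro hx'
    simp only [mem_iUnion, exists_prop] at hx'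
    obtain ⟨σ, hσ, hx'⟩ := hx'
    rw [mem_thickening_iff] at hx'
    obtain ⟨z, hz, hxz⟩ := hx'
    have hx2 := thickening_mono (min_le_right ρ (r / 4)) _ hx
    rw [mem_thickening_iff] at hx2
    obtain ⟨a, ha, hxa⟩ := hx2
    have hns := ((hFmem σ).1 hσ).2
    apply hns
    refine ⟨((hFmem σ).1 hσ).1, fun w hw => ?_⟩
    rw [mem_thickening_iff]
    refine ⟨a, ha, ?_⟩
    have h1 := Trel.dist_le_of_face hl hw hz
    have h2 := dist_triangle w z a
    have h3 := dist_triangle z x a
    rw [dist_comm z x] at h3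
    linarith
  · intro x hx
    have hx1 := thickening_mono (min_le_left ρ (r / 4)) _ hx
    rw [mem_thickening_iff] at hx1
    obtain ⟨k, hk, hxk⟩ := hx1
    obtain ⟨a, hka, haP⟩ := Trel.exists_cube hl hk
    have h1 : ((a, Finset.univ) : (Fin n → ℤ) × Finset (Fin n)) ∈ Sk ∨ (a, Finset.univ) ∈ F := by
      by_cases hS : ((a, Finset.univ) : (Fin n → ℤ) × Finset (Fin n)) ∈ Sk
      · exact Or.inl hS
      · exact Or.inr ((hFmem _).2 ⟨haP, hS⟩)
    exact heq _ h1 x (mem_thickening_iff.2 ⟨k, hka, hxk⟩)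

end Pool.Agent.H75.Mfd
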