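import Pool.Agent.H75.Mfd.GlueAux
import Pool.Agent.H75.Mfd.TrelRn

/-!
Module GLUE. Atlases with nearly equal pulled back metrics define the same piece.
-/

set_option autoImplicit false

namespace Pool.Agent.H75.Mfd

open Set Topology Metric Filter

/-- the maps agree up to the homeomorphisms on the balls of radius `r` for the charts in `J` -/
def GlueAt (n k : ℕ) {X X' : Type*} (π : Fin k → (Fin n → ℝ) → X)
    (π' : Fin k → (Fin n → ℝ) → X') (h : Fin k → ((Fin n → ℝ) ≃ₜ (Fin n → ℝ)))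
    (J : Finset (Fin k)) (r : ℝ) : Prop :=
  ∀ l ∈ J, ∀ l' ∈ J, ∀ (z z' : Fin n → ℝ), z ∈ closedBall (0 : Fin n → ℝ) r →
    z' ∈ closedBall (0 : Fin n → ℝ) r → (π l z = π l' z' ↔ π' l (h l z) = π' l' (h l' z'))

/-- closeness of the pulled back metrics -/
def MetClose (n k : ℕ) {X X' : Type*} [MetricSpace X] [MetricSpace X']
    (π : Fin k → (Fin n → ℝ) → X) (π' : Fin k → (Fin n → ℝ) → X') (δ : ℝ) : Prop :=
  ∀ (l l' : Fin k) (z z' : Fin n → ℝ), z ∈ closedBall (0 : Fin n → ℝ) 2 →
    z' ∈ closedBall (0 : Fin n → ℝ) 2 →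
    |dist (π l z) (π l' z') - dist (π' l z) (π' l' z')| < δ

/-- the inductive statement -/
def GlueP (n k : ℕ) (lam : ℝ) {X : Type*} [MetricSpace X]
    (π : Fin k → (Fin n → ℝ) → X) (J : Finset (Fin k)) (r : ℝ) : Prop :=
  ∀ ε > 0, ∃ δ > 0, ∀ (X' : Type) [MetricSpace X'] (π' : Fin k → (Fin n → ℝ) → X'),
    Pres n k lam X' π' → MetClose n k π π' δ →
    ∃ h : Fin k → ((Fin n → ℝ) ≃ₜ (Fin n → ℝ)),
      (∀ l, SuppIn (h l) (closedBall 0 (3 / 2))) ∧ (∀ l z, dist (h l z) z < ε) ∧
      GlueAt n k π π' h J r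

theorem Pres.image_isOpen {n k : ℕ} {lam : ℝ} {X : Type*} [MetricSpace X]
    {π : Fin k → (Fin n → ℝ) → X} (hπ : Pres n k lam X π) (l : Fin k) {r : ℝ} (hr : r ≤ 2) :
    IsOpen (π l '' ball 0 r) :=
  (hπ.opn l).opn _ (ball_subset_ball hr) isOpen_ball

/-- the transition map of the target atlas, read in the chart `l` -/
theorem glue_map {n k : ℕ} {lam : ℝ} {X X' : Type*} [MetricSpace X] [MetricSpace X']
    {π : Fin k → (Fin n → ℝ) → X} {π' : Fin k → (Fin n → ℝ) → X'}
    (hπ : Pres n k lam X π) (hπ' : Pres n k lam X' π')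
    (h : Fin k → ((Fin n → ℝ) ≃ₜ (Fin n → ℝ))) (hs : ∀ l, SuppIn (h l) (closedBall 0 (3 / 2)))
    (J : Finset (Fin k)) (l : Fin k) {r0 : ℝ} (hr0 : r0 ≤ 3 / 2)
    (hG : GlueAt n k π π' h J r0) (U : Set (Fin n → ℝ))
    (hU : U = {z | z ∈ ball (0 : Fin n → ℝ) r0 ∧ ∃ m ∈ J, π l z ∈ π m '' ball 0 r0})
    (hclose : ∀ z ∈ ball (0 : Fin n → ℝ) r0, ∀ m ∈ J, ∀ w ∈ ball (0 : Fin n → ℝ) r0,
      π m w = π l z → dist (π' m (h m w)) (π' l z) < lam) :
    ∃ g : (Fin n → ℝ) → (Fin n → ℝ), OE g U ∧ (∀ z ∈ U, g z ∈ ball 0 2) ∧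
      ∀ z ∈ U, ∀ m ∈ J, ∀ w ∈ ball (0 : Fin n → ℝ) r0, π m w = π l z →
        π' l (g z) = π' m (h m w) := by
  classical
  have hr2 : r0 ≤ 2 := by linarith
  -- choose chart and coordinate
  have hU' : ∀ z ∈ U, ∃ m ∈ J, ∃ w ∈ ball (0 : Fin n → ℝ) r0, π m w = π l z := by
    intro z hz
    rw [hU] at hz
    obtain ⟨_, m, hm, w, hw, he⟩ := hz
    exact ⟨m, hm, w, hw, he⟩
  have hzr : ∀ z ∈ U, z ∈ ball (0 : Fin n → ℝ) r0 := by
    intro z hz
    rw [hU] at hz
    exact hz.1
  have : Nonempty (Fin k) := ⟨l⟩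
  choose! mm hmm ww hww heq using hU'
  -- inverse of the chart l of X'
  obtain ⟨k', hk', hk'l, hk'r, -⟩ := (hπ'.opn l).exists_inv
  have hmem : ∀ z ∈ U, ∀ m ∈ J, ∀ w ∈ ball (0 : Fin n → ℝ) r0, π m w = π l z →
      π' m (h m w) ∈ π' l '' ball 0 2 := by
    intro z hz m hm w hw he
    apply hπ'.leb l z (ball_subset_closedBall ((ball_subset_ball hr0) (hzr z hz)))
    exact hclose z (hzr z hz) m hm w hw he
  let g : (Fin n → ℝ) → (Fin n → ℝ) := fun z => k' (π' (mm z) (h (mm z) (ww z)))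
  have hgw : ∀ z ∈ U, ∀ m ∈ J, ∀ w ∈ ball (0 : Fin n → ℝ) r0, π m w = π l z →
      g z = k' (π' m (h m w)) := by
    intro z hz m hm w hw he
    have : π' (mm z) (h (mm z) (ww z)) = π' m (h m w) := by
      rw [← hG (mm z) (hmm z hz) m hm (ww z) w (ball_subset_closedBall (hww z hz))
        (ball_subset_closedBall hw), heq z hz, he]
    simp only [g, this]
  have hgl : ∀ z ∈ U, ∀ m ∈ J, ∀ w ∈ ball (0 : Fin n → ℝ) r0, π m w = π l z →
      π' l (g z) = π' m (h m w) := by
    intro z hz m hm w hw he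
    rw [hgw z hz m hm w hw he]
    exact (hk'r _ (hmem z hz m hm w hw he)).2
  have hg2 : ∀ z ∈ U, g z ∈ ball 0 2 := by
    intro z hz
    rw [hgw z hz (mm z) (hmm z hz) (ww z) (hww z hz) (heq z hz)]
    exact (hk'r _ (hmem z hz _ (hmm z hz) _ (hww z hz) (heq z hz))).1
  refine ⟨g, ?_, hg2, hgl⟩
  apply OE.of_local
  · intro z hz z' hz' hzz
    have h1 := hgl z hz (mm z) (hmm z hz) (ww z) (hww z hz) (heq z hz)
    have h2 := hgl z' hz' (mm z') (hmm z' hz') (ww z') (hww z' hz') (heq z' hz')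
    rw [hzz, h2] at h1
    have h3 := (hG (mm z') (hmm z' hz') (mm z) (hmm z hz) (ww z') (ww z)
      (ball_subset_closedBall (hww z' hz')) (ball_subset_closedBall (hww z hz))).2 h1
    rw [heq z hz, heq z' hz'] at h3
    exact (hπ.opn l).inj ((ball_subset_ball hr2) (hzr z hz)) ((ball_subset_ball hr2) (hzr z' hz'))
      h3.symm
  · intro z0 hz0
    set m := mm z0 with hm
    have hmJ : m ∈ J := hmm z0 hz0
    obtain ⟨km, hkm, hkml, hkmr, -⟩ :=
      ((hπ.opn m).mono isOpen_ball (ball_subset_ball hr2)).exists_inv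
    have hopen : IsOpen (ball (0 : Fin n → ℝ) r0 ∩ π l ⁻¹' (π m '' ball 0 r0)) :=
      ((hπ.opn l).mono isOpen_ball (ball_subset_ball hr2)).isOpen_preimage
        (hπ.image_isOpen m hr2)
    have hVU : ball (0 : Fin n → ℝ) r0 ∩ π l ⁻¹' (π m '' ball 0 r0) ⊆ U := by
      intro z hz
      rw [hU]
      exact ⟨hz.1, m, hmJ, hz.2⟩
    refine ⟨ball (0 : Fin n → ℝ) r0 ∩ π l ⁻¹' (π m '' ball 0 r0),
      ⟨hzr z0 hz0, ⟨ww z0, hww z0 hz0, heq z0 hz0⟩⟩, hVU, ?_⟩
    -- the composition
    have c1 : OE (π l) (ball (0 : Fin n → ℝ) r0 ∩ π l ⁻¹' (π m '' ball 0 r0)) :=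
      (hπ.opn l).mono hopen (inter_subset_left.trans (ball_subset_ball hr2))
    have c2 : OE (km ∘ π l) (ball (0 : Fin n → ℝ) r0 ∩ π l ⁻¹' (π m '' ball 0 r0)) :=
      hkm.comp c1 (fun z hz => hz.2)
    have c3 : OE (π' m ∘ (h m)) (ball (0 : Fin n → ℝ) r0) := by
      refine OE.comp (hπ'.opn m) (OE.of_homeo (h m) isOpen_ball) ?_
      intro w hw
      have : h m w ∈ closedBall (0 : Fin n → ℝ) (3 / 2) :=
        SuppIn.mem_of_mem (hs m) Subset.rfl
          (ball_subset_closedBall ((ball_subset_ball hr0) hw))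
      exact (closedBall_subset_ball (by norm_num)) this
    have c4 : OE ((π' m ∘ (h m)) ∘ (km ∘ π l))
        (ball (0 : Fin n → ℝ) r0 ∩ π l ⁻¹' (π m '' ball 0 r0)) :=
      c3.comp c2 (fun z hz => (hkmr _ hz.2).1)
    have c5 : OE (k' ∘ ((π' m ∘ (h m)) ∘ (km ∘ π l)))
        (ball (0 : Fin n → ℝ) r0 ∩ π l ⁻¹' (π m '' ball 0 r0)) := by
      refine hk'.comp c4 ?_
      intro z hz
      exact hmem z (hVU hz) m hmJ _ (hkmr _ hz.2).1 (hkmr _ hz.2).2
    refine c5.congr ?_
    intro z hz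
    simp only [Function.comp_apply]
    exact hgw z (hVU hz) m hmJ _ (hkmr _ hz.2).1 (hkmr _ hz.2).2

theorem glue_step {n k : ℕ} {lam : ℝ} (hlam : 0 < lam) {X : Type*} [MetricSpace X]
    {π : Fin k → (Fin n → ℝ) → X} (hπ : Pres n k lam X π) (J : Finset (Fin k)) (l : Fin k)
    (hl : l ∉ J) (r0 r1 : ℝ) (hr1 : 0 < r1) (hr : r1 < r0) (hr0 : r0 ≤ 3 / 2)
    (hP : GlueP n k lam π J r0) : GlueP n k lam π (insert l J) r1 := by
  classical
  intro ε hε
  have hr2 : r0 ≤ 2 := by linarith
  set s : ℝ := (r0 + r1) / 2 with hsdef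
  have hs0 : s < r0 := by simp only [hsdef]; linarith
  have hs1 : r1 < s := by simp only [hsdef]; linarith
  -- the sets
  let W : Set X := ⋃ m ∈ J, π m '' closedBall 0 s
  have hWc : IsCompact W := by
    apply J.isCompact_biUnion
    intro m _
    exact (isCompact_closedBall _ _).image_of_continuousOn
      ((hπ.cont m).mono (closedBall_subset_closedBall (by linarith)))
  let D : Set (Fin n → ℝ) := closedBall 0 s ∩ π l ⁻¹' W
  have hDc : IsCompact D := by
    have hcl : IsClosed D :=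
      ((hπ.cont l).mono (closedBall_subset_closedBall (by linarith))).preimage_isClosed_of_isClosed
        isClosed_closedBall hWc.isClosed
    exact (isCompact_closedBall _ _).of_isClosed_subset hcl inter_subset_left
  let U : Set (Fin n → ℝ) := {z | z ∈ ball (0 : Fin n → ℝ) r0 ∧ ∃ m ∈ J, π l z ∈ π m '' ball 0 r0}
  have hUo : IsOpen U := by
    have : U = ball 0 r0 ∩ π l ⁻¹' (⋃ m ∈ J, π m '' ball 0 r0) := by
      ext z
      simp only [U, mem_ofPred_eq, mem_inter_iff, mem_preimage, mem_iUnion, exists_prop]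
    rw [this]
    exact ((hπ.opn l).mono isOpen_ball (ball_subset_ball hr2)).isOpen_preimage
      (isOpen_biUnion fun m _ => hπ.image_isOpen m hr2)
  have hDU : D ⊆ U := by
    rintro z ⟨hz, hz'⟩
    refine ⟨closedBall_subset_ball hs0 hz, ?_⟩
    simp only [W, mem_preimage, mem_iUnion, exists_prop] at hz'
    obtain ⟨m, hm, w, hw, he⟩ := hz'
    exact ⟨m, hm, w, closedBall_subset_ball hs0 hw, he⟩
  obtain ⟨r, hr', hrU⟩ := hDc.exists_thickening_subset_open hUo hDU
  obtain ⟨r', hr'pos, htrel⟩ := trel_rn n D hDc ∅ r hr'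
  -- modulus eta2
  have hM3 : ∀ m : Fin k, ∃ η > 0, ∀ w ∈ closedBall (0 : Fin n → ℝ) r1, ∀ x,
      dist x (π m w) < η → x ∈ π m '' ball 0 s := by
    intro m
    obtain ⟨η, hη, h⟩ := exists_nhd_radius (K := π m '' closedBall 0 r1) (U := π m '' ball 0 s)
      ((isCompact_closedBall _ _).image_of_continuousOn
        ((hπ.cont m).mono (closedBall_subset_closedBall (by linarith))))
      (hπ.image_isOpen m (by linarith)) (image_mono (closedBall_subset_ball hs1))
    exact ⟨η, hη, fun w hw x hx => h _ ⟨w, hw, rfl⟩ x hx⟩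
  choose η3 hη3 hM3 using hM3
  obtain ⟨η₂, hη₂, hη₂le⟩ := exists_pos_le_all η3 hη3
  have hM2 : ∀ η > 0, ∃ ζ > 0, ∀ m : Fin k, ∀ z ∈ closedBall (0 : Fin n → ℝ) 2,
      ∀ z' ∈ closedBall (0 : Fin n → ℝ) 2, dist z z' < ζ → dist (π m z) (π m z') < η := by
    intro η hη
    have := fun m : Fin k => exists_modulus_cont (isCompact_closedBall (0 : Fin n → ℝ) 2)
      (hπ.cont m) hη
    choose ζ hζ h using this
    obtain ⟨c, hc, hcle⟩ := exists_pos_le_all ζ hζ
    exact ⟨c, hc, fun m z hz z' hz' hd => h m z hz z' hz' (hd.trans_le (hcle m))⟩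
  obtain ⟨ζ₂, hζ₂, hM2a⟩ := hM2 (η₂ / 3) (by linarith)
  obtain ⟨δ₁, hδ₁, htr⟩ := htrel (min ε ζ₂) (lt_min hε hζ₂)
  obtain ⟨η₁, hη₁, hM1⟩ := exists_modulus_inj (isCompact_closedBall (0 : Fin n → ℝ) 2)
    (hπ.cont l) (hπ.inj l) hδ₁
  set η : ℝ := min (η₁ / 3) (min (η₂ / 3) (lam / 3)) with hη
  have hηpos : 0 < η := lt_min (by linarith) (lt_min (by linarith) (by linarith))
  have hηa : η ≤ η₁ / 3 := min_le_left _ _
  have hηb : η ≤ η₂ / 3 := (min_le_right _ _).trans (min_le_left _ _)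
  have hηc : η ≤ lam / 3 := (min_le_right _ _).trans (min_le_right _ _)
  obtain ⟨ζ, hζ, hM2b⟩ := hM2 η hηpos
  obtain ⟨δ, hδ, hPδ⟩ := hP (min ε ζ) (lt_min hε hζ)
  refine ⟨min δ η, lt_min hδ hηpos, fun X' _ π' hπ' hmc => ?_⟩
  obtain ⟨h, hsupp, hclose, hG⟩ := hPδ X' π' hπ'
    (fun a b z z' hz hz' => (hmc a b z z' hz hz').trans_le (min_le_left _ _))
  have hmc' : MetClose n k π π' η :=
    fun a b z z' hz hz' => (hmc a b z z' hz hz').trans_le (min_le_right _ _)
  have h32 : ∀ m, ∀ w ∈ closedBall (0 : Fin n → ℝ) (3 / 2), h m w ∈ closedBall (0 : Fin n → ℝ) 2 :=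
    fun m w hw => closedBall_subset_closedBall (by norm_num)
      (SuppIn.mem_of_mem (hsupp m) Subset.rfl hw)
  have b32 : closedBall (0 : Fin n → ℝ) (3 / 2) ⊆ closedBall 0 2 :=
    closedBall_subset_closedBall (by norm_num)
  -- key estimate
  have hE : ∀ (m a : Fin k), ∀ w ∈ closedBall (0 : Fin n → ℝ) (3 / 2),
      ∀ z ∈ closedBall (0 : Fin n → ℝ) 2,
      |dist (π' m (h m w)) (π' a z) - dist (π m w) (π a z)| < 2 * η := by
    intro m a w hw z hz
    have e1 := hmc' m a (h m w) z (h32 m w hw) hz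
    have e2 : dist (π m (h m w)) (π m w) < η :=
      hM2b m _ (h32 m w hw) _ (b32 hw) ((hclose m w).trans_le (min_le_right _ _))
    have e3 := abs_dist_sub_le (π m (h m w)) (π m w) (π a z)
    rw [abs_lt] at e1 ⊢
    rw [abs_le] at e3
    constructor <;> linarith [e1.1, e1.2, e3.1, e3.2]
  obtain ⟨g, hgOE, hg2, hgl⟩ := glue_map hπ hπ' h hsupp J l hr0 hG U rfl (by
    intro z hz m hm w hw he
    have := hE m l w (ball_subset_closedBall (ball_subset_ball hr0 hw)) z
      (ball_subset_closedBall (ball_subset_ball hr2 hz))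
    rw [he, dist_self, sub_zero, abs_lt] at this
    linarith [this.2])
  -- g close to the identity
  have hgclose : ∀ z ∈ U, dist (g z) z < δ₁ := by
    intro z hz
    obtain ⟨hzr, m, hm, w, hw, he⟩ := hz
    have hz' : z ∈ U := ⟨hzr, m, hm, w, hw, he⟩
    refine hM1 _ (ball_subset_closedBall (hg2 z hz')) _
      (ball_subset_closedBall (ball_subset_ball hr2 hzr)) ?_
    have e1 := hmc' l l (g z) z (ball_subset_closedBall (hg2 z hz'))
      (ball_subset_closedBall (ball_subset_ball hr2 hzr))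
    have e2 := hE m l w (ball_subset_closedBall (ball_subset_ball hr0 hw)) z
      (ball_subset_closedBall (ball_subset_ball hr2 hzr))
    rw [← hgl z hz' m hm w hw he, he, dist_self, sub_zero] at e2
    rw [abs_lt] at e1 e2
    linarith [e1.1, e1.2, e2.1, e2.2]
  obtain ⟨hl', hls, -, hle, hlc⟩ := htr g (hgOE.mono isOpen_thickening hrU)
    (fun x hx => hgclose x (hrU hx)) (by
      rintro x ⟨-, hx⟩
      simp at hx)
  have hDr' : D ⊆ thickening r' D := self_subset_thickening hr'pos D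
  have hD_eq : ∀ z ∈ D, hl' z = g z := fun z hz => hle z (hDr' hz)
  have hsl : SuppIn hl' (closedBall (0 : Fin n → ℝ) (3 / 2)) := by
    refine hls.mono ?_
    refine (thickening_mono (by linarith) D).trans (hrU.trans ?_)
    intro z hz
    exact ball_subset_closedBall (ball_subset_ball hr0 hz.1)
  refine ⟨Function.update h l hl', ?_, ?_, ?_⟩
  · intro a
    by_cases ha : a = l
    · subst ha
      rw [Function.update_self]
      exact hsl
    · rw [Function.update_of_ne ha]
      exact hsupp a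
  · intro a z
    by_cases ha : a = l
    · subst ha
      rw [Function.update_self]
      exact (hlc z).trans_le (min_le_left _ _)
    · rw [Function.update_of_ne ha]
      exact (hclose a z).trans_le (min_le_left _ _)
  · -- the equivalences
    have main : ∀ m ∈ J, ∀ (w z : Fin n → ℝ), w ∈ closedBall (0 : Fin n → ℝ) r1 →
        z ∈ closedBall (0 : Fin n → ℝ) r1 → (π m w = π l z ↔ π' m (h m w) = π' l (hl' z)) := by
      intro m hm w z hw hz
      have hw0 : w ∈ ball (0 : Fin n → ℝ) r0 := closedBall_subset_ball hr hw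
      have hz32 : z ∈ closedBall (0 : Fin n → ℝ) (3 / 2) :=
        closedBall_subset_closedBall (by linarith) hz
      have hw32 : w ∈ closedBall (0 : Fin n → ℝ) (3 / 2) :=
        closedBall_subset_closedBall (by linarith) hw
      constructor
      · intro he
        have hzD : z ∈ D := by
          refine ⟨closedBall_subset_closedBall hs1.le hz, ?_⟩
          simp only [W, mem_preimage, mem_iUnion, exists_prop]
          exact ⟨m, hm, w, closedBall_subset_closedBall hs1.le hw, he⟩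
        rw [hD_eq z hzD, hgl z (hDU hzD) m hm w hw0 he]
      · intro he
        have hlz : hl' z ∈ closedBall (0 : Fin n → ℝ) 2 :=
          b32 (SuppIn.mem_of_mem hsl Subset.rfl hz32)
        have e1 := hE m l w hw32 (hl' z) hlz
        rw [he, dist_self, zero_sub, abs_neg, abs_lt] at e1
        have e2 : dist (π l (hl' z)) (π l z) < η₂ / 3 :=
          hM2a l _ hlz _ (b32 hz32) ((hlc z).trans_le (min_le_right _ _))
        have e3 : dist (π l z) (π m w) < η3 m := by
          have := dist_triangle (π l z) (π l (hl' z)) (π m w)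
          rw [dist_comm (π l z) (π l (hl' z)), dist_comm (π l (hl' z)) (π m w)] at this
          have h4 := hη₂le m
          linarith [e1.2]
        obtain ⟨w', hw', hew⟩ := hM3 m w hw (π l z) e3
        have hzD : z ∈ D := by
          refine ⟨closedBall_subset_closedBall hs1.le hz, ?_⟩
          simp only [W, mem_preimage, mem_iUnion, exists_prop]
          exact ⟨m, hm, w', ball_subset_closedBall hw', hew⟩
        have e4 := hgl z (hDU hzD) m hm w' (ball_subset_ball hs0.le hw') hew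
        rw [← hD_eq z hzD, ← he] at e4
        have hw'32 : w' ∈ closedBall (0 : Fin n → ℝ) (3 / 2) :=
          ball_subset_closedBall (ball_subset_ball (by linarith) hw')
        have e5 := (hπ'.inj m) (h32 m w hw32) (h32 m w' hw'32) e4
        have e6 : w = w' := (h m).injective e5
        rw [e6, hew]
    intro a ha b hb z z' hz hz'
    rw [Finset.mem_insert] at ha hb
    by_cases hal : a = l
    · subst hal
      rw [Function.update_self]
      by_cases hbl : b = a
      · subst hbl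
        rw [Function.update_self]
        have hz32 : z ∈ closedBall (0 : Fin n → ℝ) (3 / 2) :=
          closedBall_subset_closedBall (by linarith) hz
        have hz'32 : z' ∈ closedBall (0 : Fin n → ℝ) (3 / 2) :=
          closedBall_subset_closedBall (by linarith) hz'
        constructor
        · intro he
          rw [(hπ.inj b) (b32 hz32) (b32 hz'32) he]
        · intro he
          have := (hπ'.inj b) (b32 (SuppIn.mem_of_mem hsl Subset.rfl hz32))
            (b32 (SuppIn.mem_of_mem hsl Subset.rfl hz'32)) he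
          rw [hl'.injective this]
      · rw [Function.update_of_ne hbl]
        have hbJ : b ∈ J := hb.resolve_left hbl
        have := main b hbJ z' z hz' hz
        rw [eq_comm, this, eq_comm]
    · rw [Function.update_of_ne hal]
      have haJ : a ∈ J := ha.resolve_left hal
      by_cases hbl : b = l
      · subst hbl
        rw [Function.update_self]
        exact main a haJ z z' hz hz'
      · rw [Function.update_of_ne hbl]
        have hbJ : b ∈ J := hb.resolve_left hbl
        exact hG a haJ b hbJ z z' (closedBall_subset_closedBall hr.le hz)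
          (closedBall_subset_closedBall hr.le hz')

theorem gluing (n k : ℕ) (lam : ℝ) (hlam : 0 < lam) {X : Type*} [MetricSpace X]
    (π : Fin k → (Fin n → ℝ) → X) (hπ : Pres n k lam X π) (ε : ℝ) (hε : 0 < ε) :
    ∃ δ > 0, ∀ (X' : Type) [MetricSpace X'] (π' : Fin k → (Fin n → ℝ) → X'),
      Pres n k lam X' π' →
      (∀ (l l' : Fin k) (z z' : Fin n → ℝ), z ∈ closedBall (0 : Fin n → ℝ) 2 →
        z' ∈ closedBall (0 : Fin n → ℝ) 2 →
        |dist (π l z) (π l' z') - dist (π' l z) (π' l' z')| < δ) →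
      ∃ h : Fin k → ((Fin n → ℝ) ≃ₜ (Fin n → ℝ)),
        (∀ l, SuppIn (h l) (closedBall 0 (3 / 2))) ∧ (∀ l z, dist (h l z) z < ε) ∧
        ∀ (l l' : Fin k) (z z' : Fin n → ℝ), z ∈ closedBall (0 : Fin n → ℝ) (5 / 4) →
          z' ∈ closedBall (0 : Fin n → ℝ) (5 / 4) →
          (π l z = π l' z' ↔ π' l (h l z) = π' l' (h l' z')) := by
  classical
  have key : ∀ J : Finset (Fin k), GlueP n k lam π J (5 / 4 + 1 / 4 * (1 / 2) ^ J.card) := by
    intro J
    induction J using Finset.induction_on with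
    | empty =>
      intro ε hε
      refine ⟨1, one_pos, fun X' _ π' _ _ => ⟨fun _ => Homeomorph.refl _, fun _ _ _ => rfl,
        fun _ z => ?_, fun l hl => absurd hl (Finset.notMem_empty l)⟩⟩
      simpa using hε
    | insert l J hl ih =>
      rw [Finset.card_insert_of_notMem hl]
      have h0 : (0 : ℝ) < (1 / 2) ^ J.card := by positivity
      have h1 : ((1 : ℝ) / 2) ^ J.card ≤ 1 := pow_le_one₀ (by norm_num) (by norm_num)
      refine glue_step hlam hπ J l hl _ _ ?_ ?_ ?_ ih
      · positivity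
      · rw [pow_succ]
        linarith
      · linarith
  obtain ⟨δ, hδ, H⟩ := key Finset.univ ε hε
  refine ⟨δ, hδ, fun X' _ π' hπ' hc => ?_⟩
  obtain ⟨h, h1, h2, h3⟩ := H X' π' hπ' hc
  have h0 : (0 : ℝ) < (1 / 2) ^ (Finset.univ : Finset (Fin k)).card := by positivity
  refine ⟨h, h1, h2, fun l l' z z' hz hz' => h3 l (Finset.mem_univ _) l' (Finset.mem_univ _) z z'
    (closedBall_subset_closedBall (by linarith) hz)
    (closedBall_subset_closedBall (by linarith) hz')⟩

end Pool.Agent.H75.Mfd
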