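import Mathlib

/-!
Module GC. Coding countably many binary relations on N by one graph on N.
Vertices: elements a; for every triple t = (n,a,b) two vertices p t, q t with edges a - p t,
p t - q t, q t - b; leaves: p t gets 4 n leaves if R n a b and 4 n + 2 leaves otherwise, q t gets
4 n + 1 resp. 4 n + 3 leaves; the potential leaves (t, p or q, k), k in N, which are not used are
isolated. Elements are the vertices with infinitely many neighbours; p t is a vertex with finite
even degree adjacent to an element, the degree determines n and the truth value; orientation is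
given by the parity.
-/

set_option autoImplicit false

namespace Pool.Agent.H75.GraphCode

/-- vertices: elements, middle vertices (side `s`), potential leaves -/
inductive Vx : Type
  | el (a : ℕ)
  | mid (n a b : ℕ) (s : Bool)
  | lf (n a b : ℕ) (s : Bool) (k : ℕ)

theorem countable_vx : Countable Vx := by
  refine Function.Injective.countable (f := fun x : Vx => (match x with
    | .el a => (0, a, 0, 0, false, 0)
    | .mid n a b s => (1, n, a, b, s, 0)
    | .lf n a b s k => (2, n, a, b, s, k) : ℕ × ℕ × ℕ × ℕ × Bool × ℕ)) ?_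
  intro x y h
  cases x <;> cases y <;> simp_all

theorem infinite_vx : Infinite Vx :=
  Infinite.of_injective Vx.el (fun a b h => by injection h)

/-- number of leaves -/
def Nl (n : ℕ) (s r : Bool) : ℕ := 4 * n + (if s then 1 else 0) + (if r then 0 else 2)

theorem Nl_inj {n n' : ℕ} {s s' r r' : Bool} (h : Nl n s r = Nl n' s' r') :
    n = n' ∧ s = s' ∧ r = r' := by
  cases s <;> cases s' <;> cases r <;> cases r' <;> simp only [Nl] at h <;>
    first | exact ⟨by simp at h; omega, rfl, rfl⟩ | (exfalso; simp at h; omega)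

/-- the relation of adjacency -/
def Ad (R : ℕ → ℕ → ℕ → Bool) : Vx → Vx → Prop
  | .el a, .mid _ a' b' s => a = if s then b' else a'
  | .mid _ a' b' s, .el a => a = if s then b' else a'
  | .mid n a b s, .mid n' a' b' s' => n = n' ∧ a = a' ∧ b = b' ∧ s ≠ s'
  | .mid n a b s, .lf n' a' b' s' k => n = n' ∧ a = a' ∧ b = b' ∧ s = s' ∧ k < Nl n s (R n a b)
  | .lf n' a' b' s' k, .mid n a b s => n = n' ∧ a = a' ∧ b = b' ∧ s = s' ∧ k < Nl n s (R n a b)
  | _, _ => False

theorem Ad_symm (R : ℕ → ℕ → ℕ → Bool) (x y : Vx) : Ad R x y ↔ Ad R y x := by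
  cases x <;> cases y <;> simp only [Ad] <;> constructor <;> rintro ⟨rfl, rfl, rfl, h⟩ <;>
    exact ⟨rfl, rfl, rfl, h.symm⟩

theorem Ad_irrefl (R : ℕ → ℕ → ℕ → Bool) (x : Vx) : ¬ Ad R x x := by
  cases x <;> simp [Ad]

/-- the neighbours of a middle vertex -/
theorem mid_nbrs (R : ℕ → ℕ → ℕ → Bool) (n a b : ℕ) (s : Bool) :
    {y | Ad R (.mid n a b s) y}.ncard = Nl n s (R n a b) + 2 ∧
      {y | Ad R (.mid n a b s) y}.Finite := by
  classical
  have hset : {y | Ad R (.mid n a b s) y} =
      ((insert (Vx.el (if s then b else a)) (insert (Vx.mid n a b (!s))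
        ((Finset.range (Nl n s (R n a b))).image (Vx.lf n a b s))) : Finset Vx) : Set Vx) := by
    ext y
    cases y with
    | el c => simp [Ad]
    | mid n' a' b' s' =>
      simp only [Ad, Set.mem_ofPred_eq, Finset.coe_insert, Finset.coe_image, Set.mem_insert_iff,
        reduceCtorEq, Set.mem_image, and_false, exists_false, or_false, false_or, Vx.mid.injEq]
      constructor
      · rintro ⟨rfl, rfl, rfl, h⟩
        refine ⟨rfl, rfl, rfl, ?_⟩
        cases s <;> cases s' <;> simp_all
      · rintro ⟨rfl, rfl, rfl, h⟩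
        refine ⟨rfl, rfl, rfl, ?_⟩
        cases s <;> cases s' <;> simp_all
    | lf n' a' b' s' k =>
      simp only [Ad, Set.mem_ofPred_eq, Finset.coe_insert, Finset.coe_image, Set.mem_insert_iff,
        reduceCtorEq, Set.mem_image, false_or, Vx.lf.injEq, Finset.coe_range, Set.mem_Iio]
      constructor
      · rintro ⟨rfl, rfl, rfl, rfl, h⟩
        exact ⟨k, h, rfl, rfl, rfl, rfl, rfl⟩
      · rintro ⟨k', h, rfl, rfl, rfl, rfl, rfl⟩
        exact ⟨rfl, rfl, rfl, rfl, h⟩
  rw [hset]
  refine ⟨?_, Finset.finite_toSet _⟩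
  rw [Set.ncard_coe_finset, Finset.card_insert_of_notMem, Finset.card_insert_of_notMem,
    Finset.card_image_of_injective, Finset.card_range]
  · intro k k' h
    injection h
  · simp
  · simp

theorem el_nbrs (R : ℕ → ℕ → ℕ → Bool) (a : ℕ) : ¬ {y | Ad R (.el a) y}.Finite := by
  intro h
  have h2 : (Set.range (fun k : ℕ => Vx.mid k a 0 false)).Finite := by
    refine h.subset ?_
    rintro _ ⟨k, rfl⟩
    simp [Ad]
  refine Set.infinite_range_of_injective ?_ h2
  intro k k' hk
  injection hk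

theorem lf_nbrs (R : ℕ → ℕ → ℕ → Bool) (n a b : ℕ) (s : Bool) (k : ℕ) :
    {y | Ad R (.lf n a b s k) y}.Finite ∧ {y | Ad R (.lf n a b s k) y}.ncard ≤ 1 := by
  have hsub : {y | Ad R (.lf n a b s k) y} ⊆ {Vx.mid n a b s} := by
    intro y hy
    cases y with
    | el c => exact hy.elim
    | mid n' a' b' s' =>
      obtain ⟨rfl, rfl, rfl, rfl, -⟩ := hy
      rfl
    | lf n' a' b' s' k => exact hy.elim
  refine ⟨(Set.finite_singleton _).subset hsub, ?_⟩
  calc _ ≤ ({Vx.mid n a b s} : Set Vx).ncard := Set.ncard_le_ncard hsub (Set.finite_singleton _)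
    _ = 1 := Set.ncard_singleton _

section iso

variable {R R' : ℕ → ℕ → ℕ → Bool} {τ : Equiv.Perm Vx}

theorem image_nbrs (h : ∀ x y, Ad R (τ x) (τ y) ↔ Ad R' x y) (x : Vx) :
    {y | Ad R (τ x) y} = τ '' {y | Ad R' x y} := by
  ext y
  constructor
  · intro hy
    refine ⟨τ.symm y, ?_, by simp⟩
    simp only [Set.mem_ofPred_eq]
    rw [← h, Equiv.apply_symm_apply]
    exact hy
  · rintro ⟨z, hz, rfl⟩
    exact (h _ _).2 hz

theorem fin_iff (h : ∀ x y, Ad R (τ x) (τ y) ↔ Ad R' x y) (x : Vx) :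
    {y | Ad R (τ x) y}.Finite ↔ {y | Ad R' x y}.Finite := by
  rw [image_nbrs h]
  exact Set.finite_image_iff τ.injective.injOn

theorem ncard_eq (h : ∀ x y, Ad R (τ x) (τ y) ↔ Ad R' x y) (x : Vx) :
    {y | Ad R (τ x) y}.ncard = {y | Ad R' x y}.ncard := by
  rw [image_nbrs h]
  exact Set.ncard_image_of_injective _ τ.injective

theorem map_el (h : ∀ x y, Ad R (τ x) (τ y) ↔ Ad R' x y) (a : ℕ) : ∃ a', τ (.el a) = .el a' := by
  have h1 := fin_iff h (.el a)
  cases hx : τ (.el a) with
  | el c => exact ⟨c, rfl⟩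
  | mid n b c s =>
    rw [hx] at h1
    exact (el_nbrs R' a (h1.1 (mid_nbrs R n b c s).2)).elim
  | lf n b c s k =>
    rw [hx] at h1
    exact (el_nbrs R' a (h1.1 (lf_nbrs R n b c s k).1)).elim

theorem map_mid (h : ∀ x y, Ad R (τ x) (τ y) ↔ Ad R' x y) (n a b : ℕ) (s : Bool) :
    ∃ a' b', τ (.mid n a b s) = .mid n a' b' s ∧ R n a' b' = R' n a b := by
  have h1 := fin_iff h (.mid n a b s)
  have h2 := ncard_eq h (.mid n a b s)
  cases hx : τ (.mid n a b s) with
  | el c =>
    rw [hx] at h1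
    exact (el_nbrs R c (h1.2 (mid_nbrs R' n a b s).2)).elim
  | mid n' a' b' s' =>
    rw [hx, (mid_nbrs R n' a' b' s').1, (mid_nbrs R' n a b s).1] at h2
    obtain ⟨rfl, rfl, h3⟩ := Nl_inj (Nat.add_right_cancel h2)
    exact ⟨a', b', rfl, h3⟩
  | lf n' a' b' s' k =>
    rw [hx, (mid_nbrs R' n a b s).1] at h2
    have := (lf_nbrs R n' a' b' s' k).2
    omega

theorem iso_back (h : ∀ x y, Ad R (τ x) (τ y) ↔ Ad R' x y) :
    ∃ σ : Equiv.Perm ℕ, ∀ n a b, R n (σ a) (σ b) = R' n a b := by
  have h' : ∀ x y, Ad R' (τ.symm x) (τ.symm y) ↔ Ad R x y := by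
    intro x y
    rw [← h, Equiv.apply_symm_apply, Equiv.apply_symm_apply]
  choose f hf using map_el h
  choose g hg using map_el h'
  have hfg : ∀ a, f (g a) = a := by
    intro a
    have h1 : τ (.el (g a)) = .el a := by rw [← hg a, Equiv.apply_symm_apply]
    rw [hf] at h1
    injection h1
  have hgf : ∀ a, g (f a) = a := by
    intro a
    have h1 : τ.symm (.el (f a)) = .el a := by rw [← hf a, Equiv.symm_apply_apply]
    rw [hg] at h1
    injection h1
  refine ⟨⟨f, g, hgf, hfg⟩, fun n a b => ?_⟩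
  obtain ⟨a₁, b₁, h1, h2⟩ := map_mid h n a b false
  obtain ⟨a₂, b₂, h3, h4⟩ := map_mid h n a b true
  have h5 : Ad R (τ (.mid n a b false)) (τ (.mid n a b true)) :=
    (h _ _).2 ⟨rfl, rfl, rfl, by simp⟩
  rw [h1, h3] at h5
  obtain ⟨-, rfl, rfl, -⟩ := h5
  have h6 : Ad R (τ (.mid n a b false)) (τ (.el a)) := (h _ _).2 (by simp [Ad])
  have h7 : Ad R (τ (.mid n a b true)) (τ (.el b)) := (h _ _).2 (by simp [Ad])
  rw [h1, hf] at h6
  rw [h3, hf] at h7
  simp only [Ad, Bool.false_eq_true, if_false, if_true] at h6 h7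
  show R n (f a) (f b) = R' n a b
  rw [h6, h7, h2]

end iso

/-- the map on vertices induced by a permutation -/
def mp (σ : ℕ → ℕ) : Vx → Vx
  | .el a => .el (σ a)
  | .mid n a b s => .mid n (σ a) (σ b) s
  | .lf n a b s k => .lf n (σ a) (σ b) s k

theorem mp_comp (σ ρ : ℕ → ℕ) (h : ∀ a, σ (ρ a) = a) (x : Vx) : mp σ (mp ρ x) = x := by
  cases x <;> simp [mp, h]

theorem iso_forth {R R' : ℕ → ℕ → ℕ → Bool} (σ : Equiv.Perm ℕ)
    (h : ∀ n a b, R n (σ a) (σ b) = R' n a b) :
    ∃ τ : Equiv.Perm Vx, ∀ x y, Ad R (τ x) (τ y) ↔ Ad R' x y := by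
  refine ⟨⟨mp σ, mp σ.symm, mp_comp _ _ (by simp), mp_comp _ _ (by simp)⟩, fun x y => ?_⟩
  show Ad R (mp σ x) (mp σ y) ↔ Ad R' x y
  cases x with
  | el a =>
    cases y with
    | el a' => simp [mp, Ad]
    | mid n' a' b' s' => cases s' <;> simp [mp, Ad]
    | lf n' a' b' s' k' => simp [mp, Ad]
  | mid n a b s =>
    cases y with
    | el a' => cases s <;> simp [mp, Ad]
    | mid n' a' b' s' => simp [mp, Ad]
    | lf n' a' b' s' k' => simp [mp, Ad, h]
  | lf n a b s k =>
    cases y with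
    | el a' => simp [mp, Ad]
    | mid n' a' b' s' => simp [mp, Ad, h]
    | lf n' a' b' s' k' => simp [mp, Ad]

theorem measurableSet_ad (x y : Vx) : MeasurableSet {R : ℕ → ℕ → ℕ → Bool | Ad R x y} := by
  have key : ∀ (n a b : ℕ) (p : Bool → Prop),
      MeasurableSet {R : ℕ → ℕ → ℕ → Bool | p (R n a b)} := by
    intro n a b p
    have h1 : Measurable (fun R : ℕ → ℕ → ℕ → Bool => R n a b) :=
      (measurable_pi_apply b).comp ((measurable_pi_apply a).comp (measurable_pi_apply n))
    exact h1 (MeasurableSet.of_discrete (s := {r | p r}))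
  cases x with
  | el a =>
    cases y with
    | el a' => exact MeasurableSet.const _
    | mid n' a' b' s' => exact MeasurableSet.const _
    | lf n' a' b' s' k' => exact MeasurableSet.const _
  | mid n a b s =>
    cases y with
    | el a' => exact MeasurableSet.const _
    | mid n' a' b' s' => exact MeasurableSet.const _
    | lf n' a' b' s' k' =>
      exact key n a b (fun r => n = n' ∧ a = a' ∧ b = b' ∧ s = s' ∧ k' < Nl n s r)
  | lf n a b s k =>
    cases y with
    | el a' => exact MeasurableSet.const _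
    | mid n' a' b' s' =>
      exact key n' a' b' (fun r => n' = n ∧ a' = a ∧ b' = b ∧ s' = s ∧ k < Nl n' s' r)
    | lf n' a' b' s' k' => exact MeasurableSet.const _

theorem graph_code : ∃ F : (ℕ → ℕ → ℕ → Bool) → (ℕ → ℕ → Bool), Measurable F ∧
    (∀ R i j, F R i j = F R j i) ∧ (∀ R i, F R i i = false) ∧
    ∀ R R' : ℕ → ℕ → ℕ → Bool,
      (∃ σ : Equiv.Perm ℕ, ∀ n a b, R n (σ a) (σ b) = R' n a b) ↔
      ∃ τ : Equiv.Perm ℕ, ∀ i j, F R (τ i) (τ j) = F R' i j := by
  classical
  have := countable_vx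
  have := infinite_vx
  obtain ⟨en⟩ : Nonempty (ℕ ≃ Vx) := nonempty_equiv_of_countable
  refine ⟨fun R i j => decide (Ad R (en i) (en j)), ?_, ?_, ?_, ?_⟩
  · refine measurable_pi_iff.2 fun i => measurable_pi_iff.2 fun j => measurable_to_bool ?_
    have hs : (fun R : ℕ → ℕ → ℕ → Bool => decide (Ad R (en i) (en j))) ⁻¹' {true} =
        {R | Ad R (en i) (en j)} := by
      ext R
      simp
    rw [hs]
    exact measurableSet_ad _ _
  · intro R i j
    exact decide_eq_decide.2 (Ad_symm R _ _)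
  · intro R i
    exact decide_eq_false (Ad_irrefl R _)
  · intro R R'
    constructor
    · rintro ⟨σ, hσ⟩
      obtain ⟨τ, hτ⟩ := iso_forth σ hσ
      refine ⟨(en.trans τ).trans en.symm, fun i j => ?_⟩
      simp only [Equiv.trans_apply, Equiv.apply_symm_apply]
      exact decide_eq_decide.2 (hτ _ _)
    · rintro ⟨τ, hτ⟩
      refine iso_back (τ := (en.symm.trans τ).trans en) fun x y => ?_
      simp only [Equiv.trans_apply]
      have := hτ (en.symm x) (en.symm y)
      simp only [Equiv.apply_symm_apply] at this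
      exact decide_eq_decide.1 this

end Pool.Agent.H75.GraphCode
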