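import Pool.Agent.H75.Mfd.Basic

set_option autoImplicit false

namespace Pool.Agent.H75.Mfd

open Set Topology Metric Filter

/-- the face with corner `l a` and free directions `S` -/
def gface (n : ℕ) (l : ℝ) (a : Fin n → ℤ) (S : Finset (Fin n)) : Set (Fin n → ℝ) :=
  {x | ∀ i, (i ∈ S → l * a i ≤ x i ∧ x i ≤ l * (a i + 1)) ∧ (i ∉ S → x i = l * a i)}

/-- the boundary of the face -/
def gbdry (n : ℕ) (l : ℝ) (a : Fin n → ℤ) (S : Finset (Fin n)) : Set (Fin n → ℝ) :=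
  {x | x ∈ gface n l a S ∧ ∃ i ∈ S, x i = l * a i ∨ x i = l * (a i + 1)}

/-- the set of points moved in the step of the face -/
def gsupp (n : ℕ) (l : ℝ) (a : Fin n → ℤ) (S : Finset (Fin n)) (ρ : ℝ) : Set (Fin n → ℝ) :=
  {x | (∀ i ∈ S, l * a i + ρ / 2 ≤ x i ∧ x i ≤ l * (a i + 1) - ρ / 2) ∧
    (∀ i, i ∉ S → |x i - l * a i| ≤ ρ / 2)}

end Pool.Agent.H75.Mfd
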