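import Pool.Agent.H75.Mfd.Basic

/-!
Module HS (handle straightening).
m = 0: g is a homeomorphism (open, the identity outside of a compact set, connected target), h = g.
-/

set_option autoImplicit false

namespace Pool.Agent.H75.Mfd

open Set Topology Metric Filter

theorem hs_zero (C : Type*) [NormedAddCommGroup C] [NormedSpace ℝ C] [FiniteDimensional ℝ C] :
    ∃ lam : ℝ, 0 < lam ∧ lam < 1 ∧ ∀ a R ε : ℝ, 0 < a → 0 < R → 0 < ε →
      ∃ δ > 0, ∀ g : C × (Fin 0 → ℝ) → C × (Fin 0 → ℝ),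
        OE g {p | ‖p.2‖ < R} → (∀ p : C × (Fin 0 → ℝ), ‖p.2‖ < R → dist (g p) p < δ) →
        (∀ p : C × (Fin 0 → ℝ), a ≤ ‖p.1‖ → ‖p.2‖ < R → g p = p) →
        ∃ h : (C × (Fin 0 → ℝ)) ≃ₜ (C × (Fin 0 → ℝ)), (∀ p, a ≤ ‖p.1‖ → h p = p) ∧
          (∀ p, R ≤ ‖p.2‖ → h p = p) ∧ (∀ p, ‖p.2‖ < lam * R → h p = g p) ∧
          (∀ p, dist (h p) p < ε) := by
  refine ⟨1 / 2, by norm_num, by norm_num, fun a R ε ha hR hε => ⟨ε, hε, fun g hg hgd hgid => ?_⟩⟩
  have hn : ∀ p : C × (Fin 0 → ℝ), ‖p.2‖ = 0 := by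
    intro p
    rw [show p.2 = 0 from Subsingleton.elim _ _, norm_zero]
  have huniv : {p : C × (Fin 0 → ℝ) | ‖p.2‖ < R} = univ := by
    ext p
    simp only [mem_ofPred_eq, mem_univ, iff_true]
    rw [hn]; exact hR
  rw [huniv] at hg
  have hemb := hg.isOpenEmbedding
  have hsurj : Function.Surjective g := by
    have hclosed : IsClosed (range g) := by
      have h1 : range g = g '' {p | ‖p‖ ≤ a} ∪ {p | a ≤ ‖p.1‖} := by
        ext q
        constructor
        · rintro ⟨p, rfl⟩
          by_cases hp : a ≤ ‖p.1‖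
          · right
            rw [hgid p hp (by rw [hn]; exact hR)]
            exact hp
          · left
            refine ⟨p, ?_, rfl⟩
            push Not at hp
            show max ‖p.1‖ ‖p.2‖ ≤ a
            rw [hn]
            exact max_le hp.le ha.le
        · rintro (⟨p, -, rfl⟩ | hq)
          · exact ⟨p, rfl⟩
          · exact ⟨q, hgid q hq (by rw [hn]; exact hR)⟩
      rw [h1]
      refine IsClosed.union ?_ (isClosed_le continuous_const (by fun_prop))
      have h2 : IsCompact {p : C × (Fin 0 → ℝ) | ‖p‖ ≤ a} := by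
        have : {p : C × (Fin 0 → ℝ) | ‖p‖ ≤ a} = closedBall 0 a := by
          ext p; simp
        rw [this]
        exact isCompact_closedBall _ _
      exact (h2.image hemb.continuous).isClosed
    have hopen : IsOpen (range g) := hemb.isOpen_range
    have h3 : range g = univ := IsClopen.eq_univ ⟨hclosed, hopen⟩ (range_nonempty g)
    exact range_eq_univ.1 h3
  set h : (C × (Fin 0 → ℝ)) ≃ₜ (C × (Fin 0 → ℝ)) :=
    (Equiv.ofBijective g ⟨hemb.injective, hsurj⟩).toHomeomorphOfContinuousOpen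
      hemb.continuous hemb.isOpenMap with hh
  have hhg : ∀ p, h p = g p := fun p => rfl
  refine ⟨h, fun p hp => ?_, fun p hp => ?_, fun p _ => hhg p, fun p => ?_⟩
  · rw [hhg]; exact hgid p hp (by rw [hn]; exact hR)
  · rw [hn] at hp; linarith
  · rw [hhg]; exact hgd p (by rw [hn]; exact hR)

end Pool.Agent.H75.Mfd
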