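import Pool.Agent.H75.Mfd.NamesDefs

/-!
Module NAM. Names of classes of embeddings.
nu = (i, p, be, q): be = list of numbers of points of the dense sequence e.
InN: the list is long enough (the balls of radius 1/(p+1) around x i j, j < length, cover L i)
and for some k, all j < length, all z in D cap L i with dist z (x i j) < 1/(p+1):
dist (f z) (e be_j) <= 1/(q+1) - 1/(k+1).
-/

set_option autoImplicit false

namespace Pool.Agent.H75.Mfd

open Set Topology Metric Filter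

variable {n : ℕ} {M : Type} [MetricSpace M]

/-- elements of the same named set are close to each other -/
theorem inN_close (S : Sys n M) {X : Type*} [MetricSpace X] (e : ℕ → X) (ν : Nm) {f g : M → X}
    (hf : InN S e ν f) (hg : InN S e ν g) : ∀ x ∈ S.L ν.i, dist (f x) (g x) ≤ 2 / ((ν.q : ℝ) + 1) := by
  intro x hx
  obtain ⟨⟨U, hU, hfU⟩, hcov, ⟨kf, hkf⟩⟩ := hf
  obtain ⟨⟨V, hV, hgV⟩, -, ⟨kg, hkg⟩⟩ := hg
  obtain ⟨j, hj, hxj⟩ := hcov x hx
  refine le_of_forall_pos_le_add fun ε hε => ?_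
  have h1 : ContinuousAt f x := hfU.cont.continuousAt (hfU.isOpen.mem_nhds (hU hx))
  have h2 : ContinuousAt g x := hgV.cont.continuousAt (hgV.isOpen.mem_nhds (hV hx))
  have e1 : ∀ᶠ y in 𝓝 x, dist (f y) (f x) < ε / 2 := Metric.tendsto_nhds.mp h1 _ (by positivity)
  have e2 : ∀ᶠ y in 𝓝 x, dist (g y) (g x) < ε / 2 := Metric.tendsto_nhds.mp h2 _ (by positivity)
  have e3 : ∀ᶠ y in 𝓝 x, dist y (S.x ν.i j) < 1 / ((ν.p : ℝ) + 1) :=
    isOpen_ball.mem_nhds (show x ∈ ball (S.x ν.i j) (1 / ((ν.p : ℝ) + 1)) from hxj)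
  obtain ⟨z, ⟨⟨hz1, hz2⟩, hz3⟩, hzD, hzL⟩ :=
    mem_closure_iff_nhds.mp (S.D_L ν.i hx) _ ((e1.and e2).and e3)
  have a1 := hkf j hj ⟨z, hzD⟩ hzL hz3
  have a2 := hkg j hj ⟨z, hzD⟩ hzL hz3
  simp only at a1 a2
  have p1 : (0 : ℝ) < 1 / ((kf : ℝ) + 1) := by positivity
  have p2 : (0 : ℝ) < 1 / ((kg : ℝ) + 1) := by positivity
  have t1 := dist_triangle4 (f x) (f z) (g z) (g x)
  have t2 := dist_triangle_right (f z) (g z) (e (ν.be.getD j 0))
  have hz1' : dist (f x) (f z) < ε / 2 := by rw [dist_comm]; exact hz1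
  have hz2' : dist (g z) (g x) < ε / 2 := hz2
  have : (2 : ℝ) / ((ν.q : ℝ) + 1) = 1 / ((ν.q : ℝ) + 1) + 1 / ((ν.q : ℝ) + 1) := by ring
  rw [this]
  linarith

/-- every embedding has arbitrarily fine names -/
theorem exists_name (S : Sys n M) {X : Type*} [MetricSpace X] {e : ℕ → X} (hd : DenseRange e)
    {i : ℕ} {f : M → X} (hf : Emb S i f) (q : ℕ) : ∃ ν : Nm, ν.i = i ∧ ν.q = q ∧ InN S e ν f := by
  classical
  have hf' := hf
  obtain ⟨U, hU, hfU⟩ := hf
  set r : ℝ := 1 / ((q : ℝ) + 1) with hr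
  have hr0 : 0 < r := by positivity
  have huc : UniformContinuousOn f (S.L i) :=
    (S.cL i).uniformContinuousOn_of_continuous (hfU.cont.mono hU)
  obtain ⟨δ, hδ, huc'⟩ := Metric.uniformContinuousOn_iff.mp huc (r / 4) (by positivity)
  obtain ⟨p, hp⟩ := exists_nat_one_div_lt hδ
  have hb : ∀ j : ℕ, ∃ b : ℕ, dist (f (S.x i j)) (e b) < r / 4 :=
    fun j => hd.exists_dist_lt (f (S.x i j)) (by positivity)
  choose b hb using hb
  have hp0 : (0 : ℝ) < 1 / ((p : ℝ) + 1) := by positivity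
  -- finite cover
  have hcov : S.L i ⊆ ⋃ j : ℕ, ball (S.x i j) (1 / ((p : ℝ) + 1)) := by
    intro x hx
    obtain ⟨y, hy, hxy⟩ := Metric.mem_closure_iff.mp (S.x_dense i hx) _ hp0
    obtain ⟨j, rfl⟩ := hy
    exact mem_iUnion.mpr ⟨j, hxy⟩
  obtain ⟨t, ht⟩ := (S.cL i).elim_finite_subcover _ (fun _ => isOpen_ball) hcov
  let N := t.sup id + 1
  refine ⟨⟨i, p, (List.range N).map b, q⟩, rfl, rfl, hf', ?_, ?_⟩
  · intro x hx
    obtain ⟨j, hj, hxj⟩ := mem_iUnion₂.mp (ht hx)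
    refine ⟨j, ?_, hxj⟩
    have : j ≤ t.sup id := Finset.le_sup (f := id) hj
    simp only [List.length_map, List.length_range, N]
    omega
  · obtain ⟨k, hk⟩ := exists_nat_one_div_lt (show (0 : ℝ) < r / 2 by positivity)
    refine ⟨k, fun j hj z hz hzj => ?_⟩
    simp only [List.length_map, List.length_range] at hj
    have h1 : (List.map b (List.range N)).getD j 0 = b j := by
      rw [List.getD_eq_getElem _ _ (by simpa using hj)]
      simp
    have h2 := huc' (z : M) hz (S.x i j) (S.x_L i j) (lt_trans hzj hp)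
    have h3 := dist_triangle (f z) (f (S.x i j)) (e (b j))
    have h4 := hb j
    simp only [h1]
    show dist (f z) (e (b j)) ≤ r - 1 / ((k : ℝ) + 1)
    linarith

/-- the named sets are open -/
theorem inN_open (S : Sys n M) {X : Type*} [MetricSpace X] {e : ℕ → X} {ν : Nm} {f : M → X}
    (hf : InN S e ν f) : ∃ δ > 0, ∀ g : M → X, Emb S ν.i g →
      (∀ x ∈ S.L ν.i, dist (f x) (g x) < δ) → InN S e ν g := by
  obtain ⟨-, hcov, ⟨k, hk⟩⟩ := hf
  refine ⟨1 / ((k : ℝ) + 1) - 1 / (((k + 1 : ℕ) : ℝ) + 1), ?_, fun g hg hd => ⟨hg, hcov, k + 1, ?_⟩⟩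
  · rw [gt_iff_lt, sub_pos]
    apply one_div_lt_one_div_of_lt (by positivity)
    push_cast
    linarith
  · intro j hj z hz hzj
    have h1 := hk j hj z hz hzj
    have h2 := hd z hz
    have h3 := dist_triangle_left (g z) (e (ν.be.getD j 0)) (f z)
    simp only at h1 ⊢
    linarith

end Pool.Agent.H75.Mfd
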