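import Pool.Agent.H75.Mfd.StructDefs
import Pool.Agent.H75.Mfd.NamesLemmas
import Pool.Agent.H75.Mfd.BackForth

/-!
Module STR. The countable structure of a space and its isomorphism type.
Universe Om = Option Nm x N. Relations: sort i (unary), eq, act i j k.
(mp) a homeomorphism h : X -> Y induces bijections of the classes f -> h f; every class has
infinitely many names-with-copies and there are infinitely many junk elements, so the bijection of
classes lifts to a permutation of Om.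
(mpr) from a permutation define R i f g := exists names nu (of X), nu' (of Y) and copies with
sigma (some nu', a') = (some nu, a), both sorted with index i, f equivalent to an element of N_nu,
g equivalent to an element of N_nu'; check NatRel and apply back_forth.
-/

set_option autoImplicit false

namespace Pool.Agent.H75.Mfd

open Set Topology Metric Filter

variable {n : ℕ} {M : Type} [MetricSpace M]

/-- the element `ω` of the structure of `X` names the class of the embedding `f` -/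
def Nam (S : Sys n M) {X : Type*} [MetricSpace X] (e : ℕ → X) (i : ℕ) (ω : Om) (f : M → X) :
    Prop :=
  Emb S i f ∧ ∃ ν : Nm, ω.1 = some ν ∧ ν.i = i ∧ PsiX S e (.sort ν) ∧
    ∃ f₀, InN S e ν f₀ ∧ Eqv S i f f₀

theorem exists_nam (S : Sys n M) {X : Type*} [MetricSpace X] {e : ℕ → X} (he : DenseRange e)
    {i : ℕ} {f : M → X} (hf : Emb S i f) : ∃ ω, Nam S e i ω f := by
  obtain ⟨δ, hδ, H⟩ := hf.stable_eqv
  obtain ⟨q, hq⟩ := exists_nat_one_div_lt (show (0 : ℝ) < δ / 2 by positivity)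
  obtain ⟨ν, hi, hνq, hin⟩ := exists_name S he hf q
  have hcl : ∀ g, InN S e ν g → Eqv S i f g := by
    intro g hg
    refine H g (hi ▸ hg.1) fun x hx => ?_
    have h1 := inN_close S e ν hin hg x (by rw [hi]; exact hx)
    rw [hνq] at h1
    have h2 : (2 : ℝ) / ((q : ℝ) + 1) = 2 * (1 / ((q : ℝ) + 1)) := by ring
    linarith
  refine ⟨(some ν, 0), hf, ν, rfl, hi, ?_, f, hin, Eqv.refl i f⟩
  refine ⟨⟨f, hin⟩, fun g g' hg hg' => ?_⟩
  rw [hi]
  exact (hcl g hg).symm.trans (hcl g' hg')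

theorem nam_sort (S : Sys n M) {X : Type*} [MetricSpace X] {e : ℕ → X} {i : ℕ} {ω : Om} :
    Rel (PsiX S e) (.sort i) ω ω ↔ ∃ f, Nam S e i ω f := by
  constructor
  · rintro ⟨ν, hω, hi, hs⟩
    obtain ⟨f, hf⟩ := hs.1
    exact ⟨f, hi ▸ hf.1, ν, hω, hi, hs, f, hf, Eqv.refl i f⟩
  · rintro ⟨f, -, ν, hω, hi, hs, -⟩
    exact ⟨ν, hω, hi, hs⟩

theorem Nam.congr {S : Sys n M} {X : Type*} [MetricSpace X] {e : ℕ → X} {i : ℕ} {ω : Om}
    {f f' : M → X} (h : Nam S e i ω f) (hf' : Emb S i f') (he : Eqv S i f f') :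
    Nam S e i ω f' := by
  obtain ⟨-, ν, hω, hi, hs, f₀, hf₀, h₀⟩ := h
  exact ⟨hf', ν, hω, hi, hs, f₀, hf₀, he.symm.trans h₀⟩

/-- all members of the named set are equivalent to `f` -/
theorem Nam.all {S : Sys n M} {X : Type*} [MetricSpace X] {e : ℕ → X} {i : ℕ} {ω : Om}
    {f : M → X} (h : Nam S e i ω f) {ν : Nm} (hω : ω.1 = some ν) {g : M → X}
    (hg : InN S e ν g) : Eqv S i f g := by
  obtain ⟨-, ν', hω', hi, hs, f₀, hf₀, h₀⟩ := h
  obtain rfl : ν' = ν := by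
    rw [hω] at hω'
    exact (Option.some.inj hω').symm
  have h1 := hs.2 f₀ g hf₀ hg
  rw [hi] at h1
  exact h₀.trans h1

theorem Nam.uni {S : Sys n M} {X : Type*} [MetricSpace X] {e : ℕ → X} {i : ℕ} {ω : Om}
    {f f' : M → X} (h : Nam S e i ω f) (h' : Nam S e i ω f') : Eqv S i f f' := by
  obtain ⟨-, ν, hω, hi, hs, f₀, hf₀, h₀⟩ := h'
  exact (h.all hω hf₀).trans h₀.symm

theorem nam_eq {S : Sys n M} {X : Type*} [MetricSpace X] {e : ℕ → X} {i : ℕ} {ω ω' : Om}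
    {f f' : M → X} (h : Nam S e i ω f) (h' : Nam S e i ω' f') :
    Rel (PsiX S e) .eq ω ω' ↔ Eqv S i f f' := by
  constructor
  · rintro ⟨ν, ν', hω, hω', hs, hs', hi, f₀, g₀, hf₀, hg₀, he⟩
    have h1 := h.all hω hf₀
    have h2 := h'.all hω' hg₀
    obtain ⟨-, ν₁, hω₁, hi₁, -⟩ := h
    obtain rfl : ν₁ = ν := by
      rw [hω] at hω₁
      exact (Option.some.inj hω₁).symm
    rw [hi₁] at he
    exact (h1.trans he).trans h2.symm
  · intro he
    obtain ⟨-, ν, hω, hi, hs, f₀, hf₀, h₀⟩ := h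
    obtain ⟨-, ν', hω', hi', hs', g₀, hg₀, h₀'⟩ := h'
    refine ⟨ν, ν', hω, hω', hs, hs', hi.trans hi'.symm, f₀, g₀, hf₀, hg₀, ?_⟩
    rw [hi]
    exact (h₀.symm.trans he).trans h₀'

theorem nam_act {S : Sys n M} {X : Type*} [MetricSpace X] {e : ℕ → X} {i j k : ℕ} {ω ω' : Om}
    {f f' : M → X} (h : Nam S e j ω f) (h' : Nam S e i ω' f') (hg : S.good i j k) :
    Rel (PsiX S e) (.act i j k) ω ω' ↔ Eqv S i (f ∘ S.u i j k) f' := by
  constructor
  · rintro ⟨ν, ν', hω, hω', hi, hi', hs, hs', hgood, f₀, g₀, hf₀, hg₀, he⟩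
    have h1 := h.all hω hf₀
    have h2 := h'.all hω' hg₀
    rw [hi, hi'] at he
    exact ((Eqv.comp h1 (mor_u hg)).trans he).trans h2.symm
  · intro he
    obtain ⟨-, ν, hω, hi, hs, f₀, hf₀, h₀⟩ := h
    obtain ⟨-, ν', hω', hi', hs', g₀, hg₀, h₀'⟩ := h'
    refine ⟨ν, ν', hω, hω', hi, hi', hs, hs', ?_, f₀, g₀, hf₀, hg₀, ?_⟩
    · rw [hi, hi']
      exact hg
    · rw [hi, hi']
      exact ((Eqv.comp h₀.symm (mor_u hg)).trans he).trans h₀'

theorem homeo_of_iso (S : Sys n M) (X Y : Type) [MetricSpace X] [MetricSpace Y]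
    (e : ℕ → X) (e' : ℕ → Y) (he : DenseRange e) (he' : DenseRange e') (hX : LocEuc n X)
    (hY : LocEuc n Y)
    (h : ∃ σ : Equiv.Perm Om, ∀ r ω ω', Rel (PsiX S e) r (σ ω) (σ ω') ↔ Rel (PsiX S e') r ω ω') :
    Nonempty (X ≃ₜ Y) := by
  obtain ⟨σ, hσ⟩ := h
  haveI : TopologicalSpace.SeparableSpace X := ⟨range e, countable_range e, he⟩
  haveI : TopologicalSpace.SeparableSpace Y := ⟨range e', countable_range e', he'⟩
  haveI : Nonempty X := ⟨e 0⟩
  haveI : Nonempty Y := ⟨e' 0⟩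
  refine back_forth S X Y hX hY
    (fun i f g => ∃ ω, Nam S e i (σ ω) f ∧ Nam S e' i ω g) ⟨?_, ?_, ?_, ?_, ?_, ?_, ?_, ?_⟩
  · rintro i f g ⟨ω, h, -⟩
    exact h.1
  · rintro i f g ⟨ω, -, h⟩
    exact h.1
  · intro i f hf
    obtain ⟨ω, hω⟩ := exists_nam S he hf
    have h1 : Rel (PsiX S e) (.sort i) (σ (σ.symm ω)) (σ (σ.symm ω)) := by
      rw [σ.apply_symm_apply]
      exact (nam_sort S).2 ⟨f, hω⟩
    obtain ⟨g, hg⟩ := (nam_sort S).1 ((hσ _ _ _).1 h1)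
    exact ⟨g, σ.symm ω, by rw [σ.apply_symm_apply]; exact hω, hg⟩
  · intro i g hg
    obtain ⟨ω, hω⟩ := exists_nam S he' hg
    have h1 : Rel (PsiX S e') (.sort i) ω ω := (nam_sort S).2 ⟨g, hω⟩
    obtain ⟨f, hf⟩ := (nam_sort S).1 ((hσ _ _ _).2 h1)
    exact ⟨f, ω, hf, hω⟩
  · rintro i f g f' g' ⟨ω, h1, h2⟩ hf' hg' e1 e2
    exact ⟨ω, h1.congr hf' e1, h2.congr hg' e2⟩
  · rintro i f g g' ⟨ω, h1, h2⟩ ⟨ω', h1', h2'⟩
    exact (nam_eq h2 h2').1 ((hσ _ _ _).1 ((nam_eq h1 h1').2 (Eqv.refl i f)))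
  · rintro i f f' g ⟨ω, h1, h2⟩ ⟨ω', h1', h2'⟩
    exact (nam_eq h1 h1').1 ((hσ _ _ _).2 ((nam_eq h2 h2').2 (Eqv.refl i g)))
  · rintro i j k f g ⟨ω, h1, h2⟩ hgood
    have hfu : Emb S i (f ∘ S.u i j k) := h1.1.comp (mor_u hgood)
    have hgu : Emb S i (g ∘ S.u i j k) := h2.1.comp (mor_u hgood)
    obtain ⟨ω', hω'⟩ := exists_nam S he hfu
    have hω'' : Nam S e i (σ (σ.symm ω')) (f ∘ S.u i j k) := by
      rw [σ.apply_symm_apply]
      exact hω'
    obtain ⟨g', hg'⟩ := (nam_sort S).1 ((hσ _ _ _).1 ((nam_sort S).2 ⟨_, hω''⟩))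
    refine ⟨σ.symm ω', hω'', hg'.congr hgu ?_⟩
    exact ((nam_act h2 hg' hgood).1 ((hσ _ _ _).1
      ((nam_act h1 hω'' hgood).2 (Eqv.refl i _)))).symm

end Pool.Agent.H75.Mfd
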