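import Mathlib

set_option autoImplicit false

namespace Pool.Agent.H75.Mfd

open Set Topology Metric Filter

/-- lifting a bijection of countable quotients to the covers -/
theorem lift_perm {A B C : Type*} [Countable A] (p : A → B) (q : A → C) (hp : Function.Surjective p)
    (hq : Function.Surjective q) (θ : C ≃ B) :
    ∃ σ : Equiv.Perm (A × ℕ), ∀ x : A × ℕ, p (σ x).1 = θ (q x.1) := by
  have key : ∀ b : B, Nonempty ({x : A × ℕ // θ (q x.1) = b} ≃ {x : A × ℕ // p x.1 = b}) := by
    intro b
    obtain ⟨a, ha⟩ := hp b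
    obtain ⟨a', ha'⟩ := hq (θ.symm b)
    have i1 : Infinite {x : A × ℕ // p x.1 = b} :=
      Infinite.of_injective (fun n : ℕ => (⟨(a, n), ha⟩ : {x : A × ℕ // p x.1 = b}))
        (fun n m h => by simpa using h)
    have i2 : Infinite {x : A × ℕ // θ (q x.1) = b} :=
      Infinite.of_injective
        (fun n : ℕ => (⟨(a', n), by simp [ha']⟩ : {x : A × ℕ // θ (q x.1) = b}))
        (fun n m h => by simpa using h)
    exact nonempty_equiv_of_countable
  let e := fun b => Classical.choice (key b)
  refine ⟨(Equiv.sigmaFiberEquiv (fun x : A × ℕ => θ (q x.1))).symm.trans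
    ((Equiv.sigmaCongrRight e).trans (Equiv.sigmaFiberEquiv (fun x : A × ℕ => p x.1))), ?_⟩
  intro x
  have := (e (θ (q x.1)) ⟨x, rfl⟩).2
  simpa [Equiv.sigmaFiberEquiv] using this

end Pool.Agent.H75.Mfd
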