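import Pool.Agent.H75.Mfd.StructDefs
import Pool.Agent.H75.Mfd.NamesLemmas
import Pool.Agent.H75.Mfd.LiftPerm

/-!
Module STR. The countable structure of a space and its isomorphism type.
Universe Om = Option Nm x N. Relations: sort i (unary), eq, act i j k.
(mp) a homeomorphism h : X -> Y induces bijections of the classes f -> h f; every class has
infinitely many names-with-copies and there are infinitely many junk elements, so the bijection of
classes lifts to a permutation of Om.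
(mpr) from a permutation define R i f g := exists names nu (of X), nu' (of Y) and copies with
sigma (some nu', a') = (some nu, a), both sorted with index i, f equivalent to an element of N_nu,
g equivalent to an element of N_nu'; check NatRel and apply back_forth.
-/

set_option autoImplicit false

namespace Pool.Agent.H75.Mfd

open Set Topology Metric Filter

variable {n : ℕ} {M : Type} [MetricSpace M]

section iso

variable (S : Sys n M)

/-- `Eqv` is transported by homeomorphisms -/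
theorem Eqv.homeo_comp {S : Sys n M} {i : ℕ} {X Y : Type*} [TopologicalSpace X]
    [TopologicalSpace Y] {f g : M → X} (h : X ≃ₜ Y) (hfg : Eqv S i f g) :
    Eqv S i (h ∘ f) (h ∘ g) := by
  obtain ⟨k, ⟨Q, Q', hQ, hQ', hQQ, hs⟩, hk⟩ := hfg
  refine ⟨h.symm.trans (k.trans h), ⟨h '' Q, h '' Q', hQ.image h.continuous,
    hQ'.image h.continuous, ?_, ?_⟩, ?_⟩
  · rw [← h.image_interior]
    exact image_mono hQQ
  · intro y hy
    have h1 : h.symm y ∉ Q := fun hh => hy ⟨h.symm y, hh, by simp⟩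
    simp only [Homeomorph.trans_apply]
    rw [hs _ h1, h.apply_symm_apply]
  · intro x hx
    simp only [Homeomorph.trans_apply, Function.comp_apply, h.symm_apply_apply]
    rw [hk x hx]

theorem eqv_homeo_iff {S : Sys n M} {i : ℕ} {X Y : Type*} [TopologicalSpace X]
    [TopologicalSpace Y] {f g : M → X} (h : X ≃ₜ Y) :
    Eqv S i (h ∘ f) (h ∘ g) ↔ Eqv S i f g := by
  refine ⟨fun hh => ?_, fun hh => hh.homeo_comp h⟩
  have := hh.homeo_comp h.symm
  convert this using 1 <;>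
  · funext x
    simp

theorem emb_homeo_iff {S : Sys n M} {i : ℕ} {X Y : Type*} [TopologicalSpace X]
    [TopologicalSpace Y] {f : M → X} (h : X ≃ₜ Y) : Emb S i (h ∘ f) ↔ Emb S i f := by
  refine ⟨fun hh => ?_, fun hh => hh.homeo h⟩
  have := hh.homeo h.symm
  convert this using 1
  funext x
  simp

/-- the class of an embedding -/
def Cls (i : ℕ) {X : Type*} [TopologicalSpace X] (f : M → X) : Set (M → X) :=
  {g | Emb S i g ∧ Eqv S i f g}

/-- the class named by `ν` -/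
def ClsN {X : Type*} [MetricSpace X] (e : ℕ → X) (ν : Nm) : Set (M → X) :=
  {g | Emb S ν.i g ∧ ∃ f, InN S e ν f ∧ Eqv S ν.i f g}

open Classical in
/-- the class of an optional name -/
noncomputable def pcl {X : Type*} [MetricSpace X] (e : ℕ → X) :
    Option Nm → Option (ℕ × Set (M → X))
  | none => none
  | some ν => if PsiX S e (.sort ν) then some (ν.i, ClsN S e ν) else none

theorem pcl_eq_some {X : Type*} [MetricSpace X] {e : ℕ → X} {o : Option Nm} {i : ℕ}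
    {c : Set (M → X)} : pcl S e o = some (i, c) ↔
      ∃ ν, o = some ν ∧ PsiX S e (.sort ν) ∧ ν.i = i ∧ ClsN S e ν = c := by
  cases o with
  | none => simp [pcl]
  | some ν =>
    by_cases h : PsiX S e (.sort ν)
    · simp [pcl, h]
    · simp [pcl, h]

theorem clsN_eq {X : Type*} [MetricSpace X] {e : ℕ → X} {ν : Nm}
    (h : PsiX S e (.sort ν)) {f : M → X} (hf : InN S e ν f) : ClsN S e ν = Cls S ν.i f := by
  ext g
  constructor
  · rintro ⟨hg, f', hf', he⟩
    exact ⟨hg, (h.2 f f' hf hf').trans he⟩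
  · rintro ⟨hg, he⟩
    exact ⟨hg, f, hf, he⟩

theorem exists_sorted {X : Type*} [MetricSpace X] {e : ℕ → X} (he : DenseRange e) {i : ℕ}
    {f : M → X} (hf : Emb S i f) : ∃ ν : Nm, ν.i = i ∧ InN S e ν f ∧ PsiX S e (.sort ν) := by
  obtain ⟨δ, hδ, H⟩ := hf.stable_eqv
  obtain ⟨q, hq⟩ := exists_nat_one_div_lt (half_pos hδ)
  obtain ⟨ν, rfl, rfl, hν⟩ := exists_name S he hf q
  have h1 : ∀ g, InN S e ν g → Eqv S ν.i f g := by
    intro g hg
    refine H g hg.1 fun x hx => ?_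
    have h2 := inN_close S e ν hν hg x hx
    have h3 : 2 / ((ν.q : ℝ) + 1) = 2 * (1 / ((ν.q : ℝ) + 1)) := by ring
    linarith
  exact ⟨ν, rfl, hν, ⟨f, hν⟩, fun g g' hg hg' => (h1 g hg).symm.trans (h1 g' hg')⟩

theorem mem_range_pcl {X : Type*} [MetricSpace X] {e : ℕ → X} (he : DenseRange e) {i : ℕ}
    {c : Set (M → X)} : some (i, c) ∈ range (pcl S e) ↔ ∃ f, Emb S i f ∧ c = Cls S i f := by
  constructor
  · rintro ⟨o, ho⟩
    obtain ⟨ν, rfl, h1, rfl, rfl⟩ := (pcl_eq_some S).1 ho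
    obtain ⟨⟨f, hf⟩, -⟩ := id h1
    exact ⟨f, hf.1, clsN_eq S h1 hf⟩
  · rintro ⟨f, hf, rfl⟩
    obtain ⟨ν, rfl, hν, hs⟩ := exists_sorted S he hf
    exact ⟨some ν, (pcl_eq_some S).2 ⟨ν, rfl, hs, rfl, clsN_eq S hs hν⟩⟩

/-- the relations in terms of classes -/
def FR {X : Type*} [MetricSpace X] :
    Rs → Option (ℕ × Set (M → X)) → Option (ℕ × Set (M → X)) → Prop
  | .sort i, a, _ => ∃ c, a = some (i, c)
  | .eq, a, a' => ∃ i c c', a = some (i, c) ∧ a' = some (i, c') ∧ ∃ f, f ∈ c ∧ f ∈ c'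
  | .act i j k, a, a' => ∃ c c', a = some (j, c) ∧ a' = some (i, c') ∧ S.good i j k ∧
      ∃ f g, f ∈ c ∧ g ∈ c' ∧ Eqv S i (f ∘ S.u i j k) g

theorem rel_iff {X : Type*} [MetricSpace X] {e : ℕ → X} (r : Rs) (ω ω' : Om) :
    Rel (PsiX S e) r ω ω' ↔ FR S r (pcl S e ω.1) (pcl S e ω'.1) := by
  cases r with
  | sort i =>
    constructor
    · rintro ⟨ν, h1, h2, h3⟩
      exact ⟨_, (pcl_eq_some S).2 ⟨ν, h1, h3, h2, rfl⟩⟩
    · rintro ⟨c, hc⟩
      obtain ⟨ν, h1, h2, h3, -⟩ := (pcl_eq_some S).1 hc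
      exact ⟨ν, h1, h3, h2⟩
  | eq =>
    constructor
    · rintro ⟨ν, ν', h1, h2, h3, h4, h5, f, g, hf, hg, hfg⟩
      refine ⟨ν.i, _, _, (pcl_eq_some S).2 ⟨ν, h1, h3, rfl, rfl⟩,
        (pcl_eq_some S).2 ⟨ν', h2, h4, h5.symm, rfl⟩, f, ⟨hf.1, f, hf, Eqv.refl _ _⟩, ?_⟩
      refine ⟨?_, g, hg, ?_⟩
      · rw [← h5]; exact hf.1
      · rw [← h5]; exact hfg.symm
    · rintro ⟨i, c, c', hc, hc', f, hf, hf'⟩
      obtain ⟨ν, h1, h2, rfl, rfl⟩ := (pcl_eq_some S).1 hc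
      obtain ⟨ν', h1', h2', h3, rfl⟩ := (pcl_eq_some S).1 hc'
      obtain ⟨-, g, hg, hgf⟩ := hf
      obtain ⟨-, g', hg', hgf'⟩ := hf'
      refine ⟨ν, ν', h1, h1', h2, h2', h3.symm, g, g', hg, hg', ?_⟩
      rw [h3] at hgf'
      exact hgf.trans hgf'.symm
  | act i j k =>
    constructor
    · rintro ⟨ν, ν', h1, h2, rfl, rfl, h3, h4, h5, f, g, hf, hg, hfg⟩
      exact ⟨_, _, (pcl_eq_some S).2 ⟨ν, h1, h3, rfl, rfl⟩,
        (pcl_eq_some S).2 ⟨ν', h2, h4, rfl, rfl⟩, h5, f, g, ⟨hf.1, f, hf, Eqv.refl _ _⟩,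
        ⟨hg.1, g, hg, Eqv.refl _ _⟩, hfg⟩
    · rintro ⟨c, c', hc, hc', hgd, f, g, hf, hg, hfg⟩
      obtain ⟨ν, h1, h2, rfl, rfl⟩ := (pcl_eq_some S).1 hc
      obtain ⟨ν', h1', h2', rfl, rfl⟩ := (pcl_eq_some S).1 hc'
      obtain ⟨-, f₀, hf₀, hff⟩ := hf
      obtain ⟨-, g₀, hg₀, hgg⟩ := hg
      exact ⟨ν, ν', h1, h1', rfl, rfl, h2, h2', hgd, f₀, g₀, hf₀, hg₀,
        ((hff.comp (mor_u hgd)).trans hfg).trans hgg.symm⟩

/-- transport of classes -/
def Th {X Y : Type*} [TopologicalSpace X] [TopologicalSpace Y] (h : X ≃ₜ Y) :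
    Option (ℕ × Set (M → Y)) ≃ Option (ℕ × Set (M → X)) :=
  Equiv.optionCongr (Equiv.prodCongr (Equiv.refl ℕ)
    { toFun := fun c => {g | h ∘ g ∈ c}
      invFun := fun c => {g | h.symm ∘ g ∈ c}
      left_inv := by
        intro c
        ext g
        simp only [mem_ofPred_eq]
        rw [← Function.comp_assoc]
        simp
      right_inv := by
        intro c
        ext g
        simp only [mem_ofPred_eq]
        rw [← Function.comp_assoc]
        simp })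

omit [MetricSpace M] in
theorem Th_some {X Y : Type*} [TopologicalSpace X] [TopologicalSpace Y] (h : X ≃ₜ Y) (i : ℕ)
    (c : Set (M → Y)) : Th h (some (i, c)) = some (i, {g | h ∘ g ∈ c}) := rfl

omit [MetricSpace M] in
theorem Th_none {X Y : Type*} [TopologicalSpace X] [TopologicalSpace Y] (h : X ≃ₜ Y) :
    Th (M := M) h none = none := rfl

theorem cls_pull {X Y : Type*} [TopologicalSpace X] [TopologicalSpace Y] (h : X ≃ₜ Y) (i : ℕ)
    (f : M → X) : {g | h ∘ g ∈ Cls S i (h ∘ f)} = Cls S i f := by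
  ext g
  simp only [Cls, mem_ofPred_eq]
  rw [emb_homeo_iff, eqv_homeo_iff]

omit [MetricSpace M] in
theorem Th_eq_some {X Y : Type*} [TopologicalSpace X] [TopologicalSpace Y] (h : X ≃ₜ Y) {i : ℕ}
    {c : Set (M → X)} {a : Option (ℕ × Set (M → Y))} :
    Th h a = some (i, c) ↔ ∃ c', a = some (i, c') ∧ c = {g | h ∘ g ∈ c'} := by
  cases a with
  | none => simp [Th_none]
  | some jc =>
    obtain ⟨j, c'⟩ := jc
    rw [Th_some]
    simp only [Option.some.injEq, Prod.mk.injEq]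
    constructor
    · rintro ⟨rfl, rfl⟩
      exact ⟨c', ⟨rfl, rfl⟩, rfl⟩
    · rintro ⟨c'', ⟨rfl, rfl⟩, rfl⟩
      exact ⟨rfl, rfl⟩

theorem FR_Th {X Y : Type*} [MetricSpace X] [MetricSpace Y] (h : X ≃ₜ Y) (r : Rs)
    (a a' : Option (ℕ × Set (M → Y))) : FR S r (Th h a) (Th h a') ↔ FR S r a a' := by
  cases r with
  | sort i =>
    constructor
    · rintro ⟨c, hc⟩
      obtain ⟨c', h1, -⟩ := (Th_eq_some h).1 hc
      exact ⟨c', h1⟩
    · rintro ⟨c, hc⟩
      exact ⟨_, (Th_eq_some h).2 ⟨c, hc, rfl⟩⟩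
  | eq =>
    constructor
    · rintro ⟨i, c, c', hc, hc', f, hf, hf'⟩
      obtain ⟨d, h1, rfl⟩ := (Th_eq_some h).1 hc
      obtain ⟨d', h1', rfl⟩ := (Th_eq_some h).1 hc'
      exact ⟨i, d, d', h1, h1', h ∘ f, hf, hf'⟩
    · rintro ⟨i, c, c', hc, hc', f, hf, hf'⟩
      refine ⟨i, _, _, (Th_eq_some h).2 ⟨c, hc, rfl⟩, (Th_eq_some h).2 ⟨c', hc', rfl⟩,
        h.symm ∘ f, ?_, ?_⟩
      · show h ∘ (h.symm ∘ f) ∈ c
        rwa [← Function.comp_assoc, h.self_comp_symm, Function.id_comp]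
      · show h ∘ (h.symm ∘ f) ∈ c'
        rwa [← Function.comp_assoc, h.self_comp_symm, Function.id_comp]
  | act i j k =>
    constructor
    · rintro ⟨c, c', hc, hc', hg, f, g, hf, hf', he⟩
      obtain ⟨d, h1, rfl⟩ := (Th_eq_some h).1 hc
      obtain ⟨d', h1', rfl⟩ := (Th_eq_some h).1 hc'
      exact ⟨d, d', h1, h1', hg, h ∘ f, h ∘ g, hf, hf', he.homeo_comp h⟩
    · rintro ⟨c, c', hc, hc', hg, f, g, hf, hf', he⟩
      refine ⟨_, _, (Th_eq_some h).2 ⟨c, hc, rfl⟩, (Th_eq_some h).2 ⟨c', hc', rfl⟩, hg,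
        h.symm ∘ f, h.symm ∘ g, ?_, ?_, he.homeo_comp h.symm⟩
      · show h ∘ (h.symm ∘ f) ∈ c
        rwa [← Function.comp_assoc, h.self_comp_symm, Function.id_comp]
      · show h ∘ (h.symm ∘ g) ∈ c'
        rwa [← Function.comp_assoc, h.self_comp_symm, Function.id_comp]

end iso

theorem iso_of_homeo (S : Sys n M) (X Y : Type) [MetricSpace X] [MetricSpace Y]
    (e : ℕ → X) (e' : ℕ → Y) (he : DenseRange e) (he' : DenseRange e') (h : X ≃ₜ Y) :
    ∃ σ : Equiv.Perm Om, ∀ r ω ω', Rel (PsiX S e) r (σ ω) (σ ω') ↔ Rel (PsiX S e') r ω ω' := by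
  have hr : ∀ a : Option (ℕ × Set (M → Y)), a ∈ range (pcl S e') ↔ Th h a ∈ range (pcl S e) := by
    intro a
    cases a with
    | none =>
      rw [Th_none]
      exact ⟨fun _ => ⟨none, rfl⟩, fun _ => ⟨none, rfl⟩⟩
    | some ic =>
      obtain ⟨i, c⟩ := ic
      rw [Th_some, mem_range_pcl S he, mem_range_pcl S he']
      constructor
      · rintro ⟨f, hf, rfl⟩
        refine ⟨h.symm ∘ f, hf.homeo h.symm, ?_⟩
        rw [← cls_pull S h i (h.symm ∘ f), ← Function.comp_assoc]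
        simp
      · rintro ⟨f, hf, hc⟩
        refine ⟨h ∘ f, hf.homeo h, ?_⟩
        rw [← cls_pull S h] at hc
        ext g
        have h1 : h.symm ∘ g ∈ {g | h ∘ g ∈ c} ↔ h.symm ∘ g ∈ {g | h ∘ g ∈ Cls S i (h ∘ f)} := by
          rw [hc]
        simpa [← Function.comp_assoc] using h1
  have := countable_nm
  obtain ⟨σ, hσ⟩ := lift_perm (rangeFactorization (pcl S e)) (rangeFactorization (pcl S e'))
    rangeFactorization_surjective rangeFactorization_surjective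
    (Equiv.subtypeEquiv (Th h) hr)
  have hσ' : ∀ ω : Om, pcl S e (σ ω).1 = Th h (pcl S e' ω.1) := fun ω =>
    congrArg Subtype.val (hσ ω)
  refine ⟨σ, fun r ω ω' => ?_⟩
  rw [rel_iff, rel_iff, hσ', hσ', FR_Th]

end Pool.Agent.H75.Mfd
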