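import Pool.Agent.H75.Mfd.Gluing
import Pool.Agent.H75.Mfd.EmbedGluing

/-!
Module LIND. Countably many presentations of a given type suffice, by the Lindelof property of the
space of pulled back metrics.
-/

set_option autoImplicit false

namespace Pool.Agent.H75.Mfd

open Set Topology Metric Filter

/-- the domain of an atlas with `k` charts -/
abbrev ZZ (n k : ℕ) : Type := Fin k × closedBall (0 : Fin n → ℝ) 2

/-- a presentation together with its space -/
structure PP (n k : ℕ) (lam : ℝ) where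
  X : Type
  mX : MetricSpace X
  sX : TopologicalSpace.SeparableSpace X
  pi : Fin k → (Fin n → ℝ) → X
  pres : Pres n k lam X pi
  loc : LocEuc n X

theorem pres_continuous {n k : ℕ} {lam : ℝ} {X : Type*} [MetricSpace X]
    {π : Fin k → (Fin n → ℝ) → X} (hπ : Pres n k lam X π) :
    Continuous (fun z : ZZ n k => π z.1 z.2) := by
  rw [continuous_prod_of_discrete_left]
  intro l
  exact (hπ.cont l).restrict

/-- the pulled back metric -/
noncomputable def PP.rho {n k : ℕ} {lam : ℝ} (p : PP n k lam) : C(ZZ n k × ZZ n k, ℝ) :=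
  letI := p.mX
  ⟨fun z => dist (p.pi z.1.1 z.1.2) (p.pi z.2.1 z.2.2),
    ((pres_continuous p.pres).comp continuous_fst).dist
      ((pres_continuous p.pres).comp continuous_snd)⟩

theorem PP.exists_delta {n k : ℕ} {lam : ℝ} (hlam : 0 < lam) (p : PP n k lam) :
    ∃ δ > 0, ∀ q : PP n k lam, Nonempty q.X → dist (q.rho) (p.rho) < δ →
      letI := p.mX
      letI := q.mX
      ∃ f : p.X → q.X, OE f (⋃ l, p.pi l '' ball 0 (5 / 4)) ∧
        (⋃ l, q.pi l '' ball 0 (1 / 2)) ⊆ f '' (⋃ l, p.pi l '' ball 0 1) := by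
  letI := p.mX
  obtain ⟨δ, hδ, H⟩ := gluing n k lam hlam p.pi p.pres (1 / 8) (by norm_num)
  refine ⟨δ, hδ, fun q hq hd => ?_⟩
  letI := q.mX
  obtain ⟨h, h1, h2, h3⟩ := H q.X q.pi q.pres (by
    intro l l' z z' hz hz'
    have h4 := ContinuousMap.dist_apply_le_dist (f := p.rho) (g := q.rho)
      ((((l, ⟨z, hz⟩) : ZZ n k), ((l', ⟨z', hz'⟩) : ZZ n k)))
    rw [dist_comm] at hd
    exact lt_of_le_of_lt h4 hd)
  exact embed_of_gluing n k lam p.pi p.pres q.pi q.pres h h1 h2 h3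

/-- countably many presentations of a given type suffice -/
theorem lindelof_pres (n k : ℕ) (lam : ℝ) (hlam : 0 < lam) :
    ∃ (ι : Type) (_ : Countable ι) (Xi : ι → Type) (mi : ∀ i, MetricSpace (Xi i))
      (π : ∀ i, Fin k → (Fin n → ℝ) → Xi i),
      (∀ i, Pres n k lam (Xi i) (π i) ∧ LocEuc n (Xi i) ∧
        TopologicalSpace.SeparableSpace (Xi i)) ∧
      ∀ (X' : Type) [MetricSpace X'] [TopologicalSpace.SeparableSpace X'] [Nonempty X'],
        LocEuc n X' → ∀ π' : Fin k → (Fin n → ℝ) → X', Pres n k lam X' π' →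
        ∃ (i : ι) (f : Xi i → X'), OE f (⋃ l, π i l '' ball 0 (5 / 4)) ∧
          (⋃ l, π' l '' ball 0 (1 / 2)) ⊆ f '' (⋃ l, π i l '' ball 0 1) := by
  classical
  let R : Set C(ZZ n k × ZZ n k, ℝ) := range (fun p : PP n k lam => p.rho)
  have hR : ∀ r : R, ∃ p : PP n k lam, p.rho = r.1 := fun r => r.2
  choose P hP using hR
  have hδ := fun r : R => (P r).exists_delta hlam
  choose δ hδpos hδ using hδ
  obtain ⟨T, hTc, hT⟩ := TopologicalSpace.isOpen_iUnion_countable
    (fun r : R => ball (r.1) (δ r)) (fun r => isOpen_ball)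
  refine ⟨T, hTc.to_subtype, fun i => (P i.1).X, fun i => (P i.1).mX, fun i => (P i.1).pi,
    fun i => ⟨(P i.1).pres, (P i.1).loc, (P i.1).sX⟩, ?_⟩
  intro X' mX' sX' nX' hX' π' hπ'
  let q : PP n k lam := ⟨X', mX', sX', π', hπ', hX'⟩
  have hq : q.rho ∈ ⋃ r : R, ball (r.1) (δ r) := by
    rw [mem_iUnion]
    exact ⟨⟨q.rho, q, rfl⟩, mem_ball_self (hδpos _)⟩
  rw [← hT] at hq
  simp only [mem_iUnion, exists_prop] at hq
  obtain ⟨r, hrT, hr⟩ := hq
  rw [mem_ball, ← hP r] at hr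
  exact ⟨⟨r, hrT⟩, hδ r q nX' hr⟩

end Pool.Agent.H75.Mfd
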