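import Pool.Agent.H75.Mfd.BorelEval
import Pool.Agent.H75.Mfd.IsoOfHomeo
import Pool.Agent.H75.Mfd.HomeoOfIso
import Pool.Agent.H75.Mfd.ExistsSys
import Pool.Agent.H75.Mfd.Charted
import Pool.Agent.H75.Mfd.GraphCode

/-!
Main theorem: homeomorphism of metric codes of n-manifolds is Borel reducible to isomorphism of
countable graphs.
-/

set_option autoImplicit false

namespace Pool.Agent.H75.Mfd

open Set Topology Metric Filter

theorem main_borel (n : ℕ) :
    ∃ F : (ℕ → ℕ → ℝ) → (ℕ → ℕ → Bool), Measurable F ∧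
      (∀ η i j, F η i j = F η j i) ∧ (∀ η i, F η i i = false) ∧
      ∀ (X Y : Type) [MetricSpace X] [CompleteSpace X] [MetricSpace Y] [CompleteSpace Y]
        (η η' : ℕ → ℕ → ℝ) (e : ℕ → X) (e' : ℕ → Y), LocEuc n X → LocEuc n Y →
        Function.Injective e → Function.Injective e' → DenseRange e → DenseRange e' →
        (∀ i j, dist (e i) (e j) = η i j) → (∀ i j, dist (e' i) (e' j) = η' i j) →
        (Nonempty (X ≃ₜ Y) ↔ ∃ σ : Equiv.Perm ℕ, ∀ i j, F η (σ i) (σ j) = F η' i j) := by
  classical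
  obtain ⟨M, mM, sM, ⟨S⟩⟩ := exists_sys n
  obtain ⟨B, hB, hBX⟩ := borel_eval S
  obtain ⟨G, hG, hsym, hirr, hiso⟩ := GraphCode.graph_code
  haveI := countable_nm
  haveI := countable_rs
  haveI : Nonempty Rs := ⟨Rs.eq⟩
  obtain ⟨rs, hrs⟩ := exists_surjective_nat Rs
  haveI : Infinite Om := inferInstance
  haveI : Countable Om := inferInstance
  obtain ⟨om⟩ : Nonempty (ℕ ≃ Om) := by
    haveI : Denumerable Om := (nonempty_denumerable Om).some
    exact ⟨(Denumerable.eqv Om).symm⟩
  let bits : (ℕ → ℕ → ℝ) → ℕ → ℕ → ℕ → Bool := fun η m a b =>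
    decide (Rel (fun t => η ∈ B t) (rs m) (om a) (om b))
  have hbits : Measurable bits := by
    refine measurable_pi_lambda _ fun m => measurable_pi_lambda _ fun a =>
      measurable_pi_lambda _ fun b => ?_
    have hms : ∀ r ω ω', MeasurableSet {η : ℕ → ℕ → ℝ | Rel (fun t => η ∈ B t) r ω ω'} := by
      intro r ω ω'
      cases r with
      | sort i =>
        simp only [Rel, setOf_exists, setOf_and]
        exact MeasurableSet.iUnion fun ν => (MeasurableSet.const _).inter
          ((MeasurableSet.const _).inter (hB _))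
      | eq =>
        simp only [Rel, setOf_exists, setOf_and]
        exact MeasurableSet.iUnion fun ν => MeasurableSet.iUnion fun ν' =>
          (MeasurableSet.const _).inter ((MeasurableSet.const _).inter
            ((hB _).inter ((hB _).inter (hB _))))
      | act i j k =>
        simp only [Rel, setOf_exists, setOf_and]
        exact MeasurableSet.iUnion fun ν => MeasurableSet.iUnion fun ν' =>
          (MeasurableSet.const _).inter ((MeasurableSet.const _).inter
            ((MeasurableSet.const _).inter ((MeasurableSet.const _).inter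
            ((hB _).inter ((hB _).inter (hB _))))))
    refine measurable_to_bool ?_
    have : (fun η : ℕ → ℕ → ℝ => bits η m a b) ⁻¹' {true} =
        {η | Rel (fun t => η ∈ B t) (rs m) (om a) (om b)} := by
      ext η
      simp [bits]
    rw [this]
    exact hms _ _ _
  refine ⟨fun η => G (bits η), hG.comp hbits, fun η i j => hsym _ i j, fun η i => hirr _ i, ?_⟩
  intro X Y _ _ _ _ η η' e e' hX hY he he' hd hd' hη hη'
  have hT : ∀ (Z : Type) [MetricSpace Z] [CompleteSpace Z] (ζ : ℕ → ℕ → ℝ) (z : ℕ → Z),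
      LocEuc n Z → Function.Injective z → DenseRange z → (∀ i j, dist (z i) (z j) = ζ i j) →
      (fun t => ζ ∈ B t) = PsiX S z := by
    intro Z _ _ ζ z hZ hz hzd hζ
    funext t
    exact propext (hBX Z z ζ hZ hz hzd hζ t)
  have key : (∃ σ : Equiv.Perm Om, ∀ r ω ω',
      Rel (PsiX S e) r (σ ω) (σ ω') ↔ Rel (PsiX S e') r ω ω') ↔
      ∃ σ : Equiv.Perm ℕ, ∀ m a b, bits η m (σ a) (σ b) = bits η' m a b := by
    have hb : ∀ m a b, bits η m a b = decide (Rel (PsiX S e) (rs m) (om a) (om b)) := by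
      intro m a b
      simp only [bits]
      rw [hT X η e hX he hd hη]
    have hb' : ∀ m a b, bits η' m a b = decide (Rel (PsiX S e') (rs m) (om a) (om b)) := by
      intro m a b
      simp only [bits]
      rw [hT Y η' e' hY he' hd' hη']
    constructor
    · rintro ⟨σ, hσ⟩
      refine ⟨(om.trans σ).trans om.symm, fun m a b => ?_⟩
      rw [hb, hb']
      simp only [Equiv.trans_apply, Equiv.apply_symm_apply]
      exact decide_eq_decide.2 (hσ _ _ _)
    · rintro ⟨σ, hσ⟩
      refine ⟨(om.symm.trans σ).trans om, fun r ω ω' => ?_⟩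
      obtain ⟨m, rfl⟩ := hrs r
      have := hσ m (om.symm ω) (om.symm ω')
      rw [hb, hb'] at this
      simpa using decide_eq_decide.1 this
  rw [← hiso (bits η) (bits η'), ← key]
  exact ⟨fun ⟨h⟩ => iso_of_homeo S X Y e e' hd hd' h,
    fun h => homeo_of_iso S X Y e e' hd hd' hX hY h⟩

/-- the frozen statement for 3-manifolds -/
theorem frozen_form :
    ∃ f : (ℕ → ℕ → ℝ) → (ℕ → ℕ → Bool), Measurable f ∧
      ∀ (X Y : Type) [MetricSpace X] [CompleteSpace X] [MetricSpace Y] [CompleteSpace Y]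
        [ChartedSpace (EuclideanSpace ℝ (Fin 3)) X] [ChartedSpace (EuclideanSpace ℝ (Fin 3)) Y]
        (η η' : ℕ → ℕ → ℝ) (e : ℕ → X) (e' : ℕ → Y),
        Function.Injective e → Function.Injective e' →
        DenseRange e → DenseRange e' →
        (∀ i j, dist (e i) (e j) = η i j) →
        (∀ i j, dist (e' i) (e' j) = η' i j) →
        ((∀ i j, f η i j = f η j i) ∧ (∀ i, f η i i = false) ∧
          (Nonempty (X ≃ₜ Y) ↔
            ∃ σ : Equiv.Perm ℕ, ∀ i j, f η (σ i) (σ j) = f η' i j)) := by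
  obtain ⟨F, hF, h1, h2, h3⟩ := main_borel 3
  refine ⟨F, hF, ?_⟩
  intro X Y _ _ _ _ _ _ η η' e e' he he' hd hd' hη hη'
  exact ⟨h1 η, h2 η, h3 X Y η η' e e' (locEuc_of_charted 3 X) (locEuc_of_charted 3 Y) he he' hd hd'
    hη hη'⟩

end Pool.Agent.H75.Mfd
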