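import Pool.Agent.H75.Mfd.ValidDefs

/-!
Module NAM. Names of classes of embeddings.
nu = (i, p, be, q): be = list of numbers of points of the dense sequence e.
InN: the list is long enough (the balls of radius 1/(p+1) around x i j, j < length, cover L i)
and for some k, all j < length, all z in D cap L i with dist z (x i j) < 1/(p+1):
dist (f z) (e be_j) <= 1/(q+1) - 1/(k+1).
-/

set_option autoImplicit false

namespace Pool.Agent.H75.Mfd

open Set Topology Metric Filter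

variable {n : ℕ} {M : Type} [MetricSpace M]

/-- a name -/
structure Nm where
  i : ℕ
  p : ℕ
  be : List ℕ
  q : ℕ

theorem countable_nm : Countable Nm := by
  refine Function.Injective.countable (f := fun ν : Nm => (ν.i, ν.p, ν.be, ν.q)) ?_
  rintro ⟨a, b, c, d⟩ ⟨a', b', c', d'⟩ h
  simp only [Prod.mk.injEq] at h
  obtain ⟨rfl, rfl, rfl, rfl⟩ := h
  rfl

/-- the covering condition of a name -/
def Cov (S : Sys n M) (ν : Nm) : Prop :=
  ∀ x ∈ S.L ν.i, ∃ j < ν.be.length, dist x (S.x ν.i j) < 1 / ((ν.p : ℝ) + 1)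

/-- the approximation condition of a name for a distance function `w z b` -/
def Apx (S : Sys n M) (ν : Nm) (w : S.D → ℕ → ℝ) : Prop :=
  ∃ k : ℕ, ∀ j < ν.be.length, ∀ z : S.D, (z : M) ∈ S.L ν.i →
    dist (z : M) (S.x ν.i j) < 1 / ((ν.p : ℝ) + 1) →
    w z (ν.be.getD j 0) ≤ 1 / ((ν.q : ℝ) + 1) - 1 / ((k : ℝ) + 1)

/-- `f` belongs to the set named by `ν`. -/
def InN (S : Sys n M) {X : Type*} [MetricSpace X] (e : ℕ → X) (ν : Nm) (f : M → X) : Prop :=
  Emb S ν.i f ∧ Cov S ν ∧ Apx S ν (fun z b => dist (f z) (e b))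

/-- the atomic statements about names -/
inductive Pr : Type
  | sort (ν : Nm)
  | eq (ν ν' : Nm)
  | act (k : ℕ) (ν ν' : Nm)

theorem countable_pr : Countable Pr := by
  haveI := countable_nm
  refine Function.Injective.countable (f := fun a : Pr => (match a with
    | .sort ν => (0, 0, ν, ν)
    | .eq ν ν' => (1, 0, ν, ν')
    | .act k ν ν' => (2, k, ν, ν') : ℕ × ℕ × Nm × Nm)) ?_
  intro a b h
  cases a <;> cases b <;> simp_all

/-- truth in a space -/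
def PsiX (S : Sys n M) {X : Type*} [MetricSpace X] (e : ℕ → X) : Pr → Prop
  | .sort ν => (∃ f, InN S e ν f) ∧ ∀ f g, InN S e ν f → InN S e ν g → Eqv S ν.i f g
  | .eq ν ν' => ν.i = ν'.i ∧ ∃ f g, InN S e ν f ∧ InN S e ν' g ∧ Eqv S ν.i f g
  | .act k ν ν' => S.good ν'.i ν.i k ∧ ∃ f g, InN S e ν f ∧ InN S e ν' g ∧
      Eqv S ν'.i (f ∘ S.u ν'.i ν.i k) g

/-- the map `f m ∘ u i i_m k` belongs to the named set, expressed by the witness -/
def Hit (S : Sys n M) (c : ℕ → ℕ × ℕ) (w : ℕ → S.D → ℕ → ℝ) (ν : Nm) (m k : ℕ) : Prop :=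
  S.good ν.i (c m).1 k ∧ Cov S ν ∧ Apx S ν (fun z b => w m (S.uD ν.i (c m).1 k z) b)

/-- truth according to a witness -/
def PsiW (S : Sys n M) (c : ℕ → ℕ × ℕ) (w : ℕ → S.D → ℕ → ℝ) : Pr → Prop
  | .sort ν => (∃ m k, Hit S c w ν m k) ∧ ∀ m k m' k', Hit S c w ν m k → Hit S c w ν m' k' →
      RR S c ν.i m (S.u ν.i (c m).1 k) m' (S.u ν.i (c m').1 k')
  | .eq ν ν' => ν.i = ν'.i ∧ ∃ m k m' k', Hit S c w ν m k ∧ Hit S c w ν' m' k' ∧
      RR S c ν.i m (S.u ν.i (c m).1 k) m' (S.u ν'.i (c m').1 k')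
  | .act k ν ν' => S.good ν'.i ν.i k ∧ ∃ m k₁ m' k₂, Hit S c w ν m k₁ ∧ Hit S c w ν' m' k₂ ∧
      RR S c ν'.i m (S.u ν.i (c m).1 k₁ ∘ S.u ν'.i ν.i k) m' (S.u ν'.i (c m').1 k₂)

end Pool.Agent.H75.Mfd
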