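import Pool.Agent.H75.Mfd.Basic

set_option autoImplicit false

namespace Pool.Agent.H75.Mfd

open Set Topology Metric Filter

/-- `π` is a finite family of closed balls of radius 2 in `X`, the points at distance less than
`lam` from the image of the ball of radius 3/2 belong to the image of the ball of radius 2. -/
structure Pres (n k : ℕ) (lam : ℝ) (X : Type*) [MetricSpace X]
    (π : Fin k → (Fin n → ℝ) → X) : Prop where
  cont : ∀ l, ContinuousOn (π l) (closedBall 0 2)
  inj : ∀ l, InjOn (π l) (closedBall 0 2)
  opn : ∀ l, OE (π l) (ball 0 2)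
  leb : ∀ l z, z ∈ closedBall (0 : Fin n → ℝ) (3 / 2) → ball (π l z) lam ⊆ π l '' ball 0 2

end Pool.Agent.H75.Mfd
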