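import Mathlib

set_option autoImplicit false

namespace Pool.Agent.H75.Mfd

open Set Topology Metric Filter

/-- a copy of `ℕ` without topology -/
private structure NCopy where
  n : ℕ

theorem exists_realization (η : ℕ → ℕ → ℝ) (m0 : ∀ a, η a a = 0) (m1 : ∀ a b, a ≠ b → 0 < η a b)
    (m2 : ∀ a b, η a b = η b a) (m3 : ∀ a b d, η a d ≤ η a b + η b d) :
    ∃ (X : Type) (_ : MetricSpace X) (_ : CompleteSpace X) (e : ℕ → X), DenseRange e ∧
      ∀ i j, dist (e i) (e j) = η i j := by
  let _ : MetricSpace NCopy :=
    { dist := fun a b => η a.n b.n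
      dist_self := fun a => m0 a.n
      dist_comm := fun a b => m2 a.n b.n
      dist_triangle := fun a b c => m3 a.n b.n c.n
      eq_of_dist_eq_zero := by
        intro a b h
        by_contra hne
        have : a.n ≠ b.n := fun h' => hne (by cases a; cases b; simp_all)
        exact absurd h (ne_of_gt (m1 _ _ this)) }
  refine ⟨UniformSpace.Completion NCopy, inferInstance, inferInstance,
    fun i => ((⟨i⟩ : NCopy) : UniformSpace.Completion NCopy), ?_, ?_⟩
  · have h1 : DenseRange ((↑) : NCopy → UniformSpace.Completion NCopy) :=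
      UniformSpace.Completion.denseRange_coe
    have h2 : Function.Surjective (fun i : ℕ => (⟨i⟩ : NCopy)) := fun ⟨i⟩ => ⟨i, rfl⟩
    have h3 := h2.range_comp ((↑) : NCopy → UniformSpace.Completion NCopy)
    unfold DenseRange at *
    show Dense (range (((↑) : NCopy → UniformSpace.Completion NCopy) ∘ fun i : ℕ => (⟨i⟩ : NCopy)))
    rw [h3]
    exact h1
  · intro i j
    rw [UniformSpace.Completion.dist_eq]
    rfl

end Pool.Agent.H75.Mfd
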