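import Pool.Agent.H75.Mfd.TrAll
import Pool.Agent.H75.Mfd.CompactNhd

/-!
Module STAB. Stability of embeddings of compact pieces.
V = interior L. Let k be the inverse of f on f(U) (OE.exists_inv). If g is close to f on L then
g(L) is inside f(U) and u = k o g is OE on V, close to the identity of M on V (uniform continuity of
k near the compact f(L)); tr_all with U := V, A = empty gives h1, moving only points of a compact
subset of V, h1 = u on K; transport h1 through f.
-/

set_option autoImplicit false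

namespace Pool.Agent.H75.Mfd

open Set Topology Metric Filter

theorem stability {M : Type*} [MetricSpace M] (n : ℕ) (hM : LocEuc n M) {X : Type*}
    [MetricSpace X] (K L : Set M) (hK : IsCompact K) (hL : IsCompact L) (hKL : K ⊆ interior L)
    (f : M → X) (U : Set M) (hf : OE f U) (hLU : L ⊆ U) :
    ∃ δ > 0, ∀ (g : M → X) (U' : Set M), OE g U' → L ⊆ U' → (∀ x ∈ L, dist (f x) (g x) < δ) →
      ∃ h : X ≃ₜ X, SuppIn h (f '' L) ∧ ∀ x ∈ K, h (f x) = g x := by
  classical
  rcases isEmpty_or_nonempty M with hE | hne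
  · exact ⟨1, one_pos, fun g U' _ _ _ =>
      ⟨Homeomorph.refl X, fun _ _ => rfl, fun x => (IsEmpty.false x).elim⟩⟩
  obtain ⟨k, hk, hkl, hkr, -⟩ := hf.exists_inv
  obtain ⟨V', W', Q, hV'o, hKV', hV'V, -, -, -, hQ, hQV, hTR⟩ :=
    tr_all n hM K hK (interior L) isOpen_interior hKL ∅ ∅ isCompact_empty isOpen_empty
      Subset.rfl
  obtain ⟨δ0, hδ0, hTR'⟩ := hTR 1 one_pos
  have hVL : interior L ⊆ L := interior_subset
  have hfL : IsCompact (f '' L) := hL.image_of_continuousOn (hf.cont.mono hLU)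
  obtain ⟨δ1, hδ1, hth⟩ := hfL.exists_thickening_subset_open hf.image_isOpen (image_mono hLU)
  have huc := hfL.uniformContinuousAt_of_continuousAt k
    (fun y hy => hk.cont.continuousAt (hk.isOpen.mem_nhds (image_mono hLU hy)))
    (dist_mem_uniformity hδ0)
  obtain ⟨δ2, hδ2, huc'⟩ := Metric.mem_uniformity_dist.1 huc
  refine ⟨min δ1 δ2, lt_min hδ1 hδ2, fun g U' hg hLU' hfg => ?_⟩
  have hgL : ∀ x ∈ L, g x ∈ f '' U := by
    intro x hx
    apply hth
    rw [mem_thickening_iff]
    refine ⟨f x, ⟨x, hx, rfl⟩, ?_⟩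
    rw [dist_comm]
    exact lt_of_lt_of_le (hfg x hx) (min_le_left _ _)
  have hu : OE (k ∘ g) (interior L) :=
    OE.comp hk (hg.mono isOpen_interior (hVL.trans hLU')) (fun x hx => hgL x (hVL hx))
  have hud : ∀ x ∈ interior L, dist ((k ∘ g) x) x < δ0 := by
    intro x hx
    have hxL := hVL hx
    have h1 := huc' (lt_of_lt_of_le (hfg x hxL) (min_le_right _ _))
    have h2 : dist (k (f x)) (k (g x)) < δ0 := h1 ⟨x, hxL, rfl⟩
    rw [hkl x (hLU hxL), dist_comm] at h2
    exact h2
  obtain ⟨h1, h1Q, -, h1u, -⟩ := hTR' (k ∘ g) hu hud (fun x hx => absurd hx.2 (notMem_empty x))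
  obtain ⟨h, hhS, hhf⟩ := transport hf h1 hQ ((hQV.trans hVL).trans hLU) h1Q
  refine ⟨h, hhS.mono (image_mono (hQV.trans hVL)), fun x hx => ?_⟩
  have hxL : x ∈ L := hVL (hKL hx)
  rw [hhf x (hLU hxL), h1u x (hKV' hx)]
  exact (hkr _ (hgL x hxL)).2

end Pool.Agent.H75.Mfd
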