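import Pool.Agent.H75.Mfd.NamesDefs

set_option autoImplicit false

namespace Pool.Agent.H75.Mfd

open Set Topology Metric Filter

/-- relation symbols -/
inductive Rs : Type
  | sort (i : ℕ)
  | eq
  | act (i j k : ℕ)

theorem countable_rs : Countable Rs := by
  refine Function.Injective.countable (f := fun a : Rs => (match a with
    | .sort i => (0, i, 0, 0)
    | .eq => (1, 0, 0, 0)
    | .act i j k => (2, i, j, k) : ℕ × ℕ × ℕ × ℕ)) ?_
  intro a b h
  cases a <;> cases b <;> simp_all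

/-- universe of the structures -/
abbrev Om : Type := Option Nm × ℕ

/-- the structure determined by the truth values of the atomic statements -/
def Rel (T : Pr → Prop) : Rs → Om → Om → Prop
  | .sort i, ω, _ => ∃ ν, ω.1 = some ν ∧ ν.i = i ∧ T (.sort ν)
  | .eq, ω, ω' => ∃ ν ν', ω.1 = some ν ∧ ω'.1 = some ν' ∧ T (.sort ν) ∧ T (.sort ν') ∧
      T (.eq ν ν')
  | .act i j k, ω, ω' => ∃ ν ν', ω.1 = some ν ∧ ω'.1 = some ν' ∧ ν.i = j ∧ ν'.i = i ∧
      T (.sort ν) ∧ T (.sort ν') ∧ T (.act k ν ν')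

end Pool.Agent.H75.Mfd
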