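import Pool.Agent.H75.Mfd.SwindleHalf

/-!
Module SWH (swindle, half and full).
Half: H(y,t) = b^k (g (y, t - k/2)) for t in [1 + k/2, 1 + (k+1)/2], k >= 0. Continuity: the formula
with k and with k+1 agree for t - (k+1)/2 slightly below 1 because b g(y,s) = g(y,s+1/2) for
s + d <= 2. Bijection onto Wup g 1: b maps Wup g 1 onto Wup g (3/2), the difference is
g(E x [1,3/2)), and every application of b raises the level by at least 1/2 - 2 d >= 2/5.
Distance: at most 6 applications of b happen below level 3 + d, later ones are exact translations.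
Full: H = half on t >= 1, g on |t| <= 1, reflected half (for the reflected g) on t <= -1. It is a
continuous bijection at bounded distance from id in a proper space, hence a homeomorphism.
-/

set_option autoImplicit false

namespace Pool.Agent.H75.Mfd

open Set Topology Metric Filter

namespace SwF

variable {E : Type*} [MetricSpace E]

/-- the reflection -/
def rho (p : E × ℝ) : E × ℝ := (p.1, -p.2)

omit [MetricSpace E] in
theorem rho_rho (p : E × ℝ) : rho (rho p) = p := by simp [rho]

theorem continuous_rho : Continuous (rho : E × ℝ → E × ℝ) := by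
  unfold rho; fun_prop

theorem dist_rho (p q : E × ℝ) : dist (rho p) (rho q) = dist p q := by
  rw [Prod.dist_eq, Prod.dist_eq]
  congr 1
  show dist (-p.2) (-q.2) = dist p.2 q.2
  rw [dist_neg_neg]

theorem oe_rho {g : E × ℝ → E × ℝ} (hg : OE g {p | |p.2| < 5}) :
    OE (fun p => rho (g (rho p))) {p : E × ℝ | |p.2| < 5} := by
  let ρ : (E × ℝ) ≃ₜ (E × ℝ) :=
    ⟨⟨rho, rho, rho_rho, rho_rho⟩, continuous_rho, continuous_rho⟩
  have h1 : OE ρ (univ : Set (E × ℝ)) := OE.of_homeo ρ isOpen_univ
  have hU : IsOpen {p : E × ℝ | |p.2| < 5} := hg.isOpen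
  have h2 : OE ρ {p : E × ℝ | |p.2| < 5} := OE.of_homeo ρ hU
  have h3 : OE (g ∘ ρ) {p : E × ℝ | |p.2| < 5} := OE.comp hg h2 fun p hp => by
    show |(-p.2)| < 5
    rw [abs_neg]
    exact hp
  exact OE.comp h1 h3 fun p _ => mem_univ _

/-- A continuous bijection at bounded distance from the identity of a proper space is a
homeomorphism. -/
theorem exists_homeo {Z : Type*} [MetricSpace Z] [ProperSpace Z] {H : Z → Z} (hc : Continuous H)
    (hb : Function.Bijective H) {R : ℝ} (hR : ∀ p, dist (H p) p ≤ R) :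
    ∃ h : Z ≃ₜ Z, ∀ p, h p = H p := by
  have hp : IsProperMap H := by
    rw [isProperMap_iff_isCompact_preimage]
    refine ⟨hc, fun K hK => ?_⟩
    rcases isEmpty_or_nonempty Z with hZ | ⟨⟨z₀⟩⟩
    · rw [eq_empty_of_isEmpty (H ⁻¹' K)]
      exact isCompact_empty
    obtain ⟨r, hr⟩ := hK.isBounded.subset_closedBall z₀
    refine Metric.isCompact_of_isClosed_isBounded (hK.isClosed.preimage hc) ?_
    refine Metric.isBounded_closedBall.subset (s := H ⁻¹' K) (t := closedBall z₀ (r + R)) ?_
    intro p hp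
    have h1 : dist (H p) z₀ ≤ r := hr hp
    have h2 := hR p
    have h3 := dist_triangle_left p z₀ (H p)
    show dist p z₀ ≤ r + R
    linarith
  let e : Z ≃ Z := Equiv.ofBijective H hb
  exact ⟨e.toHomeomorphOfContinuousClosed hc hp.isClosedMap, fun p => rfl⟩

end SwF

open SwF SwH in
theorem swindle {E : Type*} [MetricSpace E] [ProperSpace E] [ConnectedSpace E]
    (g : E × ℝ → E × ℝ) (d : ℝ) (hd : d ≤ 1 / 20)
    (hg : OE g {p | |p.2| < 5}) (hc : ∀ p : E × ℝ, |p.2| < 5 → dist (g p) p ≤ d) :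
    ∃ H : (E × ℝ) ≃ₜ (E × ℝ), (∀ p : E × ℝ, |p.2| ≤ 1 → H p = g p) ∧
      (∀ p, dist (H p) p ≤ 20 * d) ∧
      (∀ y : E, (∀ t : ℝ, |t| < 5 → g (y, t) = (y, t)) → ∀ t : ℝ, H (y, t) = (y, t)) := by
  classical
  have hd0 : 0 ≤ d := by
    obtain ⟨y⟩ := (inferInstance : Nonempty E)
    have := hc (y, 0) (by simp)
    exact dist_nonneg.trans this
  have hglev : ∀ p : E × ℝ, |p.2| < 5 → p.2 - d ≤ (g p).2 ∧ (g p).2 ≤ p.2 + d := by
    intro p hp
    have h1 := abs_le.mp ((dist_level (g p) p).trans (hc p hp))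
    exact ⟨by linarith [h1.1], by linarith [h1.2]⟩
  obtain ⟨U, hUc, hUi, hUW, hU1, hUd, hUcol⟩ := swindle_half g d hd hg hc
  let g' : E × ℝ → E × ℝ := fun p => rho (g (rho p))
  have hg' : OE g' {p | |p.2| < 5} := oe_rho hg
  have hc' : ∀ p : E × ℝ, |p.2| < 5 → dist (g' p) p ≤ d := by
    intro p hp
    show dist (rho (g (rho p))) p ≤ d
    rw [← dist_rho, rho_rho]
    exact hc _ (by show |(-p.2)| < 5; rw [abs_neg]; exact hp)
  obtain ⟨V, hVc, hVi, hVW, hV1, hVd, hVcol⟩ := swindle_half g' d hd hg' hc'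
  let D : E × ℝ → E × ℝ := fun p => rho (V (rho p))
  let H : E × ℝ → E × ℝ := fun p => if 1 ≤ p.2 then U p else if p.2 ≤ -1 then D p else g p
  -- the three formulas
  have hHU : ∀ p : E × ℝ, 1 ≤ p.2 → H p = U p := fun p hp => if_pos hp
  have hHD : ∀ p : E × ℝ, p.2 ≤ -1 → H p = D p := by
    intro p hp
    show (if 1 ≤ p.2 then U p else if p.2 ≤ -1 then D p else g p) = D p
    rw [if_neg (by linarith), if_pos hp]
  have hHg : ∀ p : E × ℝ, |p.2| ≤ 1 → H p = g p := by
    intro p hp
    obtain ⟨h1, h2⟩ := abs_le.mp hp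
    rcases eq_or_lt_of_le h2 with h3 | h3
    · rw [hHU p h3.ge, hU1 p h3]
    rcases eq_or_lt_of_le h1 with h4 | h4
    · rw [hHD p h4.ge]
      show rho (V (rho p)) = g p
      rw [hV1 (rho p) (by show -p.2 = 1; linarith)]
      show rho (rho (g (rho (rho p)))) = g p
      rw [rho_rho, rho_rho]
    · show (if 1 ≤ p.2 then U p else if p.2 ≤ -1 then D p else g p) = g p
      rw [if_neg (by linarith), if_neg (by linarith)]
  -- images of the three parts
  have hUim : ∀ p : E × ℝ, 1 ≤ p.2 → U p ∈ Wup g 1 := fun p hp =>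
    hUW ▸ mem_image_of_mem U (show p ∈ {p : E × ℝ | 1 ≤ p.2} from hp)
  have hDim : ∀ p : E × ℝ, p.2 ≤ -1 → rho (D p) ∈ Wup g' 1 := by
    intro p hp
    show rho (rho (V (rho p))) ∈ Wup g' 1
    rw [rho_rho]
    exact hVW ▸ mem_image_of_mem V (show rho p ∈ {p : E × ℝ | 1 ≤ p.2} by
      show 1 ≤ -p.2
      linarith)
  -- disjointness
  have hdisj1 : ∀ q ∈ Wup g 1, ∀ p : E × ℝ, |p.2| < 1 → g p ≠ q := by
    rintro q (⟨r, ⟨hr1, hr2⟩, rfl⟩ | hq) p hp h
    · have h1 : p = r := hg.inj (show |p.2| < 5 by linarith)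
        (show |r.2| < 5 by rw [abs_lt]; constructor <;> linarith) h
      rw [h1] at hp
      have := (abs_lt.mp hp).2
      linarith
    · have h1 : 9 / 2 ≤ q.2 := hq
      have h2 := (hglev p (by linarith)).2
      rw [h] at h2
      have := (abs_lt.mp hp).2
      linarith
  have hdisj2 : ∀ q : E × ℝ, rho q ∈ Wup g' 1 → ∀ p : E × ℝ, |p.2| < 1 → g p ≠ q := by
    intro q hq p hp h
    rcases hq with ⟨r, ⟨hr1, hr2⟩, hr⟩ | hq
    · have h0 : rho (g (rho r)) = rho q := hr
      have h1 : g (rho r) = q := by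
        rw [← rho_rho (g (rho r)), h0, rho_rho]
      have h2 : p = rho r := hg.inj (show |p.2| < 5 by linarith)
        (show |(-r.2)| < 5 by rw [abs_neg, abs_lt]; constructor <;> linarith) (h.trans h1.symm)
      rw [h2] at hp
      have := (abs_lt.mp hp).1
      simp only [rho] at this
      linarith
    · have h1 : 9 / 2 ≤ -q.2 := hq
      have h2 := (hglev p (by linarith)).1
      rw [h] at h2
      have := (abs_lt.mp hp).1
      linarith
  have hdisj3 : ∀ q : E × ℝ, q ∈ Wup g 1 → rho q ∈ Wup g' 1 → False := by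
    rintro q (⟨r, ⟨hr1, hr2⟩, rfl⟩ | hq) hq'
    · rcases hq' with ⟨t, ⟨ht1, ht2⟩, ht⟩ | hq'
      · have h0 : rho (g (rho t)) = rho (g r) := ht
        have h1 : g (rho t) = g r := by
          rw [← rho_rho (g (rho t)), h0, rho_rho]
        have h2 : rho t = r := hg.inj
          (show |(-t.2)| < 5 by rw [abs_neg, abs_lt]; constructor <;> linarith)
          (show |r.2| < 5 by rw [abs_lt]; constructor <;> linarith) h1
        rw [← h2] at hr1
        simp only [rho] at hr1
        linarith
      · have h1 : 9 / 2 ≤ -(g r).2 := hq'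
        have h2 := (hglev r (by rw [abs_lt]; constructor <;> linarith)).1
        linarith
    · have h0 : 9 / 2 ≤ q.2 := hq
      rcases hq' with ⟨t, ⟨ht1, ht2⟩, ht⟩ | hq'
      · have h1 : (g' t).2 = -q.2 := by rw [ht]; rfl
        have h2 : (g' t).2 = -(g (rho t)).2 := rfl
        have h3 := (hglev (rho t)
          (show |(-t.2)| < 5 by rw [abs_neg, abs_lt]; constructor <;> linarith)).2
        simp only [rho] at h3
        rw [h2] at h1
        simp only [rho] at h1
        linarith
      · have h1 : 9 / 2 ≤ -q.2 := hq'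
        linarith
  have hDinj : ∀ p q : E × ℝ, p.2 ≤ -1 → q.2 ≤ -1 → D p = D q → p = q := by
    intro p q hp hq h
    have h1 : V (rho p) = V (rho q) := by
      have h0 : rho (V (rho p)) = rho (V (rho q)) := h
      rw [← rho_rho (V (rho p)), h0, rho_rho]
    have h2 : rho p = rho q := hVi (show 1 ≤ -p.2 by linarith) (show 1 ≤ -q.2 by linarith) h1
    rw [← rho_rho p, h2, rho_rho]
  have hinj : Function.Injective H := by
    -- it suffices to treat ordered cases
    have key : ∀ p q : E × ℝ, p.2 ≤ q.2 → H p = H q → p = q := by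
      intro p q hpq h
      rcases le_or_gt 1 q.2 with hq | hq
      · rcases le_or_gt 1 p.2 with hp | hp
        · rw [hHU p hp, hHU q hq] at h
          exact hUi hp hq h
        · rcases le_or_gt p.2 (-1) with hp' | hp'
          · exfalso
            rw [hHD p hp', hHU q hq] at h
            refine hdisj3 (U q) (hUim q hq) ?_
            rw [← h]
            exact hDim p hp'
          · exfalso
            have hp2 : |p.2| < 1 := abs_lt.mpr ⟨hp', hp⟩
            rw [hHg p hp2.le, hHU q hq] at h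
            exact hdisj1 (U q) (hUim q hq) p hp2 h
      · rcases le_or_gt q.2 (-1) with hq' | hq'
        · rw [hHD p (hpq.trans hq'), hHD q hq'] at h
          exact hDinj p q (hpq.trans hq') hq' h
        · have hq2 : |q.2| < 1 := abs_lt.mpr ⟨hq', hq⟩
          rcases le_or_gt p.2 (-1) with hp' | hp'
          · exfalso
            rw [hHD p hp', hHg q hq2.le] at h
            exact hdisj2 (D p) (hDim p hp') q hq2 h.symm
          · have hp2 : |p.2| < 1 := abs_lt.mpr ⟨hp', by linarith⟩
            rw [hHg p hp2.le, hHg q hq2.le] at h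
            exact hg.inj (show |p.2| < 5 by linarith) (show |q.2| < 5 by linarith) h
    intro p q h
    rcases le_total p.2 q.2 with hpq | hpq
    · exact key p q hpq h
    · exact (key q p hpq h.symm).symm
  have hsurjU : ∀ p ∈ Wup g 1, ∃ q, H q = p := by
    intro p hp
    rw [← hUW] at hp
    obtain ⟨q, hq, rfl⟩ := hp
    exact ⟨q, hHU q hq⟩
  have hsurjD : ∀ p : E × ℝ, rho p ∈ Wup g' 1 → ∃ q, H q = p := by
    intro p hp
    rw [← hVW] at hp
    obtain ⟨q, hq, hqp⟩ := hp
    have hq1 : 1 ≤ q.2 := hq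
    refine ⟨rho q, ?_⟩
    rw [hHD (rho q) (show -q.2 ≤ -1 by linarith)]
    show rho (V (rho (rho q))) = p
    rw [rho_rho, hqp, rho_rho]
  have hsurj : Function.Surjective H := by
    intro p
    rcases le_or_gt (9 / 2) p.2 with hp | hp
    · exact hsurjU p (Or.inr hp)
    rcases le_or_gt p.2 (-(9 / 2)) with hp' | hp'
    · exact hsurjD p (Or.inr (show 9 / 2 ≤ -p.2 by linarith))
    obtain ⟨q, hq, rfl⟩ := slab_surj g d hd hg hc p (abs_le.mpr ⟨hp'.le, hp.le⟩)
    obtain ⟨h1, h2⟩ := abs_lt.mp hq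
    rcases le_or_gt 1 q.2 with hq1 | hq1
    · exact hsurjU _ (Or.inl ⟨q, ⟨hq1, h2⟩, rfl⟩)
    rcases le_or_gt q.2 (-1) with hq2 | hq2
    · refine hsurjD _ (Or.inl ⟨rho q, ⟨?_, ?_⟩, ?_⟩)
      · show 1 ≤ -q.2
        linarith
      · show -q.2 < 5
        linarith
      · show rho (g (rho (rho q))) = rho (g q)
        rw [rho_rho]
    · exact ⟨q, hHg q (abs_le.mpr ⟨hq2.le, hq1.le⟩)⟩
  have hcont : Continuous H := by
    have hcl1 : IsClosed {p : E × ℝ | 1 ≤ p.2} := isClosed_le continuous_const continuous_snd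
    have hcl2 : IsClosed {p : E × ℝ | |p.2| ≤ 1} :=
      isClosed_le (continuous_abs.comp continuous_snd) continuous_const
    have hcl3 : IsClosed {p : E × ℝ | p.2 ≤ -1} := isClosed_le continuous_snd continuous_const
    have c1 : ContinuousOn H {p : E × ℝ | 1 ≤ p.2} := hUc.congr fun p hp => hHU p hp
    have c2 : ContinuousOn H {p : E × ℝ | |p.2| ≤ 1} :=
      (hg.cont.mono fun p (hp : |p.2| ≤ 1) => show |p.2| < 5 by linarith).congr
        fun p hp => hHg p hp
    have c3 : ContinuousOn H {p : E × ℝ | p.2 ≤ -1} := by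
      have : ContinuousOn D {p : E × ℝ | p.2 ≤ -1} := by
        refine continuous_rho.comp_continuousOn (hVc.comp continuous_rho.continuousOn ?_)
        intro p hp
        have hp' : p.2 ≤ -1 := hp
        show 1 ≤ -p.2
        linarith
      exact this.congr fun p hp => hHD p hp
    have hall : ContinuousOn H (({p : E × ℝ | 1 ≤ p.2} ∪ {p | |p.2| ≤ 1}) ∪ {p | p.2 ≤ -1}) :=
      (c1.union_of_isClosed c2 hcl1 hcl2).union_of_isClosed c3 (hcl1.union hcl2) hcl3
    rw [← continuousOn_univ]
    refine hall.mono fun p _ => ?_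
    rcases le_or_gt 1 p.2 with h | h
    · exact Or.inl (Or.inl h)
    · rcases le_or_gt p.2 (-1) with h' | h'
      · exact Or.inr h'
      · exact Or.inl (Or.inr (abs_le.mpr ⟨h'.le, h.le⟩))
  have hdist : ∀ p, dist (H p) p ≤ 20 * d := by
    intro p
    rcases le_or_gt 1 p.2 with h | h
    · rw [hHU p h]
      exact hUd p h
    · rcases le_or_gt p.2 (-1) with h' | h'
      · rw [hHD p h', ← dist_rho]
        show dist (rho (rho (V (rho p)))) (rho p) ≤ 20 * d
        rw [rho_rho]
        exact hVd (rho p) (show 1 ≤ -p.2 by linarith)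
      · have h2 : |p.2| < 1 := abs_lt.mpr ⟨h', h⟩
        rw [hHg p h2.le]
        have := hc p (by linarith)
        linarith
  obtain ⟨h, hh⟩ := exists_homeo hcont ⟨hinj, hsurj⟩ hdist
  refine ⟨h, fun p hp => (hh p).trans (hHg p hp), fun p => by rw [hh p]; exact hdist p, ?_⟩
  intro y hy t
  rw [hh]
  rcases le_or_gt 1 t with h1 | h1
  · rw [hHU (y, t) h1]
    exact hUcol y hy t h1
  · rcases le_or_gt t (-1) with h2 | h2
    · rw [hHD (y, t) h2]
      show rho (V (y, -t)) = (y, t)
      rw [hVcol y ?_ (-t) (by linarith)]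
      · simp [rho]
      · intro r hr
        show rho (g (y, -r)) = (y, r)
        rw [hy (-r) (by rw [abs_neg]; exact hr)]
        simp [rho]
    · rw [hHg (y, t) (abs_le.mpr ⟨h2.le, h1.le⟩)]
      exact hy t (by rw [abs_lt]; constructor <;> linarith)

end Pool.Agent.H75.Mfd
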