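import Pool.Agent.H75.Mfd.Basic

/-!
Module SWB (swindle, the shift map). E proper connected metric space, g an open embedding of the
slab |t| < 5 of E x R, at distance at most d <= 1/20 from the identity.

Proof. Put s0 = 1/2.
(surj) every p with |p.2| <= 9/2 is g q for some q with |q.2| < 5: the set of such p in the
connected space E x Icc (-9/2) (9/2) is open, closed (properness) and nonempty.
al(t) = t for t <= 2, t + 1/2 for t >= 3, linear between (slope 3/2).
be(t) = al^{-1}(t) + 1/2, so be(t) = t + 1/2 for t <= 2, be(t) = t for t >= 7/2, be increasing.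
A(y,t) = (y, al t). B = g o (id x be) o g^{-1} on the image of g and B = id on levels >= 4
(the two agree on the overlap, since g^{-1} of a point of level >= 4 has level > 7/2).
b = B o A on the set of levels >= -9/2.
dist (b p) (p + 1/2) <= 2 d because al^{-1} is 1-Lipschitz.
-/

set_option autoImplicit false

namespace Pool.Agent.H75.Mfd

open Set Topology Metric Filter

/-- the part of `E × ℝ` above the level `s` in the coordinates given by `g` -/
def Wup {E : Type*} (g : E × ℝ → E × ℝ) (s : ℝ) : Set (E × ℝ) :=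
  g '' {p | s ≤ p.2 ∧ p.2 < 5} ∪ {p | 9 / 2 ≤ p.2}

theorem slab_surj {E : Type*} [MetricSpace E] [ProperSpace E] [ConnectedSpace E]
    (g : E × ℝ → E × ℝ) (d : ℝ) (hd : d ≤ 1 / 20)
    (hg : OE g {p | |p.2| < 5}) (hc : ∀ p : E × ℝ, |p.2| < 5 → dist (g p) p ≤ d)
    (p : E × ℝ) (hp : |p.2| ≤ 9 / 2) : ∃ q : E × ℝ, |q.2| < 5 ∧ g q = p := by
  have hT : IsPreconnected {p : E × ℝ | |p.2| ≤ 9 / 2} := by
    have h1 : IsPreconnected ((univ : Set E) ×ˢ (Icc (-(9 / 2)) (9 / 2) : Set ℝ)) :=
      isPreconnected_univ.prod isPreconnected_Icc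
    convert h1 using 1
    ext q
    simp [abs_le]
  have hsub : {p : E × ℝ | |p.2| ≤ 9 / 2} ⊆ g '' {p | |p.2| < 5} := by
    refine hT.subset_of_closure_inter_subset hg.image_isOpen ?_ ?_
    · obtain ⟨y⟩ := (inferInstance : Nonempty E)
      refine ⟨g (y, 0), ?_, (y, 0), by simp, rfl⟩
      have h2 : dist (g (y, 0)) (y, 0) ≤ d := hc (y, 0) (by simp)
      have h3 : |(g (y, 0)).2 - 0| ≤ dist (g (y, 0)) (y, 0) := by
        rw [← Real.dist_eq]
        exact le_max_right _ _
      rw [sub_zero] at h3
      simp only [mem_ofPred_eq]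
      linarith
    · rintro p ⟨hp1, hp2⟩
      simp only [mem_ofPred_eq] at hp2
      have hCS : closedBall p (1 / 10) ⊆ {p : E × ℝ | |p.2| < 5} := by
        intro q hq
        rw [mem_closedBall] at hq
        have h3 : |q.2 - p.2| ≤ dist q p := by
          rw [← Real.dist_eq]
          exact le_max_right _ _
        simp only [mem_ofPred_eq]
        have h4 : |q.2| ≤ |q.2 - p.2| + |p.2| := by
          have := abs_add_le (q.2 - p.2) p.2
          simpa using this
        linarith
      have hcl : IsClosed (g '' closedBall p (1 / 10)) :=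
        ((isCompact_closedBall p (1 / 10)).image_of_continuousOn (hg.cont.mono hCS)).isClosed
      have hmem : p ∈ closure (g '' closedBall p (1 / 10)) := by
        rw [Metric.mem_closure_iff] at hp1 ⊢
        intro ε hε
        obtain ⟨_, ⟨q, hq, rfl⟩, hq2⟩ := hp1 (min ε (1 / 20)) (lt_min hε (by norm_num))
        refine ⟨g q, ⟨q, ?_, rfl⟩, lt_of_lt_of_le hq2 (min_le_left _ _)⟩
        rw [mem_closedBall]
        have h5 : dist (g q) q ≤ d := hc q hq
        have h6 : dist q p ≤ dist (g q) q + dist p (g q) := by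
          rw [dist_comm (g q) q, dist_comm p (g q)]
          exact dist_triangle _ _ _
        have h7 : dist p (g q) ≤ 1 / 20 := hq2.le.trans (min_le_right _ _)
        linarith
      rw [hcl.closure_eq] at hmem
      exact image_mono hCS hmem
  obtain ⟨q, hq, hqp⟩ := hsub hp
  exact ⟨q, hq, hqp⟩

/-- the stretching function -/
noncomputable def alF (t : ℝ) : ℝ := t + min (1 / 2) (max 0 ((t - 2) / 2))

/-- the inverse of the stretching function plus one half -/
noncomputable def beF (t : ℝ) : ℝ := t + 1 / 2 - min (1 / 2) (max 0 ((t - 2) / 3))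

theorem continuous_alF : Continuous alF := by
  unfold alF; fun_prop

theorem continuous_beF : Continuous beF := by
  unfold beF; fun_prop

theorem beF_alF (t : ℝ) : beF (alF t) = t + 1 / 2 := by
  unfold beF alF
  simp only [min_def, max_def]
  split_ifs <;> linarith

theorem alF_beF (t : ℝ) : alF (beF t - 1 / 2) = t := by
  unfold beF alF
  simp only [min_def, max_def]
  split_ifs <;> linarith

theorem alF_of_le {t : ℝ} (ht : t ≤ 2) : alF t = t := by
  unfold alF
  simp only [min_def, max_def]
  split_ifs <;> linarith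

theorem alF_of_ge {t : ℝ} (ht : 3 ≤ t) : alF t = t + 1 / 2 := by
  unfold alF
  simp only [min_def, max_def]
  split_ifs <;> linarith

theorem le_alF (t : ℝ) : t ≤ alF t := by
  unfold alF
  simp only [min_def, max_def]
  split_ifs <;> linarith

theorem alF_le (t : ℝ) : alF t ≤ t + 1 / 2 := by
  unfold alF
  simp only [min_def, max_def]
  split_ifs <;> linarith

theorem beF_of_le {t : ℝ} (ht : t ≤ 2) : beF t = t + 1 / 2 := by
  unfold beF
  simp only [min_def, max_def]
  split_ifs <;> linarith

theorem beF_of_ge {t : ℝ} (ht : 7 / 2 ≤ t) : beF t = t := by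
  unfold beF
  simp only [min_def, max_def]
  split_ifs <;> linarith

theorem beF_mono : Monotone beF := by
  intro s t hst
  unfold beF
  simp only [min_def, max_def]
  split_ifs <;> linarith

theorem beF_inj {s t : ℝ} (h : beF s = beF t) : s = t := by
  rw [← alF_beF s, ← alF_beF t, h]

theorem alF_inj {s t : ℝ} (h : alF s = alF t) : s = t := by
  have h1 := beF_alF s
  have h2 := beF_alF t
  rw [h] at h1
  linarith

theorem le_beF (t : ℝ) : t ≤ beF t := by
  unfold beF
  simp only [min_def, max_def]
  split_ifs <;> linarith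

theorem beF_lt {t : ℝ} (ht : t < 5) : beF t < 5 := by
  unfold beF
  simp only [min_def, max_def]
  split_ifs <;> linarith

theorem beF_lip (s t : ℝ) : |beF s - beF t| ≤ |s - t| := by
  wlog h : s ≤ t generalizing s t
  · rw [abs_sub_comm, abs_sub_comm s]
    exact this t s (le_of_not_ge h)
  have h1 := beF_mono h
  rw [abs_sub_comm, abs_sub_comm s, abs_of_nonneg (sub_nonneg.2 h1),
    abs_of_nonneg (sub_nonneg.2 h)]
  clear h1
  unfold beF
  simp only [min_def, max_def]
  split_ifs <;> linarith

section shift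

variable {E : Type*} [MetricSpace E]

theorem abs_snd_sub_le (p q : E × ℝ) : |p.2 - q.2| ≤ dist p q := by
  rw [← Real.dist_eq]
  exact le_max_right _ _

theorem dist_fst_le (p q : E × ℝ) : dist p.1 q.1 ≤ dist p q := le_max_left _ _

theorem swindle_shift [ProperSpace E] [ConnectedSpace E]
    (g : E × ℝ → E × ℝ) (d : ℝ) (hd : d ≤ 1 / 20)
    (hg : OE g {p | |p.2| < 5}) (hc : ∀ p : E × ℝ, |p.2| < 5 → dist (g p) p ≤ d) :
    ∃ b : E × ℝ → E × ℝ,
      ContinuousOn b {p | -(9 / 2) < p.2} ∧
      InjOn b {p | -(9 / 2) < p.2} ∧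
      (∀ p : E × ℝ, -(9 / 2) < p.2 → dist (b p) (p.1, p.2 + 1 / 2) ≤ 2 * d) ∧
      (∀ (y : E) (s : ℝ), -4 ≤ s → s + d ≤ 2 → b (g (y, s)) = g (y, s + 1 / 2)) ∧
      (∀ p : E × ℝ, 3 + d ≤ p.2 → b p = (p.1, p.2 + 1 / 2)) ∧
      b '' Wup g 1 = Wup g (3 / 2) ∧
      (∀ y : E, (∀ t : ℝ, |t| < 5 → g (y, t) = (y, t)) →
        ∀ t : ℝ, -4 ≤ t → b (y, t) = (y, t + 1 / 2)) := by
  classical
  have hE : Nonempty (E × ℝ) := by
    obtain ⟨y⟩ := (inferInstance : Nonempty E)
    exact ⟨(y, 0)⟩
  have hd0 : 0 ≤ d := by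
    obtain ⟨y⟩ := (inferInstance : Nonempty E)
    exact dist_nonneg.trans (hc (y, 0) (by simp))
  obtain ⟨k, hk, hkl, hkr, -⟩ := hg.exists_inv
  set G : Set (E × ℝ) := g '' {p | |p.2| < 5} with hG
  -- closeness of levels
  have hlev : ∀ p : E × ℝ, |p.2| < 5 → |(g p).2 - p.2| ≤ d := fun p hp =>
    (abs_snd_sub_le _ _).trans (hc p hp)
  have hnG : ∀ p : E × ℝ, -(9 / 2) < p.2 → p ∉ G → 9 / 2 < p.2 := by
    intro p hp hpG
    by_contra hcon
    obtain ⟨q, hq, hqp⟩ := slab_surj g d hd hg hc p (abs_le.2 ⟨hp.le, not_lt.1 hcon⟩)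
    exact hpG ⟨q, hq, hqp⟩
  set B : E × ℝ → E × ℝ := fun p => if p ∈ G then g ((k p).1, beF (k p).2) else p with hB
  have hBg : ∀ (y : E) (s : ℝ), |s| < 5 → B (g (y, s)) = g (y, beF s) := by
    intro y s hs
    have h1 : g (y, s) ∈ G := ⟨(y, s), hs, rfl⟩
    rw [hB]
    simp only
    rw [if_pos h1, hkl (y, s) hs]
  have hBn : ∀ p, p ∉ G → B p = p := fun p hp => by
    rw [hB]
    simp only
    rw [if_neg hp]
  have hbe5 : ∀ s : ℝ, |s| < 5 → |beF s| < 5 := by
    intro s hs
    rw [abs_lt] at hs ⊢
    have h1 := le_beF s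
    have h2 := beF_lt hs.2
    constructor <;> linarith
  -- high levels are fixed by `B`
  have hBh : ∀ p : E × ℝ, 7 / 2 + d ≤ p.2 → B p = p := by
    intro p hp
    by_cases hpG : p ∈ G
    · obtain ⟨⟨y, s⟩, hs, rfl⟩ := hpG
      have h1 := hlev (y, s) hs
      rw [hBg y s hs, beF_of_ge]
      have := abs_le.1 h1
      simp only at this
      linarith [this.2]
    · exact hBn p hpG
  have hBinj : Function.Injective B := by
    intro p p' h
    by_cases hp : p ∈ G
    · obtain ⟨⟨y, s⟩, hs, rfl⟩ := hp
      rw [hBg y s hs] at h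
      by_cases hp' : p' ∈ G
      · obtain ⟨⟨y', s'⟩, hs', rfl⟩ := hp'
        rw [hBg y' s' hs'] at h
        have h2 := hg.inj (hbe5 s hs) (hbe5 s' hs') h
        rw [Prod.mk.injEq] at h2
        rw [h2.1, beF_inj h2.2]
      · rw [hBn p' hp'] at h
        exact absurd ⟨(y, beF s), hbe5 s hs, h⟩ hp'
    · rw [hBn p hp] at h
      by_cases hp' : p' ∈ G
      · obtain ⟨⟨y', s'⟩, hs', rfl⟩ := hp'
        rw [hBg y' s' hs'] at h
        exact absurd ⟨(y', beF s'), hbe5 s' hs', h.symm⟩ hp
      · rw [hBn p' hp'] at h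
        exact h
  have hBc : ContinuousOn B {p | -(9 / 2) < p.2} := by
    intro p hp
    apply ContinuousAt.continuousWithinAt
    by_cases hpG : p ∈ G
    · have h1 : ContinuousOn (fun p => g ((k p).1, beF (k p).2)) G := by
        refine hg.cont.comp ?_ ?_
        · have h2 : Continuous (fun q : E × ℝ => (q.1, beF q.2)) :=
            continuous_fst.prodMk (continuous_beF.comp continuous_snd)
          exact h2.comp_continuousOn hk.cont
        · intro q hq
          exact hbe5 _ (hkr q hq).1
      refine (h1.continuousAt (hg.image_isOpen.mem_nhds hpG)).congr ?_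
      filter_upwards [hg.image_isOpen.mem_nhds hpG] with q hq
      rw [hB]
      simp only
      rw [if_pos hq]
    · have h2 : 9 / 2 < p.2 := hnG p hp hpG
      have h3 : IsOpen {q : E × ℝ | 9 / 2 < q.2} := isOpen_lt continuous_const continuous_snd
      refine continuousAt_id.congr ?_
      filter_upwards [h3.mem_nhds h2] with q hq
      have hq' : 9 / 2 < q.2 := hq
      exact (hBh q (by linarith)).symm
  set A : E × ℝ → E × ℝ := fun p => (p.1, alF p.2) with hA
  have hAc : Continuous A := continuous_fst.prodMk (continuous_alF.comp continuous_snd)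
  have hAinj : Function.Injective A := by
    rintro ⟨y, t⟩ ⟨y', t'⟩ h
    simp only [hA, Prod.mk.injEq] at h
    rw [h.1, alF_inj h.2]
  have hAlow : ∀ p : E × ℝ, p.2 ≤ 2 → A p = p := by
    rintro ⟨y, t⟩ ht
    simp only [hA, Prod.mk.injEq, true_and]
    exact alF_of_le ht
  -- translation on high levels
  have hbh : ∀ p : E × ℝ, 3 + d ≤ p.2 → B (A p) = (p.1, p.2 + 1 / 2) := by
    rintro ⟨y, t⟩ ht
    simp only at ht
    have h1 : A (y, t) = (y, t + 1 / 2) := by
      simp only [hA, Prod.mk.injEq, true_and]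
      exact alF_of_ge (by linarith)
    rw [h1]
    exact hBh _ (by simp only; linarith)
  refine ⟨fun p => B (A p), ?_, ?_, ?_, ?_, hbh, ?_, ?_⟩
  · refine hBc.comp hAc.continuousOn ?_
    rintro ⟨y, t⟩ ht
    simp only [mem_ofPred_eq] at ht
    simp only [hA, mem_ofPred_eq]
    linarith [le_alF t]
  · intro p _ q _ h
    exact hAinj (hBinj h)
  · rintro ⟨y, t⟩ ht
    simp only at ht
    simp only
    by_cases hq : A (y, t) ∈ G
    · obtain ⟨⟨z, s⟩, hs, hzs⟩ := hq
      rw [← hzs, hBg z s hs]
      have h1 := hc (z, beF s) (hbe5 s hs)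
      have h2 : dist ((z, beF s) : E × ℝ) (y, t + 1 / 2) ≤ d := by
        have h3 := hc (z, s) hs
        rw [hzs] at h3
        rw [Prod.dist_eq] at h3 ⊢
        simp only [hA] at h3 ⊢
        have h4 := (le_max_left _ _).trans h3
        have h5 := (le_max_right _ _).trans h3
        refine max_le ?_ ?_
        · rw [dist_comm]
          exact h4
        · rw [← beF_alF t, Real.dist_eq]
          rw [dist_comm, Real.dist_eq] at h5
          exact (beF_lip _ _).trans h5
      have h6 := dist_triangle (g (z, beF s)) (z, beF s) (y, t + 1 / 2)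
      linarith
    · have h1 := hnG (A (y, t)) (by simp only [hA]; linarith [le_alF t]) hq
      have h2 : 3 ≤ t := by
        have := alF_le t
        simp only [hA] at h1
        linarith
      rw [hBn _ hq]
      simp only [hA]
      rw [alF_of_ge h2, dist_self]
      linarith
  · intro y s hs1 hs2
    have hs : |s| < 5 := abs_lt.2 ⟨by linarith, by linarith⟩
    have h1 := (abs_le.1 (hlev (y, s) hs)).2
    simp only at h1
    simp only
    rw [hAlow _ (by linarith), hBg y s hs, beF_of_le (by linarith)]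
  · -- the image of the upper part
    have hAW : A '' Wup g 1 = Wup g 1 := by
      have hup : ∀ p : E × ℝ, 2 < p.2 → p ∈ Wup g 1 := by
        intro p hp
        rcases lt_or_ge p.2 (9 / 2) with h | h
        · obtain ⟨q, hq, rfl⟩ := slab_surj g d hd hg hc p (abs_le.2 ⟨by linarith, h.le⟩)
          refine Or.inl ⟨q, ⟨?_, (abs_lt.1 hq).2⟩, rfl⟩
          have := (abs_le.1 (hlev q hq)).2
          linarith
        · exact Or.inr h
      apply Subset.antisymm
      · rintro _ ⟨p, hp, rfl⟩
        rcases le_or_gt p.2 2 with h | h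
        · rwa [hAlow p h]
        · refine hup _ ?_
          simp only [hA]
          linarith [le_alF p.2]
      · intro p hp
        rcases le_or_gt p.2 2 with h | h
        · exact ⟨p, hp, hAlow p h⟩
        · refine ⟨(p.1, beF p.2 - 1 / 2), hup _ ?_, ?_⟩
          · simp only
            by_contra hcon
            have h1 := alF_beF p.2
            rw [alF_of_le (not_lt.1 hcon)] at h1
            linarith [not_lt.1 hcon]
          · simp only [hA, alF_beF]
    have h1 : (fun p => B (A p)) '' Wup g 1 = B '' (A '' Wup g 1) := by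
      rw [image_image]
    rw [h1, hAW]
    -- description of `Wup`
    have hdes : ∀ (r : ℝ), 0 ≤ r → r ≤ 4 → ∀ (y : E) (s : ℝ), |s| < 5 →
        (g (y, s) ∈ Wup g r ↔ r ≤ s) := by
      intro r hr0 hr y s hs
      constructor
      · rintro (⟨q, ⟨hq1, hq2⟩, hqs⟩ | h)
        · have := hg.inj (abs_lt.2 ⟨by linarith, hq2⟩ : |q.2| < 5) hs hqs
          rw [this] at hq1
          exact hq1
        · have h' : 9 / 2 ≤ (g (y, s)).2 := h
          have := (abs_le.1 (hlev (y, s) hs)).2
          simp only at this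
          linarith
      · intro h
        exact Or.inl ⟨(y, s), ⟨h, (abs_lt.1 hs).2⟩, rfl⟩
    have hdesn : ∀ (r : ℝ), 0 ≤ r → ∀ p : E × ℝ, p ∉ G → (p ∈ Wup g r ↔ 9 / 2 ≤ p.2) := by
      intro r hr0 p hp
      constructor
      · rintro (⟨q, ⟨hq1, hq2⟩, hqs⟩ | h)
        · exact absurd ⟨q, abs_lt.2 ⟨by linarith, hq2⟩, hqs⟩ hp
        · exact h
      · exact fun h => Or.inr h
    apply Subset.antisymm
    · rintro _ ⟨p, hp, rfl⟩
      by_cases hpG : p ∈ G
      · obtain ⟨⟨y, s⟩, hs, rfl⟩ := hpG
        rw [hBg y s hs, hdes _ (by norm_num) (by norm_num) y _ (hbe5 s hs)]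
        rw [hdes _ (by norm_num) (by norm_num) y s hs] at hp
        have h2 := beF_mono hp
        rw [beF_of_le (by norm_num : (1 : ℝ) ≤ 2)] at h2
        linarith
      · rw [hBn p hpG, hdesn _ (by norm_num) p hpG]
        rwa [hdesn _ (by norm_num) p hpG] at hp
    · intro p hp
      by_cases hpG : p ∈ G
      · obtain ⟨⟨y, s⟩, hs, rfl⟩ := hpG
        rw [hdes _ (by norm_num) (by norm_num) y s hs] at hp
        have hs5 := abs_lt.1 (show |s| < 5 from hs)
        -- the preimage level
        have h2 : beF (alF (s - 1 / 2)) = s := by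
          rw [beF_alF]
          ring
        have h3 : 1 ≤ alF (s - 1 / 2) := by
          have := le_alF (s - 1 / 2)
          linarith
        have h4 : |alF (s - 1 / 2)| < 5 := by
          have := alF_le (s - 1 / 2)
          exact abs_lt.2 ⟨by linarith, by linarith⟩
        refine ⟨g (y, alF (s - 1 / 2)), ?_, ?_⟩
        · rw [hdes _ (by norm_num) (by norm_num) y _ h4]
          exact h3
        · rw [hBg y _ h4, h2]
      · refine ⟨p, ?_, hBn p hpG⟩
        rw [hdesn _ (by norm_num) p hpG] at hp ⊢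
        exact hp
  · intro y hy t ht
    simp only
    have h0 : A (y, t) = (y, alF t) := rfl
    rcases lt_or_ge (alF t) 5 with h | h
    · have h1 : |alF t| < 5 := abs_lt.2 ⟨by linarith [le_alF t], h⟩
      have h2 := hBg y (alF t) h1
      rw [hy _ h1] at h2
      rw [h0, h2, hy _ (hbe5 _ h1), beF_alF]
    · have h1 : 3 ≤ t := by linarith [alF_le t]
      have h2 : alF t = t + 1 / 2 := alF_of_ge h1
      exact hbh (y, t) (by simp only; linarith)

end shift

end Pool.Agent.H75.Mfd
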