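import Pool.Agent.H75.Mfd.SwindleB

/-!
Module SWH (swindle, half and full).
Half: H(y,t) = b^k (g (y, t - k/2)) for t in [1 + k/2, 1 + (k+1)/2], k >= 0. Continuity: the formula
with k and with k+1 agree for t - (k+1)/2 slightly below 1 because b g(y,s) = g(y,s+1/2) for
s + d <= 2. Bijection onto Wup g 1: b maps Wup g 1 onto Wup g (3/2), the difference is
g(E x [1,3/2)), and every application of b raises the level by at least 1/2 - 2 d >= 2/5.
Distance: at most 6 applications of b happen below level 3 + d, later ones are exact translations.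
Full: H = half on t >= 1, g on |t| <= 1, reflected half (for the reflected g) on t <= -1. It is a
continuous bijection at bounded distance from id in a proper space, hence a homeomorphism.
-/

set_option autoImplicit false

namespace Pool.Agent.H75.Mfd

open Set Topology Metric Filter

namespace SwH

variable {E : Type*} [MetricSpace E]

theorem dist_level (p q : E × ℝ) : |p.2 - q.2| ≤ dist p q := by
  rw [Prod.dist_eq, ← Real.dist_eq]
  exact le_max_right _ _

theorem dist_shift (p q : E × ℝ) (r : ℝ) : dist (p.1, p.2 + r) (q.1, q.2 + r) = dist p q := by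
  rw [Prod.dist_eq, Prod.dist_eq]
  congr 1
  rw [Real.dist_eq, Real.dist_eq]
  congr 1
  ring

/-- The level rises. -/
theorem level_rise {b : E × ℝ → E × ℝ} {d : ℝ} (hd : d ≤ 1 / 20)
    (hb : ∀ p : E × ℝ, -(9 / 2) < p.2 → dist (b p) (p.1, p.2 + 1 / 2) ≤ 2 * d)
    {p : E × ℝ} (hp : 0 < p.2) : p.2 + 2 / 5 ≤ (b p).2 := by
  have h1 := (dist_level (b p) (p.1, p.2 + 1 / 2)).trans (hb p (by linarith))
  have h2 := (abs_le.mp h1).1
  simp only at h2
  linarith

theorem level_iter {b : E × ℝ → E × ℝ} {d : ℝ} (hd : d ≤ 1 / 20)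
    (hb : ∀ p : E × ℝ, -(9 / 2) < p.2 → dist (b p) (p.1, p.2 + 1 / 2) ≤ 2 * d)
    {p : E × ℝ} (hp : 0 < p.2) (k : ℕ) : p.2 + 2 / 5 * k ≤ (b^[k] p).2 := by
  induction k with
  | zero => simp
  | succ k ih =>
    rw [Function.iterate_succ_apply']
    have h0 : (0 : ℝ) ≤ 2 / 5 * k := by positivity
    have := level_rise hd hb (p := b^[k] p) (by linarith)
    push_cast
    linarith

theorem level_iter_pos {b : E × ℝ → E × ℝ} {d : ℝ} (hd : d ≤ 1 / 20)
    (hb : ∀ p : E × ℝ, -(9 / 2) < p.2 → dist (b p) (p.1, p.2 + 1 / 2) ≤ 2 * d)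
    {p : E × ℝ} (hp : 0 < p.2) (k : ℕ) : 0 < (b^[k] p).2 := by
  have := level_iter hd hb hp k
  have h0 : (0 : ℝ) ≤ 2 / 5 * k := by positivity
  linarith

theorem continuousOn_iter {b : E × ℝ → E × ℝ} {d : ℝ} (hd : d ≤ 1 / 20)
    (hb : ∀ p : E × ℝ, -(9 / 2) < p.2 → dist (b p) (p.1, p.2 + 1 / 2) ≤ 2 * d)
    (hbc : ContinuousOn b {p | -(9 / 2) < p.2}) (k : ℕ) :
    ContinuousOn b^[k] {p | 0 < p.2} := by
  induction k with
  | zero => exact continuousOn_id
  | succ k ih =>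
    rw [Function.iterate_succ']
    refine hbc.comp ih fun p hp => ?_
    have := level_iter_pos hd hb hp k
    show -(9 / 2) < (b^[k] p).2
    linarith

theorem injOn_iter {b : E × ℝ → E × ℝ} {d : ℝ} (hd : d ≤ 1 / 20)
    (hb : ∀ p : E × ℝ, -(9 / 2) < p.2 → dist (b p) (p.1, p.2 + 1 / 2) ≤ 2 * d)
    (hbi : InjOn b {p | -(9 / 2) < p.2}) (k : ℕ) :
    InjOn b^[k] {p | 0 < p.2} := by
  induction k with
  | zero => exact fun p _ q _ h => h
  | succ k ih =>
    intro p hp q hq h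
    rw [Function.iterate_succ_apply', Function.iterate_succ_apply'] at h
    refine ih hp hq (hbi ?_ ?_ h)
    · have := level_iter_pos hd hb hp k
      show -(9 / 2) < (b^[k] p).2
      linarith
    · have := level_iter_pos hd hb hq k
      show -(9 / 2) < (b^[k] q).2
      linarith

/-- The distance of the iterates from the translations. -/
theorem dist_iter {b : E × ℝ → E × ℝ} {d : ℝ} (hd : d ≤ 1 / 20)
    (hb : ∀ p : E × ℝ, -(9 / 2) < p.2 → dist (b p) (p.1, p.2 + 1 / 2) ≤ 2 * d)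
    (hb5 : ∀ p : E × ℝ, 3 + d ≤ p.2 → b p = (p.1, p.2 + 1 / 2))
    {p : E × ℝ} (hp : 1 - d ≤ p.2) (k : ℕ) :
    dist (b^[k] p) (p.1, p.2 + k / 2) ≤ 2 * d * (min k 6 : ℕ) := by
  have hp0 : 0 < p.2 := by linarith
  induction k with
  | zero => simp
  | succ k ih =>
    rw [Function.iterate_succ_apply']
    have hpos := level_iter_pos hd hb hp0 k
    have e1 : ((p.1, p.2 + ((k + 1 : ℕ) : ℝ) / 2) : E × ℝ) =
        (((p.1, p.2 + (k : ℝ) / 2) : E × ℝ).1, ((p.1, p.2 + (k : ℝ) / 2) : E × ℝ).2 + 1 / 2) := by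
      simp only [Prod.mk.injEq, true_and]
      push_cast
      ring
    rw [e1]
    by_cases hk : k < 6
    · have h1 := hb (b^[k] p) (by linarith)
      have h2 := dist_triangle (b (b^[k] p)) ((b^[k] p).1, (b^[k] p).2 + 1 / 2)
        (((p.1, p.2 + (k : ℝ) / 2) : E × ℝ).1, ((p.1, p.2 + (k : ℝ) / 2) : E × ℝ).2 + 1 / 2)
      rw [dist_shift (b^[k] p) (p.1, p.2 + (k : ℝ) / 2) (1 / 2)] at h2
      have h3 : min k 6 = k := min_eq_left hk.le
      have h4 : min (k + 1) 6 = k + 1 := min_eq_left hk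
      rw [h3] at ih
      rw [h4]
      push_cast
      linarith
    · push Not at hk
      have h3 : min k 6 = 6 := min_eq_right hk
      have h4 : min (k + 1) 6 = 6 := min_eq_right (by omega)
      rw [h3] at ih
      rw [h4]
      have h5 := level_iter hd hb hp0 k
      have h6 : (6 : ℝ) ≤ k := by exact_mod_cast hk
      rw [hb5 (b^[k] p) (by linarith), dist_shift]
      exact ih

end SwH

open SwH in
theorem swindle_half {E : Type*} [MetricSpace E] [ProperSpace E] [ConnectedSpace E]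
    (g : E × ℝ → E × ℝ) (d : ℝ) (hd : d ≤ 1 / 20)
    (hg : OE g {p | |p.2| < 5}) (hc : ∀ p : E × ℝ, |p.2| < 5 → dist (g p) p ≤ d) :
    ∃ H : E × ℝ → E × ℝ,
      ContinuousOn H {p | 1 ≤ p.2} ∧ InjOn H {p | 1 ≤ p.2} ∧
      H '' {p | 1 ≤ p.2} = Wup g 1 ∧
      (∀ p : E × ℝ, p.2 = 1 → H p = g p) ∧
      (∀ p : E × ℝ, 1 ≤ p.2 → dist (H p) p ≤ 20 * d) ∧
      (∀ y : E, (∀ t : ℝ, |t| < 5 → g (y, t) = (y, t)) → ∀ t : ℝ, 1 ≤ t → H (y, t) = (y, t)) := by
  obtain ⟨b, hbc, hbi, hb, hbg, hb5, hbW, hbcol⟩ := swindle_shift g d hd hg hc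
  have hd0 : 0 ≤ d := by
    obtain ⟨y⟩ := (inferInstance : Nonempty E)
    have := hc (y, 0) (by simp)
    exact dist_nonneg.trans this
  -- levels of `g`
  have hglev : ∀ p : E × ℝ, |p.2| < 5 → p.2 - d ≤ (g p).2 ∧ (g p).2 ≤ p.2 + d := by
    intro p hp
    have h1 := abs_le.mp ((dist_level (g p) p).trans (hc p hp))
    exact ⟨by linarith [h1.1], by linarith [h1.2]⟩
  -- the number of steps
  let κ : ℝ → ℕ := fun t => ⌊2 * (t - 1)⌋₊
  have hκ : ∀ t : ℝ, 1 ≤ t → 1 + (κ t : ℝ) / 2 ≤ t ∧ t < 1 + (κ t : ℝ) / 2 + 1 / 2 := by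
    intro t ht
    have h1 := Nat.floor_le (show (0 : ℝ) ≤ 2 * (t - 1) by linarith)
    have h2 := Nat.lt_floor_add_one (2 * (t - 1))
    exact ⟨by simp only [κ]; linarith, by simp only [κ]; linarith⟩
  have hκ' : ∀ (t : ℝ) (k : ℕ), 1 + (k : ℝ) / 2 ≤ t → t < 1 + (k : ℝ) / 2 + 1 / 2 → κ t = k := by
    intro t k h1 h2
    have : ⌊2 * (t - 1)⌋₊ = k := by
      rw [Nat.floor_eq_iff (by have : (0 : ℝ) ≤ (k : ℝ) / 2 := by positivity
                               linarith)]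
      constructor <;> linarith
    exact this
  let Hk : ℕ → E × ℝ → E × ℝ := fun k p => b^[k] (g (p.1, p.2 - k / 2))
  let H : E × ℝ → E × ℝ := fun p => Hk (κ p.2) p
  -- consecutive formulas agree
  have hstep : ∀ (k : ℕ) (p : E × ℝ), -4 ≤ p.2 - ((k + 1 : ℕ) : ℝ) / 2 →
      p.2 - ((k + 1 : ℕ) : ℝ) / 2 + d ≤ 2 → Hk (k + 1) p = Hk k p := by
    intro k p h1 h2
    show b^[k + 1] (g (p.1, p.2 - ((k + 1 : ℕ) : ℝ) / 2)) = b^[k] (g (p.1, p.2 - k / 2))
    rw [Function.iterate_succ_apply, hbg p.1 _ h1 h2]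
    congr 3
    push_cast
    ring
  -- `H = Hk k` near the `k`-th interval
  have hHk : ∀ (k : ℕ) (p : E × ℝ), 1 ≤ p.2 → 1 + ((k : ℝ) - 1) / 2 < p.2 →
      p.2 < 1 + ((k : ℝ) + 2) / 2 → H p = Hk k p := by
    intro k p h1 h2 h3
    rcases lt_or_ge p.2 (1 + (k : ℝ) / 2) with h4 | h4
    · -- previous interval
      obtain ⟨j, rfl⟩ : ∃ j, k = j + 1 := by
        rcases k with _ | j
        · exfalso
          simp at h4
          linarith
        · exact ⟨j, rfl⟩
      push_cast at h2 h3 h4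
      have h5 : κ p.2 = j := hκ' _ _ (by linarith) (by linarith)
      show Hk (κ p.2) p = Hk (j + 1) p
      rw [h5, hstep j p (by push_cast; linarith) (by push_cast; linarith)]
    · rcases lt_or_ge p.2 (1 + (k : ℝ) / 2 + 1 / 2) with h5 | h5
      · show Hk (κ p.2) p = Hk k p
        rw [hκ' _ _ h4 h5]
      · have h6 : κ p.2 = k + 1 := hκ' _ _ (by push_cast; linarith) (by push_cast; linarith)
        show Hk (κ p.2) p = Hk k p
        rw [h6, hstep k p (by push_cast; linarith) (by push_cast; linarith)]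
  -- facts on `Wup`
  have hWlev : ∀ p ∈ Wup g 1, 0 < p.2 := by
    rintro p (⟨q, ⟨hq1, hq2⟩, rfl⟩ | hp)
    · have := (hglev q (by rw [abs_lt]; constructor <;> linarith)).1
      linarith
    · have : 9 / 2 ≤ p.2 := hp
      linarith
  have hW32 : Wup g (3 / 2) ⊆ Wup g 1 := by
    rintro p (⟨q, ⟨hq1, hq2⟩, rfl⟩ | hp)
    · exact Or.inl ⟨q, ⟨by linarith, hq2⟩, rfl⟩
    · exact Or.inr hp
  have hbW1 : ∀ p ∈ Wup g 1, b p ∈ Wup g (3 / 2) := fun p hp => hbW ▸ mem_image_of_mem b hp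
  have hbWk : ∀ (k : ℕ), ∀ p ∈ Wup g 1, b^[k] p ∈ Wup g 1 := by
    intro k p hp
    induction k with
    | zero => exact hp
    | succ k ih =>
      rw [Function.iterate_succ_apply']
      exact hW32 (hbW1 _ ih)
  have hD : ∀ (y : E) (s : ℝ), 1 ≤ s → s < 3 / 2 → g (y, s) ∉ Wup g (3 / 2) := by
    rintro y s h1 h2 (⟨q, ⟨hq1, hq2⟩, hq⟩ | hp)
    · have : q = (y, s) := hg.inj (show |q.2| < 5 by rw [abs_lt]; constructor <;> linarith)
        (show |s| < 5 by rw [abs_lt]; constructor <;> linarith) hq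
      rw [this] at hq1
      simp only at hq1
      linarith
    · have h3 : 9 / 2 ≤ (g (y, s)).2 := hp
      have := (hglev (y, s) (show |s| < 5 by rw [abs_lt]; constructor <;> linarith)).2
      simp only at this
      linarith
  have hD' : ∀ p ∈ Wup g 1, p ∉ Wup g (3 / 2) → ∃ (y : E) (s : ℝ), 1 ≤ s ∧ s < 3 / 2 ∧
      g (y, s) = p := by
    rintro p (⟨q, ⟨hq1, hq2⟩, rfl⟩ | hp) hp'
    · refine ⟨q.1, q.2, hq1, ?_, rfl⟩
      by_contra h
      push Not at h
      exact hp' (Or.inl ⟨q, ⟨h, hq2⟩, rfl⟩)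
    · exact absurd (Or.inr hp) hp'
  -- every point of `Wup g 1` is an iterate of a point of the fundamental domain
  have hfund : ∀ (n : ℕ) (p : E × ℝ), p ∈ Wup g 1 → p.2 ≤ 2 / 5 * n → ∃ (k : ℕ) (y : E) (s : ℝ),
      1 ≤ s ∧ s < 3 / 2 ∧ b^[k] (g (y, s)) = p := by
    intro n
    induction n with
    | zero =>
      intro p hp hp'
      have := hWlev p hp
      simp at hp'
      linarith
    | succ n ih =>
      intro p hp hp'
      by_cases hp2 : p ∈ Wup g (3 / 2)
      · rw [← hbW] at hp2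
        obtain ⟨q, hq, rfl⟩ := hp2
        have h1 := level_rise hd hb (hWlev q hq)
        push_cast at hp'
        obtain ⟨k, y, s, hs1, hs2, hk⟩ := ih q hq (by linarith)
        refine ⟨k + 1, y, s, hs1, hs2, ?_⟩
        rw [Function.iterate_succ_apply', hk]
      · obtain ⟨y, s, hs1, hs2, hs⟩ := hD' p hp hp2
        exact ⟨0, y, s, hs1, hs2, hs⟩
  -- uniqueness
  have huniq : ∀ (k k' : ℕ) (y y' : E) (s s' : ℝ), 1 ≤ s → s < 3 / 2 → 1 ≤ s' → s' < 3 / 2 →
      k ≤ k' → b^[k] (g (y, s)) = b^[k'] (g (y', s')) → k = k' ∧ y = y' ∧ s = s' := by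
    intro k k' y y' s s' h1 h2 h3 h4 hk h
    have hs : |s| < 5 := by rw [abs_lt]; constructor <;> linarith
    have hs' : |s'| < 5 := by rw [abs_lt]; constructor <;> linarith
    have hW : g (y, s) ∈ Wup g 1 := Or.inl ⟨(y, s), ⟨h1, by simp only; linarith⟩, rfl⟩
    have hW' : g (y', s') ∈ Wup g 1 := Or.inl ⟨(y', s'), ⟨h3, by simp only; linarith⟩, rfl⟩
    obtain ⟨j, rfl⟩ : ∃ j, k' = k + j := ⟨k' - k, by omega⟩
    rw [Function.iterate_add_apply] at h
    have h5 := injOn_iter hd hb hbi k (hWlev _ hW) (hWlev _ (hbWk j _ hW')) h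
    rcases j with _ | j
    · have h6 : ((y, s) : E × ℝ) = (y', s') := hg.inj hs hs' h5
      simp only [Prod.mk.injEq] at h6
      exact ⟨rfl, h6.1, h6.2⟩
    · exfalso
      rw [Function.iterate_succ_apply'] at h5
      apply hD y s h1 h2
      rw [h5]
      exact hbW1 _ (hbWk j _ hW')
  refine ⟨H, ?_, ?_, ?_, ?_, ?_, ?_⟩
  · -- continuity
    intro p hp
    have hp1 : 1 ≤ p.2 := hp
    obtain ⟨h1, h2⟩ := hκ p.2 hp1
    set k := κ p.2 with hk
    let U : Set (E × ℝ) := {q | 1 + ((k : ℝ) - 1) / 2 < q.2 ∧ q.2 < 1 + ((k : ℝ) + 2) / 2}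
    have hUo : IsOpen U := (isOpen_lt continuous_const continuous_snd).inter
      (isOpen_lt continuous_snd continuous_const)
    have hpU : p ∈ U := ⟨by linarith, by linarith⟩
    have hcont : ContinuousOn (Hk k) U := by
      refine (continuousOn_iter hd hb hbc k).comp (s := U)
        (f := fun q : E × ℝ => g (q.1, q.2 - k / 2)) ?_ ?_
      · refine hg.cont.comp (by fun_prop) fun q hq => ?_
        show |q.2 - (k : ℝ) / 2| < 5
        rw [abs_lt]
        constructor <;> linarith [hq.1, hq.2]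
      · intro q hq
        have h3 := (hglev (q.1, q.2 - k / 2) (by
          show |q.2 - (k : ℝ) / 2| < 5
          rw [abs_lt]
          constructor <;> linarith [hq.1, hq.2])).1
        show 0 < (g (q.1, q.2 - k / 2)).2
        simp only at h3
        linarith [hq.1, hq.2]
    have h3 : ContinuousAt (Hk k) p := hcont.continuousAt (hUo.mem_nhds hpU)
    refine h3.continuousWithinAt.congr_of_eventuallyEq ?_ ?_
    · filter_upwards [self_mem_nhdsWithin, mem_nhdsWithin_of_mem_nhds (hUo.mem_nhds hpU)] with q hq hq'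
      exact hHk k q hq hq'.1 hq'.2
    · exact hHk k p hp1 hpU.1 hpU.2
  · -- injectivity
    intro p hp q hq h
    have hp1 : 1 ≤ p.2 := hp
    have hq1 : 1 ≤ q.2 := hq
    obtain ⟨h1, h2⟩ := hκ p.2 hp1
    obtain ⟨h3, h4⟩ := hκ q.2 hq1
    have h' : b^[κ p.2] (g (p.1, p.2 - (κ p.2 : ℝ) / 2)) = b^[κ q.2] (g (q.1, q.2 - (κ q.2 : ℝ) / 2)) := h
    have key : κ p.2 = κ q.2 ∧ p.1 = q.1 ∧ p.2 - (κ p.2 : ℝ) / 2 = q.2 - (κ q.2 : ℝ) / 2 := by
      rcases le_total (κ p.2) (κ q.2) with hle | hle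
      · exact huniq _ _ _ _ _ _ (by linarith) (by linarith) (by linarith) (by linarith) hle h'
      · obtain ⟨e1, e2, e3⟩ := huniq _ _ _ _ _ _ (by linarith) (by linarith) (by linarith)
          (by linarith) hle h'.symm
        exact ⟨e1.symm, e2.symm, e3.symm⟩
    obtain ⟨e1, e2, e3⟩ := key
    rw [e1] at e3
    exact Prod.ext e2 (by linarith)
  · -- image
    ext p
    constructor
    · rintro ⟨q, hq, rfl⟩
      have hq1 : 1 ≤ q.2 := hq
      obtain ⟨h1, h2⟩ := hκ q.2 hq1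
      refine hbWk _ _ (Or.inl ⟨(q.1, q.2 - (κ q.2 : ℝ) / 2), ⟨?_, ?_⟩, rfl⟩)
      · simp only; linarith
      · simp only; linarith
    · intro hp
      obtain ⟨n, hn⟩ := exists_nat_gt (p.2 / (2 / 5))
      rw [div_lt_iff₀ (by norm_num)] at hn
      obtain ⟨k, y, s, hs1, hs2, rfl⟩ := hfund n p hp (by linarith)
      have hk0 : (0 : ℝ) ≤ (k : ℝ) / 2 := by positivity
      refine ⟨(y, s + k / 2), ?_, ?_⟩
      · show 1 ≤ s + k / 2
        linarith
      · have h1 : κ (s + k / 2) = k := hκ' _ _ (by linarith) (by linarith)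
        show b^[κ (s + k / 2)] (g (y, s + k / 2 - (κ (s + k / 2) : ℝ) / 2)) = _
        rw [h1]
        congr 3
        ring
  · -- value at level one
    intro p hp
    have h1 : κ p.2 = 0 := by
      simp [κ, hp]
    show b^[κ p.2] (g (p.1, p.2 - (κ p.2 : ℝ) / 2)) = g p
    rw [h1]
    simp
  · -- distance
    intro p hp
    obtain ⟨h1, h2⟩ := hκ p.2 hp
    set k := κ p.2 with hk
    have hs : |p.2 - (k : ℝ) / 2| < 5 := by rw [abs_lt]; constructor <;> linarith
    have h3 := hglev (p.1, p.2 - (k : ℝ) / 2) hs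
    have h4 := dist_iter hd hb hb5 (p := g (p.1, p.2 - (k : ℝ) / 2))
      (by simp only at h3; linarith [h3.1]) k
    have h5 := hc (p.1, p.2 - (k : ℝ) / 2) hs
    have h6 : dist ((g (p.1, p.2 - (k : ℝ) / 2)).1, (g (p.1, p.2 - (k : ℝ) / 2)).2 + (k : ℝ) / 2)
        ((p.1, p.2 - (k : ℝ) / 2).1, (p.1, p.2 - (k : ℝ) / 2).2 + (k : ℝ) / 2) ≤ d := by
      rw [dist_shift]
      exact h5
    have h7 : (((p.1, p.2 - (k : ℝ) / 2) : E × ℝ).1, ((p.1, p.2 - (k : ℝ) / 2) : E × ℝ).2 + (k : ℝ) / 2)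
        = p := by
      ext
      · rfl
      · simp
    rw [h7] at h6
    have h8 := dist_triangle (b^[k] (g (p.1, p.2 - (k : ℝ) / 2)))
      ((g (p.1, p.2 - (k : ℝ) / 2)).1, (g (p.1, p.2 - (k : ℝ) / 2)).2 + (k : ℝ) / 2) p
    have h9 : (2 * d * (min k 6 : ℕ) : ℝ) ≤ 2 * d * 6 := by
      refine mul_le_mul_of_nonneg_left ?_ (by positivity)
      exact_mod_cast min_le_right k 6
    show dist (b^[k] (g (p.1, p.2 - (k : ℝ) / 2))) p ≤ 20 * d
    linarith
  · -- columns
    intro y hy t ht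
    obtain ⟨h1, h2⟩ := hκ t ht
    have hcol : ∀ (k : ℕ) (s : ℝ), 1 ≤ s → b^[k] (y, s) = (y, s + k / 2) := by
      intro k s hs
      induction k with
      | zero => simp
      | succ k ih =>
        have hk0 : (0 : ℝ) ≤ (k : ℝ) / 2 := by positivity
        rw [Function.iterate_succ_apply', ih, hbcol y hy _ (by linarith)]
        simp only [Prod.mk.injEq, true_and]
        push_cast
        ring
    show b^[κ t] (g (y, t - (κ t : ℝ) / 2)) = (y, t)
    rw [hy _ (by rw [abs_lt]; constructor <;> linarith), hcol _ _ (by linarith)]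
    simp

end Pool.Agent.H75.Mfd
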