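import Pool.Agent.H75.Mfd.Stability

/-!
Module SYS. The system of pieces and countably many dense morphisms.
exists_sys: from `family`; for (i,j) the set of restrictions to L_i of the maps e : M -> M with
Emb and e(L_i) inside interior (K_j) is a subset of the separable metrizable space C(L_i, M)
(M second countable), so it has a countable dense subset: u i j k. good i j k says that the k-th
member is a genuine one (the set may be empty). D: start with a countable set dense in every K_i and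
L_i and close it under all maps u i j k.
-/

set_option autoImplicit false

namespace Pool.Agent.H75.Mfd

open Set Topology Metric Filter

/-- The fixed data: one locally Euclidean space `M` with pieces `K i ⊆ interior (L i)`, countably
many morphisms `u i j k`, a countable set `D`, and points `x i j` dense in `L i`. -/
structure Sys (n : ℕ) (M : Type) [MetricSpace M] where
  K : ℕ → Set M
  L : ℕ → Set M
  u : ℕ → ℕ → ℕ → M → M
  good : ℕ → ℕ → ℕ → Prop
  D : Set M
  x : ℕ → ℕ → M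
  locEuc : LocEuc n M
  neK : ∀ i, (K i).Nonempty
  cK : ∀ i, IsCompact (K i)
  cL : ∀ i, IsCompact (L i)
  KL : ∀ i, K i ⊆ interior (L i)
  u_emb : ∀ i j k, good i j k → ∃ U, L i ⊆ U ∧ OE (u i j k) U
  u_maps : ∀ i j k, good i j k → MapsTo (u i j k) (L i) (interior (K j))
  u_dense : ∀ i j (e : M → M), (∃ U, L i ⊆ U ∧ OE e U) → MapsTo e (L i) (interior (K j)) →
    ∀ ε > 0, ∃ k, good i j k ∧ ∀ x ∈ L i, dist (e x) (u i j k x) < ε
  cD : D.Countable
  D_K : ∀ i, K i ⊆ closure (D ∩ K i)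
  D_L : ∀ i, L i ⊆ closure (D ∩ L i)
  D_u : ∀ i j k, ∀ x ∈ D, u i j k x ∈ D
  x_L : ∀ i j, x i j ∈ L i
  x_dense : ∀ i, L i ⊆ closure (range (x i))
  cover : ∀ (X : Type) [MetricSpace X] [TopologicalSpace.SeparableSpace X] [Nonempty X],
    LocEuc n X → ∀ C : Set X, IsCompact C →
    ∃ (i : ℕ) (f : M → X) (U : Set M), L i ⊆ U ∧ OE f U ∧ C ⊆ f '' interior (K i)

section defs

variable {n : ℕ} {M : Type} [MetricSpace M] (S : Sys n M)

/-- `f` is an open embedding near `L i`. -/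
def Emb (i : ℕ) {X : Type*} [TopologicalSpace X] (f : M → X) : Prop := ∃ U, S.L i ⊆ U ∧ OE f U

/-- `f` and `g` differ on `K i` by a homeomorphism of `X` supported in a compact set which has a
compact neighbourhood. -/
def Eqv (i : ℕ) {X : Type*} [TopologicalSpace X] (f g : M → X) : Prop :=
  ∃ h : X ≃ₜ X, (∃ Q Q' : Set X, IsCompact Q ∧ IsCompact Q' ∧ Q ⊆ interior Q' ∧ SuppIn h Q) ∧
    ∀ x ∈ S.K i, h (f x) = g x

/-- morphisms: embeddings of the piece `i` into the piece `j` -/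
def Mor (i j : ℕ) (e : M → M) : Prop := Emb S i e ∧ MapsTo e (S.L i) (interior (S.K j))

variable {S}

theorem mor_u {i j k : ℕ} (h : S.good i j k) : Mor S i j (S.u i j k) :=
  ⟨S.u_emb i j k h, S.u_maps i j k h⟩

theorem Mor.mapsK {i j : ℕ} {e : M → M} (h : Mor S i j e) :
    MapsTo e (S.K i) (interior (S.K j)) :=
  fun _ hx => h.2 (interior_subset (S.KL i hx))

theorem Eqv.refl (i : ℕ) {X : Type*} [TopologicalSpace X] (f : M → X) : Eqv S i f f :=
  ⟨Homeomorph.refl X, ⟨∅, ∅, isCompact_empty, isCompact_empty, by simp, fun _ _ => rfl⟩,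
    fun _ _ => rfl⟩

theorem Eqv.symm {i : ℕ} {X : Type*} [TopologicalSpace X] {f g : M → X} (h : Eqv S i f g) :
    Eqv S i g f := by
  obtain ⟨h, ⟨Q, Q', hQ, hQ', hQQ, hs⟩, he⟩ := h
  exact ⟨h.symm, ⟨Q, Q', hQ, hQ', hQQ, hs.symm⟩, fun x hx => by
    rw [← he x hx, h.symm_apply_apply]⟩

theorem Eqv.trans {i : ℕ} {X : Type*} [TopologicalSpace X] {f g k : M → X} (h : Eqv S i f g)
    (h' : Eqv S i g k) : Eqv S i f k := by
  obtain ⟨h, ⟨Q, Q', hQ, hQ', hQQ, hs⟩, he⟩ := h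
  obtain ⟨h', ⟨P, P', hP, hP', hPP, hs'⟩, he'⟩ := h'
  refine ⟨h.trans h', ⟨Q ∪ P, Q' ∪ P', hQ.union hP, hQ'.union hP', ?_, hs.trans hs'⟩,
    fun x hx => ?_⟩
  · exact union_subset (hQQ.trans (interior_mono subset_union_left))
      (hPP.trans (interior_mono subset_union_right))
  · rw [Homeomorph.trans_apply, he x hx, he' x hx]

/-- precomposition with a morphism -/
theorem Eqv.comp {i j : ℕ} {X : Type*} [TopologicalSpace X] {f g : M → X} (h : Eqv S j f g)
    {e : M → M} (he : Mor S i j e) : Eqv S i (f ∘ e) (g ∘ e) := by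
  obtain ⟨h, hh, hfg⟩ := h
  exact ⟨h, hh, fun x hx => hfg _ (interior_subset (he.mapsK hx))⟩

theorem Emb.comp {i j : ℕ} {X : Type*} [TopologicalSpace X] {f : M → X} (hf : Emb S j f)
    {e : M → M} (he : Mor S i j e) : Emb S i (f ∘ e) := by
  obtain ⟨U, hU, hf⟩ := hf
  obtain ⟨⟨V, hV, hoe⟩, hm⟩ := he
  refine ⟨V ∩ e ⁻¹' U, fun x hx => ⟨hV hx, hU ?_⟩, hf.comp_inter hoe⟩
  exact interior_subset (S.KL j (interior_subset (hm hx)))

theorem Mor.comp {i j k : ℕ} {e e' : M → M} (h : Mor S j k e') (he : Mor S i j e) :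
    Mor S i k (e' ∘ e) :=
  ⟨Emb.comp h.1 he, fun _ hx => h.mapsK (interior_subset (he.2 hx))⟩

/-- `Emb` is stable under postcomposition with homeomorphisms -/
theorem Emb.homeo {i : ℕ} {X Y : Type*} [TopologicalSpace X] [TopologicalSpace Y] {f : M → X}
    (hf : Emb S i f) (h : X ≃ₜ Y) : Emb S i (h ∘ f) := by
  obtain ⟨U, hU, hf⟩ := hf
  exact ⟨U, hU, (OE.of_homeo h isOpen_univ).comp hf (mapsTo_univ _ _)⟩

theorem Emb.congr_eqv {i : ℕ} {X : Type*} [TopologicalSpace X] {f : M → X} (h : X ≃ₜ X)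
    (hs : ∃ Q Q' : Set X, IsCompact Q ∧ IsCompact Q' ∧ Q ⊆ interior Q' ∧ SuppIn h Q) :
    Eqv S i f (h ∘ f) := ⟨h, hs, fun _ _ => rfl⟩

/-- Stability for the pieces, with control of the support. -/
theorem Emb.stable {i : ℕ} {X : Type*} [MetricSpace X] {f : M → X} (hf : Emb S i f) :
    ∃ δ > 0, ∀ g : M → X, Emb S i g → (∀ x ∈ S.L i, dist (f x) (g x) < δ) →
      ∃ h : X ≃ₜ X, SuppIn h (f '' S.L i) ∧ ∀ x ∈ S.K i, h (f x) = g x := by
  obtain ⟨U, hU, hf⟩ := hf
  obtain ⟨δ, hδ, H⟩ := stability n S.locEuc (S.K i) (S.L i) (S.cK i) (S.cL i) (S.KL i) f U hf hU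
  exact ⟨δ, hδ, fun g ⟨U', hU', hg⟩ hd => H g U' hg hU' hd⟩

/-- the image of a piece is compact and has a compact neighbourhood -/
theorem Emb.image_compact {i : ℕ} {X : Type*} [TopologicalSpace X] {f : M → X}
    (hf : Emb S i f) : IsCompact (f '' S.L i) ∧
      ∃ Q' : Set X, IsCompact Q' ∧ f '' S.L i ⊆ interior Q' := by
  obtain ⟨U, hU, hf⟩ := hf
  refine ⟨(S.cL i).image_of_continuousOn (hf.cont.mono hU), ?_⟩
  obtain ⟨L', hL', hLL, hLU⟩ := exists_compact_nhd n S.locEuc (S.L i) U (S.cL i) hf.isOpen hU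
  refine ⟨f '' L', hL'.image_of_continuousOn (hf.cont.mono hLU), ?_⟩
  have h1 : IsOpen (f '' interior L') := hf.opn _ (interior_subset.trans hLU) isOpen_interior
  exact (image_mono hLL).trans (interior_maximal (image_mono interior_subset) h1)

/-- Stability in terms of `Eqv`. -/
theorem Emb.stable_eqv {i : ℕ} {X : Type*} [MetricSpace X] {f : M → X} (hf : Emb S i f) :
    ∃ δ > 0, ∀ g : M → X, Emb S i g → (∀ x ∈ S.L i, dist (f x) (g x) < δ) → Eqv S i f g := by
  obtain ⟨δ, hδ, H⟩ := hf.stable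
  obtain ⟨hc, Q', hQ', hsub⟩ := hf.image_compact
  refine ⟨δ, hδ, fun g hg hd => ?_⟩
  obtain ⟨h, hs, he⟩ := H g hg hd
  exact ⟨h, ⟨f '' S.L i, Q', hc, hQ', hsub, hs⟩, he⟩

end defs

end Pool.Agent.H75.Mfd
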