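import Pool.Agent.H75.Mfd.Sys

set_option autoImplicit false

namespace Pool.Agent.H75.Mfd

open Set Topology Metric Filter

variable {n : ℕ} {M : Type} [MetricSpace M]

/-- A compatible exhausting system of pieces of `X`. -/
structure IsSystem (S : Sys n M) (X : Type*) [TopologicalSpace X] (c : ℕ → ℕ × ℕ)
    (f : ℕ → M → X) : Prop where
  good : ∀ m, S.good (c m).1 (c (m + 1)).1 (c m).2
  cont : ∀ m, ContinuousOn (f m) (S.K (c m).1)
  inj : ∀ m, InjOn (f m) (S.K (c m).1)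
  oe : ∀ m, OE (f m) (interior (S.K (c m).1))
  comp : ∀ m, ∀ x ∈ S.K (c m).1, f (m + 1) (S.u (c m).1 (c (m + 1)).1 (c m).2 x) = f m x
  exh : ∀ Q Q' : Set X, IsCompact Q → IsCompact Q' → Q ⊆ interior Q' →
    ∃ m, Q ⊆ f m '' interior (S.K (c m).1)

/-- transition maps of a system -/
def tr (S : Sys n M) (c : ℕ → ℕ × ℕ) (m : ℕ) : ℕ → M → M
  | 0 => id
  | d + 1 => S.u (c (m + d)).1 (c (m + d + 1)).1 (c (m + d)).2 ∘ tr S c m d

/-- equivalence inside a piece -/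
def TT (S : Sys n M) (i j : ℕ) (a b : M → M) : Prop :=
  ∃ h : M ≃ₜ M, (∃ Q : Set M, IsCompact Q ∧ Q ⊆ interior (S.K j) ∧ SuppIn h Q) ∧
    ∀ x ∈ S.K i, h (a x) = b x

/-- equivalence at a finite stage of the system -/
def RR (S : Sys n M) (c : ℕ → ℕ × ℕ) (i m : ℕ) (a : M → M) (m' : ℕ) (b : M → M) : Prop :=
  ∃ d d', m + d = m' + d' ∧ TT S i (c (m + d)).1 (tr S c m d ∘ a) (tr S c m' d' ∘ b)

theorem IsSystem.emb {S : Sys n M} {X : Type*} [TopologicalSpace X] {c : ℕ → ℕ × ℕ}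
    {f : ℕ → M → X} (hs : IsSystem S X c f) {i m : ℕ} {a : M → M} (ha : Mor S i (c m).1 a) :
    Emb S i (f m ∘ a) := by
  obtain ⟨⟨U, hU, h⟩, hm⟩ := ha
  exact ⟨U ∩ a ⁻¹' interior (S.K (c m).1), fun x hx => ⟨hU hx, hm hx⟩, (hs.oe m).comp_inter h⟩

end Pool.Agent.H75.Mfd
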