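import Pool.Agent.H75.Mfd.Basic

/-!
Module THETA. The map (v, x) -> (e^{v_0} cos x, e^{v_0} sin x, v_1, ..., v_m): uniform estimates on
`norm v <= B`. Write z = v_0 + i x, so the first two coordinates are exp z. For |zeta| <= 1/2,
|exp zeta - 1| >= |zeta| / 2 (Complex.norm_exp_sub_one_sub_id_le), which gives (exp); for (opn) use
the logarithm of 1 + h with |h| <= 1/2, |log (1+h)| <= (3/2) |h|. All norms are sup norms; the
complex norm is between the sup norm and twice the sup norm.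
-/

set_option autoImplicit false

namespace Pool.Agent.H75.Mfd

open Set Topology Metric Filter

/-- complex exponential in the pair (first coordinate, new coordinate) -/
noncomputable def theta (m : ℕ) (p : (Fin (m + 1) → ℝ) × ℝ) : Fin (m + 2) → ℝ :=
  Fin.cons (Real.exp (p.1 0) * Real.cos p.2)
    (Fin.cons (Real.exp (p.1 0) * Real.sin p.2) (fun i : Fin m => p.1 i.succ))

theorem theta_zero (m : ℕ) (p : (Fin (m + 1) → ℝ) × ℝ) :
    theta m p 0 = Real.exp (p.1 0) * Real.cos p.2 := rfl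

theorem theta_one (m : ℕ) (p : (Fin (m + 1) → ℝ) × ℝ) :
    theta m p (Fin.succ 0) = Real.exp (p.1 0) * Real.sin p.2 := rfl

theorem theta_succ (m : ℕ) (p : (Fin (m + 1) → ℝ) × ℝ) (i : Fin m) :
    theta m p i.succ.succ = p.1 i.succ := rfl

/-- the complex number attached to a point of the source -/
noncomputable def zz {m : ℕ} (p : (Fin (m + 1) → ℝ) × ℝ) : ℂ := ⟨p.1 0, p.2⟩

/-- the complex number made from the first two coordinates of the target -/
noncomputable def ww {m : ℕ} (w : Fin (m + 2) → ℝ) : ℂ := ⟨w 0, w (Fin.succ 0)⟩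

theorem ww_theta {m : ℕ} (p : (Fin (m + 1) → ℝ) × ℝ) : ww (theta m p) = Complex.exp (zz p) := by
  apply Complex.ext
  · simp [ww, zz, theta_zero, Complex.exp_re]
  · rw [Complex.exp_im]
    rfl

theorem norm_le_two_sup (z : ℂ) (s : ℝ) (h1 : |z.re| ≤ s) (h2 : |z.im| ≤ s) : ‖z‖ ≤ 2 * s := by
  have := Complex.norm_le_abs_re_add_abs_im z
  linarith

theorem norm_zz_sub_le {m : ℕ} (a b : (Fin (m + 1) → ℝ) × ℝ) : ‖zz a - zz b‖ ≤ 2 * dist a b := by
  apply norm_le_two_sup
  · have h1 : dist (a.1 0) (b.1 0) ≤ dist a.1 b.1 := dist_le_pi_dist _ _ _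
    have h2 : dist a.1 b.1 ≤ dist a b := le_max_left _ _
    rw [Real.dist_eq] at h1
    simpa [zz] using h1.trans h2
  · have h2 : dist a.2 b.2 ≤ dist a b := le_max_right _ _
    rw [Real.dist_eq] at h2
    simpa [zz] using h2

theorem norm_ww_sub_le {m : ℕ} (a b : Fin (m + 2) → ℝ) : ‖ww a - ww b‖ ≤ 2 * dist a b := by
  apply norm_le_two_sup
  · have h1 : dist (a 0) (b 0) ≤ dist a b := dist_le_pi_dist _ _ _
    rw [Real.dist_eq] at h1
    simpa [ww] using h1
  · have h1 : dist (a (Fin.succ 0)) (b (Fin.succ 0)) ≤ dist a b := dist_le_pi_dist _ _ _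
    rw [Real.dist_eq] at h1
    simpa [ww] using h1

/-- distance in the target from the complex part and the remaining coordinates -/
theorem dist_target_le {m : ℕ} (a b : Fin (m + 2) → ℝ) (s : ℝ) (hs : 0 ≤ s)
    (h : ‖ww a - ww b‖ ≤ s) (h' : ∀ i : Fin m, |a i.succ.succ - b i.succ.succ| ≤ s) :
    dist a b ≤ s := by
  rw [dist_pi_le_iff hs]
  intro i
  rw [Real.dist_eq]
  refine Fin.cases ?_ (fun j => ?_) i
  · have := Complex.abs_re_le_norm (ww a - ww b)
    simpa [ww] using this.trans h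
  · refine Fin.cases ?_ (fun k => h' k) j
    have := Complex.abs_im_le_norm (ww a - ww b)
    simpa [ww] using this.trans h

theorem dist_source_le {m : ℕ} (a b : (Fin (m + 1) → ℝ) × ℝ) (s : ℝ) (hs : 0 ≤ s)
    (h : ‖zz a - zz b‖ ≤ s) (h' : ∀ i : Fin m, |a.1 i.succ - b.1 i.succ| ≤ s) :
    dist a b ≤ s := by
  rw [Prod.dist_eq]
  apply max_le
  · rw [dist_pi_le_iff hs]
    intro i
    rw [Real.dist_eq]
    refine Fin.cases ?_ (fun j => h' j) i
    have := Complex.abs_re_le_norm (zz a - zz b)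
    simpa [zz] using this.trans h
  · have := Complex.abs_im_le_norm (zz a - zz b)
    rw [Real.dist_eq]
    simpa [zz] using this.trans h

theorem abs_coord_le {m : ℕ} {B : ℝ} {v : Fin (m + 1) → ℝ} (h : ‖v‖ ≤ B) (i : Fin (m + 1)) :
    |v i| ≤ B := (norm_le_pi_norm v i).trans h

theorem norm_exp_zz {m : ℕ} (p : (Fin (m + 1) → ℝ) × ℝ) :
    ‖Complex.exp (zz p)‖ = Real.exp (p.1 0) := by
  rw [Complex.norm_exp]; rfl

theorem norm_exp_sub_one_le (z : ℂ) (hz : ‖z‖ ≤ 1) : ‖Complex.exp z - 1‖ ≤ 2 * ‖z‖ := by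
  have h1 := Complex.norm_exp_sub_one_sub_id_le hz
  have h2 : ‖Complex.exp z - 1‖ ≤ ‖Complex.exp z - 1 - z‖ + ‖z‖ := by
    have := norm_add_le (Complex.exp z - 1 - z) z
    simpa using this
  have h3 : ‖z‖ ^ 2 ≤ ‖z‖ := by nlinarith [norm_nonneg z]
  linarith

theorem norm_exp_sub_one_ge (z : ℂ) (hz : ‖z‖ ≤ 1 / 2) : ‖z‖ / 2 ≤ ‖Complex.exp z - 1‖ := by
  have h1 := Complex.norm_exp_sub_one_sub_id_le (x := z) (by linarith)
  have h2 : ‖z‖ ≤ ‖Complex.exp z - 1‖ + ‖Complex.exp z - 1 - z‖ := by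
    have := norm_sub_le (Complex.exp z - 1) (Complex.exp z - 1 - z)
    simpa using this
  have h3 : ‖z‖ ^ 2 ≤ ‖z‖ / 2 := by nlinarith [norm_nonneg z]
  linarith

theorem exp_sub_exp_eq (z w : ℂ) :
    Complex.exp z - Complex.exp w = Complex.exp w * (Complex.exp (z - w) - 1) := by
  rw [mul_sub, ← Complex.exp_add]
  ring_nf

theorem theta_cont (m : ℕ) : Continuous (theta m) := by
  refine continuous_pi fun i => ?_
  refine Fin.cases ?_ (fun j => ?_) i
  · simp only [theta_zero]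
    fun_prop
  · refine Fin.cases ?_ (fun k => ?_) j
    · simp only [theta_one]
      fun_prop
    · simp only [theta_succ]
      fun_prop

theorem theta_bdd (m : ℕ) (B : ℝ) : ∃ B' : ℝ, ∀ p : (Fin (m + 1) → ℝ) × ℝ, ‖p.1‖ ≤ B →
    ‖theta m p‖ ≤ B' := by
  refine ⟨Real.exp B + |B|, fun p hp => ?_⟩
  have hB : 0 ≤ B := (norm_nonneg _).trans hp
  have h0 : p.1 0 ≤ B := (le_abs_self _).trans (abs_coord_le hp 0)
  have hE : Real.exp (p.1 0) ≤ Real.exp B := Real.exp_le_exp.2 h0
  have hpos := Real.exp_pos (p.1 0)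
  rw [abs_of_nonneg hB]
  have hEB := Real.exp_pos B
  rw [pi_norm_le_iff_of_nonneg (by positivity)]
  intro i
  rw [Real.norm_eq_abs]
  refine Fin.cases ?_ (fun j => ?_) i
  · rw [theta_zero, abs_mul, abs_of_pos hpos]
    have := Real.abs_cos_le_one p.2
    nlinarith [abs_nonneg (Real.cos p.2)]
  · refine Fin.cases ?_ (fun k => ?_) j
    · rw [theta_one, abs_mul, abs_of_pos hpos]
      have := Real.abs_sin_le_one p.2
      nlinarith [abs_nonneg (Real.sin p.2)]
    · rw [theta_succ]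
      have := abs_coord_le hp k.succ
      linarith

theorem theta_uc (m : ℕ) (B : ℝ) : ∀ ε > 0, ∃ δ > 0, ∀ a b : (Fin (m + 1) → ℝ) × ℝ, ‖a.1‖ ≤ B →
    dist b a < δ → dist (theta m b) (theta m a) < ε := by
  intro ε hε
  have hEB := Real.exp_pos B
  refine ⟨min (1 / 2) (ε / 2 / (4 * Real.exp B + 1)), by positivity, fun a b ha hab => ?_⟩
  have h1 : dist b a < 1 / 2 := hab.trans_le (min_le_left _ _)
  have h2 : dist b a < ε / 2 / (4 * Real.exp B + 1) := hab.trans_le (min_le_right _ _)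
  rw [lt_div_iff₀ (by positivity)] at h2
  have h0 : a.1 0 ≤ B := (le_abs_self _).trans (abs_coord_le ha 0)
  have hE : Real.exp (a.1 0) ≤ Real.exp B := Real.exp_le_exp.2 h0
  have hz : ‖zz b - zz a‖ ≤ 2 * dist b a := norm_zz_sub_le b a
  have hd := dist_nonneg (x := b) (y := a)
  refine (dist_target_le _ _ (ε / 2) (by positivity) ?_ ?_).trans_lt (by linarith)
  · rw [ww_theta, ww_theta, exp_sub_exp_eq, norm_mul, norm_exp_zz]
    have h3 := norm_exp_sub_one_le (zz b - zz a) (by linarith)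
    have h4 : ‖Complex.exp (zz b - zz a) - 1‖ ≤ 4 * dist b a := by linarith
    have h5 := mul_le_mul hE h4 (norm_nonneg _) hEB.le
    nlinarith
  · intro i
    rw [theta_succ, theta_succ, ← Real.dist_eq]
    have h3 : dist (b.1 i.succ) (a.1 i.succ) ≤ dist b.1 a.1 := dist_le_pi_dist _ _ _
    have h4 : dist b.1 a.1 ≤ dist b a := le_max_left _ _
    nlinarith

theorem theta_exp (m : ℕ) (B : ℝ) : ∃ r > 0, ∃ c > 0, ∀ a b b' : (Fin (m + 1) → ℝ) × ℝ,
    ‖a.1‖ ≤ B → dist b a < r → dist b' a < r → c * dist b b' ≤ dist (theta m b) (theta m b') := by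
  have hEB := Real.exp_pos (-(B + 1))
  refine ⟨1 / 8, by norm_num, min 1 (Real.exp (-(B + 1)) / 4), by positivity,
    fun a b b' ha hb hb' => ?_⟩
  set c := min 1 (Real.exp (-(B + 1)) / 4) with hc
  have hc1 : c ≤ 1 := min_le_left _ _
  have hc2 : c ≤ Real.exp (-(B + 1)) / 4 := min_le_right _ _
  have hc0 : 0 < c := by positivity
  have hbb : dist b b' < 1 / 4 := by
    have := dist_triangle_right b b' a
    linarith
  have hz : ‖zz b - zz b'‖ ≤ 2 * dist b b' := norm_zz_sub_le b b'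
  have h0 : |a.1 0| ≤ B := abs_coord_le ha 0
  have h1 : dist (b'.1 0) (a.1 0) < 1 / 8 :=
    ((dist_le_pi_dist b'.1 a.1 0).trans (le_max_left _ _)).trans_lt hb'
  rw [Real.dist_eq] at h1
  have h2 : -(B + 1) ≤ b'.1 0 := by
    have h3 := (abs_le.1 h0).1
    have h4 := (abs_lt.1 h1).1
    linarith
  have hE : Real.exp (-(B + 1)) ≤ Real.exp (b'.1 0) := Real.exp_le_exp.2 h2
  set D := dist (theta m b) (theta m b') with hD
  have hD0 : 0 ≤ D := dist_nonneg
  have key : dist b b' ≤ D / c := by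
    apply dist_source_le _ _ _ (by positivity)
    · have h5 := norm_ww_sub_le (theta m b) (theta m b')
      rw [ww_theta, ww_theta, exp_sub_exp_eq, norm_mul, norm_exp_zz] at h5
      have h6 := norm_exp_sub_one_ge (zz b - zz b') (by linarith)
      rw [le_div_iff₀ hc0]
      have h7 : Real.exp (-(B + 1)) * (‖zz b - zz b'‖ / 2) ≤
          Real.exp (b'.1 0) * ‖Complex.exp (zz b - zz b') - 1‖ :=
        mul_le_mul hE h6 (by positivity) (by positivity)
      have h8 : ‖zz b - zz b'‖ * c ≤ ‖zz b - zz b'‖ * (Real.exp (-(B + 1)) / 4) :=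
        mul_le_mul_of_nonneg_left hc2 (norm_nonneg _)
      nlinarith
    · intro i
      have h5 : dist (theta m b i.succ.succ) (theta m b' i.succ.succ) ≤ D := dist_le_pi_dist _ _ _
      rw [theta_succ, theta_succ, Real.dist_eq] at h5
      refine h5.trans ?_
      rw [le_div_iff₀ hc0]
      nlinarith
  rw [le_div_iff₀ hc0] at key
  linarith

theorem theta_opn (m : ℕ) (B : ℝ) : ∃ r > 0, ∃ c > 0, ∀ a : (Fin (m + 1) → ℝ) × ℝ,
    ‖a.1‖ ≤ B → ∀ s, 0 < s → s ≤ r → ball (theta m a) (c * s) ⊆ theta m '' ball a s := by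
  have hEB := Real.exp_pos (-B)
  refine ⟨1, one_pos, min (3 / 4) (Real.exp (-B) / 4), by positivity, fun a ha s hs hs1 w hw => ?_⟩
  set c := min (3 / 4) (Real.exp (-B) / 4) with hc
  have hc1 : c ≤ 3 / 4 := min_le_left _ _
  have hc2 : c ≤ Real.exp (-B) / 4 := min_le_right _ _
  have hc0 : 0 < c := by positivity
  rw [mem_ball] at hw
  have h0 : |a.1 0| ≤ B := abs_coord_le ha 0
  have hE : Real.exp (-B) ≤ Real.exp (a.1 0) := Real.exp_le_exp.2 (abs_le.1 h0).1
  set E := Complex.exp (zz a) with hEdef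
  have hE0 : E ≠ 0 := Complex.exp_ne_zero _
  have hEn : ‖E‖ = Real.exp (a.1 0) := norm_exp_zz a
  have h1 : ‖ww w - E‖ ≤ 2 * dist w (theta m a) := by
    rw [hEdef, ← ww_theta]
    exact norm_ww_sub_le _ _
  set h := (ww w - E) / E with hh
  have hn : ‖h‖ ≤ s / 2 := by
    rw [hh, norm_div, hEn, div_le_iff₀ (Real.exp_pos _)]
    have h2 : c * s ≤ Real.exp (-B) / 4 * s := mul_le_mul_of_nonneg_right hc2 hs.le
    have h3 : Real.exp (-B) * s ≤ Real.exp (a.1 0) * s := mul_le_mul_of_nonneg_right hE hs.le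
    nlinarith
  have hlog := Complex.norm_log_one_add_half_le_self (z := h) (by linarith)
  have hne : (1 + h) ≠ 0 := by
    intro h2
    have h3 : h = -1 := by linear_combination h2
    rw [h3, norm_neg, norm_one] at hn
    linarith
  set ζ := Complex.log (1 + h) with hζ
  have hexp : Complex.exp ζ = 1 + h := Complex.exp_log hne
  have hζn : ‖ζ‖ ≤ 3 / 4 * s := by linarith
  let b : (Fin (m + 1) → ℝ) × ℝ :=
    (Fin.cons (a.1 0 + ζ.re) (fun i : Fin m => w i.succ.succ), a.2 + ζ.im)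
  have hzb : zz b = zz a + ζ := by
    apply Complex.ext <;> simp [zz, b]
  have hwb : ww (theta m b) = ww w := by
    rw [ww_theta, hzb, Complex.exp_add, hexp, ← hEdef, hh]
    field_simp
    ring
  refine ⟨b, ?_, ?_⟩
  · rw [mem_ball]
    refine (dist_source_le b a (3 / 4 * s) (by positivity) ?_ ?_).trans_lt (by linarith)
    · rw [hzb, add_sub_cancel_left]
      exact hζn
    · intro i
      have h5 : dist (w i.succ.succ) (theta m a i.succ.succ) ≤ dist w (theta m a) :=
        dist_le_pi_dist _ _ _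
      rw [theta_succ, Real.dist_eq] at h5
      have h6 : c * s ≤ 3 / 4 * s := mul_le_mul_of_nonneg_right hc1 hs.le
      have h7 : b.1 i.succ = w i.succ.succ := rfl
      rw [h7]
      linarith
  · funext i
    refine Fin.cases ?_ (fun j => ?_) i
    · exact congrArg Complex.re hwb
    · refine Fin.cases ?_ (fun k => rfl) j
      exact congrArg Complex.im hwb

end Pool.Agent.H75.Mfd
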