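import Pool.Agent.H75.Mfd.TrDefs

/-!
Module TM. Relative extension theorem in a locally Euclidean metric space.
(1) one chart: K inside range phi. K' = phi^{-1} K compact, r <= 1 with cthickening r K' inside
phi^{-1} U, A'' = phi^{-1} A cap cthickening 1 K' compact, thickening r A'' inside phi^{-1} W;
apply trel_rn to phi^{-1} u phi (defined and close to id for small delta), then `transport`.
V' = phi (thickening r' K'), W' = W cap (phi (thickening r' A'') cup (phi (cthickening (r/2) K'))^c).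
(2) union: the statement for K1 and for K2 gives it for K1 cup K2: h1 for (K1, A, W), then
u1 = h1^{-1} u is the identity near A cup K1; h2 for (K2, A cup K1, W1' cup V1'), h = h1 o h2.
(3) every compact K is a finite union of compact sets as in (1).
-/

set_option autoImplicit false

namespace Pool.Agent.H75.Mfd

open Set Topology Metric Filter

theorem tr_union {M : Type*} [MetricSpace M] (K₁ K₂ : Set M) (h1 : IsCompact K₁)
    (h2 : IsCompact K₂) (hT1 : TR K₁) (hT2 : TR K₂) : TR (K₁ ∪ K₂) := by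
  intro U hU hKU A W hA hW hAW
  obtain ⟨V1, W1, Q1, hV1, hKV1, hV1U, hW1, hAW1, hW1W, hQ1, hQ1U, key1⟩ :=
    hT1 U hU (subset_union_left.trans hKU) A W hA hW hAW
  obtain ⟨V2, W2, Q2, hV2, hKV2, hV2U, hW2, hAW2, hW2W, hQ2, hQ2U, key2⟩ :=
    hT2 U hU (subset_union_right.trans hKU) (A ∪ K₁) (W1 ∪ V1) (hA.union h1) (hW1.union hV1)
      (union_subset_union hAW1 hKV1)
  refine ⟨V2 ∪ (V1 ∩ W2), W1 ∩ W2, Q2 ∪ Q1, hV2.union (hV1.inter hW2), ?_,
    union_subset hV2U (inter_subset_left.trans hV1U), hW1.inter hW2,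
    subset_inter hAW1 (subset_union_left.trans hAW2), inter_subset_left.trans hW1W,
    hQ2.union hQ1, union_subset hQ2U hQ1U, ?_⟩
  · rintro x (hx | hx)
    · exact Or.inr ⟨hKV1 hx, hAW2 (Or.inr hx)⟩
    · exact Or.inl (hKV2 hx)
  intro ε hε
  obtain ⟨δ2, hδ2, key2⟩ := key2 (ε / 2) (by positivity)
  obtain ⟨δ1, hδ1, key1⟩ := key1 (min (ε / 2) (δ2 / 2)) (lt_min (by positivity) (by positivity))
  refine ⟨min δ1 (δ2 / 2), lt_min hδ1 (by positivity), fun u hu hud huW => ?_⟩
  obtain ⟨h₁, hs1, hi1, he1, hd1⟩ := key1 u hu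
    (fun x hx => lt_of_lt_of_le (hud x hx) (min_le_left _ _)) huW
  have hd1' : ∀ y, dist (h₁.symm y) y < δ2 / 2 := by
    intro y
    have := hd1 (h₁.symm y)
    rw [h₁.apply_symm_apply, dist_comm] at this
    exact lt_of_lt_of_le this (min_le_right _ _)
  have hu1 : OE (h₁.symm ∘ u) U :=
    (OE.of_homeo h₁.symm isOpen_univ).comp hu (fun x _ => mem_univ _)
  obtain ⟨h₂, hs2, hi2, he2, hd2⟩ := key2 (h₁.symm ∘ u) hu1 (fun x hx => by
    calc dist ((h₁.symm ∘ u) x) x ≤ dist (h₁.symm (u x)) (u x) + dist (u x) x :=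
          dist_triangle _ _ _
      _ < δ2 / 2 + δ2 / 2 := add_lt_add (hd1' _) (lt_of_lt_of_le (hud x hx) (min_le_right _ _))
      _ = δ2 := by ring) (by
    rintro x ⟨hxU, hx | hx⟩
    · have h3 : u x = x := huW x ⟨hxU, hW1W hx⟩
      have h4 : h₁ x = x := hi1 x hx
      show h₁.symm (u x) = x
      rw [h3, h₁.symm_apply_eq, h4]
    · show h₁.symm (u x) = x
      rw [← he1 x hx, h₁.symm_apply_apply])
  refine ⟨h₂.trans h₁, hs2.trans hs1, ?_, ?_, ?_⟩
  · rintro x ⟨hx1, hx2⟩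
    rw [Homeomorph.trans_apply, hi2 x hx2, hi1 x hx1]
  · rintro x (hx | ⟨hx1, hx2⟩)
    · rw [Homeomorph.trans_apply, he2 x hx, Function.comp_apply, h₁.apply_symm_apply]
    · rw [Homeomorph.trans_apply, hi2 x hx2, he1 x hx1]
  · intro x
    rw [Homeomorph.trans_apply]
    calc dist (h₁ (h₂ x)) x ≤ dist (h₁ (h₂ x)) (h₂ x) + dist (h₂ x) x := dist_triangle _ _ _
      _ < ε / 2 + ε / 2 := add_lt_add (lt_of_lt_of_le (hd1 _) (min_le_left _ _)) (hd2 x)
      _ = ε := by ring

end Pool.Agent.H75.Mfd
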