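import Pool.Agent.H75.Mfd.TrChart
import Pool.Agent.H75.Mfd.TrUnion
import Pool.Agent.H75.Mfd.CompactNhd

/-!
Module TM. Relative extension theorem in a locally Euclidean metric space.
(1) one chart: K inside range phi. K' = phi^{-1} K compact, r <= 1 with cthickening r K' inside
phi^{-1} U, A'' = phi^{-1} A cap cthickening 1 K' compact, thickening r A'' inside phi^{-1} W;
apply trel_rn to phi^{-1} u phi (defined and close to id for small delta), then `transport`.
V' = phi (thickening r' K'), W' = W cap (phi (thickening r' A'') cup (phi (cthickening (r/2) K'))^c).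
(2) union: the statement for K1 and for K2 gives it for K1 cup K2: h1 for (K1, A, W), then
u1 = h1^{-1} u is the identity near A cup K1; h2 for (K2, A cup K1, W1' cup V1'), h = h1 o h2.
(3) every compact K is a finite union of compact sets as in (1).
-/

set_option autoImplicit false

namespace Pool.Agent.H75.Mfd

open Set Topology Metric Filter

theorem tr_empty (M : Type*) [MetricSpace M] : TR (∅ : Set M) := by
  intro U hU _ A W hA hW hAW
  refine ⟨∅, W, ∅, isOpen_empty, Subset.rfl, empty_subset _, hW, hAW, Subset.rfl, isCompact_empty,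
    empty_subset _, fun ε hε => ⟨1, one_pos, fun u _ _ _ => ?_⟩⟩
  exact ⟨Homeomorph.refl M, fun _ _ => rfl, fun _ _ => rfl, fun _ h => h.elim,
    fun x => by rw [Homeomorph.refl_apply, id, dist_self]; exact hε⟩

theorem tr_all {M : Type*} [MetricSpace M] (n : ℕ) (hM : LocEuc n M) (K : Set M)
    (hK : IsCompact K) : TR K := by
  classical
  choose φ hφ hφ0 using hM
  obtain ⟨t, -, ht⟩ := hK.elim_nhds_subcover (fun x => range (φ x))
    (fun x _ => (hφ x).isOpen_range.mem_nhds ⟨0, hφ0 x⟩)
  obtain ⟨L, hL, hLφ, hKL⟩ := hK.finite_compact_cover t (fun x => range (φ x))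
    (fun x _ => (hφ x).isOpen_range) ht
  rw [hKL]
  have key : ∀ s : Finset M, IsCompact (⋃ i ∈ s, L i) ∧ TR (⋃ i ∈ s, L i) := by
    intro s
    induction s using Finset.induction_on with
    | empty =>
      simp only [Finset.notMem_empty, iUnion_of_empty, iUnion_empty]
      exact ⟨isCompact_empty, tr_empty M⟩
    | insert a s _ ih =>
      rw [Finset.set_biUnion_insert]
      exact ⟨(hL a).union ih.1, tr_union _ _ (hL a) ih.1 (tr_chart n (φ a) (hφ a) _ (hL a) (hLφ a))
        ih.2⟩
  exact (key t).2

end Pool.Agent.H75.Mfd
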