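import Pool.Agent.H75.Mfd.TrDefs
import Pool.Agent.H75.Mfd.TrelRn

/-!
Module TM. Relative extension theorem in a locally Euclidean metric space.
(1) one chart: K inside range phi. K' = phi^{-1} K compact, r <= 1 with cthickening r K' inside
phi^{-1} U, A'' = phi^{-1} A cap cthickening 1 K' compact, thickening r A'' inside phi^{-1} W;
apply trel_rn to phi^{-1} u phi (defined and close to id for small delta), then `transport`.
V' = phi (thickening r' K'), W' = W cap (phi (thickening r' A'') cup (phi (cthickening (r/2) K'))^c).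
(2) union: the statement for K1 and for K2 gives it for K1 cup K2: h1 for (K1, A, W), then
u1 = h1^{-1} u is the identity near A cup K1; h2 for (K2, A cup K1, W1' cup V1'), h = h1 o h2.
(3) every compact K is a finite union of compact sets as in (1).
-/

set_option autoImplicit false

namespace Pool.Agent.H75.Mfd

open Set Topology Metric Filter

/-- uniform continuity at the points of a compact set -/
theorem unif_at_compact {X Y : Type*} [MetricSpace X] [MetricSpace Y] {f : X → Y} {S : Set X}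
    (hS : IsCompact S) (hf : ∀ a ∈ S, ContinuousAt f a) (ε : ℝ) (hε : 0 < ε) :
    ∃ δ > 0, ∀ a ∈ S, ∀ b, dist b a < δ → dist (f b) (f a) < ε := by
  have h := hS.uniformContinuousAt_of_continuousAt f hf (Metric.dist_mem_uniformity hε)
  obtain ⟨δ, hδ, hsub⟩ := Metric.mem_uniformity_dist.1 h
  refine ⟨δ, hδ, fun a ha b hb => ?_⟩
  rw [dist_comm] at hb ⊢
  exact hsub hb ha

theorem tr_chart {M : Type*} [MetricSpace M] (n : ℕ) (φ : (Fin n → ℝ) → M)
    (hφ : IsOpenEmbedding φ) (K : Set M) (hK : IsCompact K) (hKφ : K ⊆ range φ) : TR K := by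
  intro U hU hKU A W hA hW hAW
  -- the compact set in the chart
  obtain ⟨K', hK'def⟩ : ∃ K', K' = φ ⁻¹' K := ⟨_, rfl⟩
  have hK' : IsCompact K' := by
    rw [hK'def]
    exact (hφ.toIsEmbedding.isInducing.isCompact_preimage_iff hKφ).2 hK
  have hφK' : φ '' K' = K := by rw [hK'def]; exact image_preimage_eq_of_subset hKφ
  obtain ⟨r₁, hr₁, hr₁U⟩ := hK'.exists_cthickening_subset_open (hU.preimage hφ.continuous)
    (by rw [hK'def]; exact preimage_mono hKU)
  have hA'' : IsCompact (φ ⁻¹' A ∩ cthickening 1 K') :=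
    (hK'.cthickening).inter_left (hA.isClosed.preimage hφ.continuous)
  obtain ⟨r₂, hr₂, hr₂W⟩ := hA''.exists_thickening_subset_open (hW.preimage hφ.continuous)
    (inter_subset_left.trans (preimage_mono hAW))
  obtain ⟨r, hr, hrr₁, hrr₂, hr1⟩ : ∃ r > 0, r ≤ r₁ ∧ r ≤ r₂ ∧ r ≤ 1 :=
    ⟨min r₁ (min r₂ 1), lt_min hr₁ (lt_min hr₂ one_pos), min_le_left _ _,
      (min_le_right _ _).trans (min_le_left _ _), (min_le_right _ _).trans (min_le_right _ _)⟩
  have hrU : cthickening r K' ⊆ φ ⁻¹' U := (cthickening_mono hrr₁ _).trans hr₁U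
  have hrW : thickening r (φ ⁻¹' A ∩ cthickening 1 K') ⊆ φ ⁻¹' W :=
    (thickening_mono hrr₂ _).trans hr₂W
  obtain ⟨r', hr', key⟩ := trel_rn n K' hK' (φ ⁻¹' A ∩ cthickening 1 K') r hr
  have hφo : OE φ univ := OE.of_isOpenEmbedding hφ isOpen_univ
  obtain ⟨k, hk, hkl, hkr, -⟩ := hφo.exists_inv
  have hr2 : cthickening (r / 2) K' ⊆ cthickening r K' := cthickening_mono (by linarith) _
  have hQ : IsCompact (φ '' cthickening (r / 2) K') := hK'.cthickening.image hφ.continuous
  refine ⟨φ '' thickening (min r' r) K',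
    W ∩ (φ '' thickening r' (φ ⁻¹' A ∩ cthickening 1 K') ∪ (φ '' cthickening (r / 2) K')ᶜ),
    φ '' cthickening (r / 2) K', hφ.isOpenMap _ isOpen_thickening, ?_, ?_, ?_, ?_,
    inter_subset_left, hQ, ?_, ?_⟩
  · rw [← hφK']
    exact image_mono (self_subset_thickening (lt_min hr' hr) _)
  · rintro _ ⟨z, hz, rfl⟩
    exact hrU (thickening_subset_cthickening _ _ (thickening_mono (min_le_right _ _) _ hz))
  · exact hW.inter ((hφ.isOpenMap _ isOpen_thickening).union hQ.isClosed.isOpen_compl)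
  · intro a ha
    refine ⟨hAW ha, ?_⟩
    by_cases haQ : a ∈ φ '' cthickening (r / 2) K'
    · obtain ⟨z, hz, rfl⟩ := haQ
      left
      exact ⟨z, self_subset_thickening hr' _ ⟨ha, cthickening_mono (by linarith) _ hz⟩, rfl⟩
    · exact Or.inr haQ
  · rintro _ ⟨z, hz, rfl⟩
    exact hrU (hr2 hz)
  intro ε hε
  obtain ⟨ε₀, hε₀, hφu⟩ := unif_at_compact (hK'.cthickening (r := r / 2))
    (fun a _ => hφ.continuous.continuousAt (x := a)) ε hε
  obtain ⟨δ₀, hδ₀, key⟩ := key ε₀ hε₀
  have hSc : IsCompact (φ '' cthickening r K') := hK'.cthickening.image hφ.continuous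
  have hkc : ∀ a ∈ φ '' cthickening r K', ContinuousAt k a := by
    rintro _ ⟨z, -, rfl⟩
    exact hk.cont.continuousAt (hk.isOpen.mem_nhds ⟨z, mem_univ _, rfl⟩)
  obtain ⟨δ₁, hδ₁, hku⟩ := unif_at_compact hSc hkc δ₀ hδ₀
  obtain ⟨δ₂, hδ₂, hδ₂r⟩ := hSc.exists_thickening_subset_open hφo.image_isOpen
    (image_mono (subset_univ _))
  refine ⟨min δ₁ δ₂, lt_min hδ₁ hδ₂, fun u hu hud huW => ?_⟩
  have hdom : ∀ z ∈ thickening r K', φ z ∈ U := fun z hz =>
    hrU (thickening_subset_cthickening _ _ hz)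
  have hrange : ∀ z ∈ thickening r K', u (φ z) ∈ φ '' univ := by
    intro z hz
    refine hδ₂r (mem_thickening_iff.2 ⟨φ z, ⟨z, thickening_subset_cthickening _ _ hz, rfl⟩, ?_⟩)
    exact lt_of_lt_of_le (hud _ (hdom z hz)) (min_le_right _ _)
  have hg : OE (k ∘ (u ∘ φ)) (thickening r K') := by
    refine hk.comp (hu.comp (hφo.mono isOpen_thickening (subset_univ _)) hdom) ?_
    exact fun z hz => hrange z hz
  obtain ⟨h₀, hs0, hi0, he0, hd0⟩ := key (k ∘ (u ∘ φ)) hg (by
    intro z hz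
    have h1 := hku (φ z) ⟨z, thickening_subset_cthickening _ _ hz, rfl⟩ (u (φ z))
      (lt_of_lt_of_le (hud _ (hdom z hz)) (min_le_left _ _))
    rw [hkl z (mem_univ _)] at h1
    exact h1) (by
    rintro z ⟨hz1, hz2⟩
    show k (u (φ z)) = z
    rw [huW _ ⟨hdom z hz1, hrW hz2⟩, hkl z (mem_univ _)])
  have hs0' : SuppIn h₀ (cthickening (r / 2) K') :=
    SuppIn.mono hs0 (thickening_subset_cthickening _ _)
  obtain ⟨h, hs, he⟩ := transport hφo h₀ hK'.cthickening (subset_univ _) hs0'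
  refine ⟨h, hs, ?_, ?_, ?_⟩
  · rintro x ⟨-, ⟨z, hz, rfl⟩ | hx⟩
    · rw [he z (mem_univ _), hi0 z hz]
    · exact hs x hx
  · rintro _ ⟨z, hz, rfl⟩
    rw [he z (mem_univ _), he0 z (thickening_mono (min_le_left _ _) _ hz)]
    exact (hkr _ (hrange z (thickening_mono (min_le_right _ _) _ hz))).2
  · intro x
    by_cases hx : x ∈ φ '' cthickening (r / 2) K'
    · obtain ⟨z, hz, rfl⟩ := hx
      rw [he z (mem_univ _)]
      exact hφu z hz _ (hd0 z)
    · rw [hs x hx, dist_self]
      exact hε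

end Pool.Agent.H75.Mfd
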