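import Pool.Agent.H75.Mfd.Basic

set_option autoImplicit false

namespace Pool.Agent.H75.Mfd

open Set Topology Metric Filter

/-- The relative extension property of the compact set `K`. -/
def TR {M : Type*} [MetricSpace M] (K : Set M) : Prop :=
  ∀ U : Set M, IsOpen U → K ⊆ U → ∀ A W : Set M, IsCompact A → IsOpen W → A ⊆ W →
    ∃ V' W' Q : Set M, IsOpen V' ∧ K ⊆ V' ∧ V' ⊆ U ∧ IsOpen W' ∧ A ⊆ W' ∧ W' ⊆ W ∧
      IsCompact Q ∧ Q ⊆ U ∧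
      ∀ ε > 0, ∃ δ > 0, ∀ u : M → M, OE u U → (∀ x ∈ U, dist (u x) x < δ) →
        (∀ x ∈ U ∩ W, u x = x) →
        ∃ h : M ≃ₜ M, SuppIn h Q ∧ (∀ x ∈ W', h x = x) ∧ (∀ x ∈ V', h x = u x) ∧
          (∀ x, dist (h x) x < ε)

end Pool.Agent.H75.Mfd
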