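import Pool.Agent.H75.Mfd.Theta

/-!
Module UNW. Existence of the unwrapping maps, by induction on m:
P_0 (q, t) = (fun _ => t), P_{m+1} (q, t) = theta m (P_m (Fin.tail q, t), q 0).
-/

set_option autoImplicit false

namespace Pool.Agent.H75.Mfd

open Set Topology Metric Filter

/-- `P` is a uniformly locally bi-Lipschitz open map near the slab `|t| ≤ 6`, bounded on it. -/
structure Unw {Q F : Type*} [MetricSpace Q] [MetricSpace F] (P : Q × ℝ → F) : Prop where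
  cont : Continuous P
  bdd : Bornology.IsBounded (P '' {a | |a.2| ≤ 6})
  uc : ∀ ε > 0, ∃ δ > 0, ∀ a b : Q × ℝ, |a.2| ≤ 6 → dist b a < δ → dist (P b) (P a) < ε
  exp : ∃ r > 0, ∃ c > 0, ∀ a b b' : Q × ℝ, |a.2| ≤ 6 → dist b a < r → dist b' a < r →
    c * dist b b' ≤ dist (P b) (P b')
  opn : ∃ r > 0, ∃ c > 0, ∀ a : Q × ℝ, |a.2| ≤ 6 → ∀ s, 0 < s → s ≤ r →
    ball (P a) (c * s) ⊆ P '' ball a s

theorem unw_zero : Unw (fun p : (Fin 0 → ℝ) × ℝ => (fun _ : Fin 1 => p.2)) := by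
  have hd : ∀ a b : (Fin 0 → ℝ) × ℝ,
      dist (fun _ : Fin 1 => a.2) (fun _ : Fin 1 => b.2) = dist a b := by
    intro a b
    have h1 : a.1 = b.1 := Subsingleton.elim _ _
    have h2 : dist (fun _ : Fin 1 => a.2) (fun _ : Fin 1 => b.2) = dist a.2 b.2 :=
      dist_pi_const a.2 b.2
    rw [h2, Prod.dist_eq, h1, dist_self, max_eq_right dist_nonneg]
  refine ⟨by fun_prop, ?_, ?_, ?_, ?_⟩
  · refine (isBounded_iff_forall_norm_le).2 ⟨6, ?_⟩
    rintro _ ⟨a, ha, rfl⟩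
    rw [pi_norm_le_iff_of_nonneg (by norm_num)]
    intro i
    exact ha
  · intro ε hε
    refine ⟨ε, hε, fun a b _ hab => ?_⟩
    rw [hd]
    exact hab
  · refine ⟨1, one_pos, 1, one_pos, fun a b b' _ _ _ => ?_⟩
    rw [hd, one_mul]
  · refine ⟨1, one_pos, 1, one_pos, fun a _ s hs _ w hw => ?_⟩
    rw [one_mul, mem_ball] at hw
    have h1 : w = (fun _ : Fin 1 => w 0) := by
      funext i
      rw [Subsingleton.elim i 0]
    refine ⟨(a.1, w 0), ?_, h1.symm⟩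
    rw [mem_ball, ← hd]
    rwa [h1] at hw

/-- the inner part `(q, t) ↦ (P (tail q, t), q 0)` of the induction step -/
def innr {m : ℕ} (P : (Fin m → ℝ) × ℝ → (Fin (m + 1) → ℝ)) (p : (Fin (m + 1) → ℝ) × ℝ) :
    (Fin (m + 1) → ℝ) × ℝ := (P (Fin.tail p.1, p.2), p.1 0)

theorem dist_tail_le {m : ℕ} (a b : (Fin (m + 1) → ℝ) × ℝ) :
    dist ((Fin.tail a.1, a.2) : (Fin m → ℝ) × ℝ) (Fin.tail b.1, b.2) ≤ dist a b := by
  rw [Prod.dist_eq, Prod.dist_eq]
  refine max_le_max ?_ le_rfl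
  rw [dist_pi_le_iff dist_nonneg]
  intro i
  exact dist_le_pi_dist a.1 b.1 i.succ

theorem dist_zero_le {m : ℕ} (a b : (Fin (m + 1) → ℝ) × ℝ) :
    dist (a.1 0) (b.1 0) ≤ dist a b :=
  (dist_le_pi_dist a.1 b.1 0).trans (le_max_left _ _)

theorem dist_le_tail {m : ℕ} (a b : (Fin (m + 1) → ℝ) × ℝ) :
    dist a b ≤ max (dist ((Fin.tail a.1, a.2) : (Fin m → ℝ) × ℝ) (Fin.tail b.1, b.2))
      (dist (a.1 0) (b.1 0)) := by
  rw [Prod.dist_eq (x := a)]
  apply max_le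
  · have h0 : 0 ≤ max (dist ((Fin.tail a.1, a.2) : (Fin m → ℝ) × ℝ) (Fin.tail b.1, b.2))
      (dist (a.1 0) (b.1 0)) := dist_nonneg.trans (le_max_right _ _)
    rw [dist_pi_le_iff h0]
    intro i
    refine Fin.cases (le_max_right _ _) (fun j => ?_) i
    refine le_trans ?_ (le_max_left _ _)
    refine le_trans ?_ (le_max_left _ _)
    exact dist_le_pi_dist (Fin.tail a.1) (Fin.tail b.1) j
  · refine le_trans ?_ (le_max_left _ _)
    exact le_max_right _ _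

theorem unw_succ {m : ℕ} (P : (Fin m → ℝ) × ℝ → (Fin (m + 1) → ℝ)) (hP : Unw P) :
    Unw (fun p : (Fin (m + 1) → ℝ) × ℝ => theta m (innr P p)) := by
  have hbd : ∃ B : ℝ, ∀ a : (Fin (m + 1) → ℝ) × ℝ, |a.2| ≤ 6 → ‖(innr P a).1‖ ≤ B := by
    obtain ⟨B, hB⟩ := (isBounded_iff_forall_norm_le).1 hP.bdd
    exact ⟨B, fun a ha => hB _ ⟨_, ha, rfl⟩⟩
  obtain ⟨B, hB⟩ := hbd
  -- uniform continuity of the inner map
  have hiuc : ∀ ε > 0, ∃ δ > 0, ∀ a b : (Fin (m + 1) → ℝ) × ℝ, |a.2| ≤ 6 → dist b a < δ →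
      dist (innr P b) (innr P a) < ε := by
    intro ε hε
    obtain ⟨δ, hδ, h⟩ := hP.uc ε hε
    refine ⟨min δ ε, lt_min hδ hε, fun a b ha hab => ?_⟩
    have h1 := h (Fin.tail a.1, a.2) (Fin.tail b.1, b.2) ha
      ((dist_tail_le b a).trans_lt (hab.trans_le (min_le_left _ _)))
    have h2 := (dist_zero_le b a).trans_lt (hab.trans_le (min_le_right _ _))
    exact max_lt h1 h2
  refine ⟨?_, ?_, ?_, ?_, ?_⟩
  · refine (theta_cont m).comp ?_
    unfold innr
    refine Continuous.prodMk (hP.cont.comp ?_) (by fun_prop)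
    refine Continuous.prodMk ?_ (by fun_prop)
    unfold Fin.tail
    fun_prop
  · obtain ⟨B', hB'⟩ := theta_bdd m B
    refine (isBounded_iff_forall_norm_le).2 ⟨B', ?_⟩
    rintro _ ⟨a, ha, rfl⟩
    exact hB' _ (hB a ha)
  · intro ε hε
    obtain ⟨δ, hδ, h⟩ := theta_uc m B ε hε
    obtain ⟨δ', hδ', h'⟩ := hiuc δ hδ
    exact ⟨δ', hδ', fun a b ha hab => h _ _ (hB a ha) (h' a b ha hab)⟩
  · obtain ⟨r, hr, c, hc, h⟩ := theta_exp m B
    obtain ⟨r', hr', h'⟩ := hiuc r hr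
    obtain ⟨r1, hr1, c1, hc1, h1⟩ := hP.exp
    refine ⟨min r' r1, lt_min hr' hr1, c * min 1 c1, by positivity, fun a b b' ha hb hb' => ?_⟩
    have e1 := h _ _ _ (hB a ha) (h' a b ha (hb.trans_le (min_le_left _ _)))
      (h' a b' ha (hb'.trans_le (min_le_left _ _)))
    refine le_trans ?_ e1
    rw [mul_assoc]
    refine mul_le_mul_of_nonneg_left ?_ hc.le
    have e2 := h1 (Fin.tail a.1, a.2) (Fin.tail b.1, b.2) (Fin.tail b'.1, b'.2) ha
      ((dist_tail_le b a).trans_lt (hb.trans_le (min_le_right _ _)))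
      ((dist_tail_le b' a).trans_lt (hb'.trans_le (min_le_right _ _)))
    have e3 := dist_le_tail b b'
    have hm0 : 0 < min 1 c1 := lt_min one_pos hc1
    refine (mul_le_mul_of_nonneg_left e3 hm0.le).trans ?_
    rw [mul_max_of_nonneg _ _ hm0.le]
    refine max_le_max ?_ ?_
    · refine le_trans ?_ e2
      exact mul_le_mul_of_nonneg_right (min_le_right _ _) dist_nonneg
    · calc min 1 c1 * dist (b.1 0) (b'.1 0) ≤ 1 * dist (b.1 0) (b'.1 0) :=
            mul_le_mul_of_nonneg_right (min_le_left _ _) dist_nonneg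
        _ = dist (b.1 0) (b'.1 0) := one_mul _
  · obtain ⟨r, hr, c, hc, h⟩ := theta_opn m B
    obtain ⟨r1, hr1, c1, hc1, h1⟩ := hP.opn
    have hm0 : 0 < min 1 c1 := lt_min one_pos hc1
    refine ⟨min r r1, lt_min hr hr1, c * min 1 c1, by positivity, fun a ha s hs hsr => ?_⟩
    have hs1 : min 1 c1 * s ≤ s := by
      calc min 1 c1 * s ≤ 1 * s := mul_le_mul_of_nonneg_right (min_le_left _ _) hs.le
        _ = s := one_mul s
    have hs2 : min 1 c1 * s ≤ c1 * s := mul_le_mul_of_nonneg_right (min_le_right _ _) hs.le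
    have e1 := h (innr P a) (hB a ha) (min 1 c1 * s) (by positivity)
      (hs1.trans (hsr.trans (min_le_left _ _)))
    rw [← mul_assoc] at e1
    intro w hw
    obtain ⟨y, hy, hyw⟩ := e1 hw
    rw [mem_ball, Prod.dist_eq, max_lt_iff] at hy
    have e2 := h1 (Fin.tail a.1, a.2) ha s hs (hsr.trans (min_le_right _ _))
    have hy1 : y.1 ∈ ball (P (Fin.tail a.1, a.2)) (c1 * s) := by
      rw [mem_ball]
      exact hy.1.trans_le hs2
    obtain ⟨⟨q, t⟩, hq, hqy⟩ := e2 hy1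
    refine ⟨(Fin.cons y.2 q, t), ?_, ?_⟩
    · rw [mem_ball]
      refine (dist_le_tail _ _).trans_lt (max_lt ?_ ?_)
      · simpa using hq
      · exact hy.2.trans_le hs1
    · have h3 : innr P (Fin.cons y.2 q, t) = y := by
        simp only [innr, Fin.tail_cons, Fin.cons_zero, hqy]
      show theta m (innr P (Fin.cons y.2 q, t)) = w
      rw [h3, hyw]

theorem exists_unw (m : ℕ) : ∃ P : (Fin m → ℝ) × ℝ → (Fin (m + 1) → ℝ), Unw P := by
  induction m with
  | zero => exact ⟨_, unw_zero⟩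
  | succ m ih =>
    obtain ⟨P, hP⟩ := ih
    exact ⟨_, unw_succ P hP⟩

end Pool.Agent.H75.Mfd
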