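import Pool.Agent.H75.Mfd.SystemDefs

set_option autoImplicit false

namespace Pool.Agent.H75.Mfd

open Set Topology Metric Filter

variable {n : ℕ} {M : Type} [MetricSpace M]

/-- the action of `u i j k` on `D` -/
def Sys.uD (S : Sys n M) (i j k : ℕ) (z : S.D) : S.D := ⟨S.u i j k z, S.D_u i j k z z.2⟩

/-- `w` codes an exhausting system of pieces of the completion of the metric `η`. -/
structure Valid (S : Sys n M) (c : ℕ → ℕ × ℕ) (w : ℕ → S.D → ℕ → ℝ) (η : ℕ → ℕ → ℝ) : Prop where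
  m0 : ∀ a, η a a = 0
  m1 : ∀ a b, a ≠ b → 0 < η a b
  m2 : ∀ a b, η a b = η b a
  m3 : ∀ a b d, η a d ≤ η a b + η b d
  good : ∀ m, S.good (c m).1 (c (m + 1)).1 (c m).2
  pt1 : ∀ m (z : S.D), (z : M) ∈ S.K (c m).1 → ∀ a b, w m z a ≤ η a b + w m z b
  pt2 : ∀ m (z : S.D), (z : M) ∈ S.K (c m).1 → ∀ a b, η a b ≤ w m z a + w m z b
  pt3 : ∀ m (z : S.D), (z : M) ∈ S.K (c m).1 → ∀ k : ℕ, ∃ b, w m z b < 1 / ((k : ℝ) + 1)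
  uc : ∀ m (k : ℕ), ∃ l : ℕ, ∀ z z' : S.D, (z : M) ∈ S.K (c m).1 → (z' : M) ∈ S.K (c m).1 →
    dist (z : M) z' < 1 / ((l : ℝ) + 1) →
    ∃ b, w m z b < 1 / ((k : ℝ) + 1) ∧ w m z' b < 1 / ((k : ℝ) + 1)
  inj : ∀ m (k : ℕ), ∃ l : ℕ, ∀ z z' : S.D, (z : M) ∈ S.K (c m).1 → (z' : M) ∈ S.K (c m).1 →
    1 / ((k : ℝ) + 1) ≤ dist (z : M) z' → ∀ b, 1 / ((l : ℝ) + 1) ≤ w m z b + w m z' b
  comp : ∀ m (z : S.D), (z : M) ∈ S.K (c m).1 → ∀ b,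
    w (m + 1) (S.uD (c m).1 (c (m + 1)).1 (c m).2 z) b = w m z b
  opn : ∀ m, ∃ l : ℕ, ∀ b, (∃ z : S.D, (z : M) ∈ S.K (c m).1 ∧ w m z b < 1 / ((l : ℝ) + 1)) →
    ∀ k : ℕ, ∃ z : S.D, (z : M) ∈ S.K (c (m + 1)).1 ∧ w (m + 1) z b < 1 / ((k : ℝ) + 1)
  exh : ∀ b q : ℕ, (∀ k : ℕ, ∃ F : Finset ℕ, ∀ b', η b b' < 1 / ((q : ℝ) + 1) →
      ∃ a ∈ F, η a b' < 1 / ((k : ℝ) + 1)) →
    ∃ m, ∀ b', η b b' < 1 / ((q : ℝ) + 1) →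
      ∀ k : ℕ, ∃ z : S.D, (z : M) ∈ S.K (c m).1 ∧ w m z b' < 1 / ((k : ℝ) + 1)

end Pool.Agent.H75.Mfd
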